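import Mathlib
import Pool.Agent.TH705.SM.Dens
import Pool.Agent.TH705.SM.Torus

/-!
# The standard map: the coding of an orbit is close to an independent sequence

Smooth version, on horizontal lines.
-/

set_option autoImplicit false

open Real MeasureTheory Function

namespace Run7.h408.SM

open Pool.Agent.TH705.SM

/-- A smooth partition of unity on the circle, with a bound `ρ` for the sum of the derivatives. -/
structure Part (N : ℕ) (φ φ' : Fin N → ℝ → ℝ) (c : Fin N → ℝ) (ρ : ℝ → ℝ) : Prop where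
  der : ∀ i x, HasDerivAt (φ i) (φ' i x) x
  cont : ∀ i, Continuous (φ' i)
  per : ∀ i, Periodic (φ i) 1
  nn : ∀ i x, 0 ≤ φ i x
  sum : ∀ x, ∑ i, φ i x = 1
  int : ∀ i, ∫ x in (0:ℝ)..1, φ i x = c i
  ρc : Continuous ρ
  ρp : Periodic ρ 1
  le : ∀ x, ∑ i, |φ' i x| ≤ ρ x

variable {N : ℕ} {φ φ' : Fin N → ℝ → ℝ} {c : Fin N → ℝ} {ρ : ℝ → ℝ}

theorem Part.φc (h : Part N φ φ' c ρ) (i : Fin N) : Continuous (φ i) :=
  continuous_iff_continuousAt.2 fun t => (h.der i t).continuousAt

theorem Part.cnn (h : Part N φ φ' c ρ) (i : Fin N) : 0 ≤ c i := by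
  rw [← h.int i]
  exact intervalIntegral.integral_nonneg zero_le_one fun x _ => h.nn i x

theorem Part.csum (h : Part N φ φ' c ρ) : ∑ i, c i = 1 := by
  have h1 : ∑ i, ∫ x in (0:ℝ)..1, φ i x = ∫ x in (0:ℝ)..1, ∑ i, φ i x :=
    (intervalIntegral.integral_finsetSum fun i _ => (h.φc i).intervalIntegrable 0 1).symm
  simp only [h.int, h.sum] at h1
  rw [h1]
  simp

theorem Part.ρnn (h : Part N φ φ' c ρ) (x : ℝ) : 0 ≤ ρ x :=
  (Finset.sum_nonneg fun i _ => abs_nonneg _).trans (h.le x)

/-- the function of the coded orbit -/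
noncomputable def PP (φ : Fin N → ℝ → ℝ) (a s : ℝ) (n : ℕ) (Φ : (Fin n → Fin N) → ℝ) (t : ℝ) : ℝ :=
  ∑ w, Φ w * ∏ k : Fin n, φ (w k) (X a s (k + 1) t)

/-- its mean for the independent sequence -/
noncomputable def MM (c : Fin N → ℝ) (n : ℕ) (Φ : (Fin n → Fin N) → ℝ) : ℝ :=
  ∑ w, Φ w * ∏ k : Fin n, c (w k)

/-- sums over words -/
theorem sum_snoc {n : ℕ} (g : (Fin (n + 1) → Fin N) → ℝ) :
    ∑ w, g w = ∑ i : Fin N, ∑ w : Fin n → Fin N, g (Fin.snoc w i) := by
  have h := Fintype.sum_equiv (Fin.snocEquiv (fun _ : Fin (n + 1) => Fin N))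
    (fun p => g (Fin.snoc p.2 p.1)) g (fun p => rfl)
  rw [← h, Fintype.sum_prod_type]

theorem PP_succ (a s : ℝ) (n : ℕ) (Φ : (Fin (n + 1) → Fin N) → ℝ) (t : ℝ) :
    PP φ a s (n + 1) Φ t =
      ∑ i, φ i (X a s (n + 1) t) * PP φ a s n (fun w => Φ (Fin.snoc w i)) t := by
  unfold PP
  rw [sum_snoc]
  refine Finset.sum_congr rfl fun i _ => ?_
  rw [Finset.mul_sum]
  refine Finset.sum_congr rfl fun w _ => ?_
  rw [Fin.prod_univ_castSucc]
  simp only [Fin.snoc_castSucc, Fin.snoc_last, Fin.val_castSucc, Fin.val_last]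
  ring

theorem MM_succ (n : ℕ) (Φ : (Fin (n + 1) → Fin N) → ℝ) :
    MM c (n + 1) Φ = MM c n (fun w => ∑ i, c i * Φ (Fin.snoc w i)) := by
  unfold MM
  rw [sum_snoc, Finset.sum_comm]
  refine Finset.sum_congr rfl fun w _ => ?_
  rw [Finset.sum_mul]
  refine Finset.sum_congr rfl fun i _ => ?_
  rw [Fin.prod_univ_castSucc]
  simp only [Fin.snoc_castSucc, Fin.snoc_last]
  ring

theorem PP_mean (a s : ℝ) (n : ℕ) (Φ : (Fin (n + 1) → Fin N) → ℝ) (t : ℝ) :
    PP φ a s n (fun w => ∑ i, c i * Φ (Fin.snoc w i)) t =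
      ∑ i, c i * PP φ a s n (fun w => Φ (Fin.snoc w i)) t := by
  unfold PP
  simp only [Finset.mul_sum, Finset.sum_mul]
  rw [Finset.sum_comm]
  refine Finset.sum_congr rfl fun i _ => Finset.sum_congr rfl fun w _ => ?_
  ring

theorem PP_le (h : Part N φ φ' c ρ) (a s : ℝ) (n : ℕ) {Φ : (Fin n → Fin N) → ℝ}
    (hΦ : ∀ w, |Φ w| ≤ 1) (t : ℝ) : |PP φ a s n Φ t| ≤ 1 := by
  induction n with
  | zero =>
    unfold PP
    simp only [Finset.univ_unique, Finset.sum_singleton, Finset.univ_eq_empty,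
      Finset.prod_empty, mul_one]
    exact hΦ _
  | succ n ih =>
    rw [PP_succ]
    refine (Finset.abs_sum_le_sum_abs _ _).trans ?_
    rw [← h.sum (X a s (n + 1) t)]
    refine Finset.sum_le_sum fun i _ => ?_
    rw [abs_mul, abs_of_nonneg (h.nn i _)]
    have := ih (Φ := fun w => Φ (Fin.snoc w i)) fun w => hΦ _
    calc _ ≤ φ i (X a s (n + 1) t) * 1 := mul_le_mul_of_nonneg_left this (h.nn i _)
      _ = _ := mul_one _

/-- the derivative -/
noncomputable def PQ (φ φ' : Fin N → ℝ → ℝ) (a s : ℝ) :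
    (n : ℕ) → ((Fin n → Fin N) → ℝ) → ℝ → ℝ
  | 0, _, _ => 0
  | n + 1, Φ, t => ∑ i, (φ' i (X a s (n + 1) t) * D a s (n + 1) t *
      PP φ a s n (fun w => Φ (Fin.snoc w i)) t +
      φ i (X a s (n + 1) t) * PQ φ φ' a s n (fun w => Φ (Fin.snoc w i)) t)

theorem PP_hasDeriv (h : Part N φ φ' c ρ) (a s : ℝ) (n : ℕ) (Φ : (Fin n → Fin N) → ℝ) (t : ℝ) :
    HasDerivAt (PP φ a s n Φ) (PQ φ φ' a s n Φ t) t := by
  induction n with
  | zero =>
    have : PP φ a s 0 Φ = fun _ => Φ default := by
      funext t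
      unfold PP
      simp
    rw [this]
    exact hasDerivAt_const t _
  | succ n ih =>
    have e : PP φ a s (n + 1) Φ = fun t => ∑ i, φ i (X a s (n + 1) t) *
        PP φ a s n (fun w => Φ (Fin.snoc w i)) t := by
      funext t
      exact PP_succ a s n Φ t
    rw [e]
    show HasDerivAt _ (∑ i, (φ' i (X a s (n + 1) t) * D a s (n + 1) t *
      PP φ a s n (fun w => Φ (Fin.snoc w i)) t +
      φ i (X a s (n + 1) t) * PQ φ φ' a s n (fun w => Φ (Fin.snoc w i)) t)) t
    refine HasDerivAt.fun_sum fun i _ => ?_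
    exact ((h.der i _).comp t (X_hasDeriv a s (n + 1) t)).mul (ih _)

theorem PP_cont (h : Part N φ φ' c ρ) (a s : ℝ) (n : ℕ) (Φ : (Fin n → Fin N) → ℝ) :
    Continuous (PP φ a s n Φ) :=
  continuous_iff_continuousAt.2 fun t => (PP_hasDeriv h a s n Φ t).continuousAt

theorem PQ_cont (h : Part N φ φ' c ρ) (a s : ℝ) (n : ℕ) (Φ : (Fin n → Fin N) → ℝ) :
    Continuous (PQ φ φ' a s n Φ) := by
  induction n with
  | zero => exact continuous_const
  | succ n ih =>
    have h1 := Xt_cont a s (n + 1)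
    have h2 := D_cont a s (n + 1)
    refine continuous_finsetSum _ fun i _ => ?_
    exact ((((h.cont i).comp h1).mul h2).mul (PP_cont h a s n _)).add
      (((h.φc i).comp h1).mul (ih _))

theorem PP_period (h : Part N φ φ' c ρ) (a s : ℝ) (n : ℕ) (Φ : (Fin n → Fin N) → ℝ) (t : ℝ) :
    PP φ a s n Φ (t + 1) = PP φ a s n Φ t := by
  unfold PP
  refine Finset.sum_congr rfl fun w _ => ?_
  congr 1
  refine Finset.prod_congr rfl fun k _ => ?_
  rw [X_period]
  have := (h.per (w k)).nat_mul (k + 1) (X a s (k + 1) t)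
  rwa [mul_one] at this

/-- the size of the derivative -/
noncomputable def SS (ρ : ℝ → ℝ) (a s : ℝ) : ℕ → ℝ → ℝ
  | 0, _ => 0
  | n + 1, t => SS ρ a s n t + ρ (X a s (n + 1) t) * |D a s (n + 1) t|

theorem PQ_le (h : Part N φ φ' c ρ) (a s : ℝ) (n : ℕ) {Φ : (Fin n → Fin N) → ℝ}
    (hΦ : ∀ w, |Φ w| ≤ 1) (t : ℝ) : |PQ φ φ' a s n Φ t| ≤ SS ρ a s n t := by
  induction n with
  | zero => simp [PQ, SS]
  | succ n ih =>
    show |∑ i, (φ' i (X a s (n + 1) t) * D a s (n + 1) t *
      PP φ a s n (fun w => Φ (Fin.snoc w i)) t +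
      φ i (X a s (n + 1) t) * PQ φ φ' a s n (fun w => Φ (Fin.snoc w i)) t)| ≤
      SS ρ a s n t + ρ (X a s (n + 1) t) * |D a s (n + 1) t|
    set x := X a s (n + 1) t with hx
    set d := D a s (n + 1) t with hd
    have h1 : ∀ i, |φ' i x * d * PP φ a s n (fun w => Φ (Fin.snoc w i)) t +
        φ i x * PQ φ φ' a s n (fun w => Φ (Fin.snoc w i)) t| ≤
        |φ' i x| * |d| + φ i x * SS ρ a s n t := by
      intro i
      refine (abs_add_le _ _).trans (add_le_add ?_ ?_)
      · rw [abs_mul, abs_mul]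
        have := PP_le h a s n (Φ := fun w => Φ (Fin.snoc w i)) (fun w => hΦ _) t
        calc _ ≤ |φ' i x| * |d| * 1 := mul_le_mul_of_nonneg_left this (by positivity)
          _ = _ := mul_one _
      · rw [abs_mul, abs_of_nonneg (h.nn i x)]
        exact mul_le_mul_of_nonneg_left (ih (fun w => hΦ _)) (h.nn i x)
    refine (Finset.abs_sum_le_sum_abs _ _).trans ((Finset.sum_le_sum fun i _ => h1 i).trans ?_)
    rw [Finset.sum_add_distrib, ← Finset.sum_mul, ← Finset.sum_mul, h.sum, one_mul, add_comm]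
    have := mul_le_mul_of_nonneg_right (h.le x) (abs_nonneg d)
    linarith

theorem SS_nonneg (h : Part N φ φ' c ρ) (a s : ℝ) (n : ℕ) (t : ℝ) : 0 ≤ SS ρ a s n t := by
  induction n with
  | zero => exact le_rfl
  | succ n ih =>
    show 0 ≤ SS ρ a s n t + ρ (X a s (n + 1) t) * |D a s (n + 1) t|
    have := h.ρnn (X a s (n + 1) t)
    positivity

/-- the relative size of the derivative -/
noncomputable def TT (ρ : ℝ → ℝ) (a l s : ℝ) : ℕ → ℝ → ℝ
  | 0, _ => 0
  | n + 1, t => TT ρ a l s n t / 8 + chi a l s n t * ρ (X a s (n + 1) t)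

theorem TT_nonneg (h : Part N φ φ' c ρ) (a l s : ℝ) (n : ℕ) (t : ℝ) : 0 ≤ TT ρ a l s n t := by
  induction n with
  | zero => exact le_rfl
  | succ n ih =>
    show 0 ≤ TT ρ a l s n t / 8 + chi a l s n t * ρ (X a s (n + 1) t)
    have := h.ρnn (X a s (n + 1) t)
    have := (chi_mem a l s n t).1
    positivity

theorem TT_cont (h : Part N φ φ' c ρ) (a l s : ℝ) (n : ℕ) : Continuous (TT ρ a l s n) := by
  induction n with
  | zero => exact continuous_const
  | succ n ih =>
    exact (ih.div_const 8).add ((chi_cont a l s n).mul (h.ρc.comp (Xt_cont a s (n + 1))))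

theorem TT_int (h : Part N φ φ' c ρ) {a l : ℝ} (hl : l0 ≤ l) (hla : l ≤ |a|) (s : ℝ) (n : ℕ) :
    ∫ t in (0:ℝ)..1, TT ρ a l s n t ≤ 3 * ∫ x in (0:ℝ)..1, ρ x := by
  have h0 : 0 ≤ ∫ x in (0:ℝ)..1, ρ x :=
    intervalIntegral.integral_nonneg zero_le_one fun x _ => h.ρnn x
  induction n with
  | zero =>
    show ∫ t in (0:ℝ)..1, (0:ℝ) ≤ _
    simp only [intervalIntegral.integral_zero]
    positivity
  | succ n ih =>
    have h1 := dens hl hla s n h.ρc h.ρp h.ρnn
    have h2 : ∫ t in (0:ℝ)..1, TT ρ a l s (n + 1) t =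
        (∫ t in (0:ℝ)..1, TT ρ a l s n t) / 8 +
          ∫ t in (0:ℝ)..1, chi a l s n t * ρ (X a s (n + 1) t) := by
      rw [← intervalIntegral.integral_div, ← intervalIntegral.integral_add]
      · rfl
      · exact ((TT_cont h a l s n).div_const 8).intervalIntegrable 0 1
      · exact ((chi_cont a l s n).mul (h.ρc.comp (Xt_cont a s (n + 1)))).intervalIntegrable 0 1
    rw [h2]
    linarith

theorem chi_SS (h : Part N φ φ' c ρ) {a l s : ℝ} (hl : 16 ≤ l) (n : ℕ) (t : ℝ) :
    chi a l s n t * SS ρ a s n t / |D a s (n + 1) t| ≤ 2 / l * TT ρ a l s n t := by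
  have hl0 : 0 < l := by linarith
  have hl8 : 2 / l ≤ 1 / 8 := by
    rw [div_le_div_iff₀ hl0 (by norm_num)]
    linarith
  induction n with
  | zero => simp [SS, TT]
  | succ n ih =>
    have hT := TT_nonneg h a l s n t
    have hc := chi_mem a l s n t
    have hρ := h.ρnn (X a s (n + 1) t)
    by_cases hg : Good a l s (n + 1) t
    · have hD := D_ne hl hg
      have hD0 : 0 < |D a s (n + 1 + 1) t| := abs_pos.2 hD
      have hD' := D_ne hl (hg.mono (Nat.le_succ n))
      have hD0' : 0 < |D a s (n + 1) t| := abs_pos.2 hD'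
      have h1 := (growth hl hg (n + 1) le_rfl).1
      have hcs := chi_succ_le a l s n t
      have hc1 := (chi_mem a l s (n + 1) t).1
      have hS := SS_nonneg h a s n t
      show chi a l s (n + 1) t * (SS ρ a s n t + ρ (X a s (n + 1) t) * |D a s (n + 1) t|) /
        |D a s (n + 1 + 1) t| ≤ 2 / l * (TT ρ a l s n t / 8 + chi a l s n t * ρ (X a s (n + 1) t))
      rw [div_le_iff₀ hD0]
      have h2 : |D a s (n + 1) t| ≤ 2 / l * |D a s (n + 1 + 1) t| := by
        rw [div_mul_eq_mul_div, le_div_iff₀ hl0]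
        linarith
      rw [div_le_iff₀ hD0'] at ih
      have h3 : chi a l s (n + 1) t * SS ρ a s n t ≤ chi a l s n t * SS ρ a s n t :=
        mul_le_mul_of_nonneg_right hcs hS
      have h4 : chi a l s (n + 1) t * (ρ (X a s (n + 1) t) * |D a s (n + 1) t|) ≤
          chi a l s n t * (ρ (X a s (n + 1) t) * |D a s (n + 1) t|) :=
        mul_le_mul_of_nonneg_right hcs (by positivity)
      have h5 : 2 / l * TT ρ a l s n t ≤ TT ρ a l s n t / 8 := by
        have := mul_le_mul_of_nonneg_right hl8 hT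
        linarith
      calc chi a l s (n + 1) t * (SS ρ a s n t + ρ (X a s (n + 1) t) * |D a s (n + 1) t|)
          ≤ 2 / l * TT ρ a l s n t * |D a s (n + 1) t| +
            chi a l s n t * ρ (X a s (n + 1) t) * |D a s (n + 1) t| := by
            rw [mul_add]
            linarith
        _ = (2 / l * TT ρ a l s n t + chi a l s n t * ρ (X a s (n + 1) t)) *
            |D a s (n + 1) t| := by ring
        _ ≤ (TT ρ a l s n t / 8 + chi a l s n t * ρ (X a s (n + 1) t)) *
            |D a s (n + 1) t| := by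
            apply mul_le_mul_of_nonneg_right _ (abs_nonneg _)
            linarith
        _ ≤ (TT ρ a l s n t / 8 + chi a l s n t * ρ (X a s (n + 1) t)) *
            (2 / l * |D a s (n + 1 + 1) t|) := by
            apply mul_le_mul_of_nonneg_left h2
            have := hc.1
            positivity
        _ = _ := by ring
    · rw [(chi_bad hl0 hg).1, zero_mul, zero_div]
      have := TT_nonneg h a l s (n + 1) t
      positivity

/-- centred primitives -/
theorem prim_i (h : Part N φ φ' c ρ) (i : Fin N) :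
    ∃ G : ℝ → ℝ, (∀ u, HasDerivAt G (φ i u - c i) u) ∧ Periodic G 1 ∧ ∀ u, |G u| ≤ c i := by
  have hc := h.φc i
  have hcn := h.cnn i
  have hper : Periodic (fun u => (∫ x in (0:ℝ)..u, φ i x) - c i * u) 1 := by
    intro u
    simp only
    have h1 : ∫ x in (0:ℝ)..(u + 1), φ i x = (∫ x in (0:ℝ)..u, φ i x) + ∫ x in u..(u + 1), φ i x :=
      (intervalIntegral.integral_add_adjacent_intervals (hc.intervalIntegrable _ _)
        (hc.intervalIntegrable _ _)).symm
    have h2 := (h.per i).intervalIntegral_add_eq u 0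
    rw [zero_add, h.int i] at h2
    rw [h1, h2]
    ring
  refine ⟨fun u => (∫ x in (0:ℝ)..u, φ i x) - c i * u, ?_, hper, ?_⟩
  · intro u
    have h1 := intervalIntegral.integral_hasDerivAt_right (hc.intervalIntegrable 0 u)
      (hc.stronglyMeasurableAtFilter _ _) hc.continuousAt
    have h2 := (hasDerivAt_id u).const_mul (c i)
    rw [mul_one] at h2
    exact h1.sub h2
  · intro u
    obtain ⟨y, hy, hy2⟩ := hper.exists_mem_Ico₀ one_pos u
    have hy2 : (∫ x in (0:ℝ)..u, φ i x) - c i * u = (∫ x in (0:ℝ)..y, φ i x) - c i * y := hy2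
    show |(∫ x in (0:ℝ)..u, φ i x) - c i * u| ≤ c i
    rw [hy2]
    have h1 : 0 ≤ ∫ x in (0:ℝ)..y, φ i x :=
      intervalIntegral.integral_nonneg hy.1 fun x _ => h.nn i x
    have h2 : 0 ≤ ∫ x in y..1, φ i x :=
      intervalIntegral.integral_nonneg hy.2.le fun x _ => h.nn i x
    have h3 : (∫ x in (0:ℝ)..y, φ i x) + ∫ x in y..1, φ i x = c i := by
      rw [intervalIntegral.integral_add_adjacent_intervals (hc.intervalIntegrable _ _)
        (hc.intervalIntegrable _ _), h.int i]
    have h4 : 0 ≤ c i * y := mul_nonneg hcn hy.1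
    have h5 : c i * y ≤ c i := by
      have := mul_le_mul_of_nonneg_left hy.2.le hcn
      linarith
    rw [abs_le]
    constructor <;> linarith

/-- one step -/
theorem step (h : Part N φ φ' c ρ) {a l : ℝ} (hl : l0 ≤ l) (hla : l ≤ |a|) (s : ℝ) (n : ℕ)
    {Φ : (Fin n → Fin N) → ℝ} (hΦ : ∀ w, |Φ w| ≤ 1) (i : Fin N) :
    |∫ t in (0:ℝ)..1, chi a l s n t * PP φ a s n Φ t * (φ i (X a s (n + 1) t) - c i)| ≤
      c i * ((104 * KK * π ^ 2 + 6 * ∫ x in (0:ℝ)..1, ρ x) / l) := by
  have hl16 : 16 ≤ l := l0_ge.trans hl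
  have hl0' : 0 < l := by linarith
  have hK := KK_one
  obtain ⟨G, hG, hGp, hG1⟩ := prim_i h i
  have hVc := VV_cont a hl0' s n
  have hTc := TT_cont h a l s n
  have hbdc : Continuous (fun t => 104 * KK * π ^ 2 * VV a l s n t + 2 / l * TT ρ a l s n t) := by
    fun_prop
  have h1 := ibp2 (a := a) (s := s) hl16 n (PP_hasDeriv h a s n Φ) (PQ_cont h a s n Φ)
    (PP_period h a s n Φ)
    (bd := fun t => 104 * KK * π ^ 2 * VV a l s n t + 2 / l * TT ρ a l s n t) hbdc
    (fun t => by
      refine (W'_le2 hl16 n (PP_le h a s n hΦ t)).trans (add_le_add le_rfl ?_)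
      refine le_trans ?_ (chi_SS h hl16 n t)
      refine div_le_div_of_nonneg_right ?_ (abs_nonneg _)
      exact mul_le_mul_of_nonneg_left (PQ_le h a s n hΦ t) (chi_mem a l s n t).1)
    hG ((h.φc i).sub continuous_const) (fun u k => by
      have := hGp.nat_mul k u
      rwa [mul_one] at this) hG1
  refine h1.trans (mul_le_mul_of_nonneg_left ?_ (h.cnn i))
  rw [intervalIntegral.integral_add (f := fun t => 104 * KK * π ^ 2 * VV a l s n t)
    (g := fun t => 2 / l * TT ρ a l s n t) ((continuous_const.mul hVc).intervalIntegrable _ _)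
    ((continuous_const.mul hTc).intervalIntegrable _ _),
    intervalIntegral.integral_const_mul, intervalIntegral.integral_const_mul]
  have h2 := mul_le_mul_of_nonneg_left (VV_int hl hla s n) (by positivity : 0 ≤ 104 * KK * π ^ 2)
  have h3 := mul_le_mul_of_nonneg_left (TT_int h hl hla s n) (by positivity : 0 ≤ 2 / l)
  calc _ ≤ 104 * KK * π ^ 2 * (1 / l) + 2 / l * (3 * ∫ x in (0:ℝ)..1, ρ x) := add_le_add h2 h3
    _ = _ := by ring

/-- the mass of the critical strip at one time -/
theorem chi_rk {a l : ℝ} (hl : l0 ≤ l) (hla : l ≤ |a|) (s : ℝ) (n : ℕ) :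
    ∫ t in (0:ℝ)..1, chi a l s n t * (1 - rk a l s (n + 1) t) ≤ 2 * (l / |a|) := by
  have hl16 : 16 ≤ l := l0_ge.trans hl
  have hl0' : 0 < l := by linarith
  have h1 := dens hl hla s n (f := fun x => 1 - rho (L a x / l))
    (continuous_const.sub (rho_cont.comp ((L_cont a).div_const l)))
    (fun x => by
      simp only
      have := L_period a x 1
      rw [Nat.cast_one] at this
      rw [this])
    (fun x => by
      have := rho_le_one (L a x / l)
      linarith)
  have h2 := kappa_le (a := a) (by linarith) hl16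
  exact h1.trans (by linarith)

theorem mean_le (h : Part N φ φ' c ρ) {n : ℕ} {Φ : (Fin (n + 1) → Fin N) → ℝ}
    (hΦ : ∀ w, |Φ w| ≤ 1) (w : Fin n → Fin N) : |∑ i, c i * Φ (Fin.snoc w i)| ≤ 1 := by
  refine (Finset.abs_sum_le_sum_abs _ _).trans ?_
  rw [← h.csum]
  refine Finset.sum_le_sum fun i _ => ?_
  rw [abs_mul, abs_of_nonneg (h.cnn i)]
  calc _ ≤ c i * 1 := mul_le_mul_of_nonneg_left (hΦ _) (h.cnn i)
    _ = _ := mul_one _

/-- the error of a step -/
noncomputable def kap (ρ : ℝ → ℝ) (a l : ℝ) : ℝ :=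
  2 * (l / |a|) + (104 * KK * π ^ 2 + 6 * ∫ x in (0:ℝ)..1, ρ x) / l

theorem main_chi (h : Part N φ φ' c ρ) {a l : ℝ} (hl : l0 ≤ l) (hla : l ≤ |a|) (s : ℝ) (n : ℕ)
    {Φ : (Fin n → Fin N) → ℝ} (hΦ : ∀ w, |Φ w| ≤ 1) :
    |(∫ t in (0:ℝ)..1, chi a l s n t * PP φ a s n Φ t) - MM c n Φ| ≤ n * kap ρ a l := by
  induction n with
  | zero =>
    have e1 : ∀ t, chi a l s 0 t * PP φ a s 0 Φ t = Φ default := by
      intro t
      unfold PP
      simp [chi]
    have e2 : MM c 0 Φ = Φ default := by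
      unfold MM
      simp
    simp only [e1, e2]
    simp
  | succ n ih =>
    have hX := Xt_cont a s (n + 1)
    have hcc := chi_cont a l s n
    have hrc := rk_cont a l s (n + 1)
    have hPc := PP_cont h a s (n + 1) Φ
    have hPi : ∀ i, Continuous (PP φ a s n (fun w => Φ (Fin.snoc w i))) := fun i =>
      PP_cont h a s n _
    have hφi : ∀ i, Continuous (fun t => φ i (X a s (n + 1) t)) := fun i => (h.φc i).comp hX
    -- first
    have h1 : ∫ t in (0:ℝ)..1, chi a l s (n + 1) t * PP φ a s (n + 1) Φ t =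
        (∫ t in (0:ℝ)..1, chi a l s n t * PP φ a s (n + 1) Φ t) -
        ∫ t in (0:ℝ)..1, chi a l s n t * (1 - rk a l s (n + 1) t) * PP φ a s (n + 1) Φ t := by
      rw [← intervalIntegral.integral_sub (by
        apply Continuous.intervalIntegrable; fun_prop) (by
        apply Continuous.intervalIntegrable; fun_prop)]
      refine intervalIntegral.integral_congr fun t _ => ?_
      show chi a l s n t * rk a l s (n + 1) t * PP φ a s (n + 1) Φ t = _
      ring
    have h2 : |∫ t in (0:ℝ)..1, chi a l s n t * (1 - rk a l s (n + 1) t) *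
        PP φ a s (n + 1) Φ t| ≤ 2 * (l / |a|) := by
      have h3 := intervalIntegral.norm_integral_le_abs_of_norm_le (a := 0) (b := 1) (μ := volume)
        (f := fun t => chi a l s n t * (1 - rk a l s (n + 1) t) * PP φ a s (n + 1) Φ t)
        (g := fun t => chi a l s n t * (1 - rk a l s (n + 1) t))
        (Filter.Eventually.of_forall fun t => by
          rw [norm_eq_abs, abs_mul]
          have k1 := (chi_mem a l s n t).1
          have k2 : rk a l s (n + 1) t ≤ 1 := rho_le_one _
          have k3 : 0 ≤ chi a l s n t * (1 - rk a l s (n + 1) t) :=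
            mul_nonneg k1 (by linarith)
          rw [abs_of_nonneg k3]
          calc _ ≤ chi a l s n t * (1 - rk a l s (n + 1) t) * 1 :=
                mul_le_mul_of_nonneg_left (PP_le h a s (n + 1) hΦ t) k3
            _ = _ := mul_one _)
        ((hcc.mul (continuous_const.sub hrc)).intervalIntegrable 0 1)
      rw [norm_eq_abs] at h3
      refine h3.trans ?_
      rw [abs_of_nonneg]
      · exact chi_rk hl hla s n
      · refine intervalIntegral.integral_nonneg zero_le_one fun t _ => ?_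
        have k1 := (chi_mem a l s n t).1
        have k2 : rk a l s (n + 1) t ≤ 1 := rho_le_one _
        exact mul_nonneg k1 (by linarith)
    -- second
    have h4 : ∫ t in (0:ℝ)..1, chi a l s n t * PP φ a s (n + 1) Φ t =
        (∑ i, ∫ t in (0:ℝ)..1, chi a l s n t * PP φ a s n (fun w => Φ (Fin.snoc w i)) t *
          (φ i (X a s (n + 1) t) - c i)) +
        ∫ t in (0:ℝ)..1, chi a l s n t * PP φ a s n (fun w => ∑ i, c i * Φ (Fin.snoc w i)) t := by
      have hci : ∀ i, Continuous (fun t => chi a l s n t *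
          PP φ a s n (fun w => Φ (Fin.snoc w i)) t * (φ i (X a s (n + 1) t) - c i)) := fun i =>
        (hcc.mul (hPi i)).mul ((hφi i).sub continuous_const)
      rw [← intervalIntegral.integral_finsetSum (fun i _ => (hci i).intervalIntegrable 0 1)]
      rw [← intervalIntegral.integral_add
        ((continuous_finsetSum _ fun i _ => hci i).intervalIntegrable 0 1)
        (g := fun t => chi a l s n t * PP φ a s n (fun w => ∑ i, c i * Φ (Fin.snoc w i)) t)
        ((hcc.mul (PP_cont h a s n _)).intervalIntegrable 0 1)]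
      refine intervalIntegral.integral_congr fun t _ => ?_
      rw [PP_succ, PP_mean, Finset.mul_sum, Finset.mul_sum, ← Finset.sum_add_distrib]
      refine Finset.sum_congr rfl fun i _ => ?_
      ring
    have h5 : |∑ i, ∫ t in (0:ℝ)..1, chi a l s n t * PP φ a s n (fun w => Φ (Fin.snoc w i)) t *
          (φ i (X a s (n + 1) t) - c i)| ≤
        (104 * KK * π ^ 2 + 6 * ∫ x in (0:ℝ)..1, ρ x) / l := by
      refine (Finset.abs_sum_le_sum_abs _ _).trans ?_
      refine (Finset.sum_le_sum fun i _ => step h hl hla s n (fun w => hΦ _) i).trans ?_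
      rw [← Finset.sum_mul, h.csum, one_mul]
    have h6 := ih (Φ := fun w => ∑ i, c i * Φ (Fin.snoc w i)) (mean_le h hΦ)
    rw [h1, h4, MM_succ]
    push_cast
    unfold kap at h6 ⊢
    rw [abs_le] at h2 h5 h6 ⊢
    constructor <;> linarith [h2.1, h2.2, h5.1, h5.2, h6.1, h6.2]

theorem one_sub_chi_int {a l : ℝ} (hl : l0 ≤ l) (hla : l ≤ |a|) (s : ℝ) (n : ℕ) :
    ∫ t in (0:ℝ)..1, (1 - chi a l s n t) ≤ n * (2 * (l / |a|)) := by
  induction n with
  | zero =>
    have : ∀ t, 1 - chi a l s 0 t = 0 := fun t => by simp [chi]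
    simp only [this]
    simp
  | succ n ih =>
    have hcc := chi_cont a l s n
    have hrc := rk_cont a l s (n + 1)
    have h1 : ∫ t in (0:ℝ)..1, (1 - chi a l s (n + 1) t) =
        (∫ t in (0:ℝ)..1, (1 - chi a l s n t)) +
          ∫ t in (0:ℝ)..1, chi a l s n t * (1 - rk a l s (n + 1) t) := by
      rw [← intervalIntegral.integral_add (by
        apply Continuous.intervalIntegrable; fun_prop) (by
        apply Continuous.intervalIntegrable; fun_prop)]
      refine intervalIntegral.integral_congr fun t _ => ?_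
      show 1 - chi a l s n t * rk a l s (n + 1) t = _
      ring
    rw [h1]
    have := chi_rk hl hla s n
    push_cast
    linarith

/-- **the coded orbit and the independent sequence** -/
theorem main (h : Part N φ φ' c ρ) {a l : ℝ} (hl : l0 ≤ l) (hla : l ≤ |a|) (s : ℝ) (n : ℕ)
    {Φ : (Fin n → Fin N) → ℝ} (hΦ : ∀ w, |Φ w| ≤ 1) :
    |(∫ t in (0:ℝ)..1, PP φ a s n Φ t) - MM c n Φ| ≤
      n * (4 * (l / |a|) + (104 * KK * π ^ 2 + 6 * ∫ x in (0:ℝ)..1, ρ x) / l) := by
  have h1 := main_chi h hl hla s n hΦ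
  have hcc := chi_cont a l s n
  have hPc := PP_cont h a s n Φ
  have h2 : ∫ t in (0:ℝ)..1, PP φ a s n Φ t =
      (∫ t in (0:ℝ)..1, chi a l s n t * PP φ a s n Φ t) +
        ∫ t in (0:ℝ)..1, (1 - chi a l s n t) * PP φ a s n Φ t := by
    rw [← intervalIntegral.integral_add (by
      apply Continuous.intervalIntegrable; fun_prop) (by
      apply Continuous.intervalIntegrable; fun_prop)]
    refine intervalIntegral.integral_congr fun t _ => ?_
    show _ = chi a l s n t * PP φ a s n Φ t + (1 - chi a l s n t) * PP φ a s n Φ t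
    ring
  have h3 : |∫ t in (0:ℝ)..1, (1 - chi a l s n t) * PP φ a s n Φ t| ≤ n * (2 * (l / |a|)) := by
    have h4 := intervalIntegral.norm_integral_le_abs_of_norm_le (a := 0) (b := 1) (μ := volume)
      (f := fun t => (1 - chi a l s n t) * PP φ a s n Φ t)
      (g := fun t => 1 - chi a l s n t)
      (Filter.Eventually.of_forall fun t => by
        have k1 := chi_mem a l s n t
        rw [norm_eq_abs, abs_mul, abs_of_nonneg (by linarith : 0 ≤ 1 - chi a l s n t)]
        calc _ ≤ (1 - chi a l s n t) * 1 :=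
              mul_le_mul_of_nonneg_left (PP_le h a s n hΦ t) (by linarith)
          _ = _ := mul_one _)
      ((continuous_const.sub hcc).intervalIntegrable 0 1)
    rw [norm_eq_abs] at h4
    refine h4.trans ?_
    rw [abs_of_nonneg]
    · exact one_sub_chi_int hl hla s n
    · refine intervalIntegral.integral_nonneg zero_le_one fun t _ => ?_
      have k1 := chi_mem a l s n t
      linarith
  rw [h2]
  unfold kap at h1
  rw [abs_le] at h1 h3 ⊢
  constructor <;> nlinarith [h1.1, h1.2, h3.1, h3.2]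

end Run7.h408.SM
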