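import Mathlib
import Pool.Agent.Run7.h408.SMA

/-!
# Smooth approximations of the indicators of arcs
-/

set_option autoImplicit false

open Real MeasureTheory Function Filter Topology

namespace Run7.h408.SM

open Pool.Agent.TH705.SM

/-- a bump on `[0, δ]` with integral one -/
noncomputable def bump (δ u : ℝ) : ℝ := 6 / δ * max 0 (u / δ * (1 - u / δ))

/-- its periodic version -/
noncomputable def psi (δ x : ℝ) : ℝ := bump δ (Int.fract x)

/-- a primitive, a smooth version of `⌈x⌉` -/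
noncomputable def Psi (δ x : ℝ) : ℝ := ∫ u in (0:ℝ)..x, psi δ u

theorem bump_cont (δ : ℝ) : Continuous (bump δ) := by
  unfold bump
  fun_prop

theorem bump_zero {δ u : ℝ} (hδ : 0 < δ) (hu : δ ≤ u) : bump δ u = 0 := by
  unfold bump
  have h1 : 1 ≤ u / δ := by rwa [one_le_div hδ]
  have h2 : u / δ * (1 - u / δ) ≤ 0 := mul_nonpos_of_nonneg_of_nonpos (by linarith) (by linarith)
  rw [max_eq_left h2, mul_zero]

theorem psi_nonneg {δ : ℝ} (hδ : 0 < δ) (x : ℝ) : 0 ≤ psi δ x := by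
  unfold psi bump
  have := le_max_left 0 (Int.fract x / δ * (1 - Int.fract x / δ))
  positivity

theorem psi_cont {δ : ℝ} (hδ : 0 < δ) (hδ1 : δ ≤ 1) : Continuous (psi δ) := by
  have h1 : bump δ 0 = bump δ 1 := by
    rw [bump_zero hδ hδ1]
    unfold bump
    simp
  exact (bump_cont δ).continuousOn.comp_fract'' h1

theorem psi_period (δ : ℝ) : Periodic (psi δ) 1 := by
  intro x
  unfold psi
  rw [Int.fract_add_one]

theorem bump_int {δ : ℝ} (hδ : 0 < δ) : ∫ u in (0:ℝ)..δ, bump δ u = 1 := by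
  have h1 : ∫ u in (0:ℝ)..δ, bump δ u = ∫ u in (0:ℝ)..δ, 6 / δ * (u / δ * (1 - u / δ)) := by
    refine intervalIntegral.integral_congr fun u hu => ?_
    rw [Set.uIcc_of_le hδ.le] at hu
    unfold bump
    have h2 : u / δ ≤ 1 := by rw [div_le_one hδ]; exact hu.2
    have h3 : 0 ≤ u / δ := div_nonneg hu.1 hδ.le
    rw [max_eq_right (mul_nonneg h3 (by linarith))]
  have h4 : ∀ u ∈ Set.uIcc 0 δ, HasDerivAt (fun u => 3 * (u / δ) ^ 2 - 2 * (u / δ) ^ 3)
      (6 / δ * (u / δ * (1 - u / δ))) u := by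
    intro u _
    have h5 : HasDerivAt (fun u : ℝ => u / δ) (1 / δ) u := (hasDerivAt_id u).div_const δ
    have h6 := ((h5.pow 2).const_mul 3).sub ((h5.pow 3).const_mul 2)
    refine h6.congr_deriv ?_
    norm_num
    field_simp
    ring
  rw [h1, intervalIntegral.integral_eq_sub_of_hasDerivAt h4
    (Continuous.intervalIntegrable (by fun_prop) _ _)]
  field_simp
  ring

theorem Psi_of_fract {δ : ℝ} (hδ : 0 < δ) (hδ1 : δ ≤ 1) {u : ℝ} (hu : δ ≤ u) (hu1 : u ≤ 1) :
    Psi δ u = 1 := by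
  have hc := psi_cont hδ hδ1
  unfold Psi
  rw [← intervalIntegral.integral_add_adjacent_intervals (b := δ)
    (hc.intervalIntegrable _ _) (hc.intervalIntegrable _ _)]
  have h1 : ∫ x in (0:ℝ)..δ, psi δ x = 1 := by
    rw [← bump_int hδ]
    refine intervalIntegral.integral_congr_ae ?_
    have h2 : ∀ᵐ x : ℝ, x ≠ 1 := by
      simp [ae_iff]
    filter_upwards [h2] with x hx1 hx
    rw [Set.uIoc_of_le hδ.le] at hx
    unfold psi
    rw [Int.fract_eq_self.2 ⟨hx.1.le, lt_of_le_of_ne (hx.2.trans hδ1) hx1⟩]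
  have h3 : ∫ x in δ..u, psi δ x = 0 := by
    have h4 : ∫ x in δ..u, psi δ x = ∫ x in δ..u, (0 : ℝ) := by
      refine intervalIntegral.integral_congr_ae ?_
      have h2 : ∀ᵐ x : ℝ, x ≠ 1 := by
        simp [ae_iff]
      filter_upwards [h2] with x hx1 hx
      rw [Set.uIoc_of_le hu] at hx
      unfold psi
      rw [Int.fract_eq_self.2 ⟨by linarith [hx.1], lt_of_le_of_ne (hx.2.trans hu1) hx1⟩]
      exact bump_zero hδ hx.1.le
    rw [h4, intervalIntegral.integral_zero]
  rw [h1, h3, add_zero]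

theorem Psi_hasDeriv {δ : ℝ} (hδ : 0 < δ) (hδ1 : δ ≤ 1) (x : ℝ) :
    HasDerivAt (Psi δ) (psi δ x) x := by
  have hc := psi_cont hδ hδ1
  exact intervalIntegral.integral_hasDerivAt_right (hc.intervalIntegrable _ _)
    (hc.stronglyMeasurableAtFilter _ _) hc.continuousAt

theorem Psi_cont {δ : ℝ} (hδ : 0 < δ) (hδ1 : δ ≤ 1) : Continuous (Psi δ) :=
  continuous_iff_continuousAt.2 fun t => (Psi_hasDeriv hδ hδ1 t).continuousAt

theorem psi_int {δ : ℝ} (hδ : 0 < δ) (hδ1 : δ ≤ 1) : ∫ x in (0:ℝ)..1, psi δ x = 1 :=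
  Psi_of_fract hδ hδ1 hδ1 le_rfl

theorem Psi_per {δ : ℝ} (hδ : 0 < δ) (hδ1 : δ ≤ 1) : Periodic (fun x => Psi δ x - x) 1 := by
  intro x
  have hc := psi_cont hδ hδ1
  have h1 : Psi δ (x + 1) = Psi δ x + 1 := by
    unfold Psi
    have h2 : ∫ u in (0:ℝ)..(x + 1), psi δ u = (∫ u in (0:ℝ)..x, psi δ u) +
        ∫ u in x..(x + 1), psi δ u :=
      (intervalIntegral.integral_add_adjacent_intervals (hc.intervalIntegrable _ _)
        (hc.intervalIntegrable _ _)).symm
    have h3 := (psi_period δ).intervalIntegral_add_eq x 0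
    rw [zero_add, psi_int hδ hδ1] at h3
    rw [h2, h3]
  simp only
  rw [h1]
  ring

theorem Psi_mono {δ : ℝ} (hδ : 0 < δ) (hδ1 : δ ≤ 1) : Monotone (Psi δ) := by
  have h1 : Differentiable ℝ (Psi δ) := fun x => (Psi_hasDeriv hδ hδ1 x).differentiableAt
  refine monotone_of_deriv_nonneg h1 fun x => ?_
  rw [(Psi_hasDeriv hδ hδ1 x).deriv]
  exact psi_nonneg hδ x

theorem Psi_fract {δ : ℝ} (hδ : 0 < δ) (hδ1 : δ ≤ 1) (x : ℝ) :
    Psi δ x = ⌊x⌋ + Psi δ (Int.fract x) := by
  have h1 := (Psi_per hδ hδ1).sub_zsmul_eq (x := x) ⌊x⌋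
  simp only [zsmul_eq_mul, mul_one] at h1
  have h2 : x - ⌊x⌋ = Int.fract x := rfl
  rw [h2] at h1
  have h3 : Int.fract x = x - ⌊x⌋ := rfl
  linarith

/-- for small `δ` the function `Psi δ` is the ceiling, at every point -/
theorem Psi_lim (x : ℝ) : ∃ δ₀ > 0, ∀ δ : ℝ, 0 < δ → δ ≤ 1 → δ ≤ δ₀ → Psi δ x = ⌈x⌉ := by
  by_cases h : Int.fract x = 0
  · refine ⟨1, one_pos, fun δ h1 h2 _ => ?_⟩
    rw [Psi_fract h1 h2, h]
    have h3 : Psi δ 0 = 0 := by
      unfold Psi
      simp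
    have h4 : (⌊x⌋ : ℝ) = x := by
      have : Int.fract x = x - ⌊x⌋ := rfl
      linarith
    rw [h3, add_zero]
    have h5 : ⌈x⌉ = ⌊x⌋ := by
      rw [← h4]
      simp
    rw [h5]
  · have h0 : 0 < Int.fract x := lt_of_le_of_ne (Int.fract_nonneg x) (Ne.symm h)
    refine ⟨Int.fract x, h0, fun δ h1 h2 h3 => ?_⟩
    rw [Psi_fract h1 h2, Psi_of_fract h1 h2 h3 (Int.fract_lt_one x).le]
    have h5 : ⌈x⌉ = ⌊x⌋ + 1 := by
      rw [Int.ceil_eq_iff]
      have h6 : Int.fract x = x - ⌊x⌋ := rfl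
      have h7 := Int.fract_lt_one x
      push_cast
      constructor <;> linarith
    rw [h5]
    push_cast
    ring

/-- the smooth arcs -/
noncomputable def ph {N : ℕ} (e : ℕ → ℝ) (δ : ℝ) (i : Fin N) (x : ℝ) : ℝ :=
  Psi δ (x - e i) - Psi δ (x - e (i + 1))

/-- their derivatives -/
noncomputable def ph' {N : ℕ} (e : ℕ → ℝ) (δ : ℝ) (i : Fin N) (x : ℝ) : ℝ :=
  psi δ (x - e i) - psi δ (x - e (i + 1))

/-- the lengths of the arcs -/
noncomputable def cc {N : ℕ} (e : ℕ → ℝ) (i : Fin N) : ℝ := e (i + 1) - e i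

/-- the bound of the derivatives -/
noncomputable def rr (N : ℕ) (e : ℕ → ℝ) (δ x : ℝ) : ℝ :=
  ∑ i : Fin N, (psi δ (x - e i) + psi δ (x - e (i + 1)))

theorem int_shift {f : ℝ → ℝ} (hp : Periodic f 1) (b : ℝ) :
    ∫ x in (0:ℝ)..1, f (x - b) = ∫ x in (0:ℝ)..1, f x := by
  rw [intervalIntegral.integral_comp_sub_right]
  have := hp.intervalIntegral_add_eq (0 - b) 0
  rw [zero_add] at this
  rw [← this]
  congr 1
  ring

theorem part {N : ℕ} {e : ℕ → ℝ} (he : Monotone e) (heN : e N = e 0 + 1) {δ : ℝ} (hδ : 0 < δ)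
    (hδ1 : δ ≤ 1) : Part N (ph e δ) (ph' e δ) (cc e) (rr N e δ) := by
  have hc := psi_cont hδ hδ1
  have hC := Psi_cont hδ hδ1
  refine ⟨?_, ?_, ?_, ?_, ?_, ?_, ?_, ?_, ?_⟩
  · intro i x
    have h1 : ∀ b, HasDerivAt (fun x => Psi δ (x - b)) (psi δ (x - b)) x := by
      intro b
      have h2 : HasDerivAt (fun x : ℝ => x - b) 1 x := (hasDerivAt_id x).sub_const b
      have h3 := (Psi_hasDeriv hδ hδ1 (x - b)).comp x h2
      rwa [mul_one] at h3
    exact (h1 _).sub (h1 _)
  · intro i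
    unfold ph'
    have h1 : ∀ b, Continuous (fun x => psi δ (x - b)) := fun b =>
      hc.comp (continuous_id.sub continuous_const)
    exact (h1 _).sub (h1 _)
  · intro i x
    unfold ph
    have h1 : ∀ b, Psi δ (x + 1 - b) = Psi δ (x - b) + 1 := by
      intro b
      have := Psi_per hδ hδ1 (x - b)
      simp only at this
      have e1 : x + 1 - b = x - b + 1 := by ring
      rw [e1]
      linarith
    rw [h1, h1]
    ring
  · intro i x
    unfold ph
    have := Psi_mono hδ hδ1 (by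
      have := he (Nat.le_succ i)
      show x - e (i + 1) ≤ x - e i
      linarith : x - e (i + 1) ≤ x - e i)
    linarith
  · intro x
    unfold ph
    rw [← Finset.sum_range (fun i => Psi δ (x - e i) - Psi δ (x - e (i + 1))),
      Finset.sum_range_sub', heN]
    have := Psi_per hδ hδ1 (x - e 0 - 1)
    simp only [sub_add_cancel] at this
    have e1 : x - (e 0 + 1) = x - e 0 - 1 := by ring
    rw [e1]
    linarith
  · intro i
    unfold ph cc
    have hp := Psi_per hδ hδ1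
    have h1 : ∀ b, ∫ x in (0:ℝ)..1, Psi δ (x - b) =
        (∫ x in (0:ℝ)..1, (Psi δ x - x)) + (1 / 2 - b) := by
      intro b
      have h2 := int_shift hp b
      have h3 : ∫ x in (0:ℝ)..1, Psi δ (x - b) =
          (∫ x in (0:ℝ)..1, (Psi δ (x - b) - (x - b))) + ∫ x in (0:ℝ)..1, (x - b) := by
        rw [← intervalIntegral.integral_add (by
          apply Continuous.intervalIntegrable; fun_prop) (by
          apply Continuous.intervalIntegrable; fun_prop)]
        refine intervalIntegral.integral_congr fun x _ => ?_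
        show _ = Psi δ (x - b) - (x - b) + (x - b)
        ring
      have h4 : ∫ x in (0:ℝ)..1, (x - b) = 1 / 2 - b := by
        rw [intervalIntegral.integral_sub (by
          apply Continuous.intervalIntegrable; fun_prop) (by
          apply Continuous.intervalIntegrable; fun_prop)]
        simp
      rw [h3, h4, h2]
    rw [intervalIntegral.integral_sub (by
      apply Continuous.intervalIntegrable; fun_prop) (by
      apply Continuous.intervalIntegrable; fun_prop), h1, h1]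
    ring
  · unfold rr
    refine continuous_finsetSum _ fun i _ => ?_
    have h1 : ∀ b, Continuous (fun x => psi δ (x - b)) := fun b =>
      hc.comp (continuous_id.sub continuous_const)
    exact (h1 _).add (h1 _)
  · intro x
    unfold rr
    refine Finset.sum_congr rfl fun i _ => ?_
    have h1 : ∀ b, psi δ (x + 1 - b) = psi δ (x - b) := by
      intro b
      have e1 : x + 1 - b = x - b + 1 := by ring
      rw [e1]
      exact psi_period δ _
    rw [h1, h1]
  · intro x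
    unfold rr ph'
    refine Finset.sum_le_sum fun i _ => ?_
    have h1 := psi_nonneg hδ (x - e i)
    have h2 := psi_nonneg hδ (x - e (i + 1))
    rw [abs_le]
    constructor <;> linarith

theorem rr_int {N : ℕ} (e : ℕ → ℝ) {δ : ℝ} (hδ : 0 < δ) (hδ1 : δ ≤ 1) :
    ∫ x in (0:ℝ)..1, rr N e δ x = 2 * N := by
  have hc := psi_cont hδ hδ1
  have h1 : ∀ b, Continuous (fun x => psi δ (x - b)) := fun b =>
    hc.comp (continuous_id.sub continuous_const)
  have h2 : ∀ b, ∫ x in (0:ℝ)..1, psi δ (x - b) = 1 := by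
    intro b
    rw [int_shift (psi_period δ) b, psi_int hδ hδ1]
  unfold rr
  rw [intervalIntegral.integral_finsetSum
    (f := fun (i : Fin N) x => psi δ (x - e i) + psi δ (x - e (i + 1))) (fun i _ =>
    ((h1 _).add (h1 _)).intervalIntegrable 0 1)]
  have h3 : ∀ i : Fin N, ∫ x in (0:ℝ)..1, (psi δ (x - e i) + psi δ (x - e (i + 1))) = 2 := by
    intro i
    rw [intervalIntegral.integral_add ((h1 _).intervalIntegrable 0 1)
      ((h1 _).intervalIntegrable 0 1), h2, h2]
    norm_num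
  simp only [h3]
  simp
  ring

/-- the indicators of the arcs -/
noncomputable def ind {N : ℕ} (e : ℕ → ℝ) (i : Fin N) (x : ℝ) : ℝ :=
  (⌈x - e i⌉ : ℝ) - ⌈x - e (i + 1)⌉

theorem ph_lim {N : ℕ} (e : ℕ → ℝ) (i : Fin N) (x : ℝ) :
    Tendsto (fun j : ℕ => ph e (1 / ((j : ℝ) + 1)) i x) atTop (𝓝 (ind e i x)) := by
  obtain ⟨δ₁, h1, h2⟩ := Psi_lim (x - e i)
  obtain ⟨δ₂, h3, h4⟩ := Psi_lim (x - e (i + 1))
  refine tendsto_const_nhds.congr' ?_
  have h5 := (tendsto_one_div_add_atTop_nhds_zero_nat (𝕜 := ℝ)).eventually_lt_const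
    (lt_min h1 h3)
  filter_upwards [h5] with j hj
  have hj0 : (0:ℝ) < 1 / ((j : ℝ) + 1) := by positivity
  have hj1 : 1 / ((j : ℝ) + 1) ≤ 1 := by
    rw [div_le_one (by positivity)]
    have : (0:ℝ) ≤ j := Nat.cast_nonneg j
    linarith
  unfold ph ind
  rw [h2 _ hj0 hj1 (hj.le.trans (min_le_left _ _)), h4 _ hj0 hj1 (hj.le.trans (min_le_right _ _))]

/-- **the coded orbit and the independent sequence**, for arcs -/
theorem main_ind {N : ℕ} {e : ℕ → ℝ} (he : Monotone e) (heN : e N = e 0 + 1) {a l : ℝ}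
    (hl : l0 ≤ l) (hla : l ≤ |a|) (s : ℝ) (n : ℕ) {Φ : (Fin n → Fin N) → ℝ}
    (hΦ : ∀ w, |Φ w| ≤ 1) :
    |(∫ t in (0:ℝ)..1, PP (ind e) a s n Φ t) - MM (cc e) n Φ| ≤
      n * (4 * (l / |a|) + (104 * KK * π ^ 2 + 12 * N) / l) := by
  have hj : ∀ j : ℕ, 0 < 1 / ((j : ℝ) + 1) ∧ 1 / ((j : ℝ) + 1) ≤ 1 := by
    intro j
    refine ⟨by positivity, ?_⟩
    rw [div_le_one (by positivity)]
    have : (0:ℝ) ≤ j := Nat.cast_nonneg j
    linarith
  have h1 : Tendsto (fun j : ℕ => ∫ t in (0:ℝ)..1, PP (ph e (1 / ((j : ℝ) + 1))) a s n Φ t) atTop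
      (𝓝 (∫ t in (0:ℝ)..1, PP (ind e) a s n Φ t)) := by
    refine intervalIntegral.tendsto_integral_filter_of_dominated_convergence (fun _ => (1:ℝ))
      (Eventually.of_forall fun j => ?_) (Eventually.of_forall fun j => ?_) (by simp) ?_
    · exact (PP_cont (part he heN (hj j).1 (hj j).2) a s n Φ).aestronglyMeasurable
    · refine Eventually.of_forall fun t _ => ?_
      exact PP_le (part he heN (hj j).1 (hj j).2) a s n hΦ t
    · refine Eventually.of_forall fun t _ => ?_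
      unfold PP
      refine tendsto_finsetSum _ fun w _ => ?_
      refine Tendsto.const_mul _ ?_
      exact tendsto_finsetProd _ fun k _ => ph_lim e (w k) _
  have h2 := (h1.sub_const (MM (cc e) n Φ)).abs
  refine le_of_tendsto h2 (Eventually.of_forall fun j => ?_)
  have h3 := main (part he heN (hj j).1 (hj j).2) hl hla s n hΦ
  rw [rr_int e (hj j).1 (hj j).2] at h3
  refine h3.trans (le_of_eq ?_)
  ring

end Run7.h408.SM
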