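import Mathlib
import Pool.Agent.Run7.h408.SMB

/-!
# The coding of the standard map by arcs of the circle
-/

set_option autoImplicit false

open Real MeasureTheory Function Filter Topology

namespace Run7.h408.SM

open Pool.Agent.TH705.SM

/-- The `i`-th arc of the circle, the image of `(e i, e (i + 1)]`. -/
def Arc (e : ℕ → ℝ) (i : ℕ) : Set UnitAddCircle :=
  (fun x : ℝ => (x : UnitAddCircle)) '' Set.Ioc (e i) (e (i + 1))

/-- the arcs cover the circle -/
structure Arcs (N : ℕ) (e : ℕ → ℝ) : Prop where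
  mono : Monotone e
  last : e N = e 0 + 1

theorem mem_Arc {e : ℕ → ℝ} {i : ℕ} (x : ℝ) :
    (x : UnitAddCircle) ∈ Arc e i ↔ ∃ m : ℤ, e i < x + m ∧ x + m ≤ e (i + 1) := by
  constructor
  · rintro ⟨u, ⟨h1, h2⟩, hu⟩
    have h3 : ((u - x : ℝ) : UnitAddCircle) = 0 := by
      rw [AddCircle.coe_sub, sub_eq_zero]
      exact hu
    obtain ⟨m, hm⟩ := (AddCircle.coe_eq_zero_iff 1).1 h3
    rw [zsmul_eq_mul, mul_one] at hm
    exact ⟨m, by linarith, by linarith⟩
  · rintro ⟨m, h1, h2⟩
    refine ⟨x + m, ⟨h1, h2⟩, ?_⟩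
    have h3 : ((m : ℝ) : UnitAddCircle) = 0 := by
      rw [AddCircle.coe_eq_zero_iff]
      exact ⟨m, by simp⟩
    show ((x + m : ℝ) : UnitAddCircle) = x
    rw [AddCircle.coe_add, h3, add_zero]

open Classical in
theorem ind_eq {N : ℕ} {e : ℕ → ℝ} (h : Arcs N e) (i : Fin N) (x : ℝ) :
    ind e i x = if (x : UnitAddCircle) ∈ Arc e i then 1 else 0 := by
  have h1 : e i ≤ e (i + 1) := h.mono (Nat.le_succ i)
  have h2 : e (i + 1) ≤ e i + 1 := by
    have h3 := h.mono (Nat.succ_le_of_lt i.2)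
    have h4 := h.mono (Nat.zero_le (i : ℕ))
    have h5 := h.last
    have h6 : e (i + 1) ≤ e N := h3
    linarith
  have h3 : ⌈x - e (i + 1)⌉ ≤ ⌈x - e i⌉ := Int.ceil_mono (by linarith)
  have h4 : ⌈x - e i⌉ ≤ ⌈x - e (i + 1)⌉ + 1 := by
    have h5 : ⌈x - e i⌉ ≤ ⌈x - e (i + 1) + 1⌉ := Int.ceil_mono (by linarith)
    rwa [Int.ceil_add_one] at h5
  unfold ind
  split_ifs with hm
  · rw [mem_Arc] at hm
    obtain ⟨m, h5, h6⟩ := hm
    have h7 : ⌈x - e (i + 1)⌉ ≤ -m := Int.ceil_le.2 (by push_cast; linarith)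
    have h8 : -m < ⌈x - e i⌉ := Int.lt_ceil.2 (by push_cast; linarith)
    have h9 : ⌈x - e i⌉ = ⌈x - e (i + 1)⌉ + 1 := by omega
    rw [h9]
    push_cast
    ring
  · have h9 : ⌈x - e i⌉ = ⌈x - e (i + 1)⌉ := by
      by_contra h5
      apply hm
      rw [mem_Arc]
      refine ⟨-⌈x - e (i + 1)⌉, ?_, ?_⟩
      · have h6 : ⌈x - e (i + 1)⌉ < ⌈x - e i⌉ := by omega
        have h7 := Int.lt_ceil.1 h6
        push_cast
        linarith
      · have h7 := Int.le_ceil (x - e (i + 1))
        push_cast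
        linarith
    rw [h9, sub_self]

theorem ind_sum {N : ℕ} {e : ℕ → ℝ} (h : Arcs N e) (x : ℝ) : ∑ i : Fin N, ind e i x = 1 := by
  unfold ind
  rw [← Finset.sum_range (fun i => ((⌈x - e i⌉ : ℝ) - (⌈x - e (i + 1)⌉ : ℝ))),
    Finset.sum_range_sub', h.last]
  have e1 : ⌈x - e 0⌉ = ⌈x - (e 0 + 1)⌉ + 1 := by
    rw [← Int.ceil_add_one]
    congr 1
    ring
  rw [e1]
  push_cast
  ring

theorem exists_code {N : ℕ} {e : ℕ → ℝ} (h : Arcs N e) (z : UnitAddCircle) :
    ∃ j : Fin N, ∀ i : Fin N, z ∈ Arc e i ↔ i = j := by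
  classical
  induction z using QuotientAddGroup.induction_on with
  | H x =>
    have h1 := ind_sum h x
    simp only [ind_eq h] at h1
    rw [Finset.sum_boole] at h1
    have h2 : (Finset.univ.filter fun i : Fin N => (x : UnitAddCircle) ∈ Arc e i).card = 1 := by
      exact_mod_cast h1
    obtain ⟨j, hj⟩ := Finset.card_eq_one.1 h2
    refine ⟨j, fun i => ?_⟩
    have h3 : i ∈ (Finset.univ.filter fun i : Fin N => (x : UnitAddCircle) ∈ Arc e i) ↔
        i ∈ ({j} : Finset (Fin N)) := by rw [hj]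
    rw [Finset.mem_filter, Finset.mem_singleton] at h3
    exact ⟨fun h4 => h3.1 ⟨Finset.mem_univ _, h4⟩, fun h4 => (h3.2 h4).2⟩

/-- the index of the arc of a point -/
noncomputable def code {N : ℕ} {e : ℕ → ℝ} (h : Arcs N e) (z : UnitAddCircle) : Fin N :=
  (exists_code h z).choose

theorem mem_iff {N : ℕ} {e : ℕ → ℝ} (h : Arcs N e) (z : UnitAddCircle) (i : Fin N) :
    z ∈ Arc e i ↔ i = code h z := (exists_code h z).choose_spec i

theorem ind_code {N : ℕ} {e : ℕ → ℝ} (h : Arcs N e) (i : Fin N) (x : ℝ) :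
    ind e i x = if i = code h (x : UnitAddCircle) then 1 else 0 := by
  classical
  rw [ind_eq h]
  simp only [mem_iff h]

theorem PP_ind {N : ℕ} {e : ℕ → ℝ} (h : Arcs N e) (a s : ℝ) (n : ℕ) (Φ : (Fin n → Fin N) → ℝ)
    (t : ℝ) : PP (ind e) a s n Φ t =
      Φ (fun k => code h ((X a s (k + 1) t : ℝ) : UnitAddCircle)) := by
  classical
  unfold PP
  simp only [ind_code h]
  have h1 : ∀ w : Fin n → Fin N, (∏ k : Fin n,
      (if w k = code h ((X a s (k + 1) t : ℝ) : UnitAddCircle) then (1:ℝ) else 0)) =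
      if w = (fun k : Fin n => code h ((X a s (k + 1) t : ℝ) : UnitAddCircle)) then 1 else 0 := by
    intro w
    rw [Finset.prod_boole]
    congr 1
    rw [funext_iff]
    simp
  simp only [h1, mul_ite, mul_one, mul_zero]
  rw [Finset.sum_ite_eq']
  simp

theorem arc_meas (e : ℕ → ℝ) (i : ℕ) : MeasurableSet (Arc e i) := by
  have h1 : Arc e i = ⋃ m : ℕ, (fun x : ℝ => (x : UnitAddCircle)) ''
      Set.Icc (e i + 1 / ((m : ℝ) + 1)) (e (i + 1)) := by
    unfold Arc
    rw [← Set.image_iUnion]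
    congr 1
    ext x
    simp only [Set.mem_Ioc, Set.mem_iUnion, Set.mem_Icc]
    constructor
    · rintro ⟨h1, h2⟩
      obtain ⟨m, hm⟩ := exists_nat_one_div_lt (sub_pos.2 h1)
      exact ⟨m, by linarith, h2⟩
    · rintro ⟨m, h1, h2⟩
      have : (0:ℝ) < 1 / ((m : ℝ) + 1) := by positivity
      exact ⟨by linarith, h2⟩
  rw [h1]
  refine MeasurableSet.iUnion fun m => ?_
  exact (isCompact_Icc.image (AddCircle.continuous_mk' 1)).isClosed.measurableSet

theorem code_meas {N : ℕ} {e : ℕ → ℝ} (h : Arcs N e) : Measurable (code h) := by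
  refine measurable_to_countable' fun i => ?_
  have h1 : code h ⁻¹' {i} = Arc e i := by
    ext z
    rw [mem_iff h]
    exact eq_comm
  rw [h1]
  exact arc_meas e i

/-- the word of a point: the arcs of the first coordinates -/
noncomputable def W {N : ℕ} {e : ℕ → ℝ} (h : Arcs N e) (a : ℝ) (n : ℕ) (p : T2) : Fin n → Fin N :=
  fun k => code h ((S a)^[k] p).1

theorem W_meas {N : ℕ} {e : ℕ → ℝ} (h : Arcs N e) (a : ℝ) (n : ℕ) : Measurable (W h a n) := by
  rw [measurable_pi_iff]
  intro k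
  exact (code_meas h).comp (measurable_fst.comp ((S_cont a).iterate k).measurable)

theorem MM_le {N : ℕ} {e : ℕ → ℝ} (h : Arcs N e) (n : ℕ) {Φ : (Fin n → Fin N) → ℝ}
    (hΦ : ∀ w, |Φ w| ≤ 1) : |MM (cc e) n Φ| ≤ 1 := by
  have hp := part h.mono h.last one_pos le_rfl
  induction n with
  | zero =>
    unfold MM
    simp only [Finset.univ_unique, Finset.sum_singleton, Finset.univ_eq_empty,
      Finset.prod_empty, mul_one]
    exact hΦ _
  | succ n ih =>
    rw [MM_succ]
    exact ih (mean_le hp hΦ)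

/-- the constant -/
noncomputable def CC : ℝ := 16 + 2 * l0

theorem CC_pos : 0 < CC := by
  unfold CC
  have := l0_ge
  linarith

/-- the integral over a horizontal circle -/
theorem line {N : ℕ} {e : ℕ → ℝ} (h : Arcs N e) {a : ℝ} (ha : 1 ≤ |a|) (hN : 1 ≤ N) {n : ℕ}
    {Φ : (Fin n → Fin N) → ℝ} (hΦ : ∀ w, |Φ w| ≤ 1) (y : UnitAddCircle) :
    |(∫ x : UnitAddCircle, Φ (W h a n (x, y))) - MM (cc e) n Φ| ≤ CC * (n * N / √|a|) := by
  have hK := KK_one
  have hsa : 1 ≤ √|a| := by rw [Real.one_le_sqrt]; exact ha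
  have hNr : (1:ℝ) ≤ N := by exact_mod_cast hN
  induction y using QuotientAddGroup.induction_on with
  | H s =>
    have h1 := UnitAddCircle.intervalIntegral_preimage 0
      (fun x : UnitAddCircle => Φ (W h a n (x, (s : UnitAddCircle))))
    rw [zero_add] at h1
    rw [← h1]
    have h2 : ∀ t : ℝ, Φ (W h a n ((t : UnitAddCircle), (s : UnitAddCircle))) =
        PP (ind e) a s n Φ t := by
      intro t
      rw [PP_ind h]
      congr 1
      funext k
      unfold W
      rw [iter_coe]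
    simp only [h2]
    rcases Nat.eq_zero_or_pos n with hn | hn
    · subst hn
      have h3 : ∀ t, PP (ind e) a s 0 Φ t = Φ default := by
        intro t
        unfold PP
        simp
      have h4 : MM (cc e) 0 Φ = Φ default := by
        unfold MM
        simp
      simp only [h3, h4]
      simp
    have hnr : (1:ℝ) ≤ n := by exact_mod_cast hn
    have hnN : (1:ℝ) ≤ n * N := by nlinarith
    by_cases hl : l0 ≤ √|a|
    · have hla : √|a| ≤ |a| := by
        rw [Real.sqrt_le_left (abs_nonneg a)]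
        nlinarith
      have h3 := main_ind h.mono h.last hl hla s n hΦ
      refine h3.trans ?_
      have e1 : √|a| / |a| = 1 / √|a| := by rw [Real.sqrt_div_self, one_div]
      rw [e1]
      have e2 : (n:ℝ) * (4 * (1 / √|a|) + (104 * KK * π ^ 2 + 12 * N) / √|a|) =
          n * (4 + l0 + 12 * N) / √|a| := by
        unfold l0
        ring
      rw [e2, ← mul_div_assoc]
      apply div_le_div_of_nonneg_right _ (by linarith)
      have h4 := l0_ge
      have h5 : 4 + l0 + 12 * (N:ℝ) ≤ CC * N := by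
        unfold CC
        nlinarith
      calc (n:ℝ) * (4 + l0 + 12 * N) ≤ n * (CC * N) := mul_le_mul_of_nonneg_left h5 (by linarith)
        _ = _ := by ring
    · rw [not_le] at hl
      have h3 : |∫ t in (0:ℝ)..1, PP (ind e) a s n Φ t| ≤ 1 := by
        have h4 := intervalIntegral.norm_integral_le_of_norm_le_const (a := 0) (b := 1)
          (f := fun t => PP (ind e) a s n Φ t) (C := 1) (fun t _ => by
            rw [PP_ind h]
            exact hΦ _)
        rw [sub_zero, abs_one, mul_one, norm_eq_abs] at h4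
        exact h4
      have h4 := MM_le h n hΦ
      have h5 : |(∫ t in (0:ℝ)..1, PP (ind e) a s n Φ t) - MM (cc e) n Φ| ≤ 2 := by
        refine (abs_sub _ _).trans ?_
        linarith
      refine h5.trans ?_
      have h6 : 2 ≤ CC / √|a| := by
        rw [le_div_iff₀ (by linarith)]
        unfold CC
        linarith
      calc (2:ℝ) ≤ CC / √|a| := h6
        _ = CC / √|a| * 1 := (mul_one _).symm
        _ ≤ CC / √|a| * (n * N) := mul_le_mul_of_nonneg_left hnN (by
            have := CC_pos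
            positivity)
        _ = _ := by ring

/-- total variation from test functions -/
theorem tv {α : Type*} [MeasurableSpace α] (μ : Measure α) [IsProbabilityMeasure μ] {n N : ℕ}
    {V : α → (Fin n → Fin N)} (hV : Measurable V) (Φ : (Fin n → Fin N) → ℝ) :
    ∫ x, Φ (V x) ∂μ = ∑ w, Φ w * (μ (V ⁻¹' {w})).toReal := by
  classical
  have h1 : ∀ x, Φ (V x) = ∑ w, (V ⁻¹' {w}).indicator (fun _ => Φ w) x := by
    intro x
    simp only [Set.indicator_apply, Set.mem_preimage, Set.mem_singleton_iff]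
    rw [Finset.sum_ite_eq]
    simp
  simp only [h1]
  rw [integral_finsetSum _ fun w _ => (integrable_const _).indicator (hV (measurableSet_singleton w))]
  refine Finset.sum_congr rfl fun w _ => ?_
  rw [integral_indicator (hV (measurableSet_singleton w)), setIntegral_const]
  simp [Measure.real, mul_comm]

theorem tv_le {α : Type*} [MeasurableSpace α] (μ : Measure α) [IsProbabilityMeasure μ] {n N : ℕ}
    {V : α → (Fin n → Fin N)} (hV : Measurable V) {c : Fin N → ℝ} {K : ℝ}
    (H : ∀ Φ : (Fin n → Fin N) → ℝ, (∀ w, |Φ w| ≤ 1) → |(∫ x, Φ (V x) ∂μ) - MM c n Φ| ≤ K) :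
    ∑ w, |(μ (V ⁻¹' {w})).toReal - ∏ k, c (w k)| ≤ K := by
  set Ψ : (Fin n → Fin N) → ℝ :=
    fun w => SignType.sign ((μ (V ⁻¹' {w})).toReal - ∏ k, c (w k)) with hΨ
  have h1 := H Ψ (fun w => by
    rw [hΨ]
    simp only
    rcases lt_trichotomy ((μ (V ⁻¹' {w})).toReal - ∏ k, c (w k)) 0 with h | h | h
    · rw [sign_neg h]; simp
    · rw [h]; simp
    · rw [sign_pos h]; simp)
  rw [tv μ hV Ψ] at h1
  unfold MM at h1
  rw [← Finset.sum_sub_distrib] at h1
  refine le_trans (le_of_eq ?_) ((le_abs_self _).trans h1)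
  refine Finset.sum_congr rfl fun w _ => ?_
  rw [← mul_sub, hΨ]
  simp only
  rw [sign_mul_self]

end Run7.h408.SM
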