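import Mathlib
import Pool.Agent.Run7.h408.SMC

/-!
# The coding of the standard map: boxes, arbitrary square integrable functions, entropy
-/

set_option autoImplicit false

open Real MeasureTheory Function Filter Topology

namespace Run7.h408.SM

open Pool.Agent.TH705.SM

variable {N : ℕ} {e : ℕ → ℝ}

theorem integrable_of_bdd {α : Type*} [MeasurableSpace α] {μ : Measure α} [IsFiniteMeasure μ]
    {f : α → ℝ} (hf : Measurable f) (K : ℝ) (hK : ∀ x, |f x| ≤ K) : Integrable f μ :=
  Integrable.of_bound hf.aestronglyMeasurable K (Eventually.of_forall hK)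

theorem word_meas {α : Type*} [MeasurableSpace α] {n : ℕ} {V : α → (Fin n → Fin N)}
    (hV : Measurable V) (Φ : (Fin n → Fin N) → ℝ) : Measurable fun x => Φ (V x) :=
  (measurable_of_finite Φ).comp hV

/-- the length of an arc -/
theorem arc_vol (h : Arcs N e) (i : Fin N) : (volume (Arc e i)).toReal = cc e i := by
  classical
  have hj : ∀ j : ℕ, 0 < 1 / ((j : ℝ) + 1) ∧ 1 / ((j : ℝ) + 1) ≤ 1 := by
    intro j
    refine ⟨by positivity, ?_⟩
    rw [div_le_one (by positivity)]
    have : (0:ℝ) ≤ j := Nat.cast_nonneg j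
    linarith
  have h1 : Tendsto (fun j : ℕ => ∫ t in (0:ℝ)..1, ph e (1 / ((j : ℝ) + 1)) i t) atTop
      (𝓝 (∫ t in (0:ℝ)..1, ind e i t)) := by
    refine intervalIntegral.tendsto_integral_filter_of_dominated_convergence (fun _ => (1:ℝ))
      (Eventually.of_forall fun j => ?_) (Eventually.of_forall fun j => ?_) (by simp) ?_
    · exact ((part h.mono h.last (hj j).1 (hj j).2).φc i).aestronglyMeasurable
    · refine Eventually.of_forall fun t _ => ?_
      have hp := part h.mono h.last (hj j).1 (hj j).2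
      rw [norm_eq_abs, abs_of_nonneg (hp.nn i t)]
      exact (Finset.single_le_sum (fun k _ => hp.nn k t) (Finset.mem_univ i)).trans
        (hp.sum t).le
    · exact Eventually.of_forall fun t _ => ph_lim e i t
  have h2 : ∫ t in (0:ℝ)..1, ind e i t = cc e i := by
    refine tendsto_nhds_unique h1 ?_
    have h3 : ∀ j : ℕ, ∫ t in (0:ℝ)..1, ph e (1 / ((j : ℝ) + 1)) i t = cc e i := fun j =>
      (part h.mono h.last (hj j).1 (hj j).2).int i
    simp only [h3]
    exact tendsto_const_nhds
  have h3 := UnitAddCircle.intervalIntegral_preimage 0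
    (fun x : UnitAddCircle => (Arc e i).indicator (fun _ => (1:ℝ)) x)
  rw [zero_add] at h3
  have h4 : ∀ t : ℝ, (Arc e i).indicator (fun _ => (1:ℝ)) (t : UnitAddCircle) = ind e i t := by
    intro t
    rw [ind_eq h, Set.indicator_apply]
  simp only [h4] at h3
  rw [h2, integral_indicator (arc_meas e i), setIntegral_const] at h3
  simp [Measure.real] at h3
  exact h3.symm

/-- the word with the arc of the second coordinate added -/
noncomputable def W2 (h : Arcs N e) (a : ℝ) (n : ℕ) (p : T2) : Fin (n + 1) → Fin N :=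
  Fin.cons (code h p.2) (W h a n p)

theorem W2_meas (h : Arcs N e) (a : ℝ) (n : ℕ) : Measurable (W2 h a n) := by
  rw [measurable_pi_iff]
  intro k
  refine Fin.cases ?_ (fun k => ?_) k
  · exact (code_meas h).comp measurable_snd
  · exact (measurable_pi_iff.1 (W_meas h a n)) k

theorem sum_cons {n : ℕ} (g : (Fin (n + 1) → Fin N) → ℝ) :
    ∑ w, g w = ∑ i : Fin N, ∑ w : Fin n → Fin N, g (Fin.cons i w) := by
  have h := Fintype.sum_equiv (Fin.consEquiv (fun _ : Fin (n + 1) => Fin N))
    (fun p => g (Fin.cons p.1 p.2)) g (fun p => rfl)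
  rw [← h, Fintype.sum_prod_type]

theorem MM_cons (c : Fin N → ℝ) (n : ℕ) (Φ : (Fin (n + 1) → Fin N) → ℝ) :
    MM c (n + 1) Φ = ∑ i, c i * MM c n (fun w => Φ (Fin.cons i w)) := by
  unfold MM
  rw [sum_cons]
  refine Finset.sum_congr rfl fun i _ => ?_
  rw [Finset.mul_sum]
  refine Finset.sum_congr rfl fun w _ => ?_
  rw [Fin.prod_univ_succ]
  simp only [Fin.cons_zero, Fin.cons_succ]
  ring

/-- **boxes** -/
theorem boxes (h : Arcs N e) {a : ℝ} (ha : 1 ≤ |a|) (hN : 1 ≤ N) {n : ℕ}
    {Φ : (Fin (n + 1) → Fin N) → ℝ} (hΦ : ∀ w, |Φ w| ≤ 1) :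
    |(∫ p : T2, Φ (W2 h a n p)) - MM (cc e) (n + 1) Φ| ≤ CC * (n * N / √|a|) := by
  have hm := word_meas (W2_meas h a n) Φ
  have h1 : ∫ p : T2, Φ (W2 h a n p) =
      ∫ y : UnitAddCircle, ∫ x : UnitAddCircle, Φ (W2 h a n (x, y)) :=
    integral_prod_symm _ (integrable_of_bdd hm 1 fun x => hΦ _)
  set I : UnitAddCircle → ℝ := fun y => ∫ x : UnitAddCircle, Φ (W2 h a n (x, y)) with hI
  set M : UnitAddCircle → ℝ := fun y => MM (cc e) n (fun w => Φ (Fin.cons (code h y) w)) with hM
  have hIi : Integrable I := by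
    have h2 : Integrable (fun p : T2 => Φ (W2 h a n p)) (volume.prod volume) :=
      integrable_of_bdd hm 1 fun x => hΦ _
    exact h2.integral_prod_right
  have hMm : Measurable M :=
    (measurable_of_finite (fun i : Fin N => MM (cc e) n (fun w => Φ (Fin.cons i w)))).comp
      (code_meas h)
  have hMi : Integrable M := integrable_of_bdd hMm 1 fun y => MM_le h n fun w => hΦ _
  have h2 : ∀ y, |I y - M y| ≤ CC * (n * N / √|a|) := fun y =>
    line h ha hN (Φ := fun w => Φ (Fin.cons (code h y) w)) (fun w => hΦ _) y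
  have h3 : ∫ y, M y = MM (cc e) (n + 1) Φ := by
    rw [MM_cons]
    have h4 : ∀ y, M y = ∑ i : Fin N, (Arc e i).indicator
        (fun _ => MM (cc e) n (fun w => Φ (Fin.cons i w))) y := by
      intro y
      classical
      simp only [Set.indicator_apply, mem_iff h]
      rw [Finset.sum_ite_eq']
      simp [hM]
    simp only [h4]
    rw [integral_finsetSum (μ := (volume : Measure UnitAddCircle)) (Finset.univ : Finset (Fin N))
      (f := fun i : Fin N => (Arc e (i : ℕ)).indicator
        (fun _ => MM (cc e) n (fun w => Φ (Fin.cons i w))))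
      (fun i _ => (integrable_const _).indicator (arc_meas e i))]
    refine Finset.sum_congr rfl fun i _ => ?_
    rw [integral_indicator (arc_meas e i), setIntegral_const, Measure.real, arc_vol h i,
      smul_eq_mul]
  rw [h1, ← h3, ← integral_sub hIi hMi]
  have h5 := norm_integral_le_of_norm_le_const (μ := (volume : Measure UnitAddCircle))
    (f := fun y => I y - M y) (Eventually.of_forall fun y => h2 y)
  simpa using h5

/-- words on the torus -/
theorem torus (h : Arcs N e) {a : ℝ} (ha : 1 ≤ |a|) (hN : 1 ≤ N) {n : ℕ}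
    {Φ : (Fin n → Fin N) → ℝ} (hΦ : ∀ w, |Φ w| ≤ 1) :
    |(∫ p : T2, Φ (W h a n p)) - MM (cc e) n Φ| ≤ CC * (n * N / √|a|) := by
  have hm := word_meas (W_meas h a n) Φ
  have h2 : Integrable (fun p : T2 => Φ (W h a n p)) (volume.prod volume) :=
    integrable_of_bdd hm 1 fun x => hΦ _
  have h1 : ∫ p : T2, Φ (W h a n p) =
      ∫ y : UnitAddCircle, ∫ x : UnitAddCircle, Φ (W h a n (x, y)) :=
    integral_prod_symm _ h2
  have h3 : ∫ _y : UnitAddCircle, MM (cc e) n Φ = MM (cc e) n Φ := by simp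
  rw [h1, ← h3, ← integral_sub h2.integral_prod_right (integrable_const _)]
  have h5 := norm_integral_le_of_norm_le_const (μ := (volume : Measure UnitAddCircle))
    (f := fun y => (∫ x : UnitAddCircle, Φ (W h a n (x, y))) - MM (cc e) n Φ)
    (Eventually.of_forall fun y => line h ha hN hΦ y)
  simpa using h5

/-- independent words -/
theorem MM_append (c : Fin N → ℝ) (m n : ℕ) (A : (Fin m → Fin N) → ℝ)
    (B : (Fin n → Fin N) → ℝ) :
    MM c (m + n) (fun w => A (fun k => w (Fin.castAdd n k)) * B (fun k => w (Fin.natAdd m k))) =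
      MM c m A * MM c n B := by
  unfold MM
  have h := Fintype.sum_equiv (Fin.appendEquiv m n (α := Fin N))
    (fun p => (A p.1 * B p.2) * ((∏ k, c (p.1 k)) * ∏ k, c (p.2 k)))
    (fun w => (A (fun k => w (Fin.castAdd n k)) * B (fun k => w (Fin.natAdd m k))) *
      ∏ k, c (w k)) (fun p => by
      simp only [Fin.appendEquiv, Equiv.coe_fn_mk, Fin.append_left, Fin.append_right]
      rw [Fin.prod_univ_add]
      simp only [Fin.append_left, Fin.append_right])
  rw [← h, Fintype.sum_prod_type, Finset.sum_mul_sum]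
  refine Finset.sum_congr rfl fun v _ => Finset.sum_congr rfl fun w _ => ?_
  ring

/-- correlations of blocks -/
theorem blocks (h : Arcs N e) {a : ℝ} (ha : 1 ≤ |a|) (hN : 1 ≤ N) {m n : ℕ} (hnm : n ≤ m)
    {A B : (Fin n → Fin N) → ℝ} (hA : ∀ w, |A w| ≤ 1) (hB : ∀ w, |B w| ≤ 1)
    (hB0 : MM (cc e) n B = 0) :
    |∫ p : T2, A (W h a n p) * B (W h a n ((S a)^[m] p))| ≤
      CC * ((m + n : ℕ) * N / √|a|) := by
  set Φ : (Fin (m + n) → Fin N) → ℝ := fun w =>
    A (fun k => w (Fin.castAdd n (Fin.castLE hnm k))) * B (fun k => w (Fin.natAdd m k)) with hΦ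
  have h1 : MM (cc e) (m + n) Φ = 0 := by
    have h2 := MM_append (cc e) m n (fun v => A (fun k => v (Fin.castLE hnm k))) B
    rw [hB0, mul_zero] at h2
    exact h2
  have h2 : ∀ p, Φ (W h a (m + n) p) = A (W h a n p) * B (W h a n ((S a)^[m] p)) := by
    intro p
    have e1 : (fun k : Fin n => W h a (m + n) p (Fin.castAdd n (Fin.castLE hnm k))) =
        W h a n p := rfl
    have e2 : (fun k : Fin n => W h a (m + n) p (Fin.natAdd m k)) =
        W h a n ((S a)^[m] p) := by
      funext k
      show code h ((S a)^[m + k] p).1 = code h ((S a)^[k] ((S a)^[m] p)).1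
      rw [← iterate_add_apply, Nat.add_comm m]
    rw [hΦ]
    simp only
    rw [e1, e2]
  have h3 := torus h ha hN (Φ := Φ) (fun w => by
    rw [hΦ]
    simp only
    rw [abs_mul]
    exact mul_le_one₀ (hA _) (abs_nonneg _) (hB _))
  rw [h1, sub_zero] at h3
  simp only [h2] at h3
  exact h3

/-- **Bessel inequality** -/
theorem bessel {α : Type*} [MeasurableSpace α] {μ : Measure α} [IsProbabilityMeasure μ] {J : ℕ}
    {v : Fin J → α → ℝ} (hv : ∀ j, Measurable (v j)) (hv1 : ∀ j x, |v j x| ≤ 1) {K : ℝ}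
    (hK : 0 ≤ K) (hg : ∀ i j, i ≠ j → |∫ x, v i x * v j x ∂μ| ≤ K) {f : α → ℝ}
    (hf : MemLp f 2 μ) :
    ∑ j, (∫ x, f x * v j x ∂μ) ^ 2 ≤ (1 + J * K) * ∫ x, f x ^ 2 ∂μ := by
  set α' : Fin J → ℝ := fun j => ∫ x, f x * v j x ∂μ with hα
  set lam : ℝ := 1 + J * K with hlam
  have hlam0 : 0 < lam := by positivity
  set Sm : α → ℝ := fun x => ∑ j, α' j * v j x with hS
  have hf1 : Integrable f μ := hf.integrable (by norm_num)
  have hf2 : Integrable (fun x => f x ^ 2) μ := hf.integrable_sq
  have hfv : ∀ j, Integrable (fun x => f x * v j x) μ := by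
    intro j
    have := hf1.bdd_mul (c := 1) (hv j).aestronglyMeasurable (Eventually.of_forall fun x => by
      rw [norm_eq_abs]; exact hv1 j x)
    refine this.congr (Eventually.of_forall fun x => ?_)
    simp only
    ring
  have hvv : ∀ i j, Integrable (fun x => v i x * v j x) μ := fun i j =>
    integrable_of_bdd ((hv i).mul (hv j)) 1 fun x => by
      rw [abs_mul]
      exact mul_le_one₀ (hv1 i x) (abs_nonneg _) (hv1 j x)
  have h1 : ∫ x, f x * Sm x ∂μ = ∑ j, α' j ^ 2 := by
    have : ∀ x, f x * Sm x = ∑ j, α' j * (f x * v j x) := by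
      intro x
      rw [hS]
      simp only
      rw [Finset.mul_sum]
      refine Finset.sum_congr rfl fun j _ => ?_
      ring
    simp only [this]
    rw [integral_finsetSum _ fun j _ => (hfv j).const_mul _]
    refine Finset.sum_congr rfl fun j _ => ?_
    rw [integral_const_mul, sq]
  have h2 : ∫ x, Sm x ^ 2 ∂μ = ∑ i, ∑ j, α' i * α' j * ∫ x, v i x * v j x ∂μ := by
    have : ∀ x, Sm x ^ 2 = ∑ i, ∑ j, α' i * α' j * (v i x * v j x) := by
      intro x
      rw [hS, sq]
      simp only
      rw [Finset.sum_mul_sum]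
      refine Finset.sum_congr rfl fun i _ => Finset.sum_congr rfl fun j _ => ?_
      ring
    simp only [this]
    rw [integral_finsetSum _ fun i _ => integrable_finsetSum _ fun j _ => (hvv i j).const_mul _]
    refine Finset.sum_congr rfl fun i _ => ?_
    rw [integral_finsetSum _ fun j _ => (hvv i j).const_mul _]
    refine Finset.sum_congr rfl fun j _ => ?_
    rw [integral_const_mul]
  have h3 : ∫ x, Sm x ^ 2 ∂μ ≤ lam * ∑ j, α' j ^ 2 := by
    rw [h2]
    have h4 : ∀ i j, α' i * α' j * ∫ x, v i x * v j x ∂μ ≤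
        (α' i ^ 2 + α' j ^ 2) / 2 * ((if i = j then 1 else 0) + K) := by
      intro i j
      have h5 : |∫ x, v i x * v j x ∂μ| ≤ (if i = j then 1 else 0) + K := by
        split_ifs with hij
        · have h6 := norm_integral_le_of_norm_le_const (μ := μ) (f := fun x => v i x * v j x)
            (C := 1) (Eventually.of_forall fun x => by
              rw [norm_eq_abs, abs_mul]
              exact mul_le_one₀ (hv1 i x) (abs_nonneg _) (hv1 j x))
          simp at h6
          linarith
        · rw [zero_add]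
          exact hg i j hij
      have h6 : |α' i * α' j| ≤ (α' i ^ 2 + α' j ^ 2) / 2 := by
        rw [abs_mul]
        nlinarith [sq_nonneg (|α' i| - |α' j|), sq_abs (α' i), sq_abs (α' j)]
      calc _ ≤ |α' i * α' j * ∫ x, v i x * v j x ∂μ| := le_abs_self _
        _ = |α' i * α' j| * |∫ x, v i x * v j x ∂μ| := abs_mul _ _
        _ ≤ _ := mul_le_mul h6 h5 (abs_nonneg _) (by positivity)
    refine (Finset.sum_le_sum fun i _ => Finset.sum_le_sum fun j _ => h4 i j).trans ?_
    have h7 : ∑ i, ∑ j, (α' i ^ 2 + α' j ^ 2) / 2 * ((if i = j then 1 else 0) + K) =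
        lam * ∑ j, α' j ^ 2 := by
      have h8 : ∀ i j : Fin J, (α' i ^ 2 + α' j ^ 2) / 2 * ((if i = j then 1 else 0) + K) =
          (if i = j then α' j ^ 2 else 0) + K / 2 * α' i ^ 2 + K / 2 * α' j ^ 2 := by
        intro i j
        split_ifs with hij
        · rw [hij]; ring
        · ring
      simp only [h8]
      simp only [Finset.sum_add_distrib]
      simp only [Finset.sum_ite_eq, Finset.mem_univ, if_true, Finset.sum_const,
        Finset.card_univ, Fintype.card_fin, nsmul_eq_mul, ← Finset.mul_sum]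
      rw [hlam]
      ring
    rw [h7]
  -- the conclusion
  have hSm : Measurable Sm := by
    rw [hS]
    exact Finset.measurable_sum _ fun j _ => (hv j).const_mul _
  have hSb : ∃ B, ∀ x, |Sm x| ≤ B := by
    refine ⟨∑ j, |α' j|, fun x => ?_⟩
    rw [hS]
    refine (Finset.abs_sum_le_sum_abs _ _).trans (Finset.sum_le_sum fun j _ => ?_)
    rw [abs_mul]
    calc _ ≤ |α' j| * 1 := mul_le_mul_of_nonneg_left (hv1 j x) (abs_nonneg _)
      _ = _ := mul_one _
  obtain ⟨Bd, hBd⟩ := hSb
  have hfS : Integrable (fun x => f x * Sm x) μ := by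
    have := hf1.bdd_mul (c := Bd) hSm.aestronglyMeasurable (Eventually.of_forall fun x => by
      rw [norm_eq_abs]; exact hBd x)
    refine this.congr (Eventually.of_forall fun x => ?_)
    simp only
    ring
  have hS2 : Integrable (fun x => Sm x ^ 2) μ :=
    integrable_of_bdd (hSm.pow_const 2) (Bd ^ 2) fun x => by
      rw [abs_pow]
      exact pow_le_pow_left₀ (abs_nonneg _) (hBd x) 2
  have h9 : 0 ≤ ∫ x, (f x - 1 / lam * Sm x) ^ 2 ∂μ := integral_nonneg fun x => sq_nonneg _
  have h10 : ∫ x, (f x - 1 / lam * Sm x) ^ 2 ∂μ = (∫ x, f x ^ 2 ∂μ) -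
      2 / lam * (∫ x, f x * Sm x ∂μ) + (1 / lam) ^ 2 * ∫ x, Sm x ^ 2 ∂μ := by
    rw [← integral_const_mul, ← integral_const_mul, ← integral_sub hf2 (hfS.const_mul _),
      ← integral_add (f := fun x => f x ^ 2 - 2 / lam * (f x * Sm x))
        (hf2.sub (hfS.const_mul _)) (hS2.const_mul _)]
    refine integral_congr_ae (Eventually.of_forall fun x => ?_)
    simp only
    ring
  rw [h10, h1] at h9
  have h11 : (1 / lam) ^ 2 * ∫ x, Sm x ^ 2 ∂μ ≤ (1 / lam) ^ 2 * (lam * ∑ j, α' j ^ 2) :=
    mul_le_mul_of_nonneg_left h3 (by positivity)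
  have h12 : (1 / lam) ^ 2 * (lam * ∑ j, α' j ^ 2) = 1 / lam * ∑ j, α' j ^ 2 := by
    field_simp
  have h13 : 1 / lam * ∑ j, α' j ^ 2 ≤ ∫ x, f x ^ 2 ∂μ := by
    have : 2 / lam * ∑ j, α' j ^ 2 = 1 / lam * ∑ j, α' j ^ 2 + 1 / lam * ∑ j, α' j ^ 2 := by ring
    linarith
  rw [one_div, inv_mul_le_iff₀ hlam0] at h13
  exact h13

end Run7.h408.SM
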