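import Mathlib
import Pool.Agent.Run7.h408.SMD

/-!
# The coding of the standard map: square integrable functions, invariant functions, entropy
-/

set_option autoImplicit false

open Real MeasureTheory Function Filter Topology

namespace Run7.h408.SM

open Pool.Agent.TH705.SM

variable {N : ℕ} {e : ℕ → ℝ}

theorem MM_const (h : Arcs N e) (n : ℕ) (u : ℝ) : MM (cc e) n (fun _ : Fin n → Fin N => u) = u := by
  have hp := part h.mono h.last one_pos le_rfl
  induction n with
  | zero =>
    unfold MM
    simp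
  | succ n ih =>
    rw [MM_succ, ← Finset.sum_mul, hp.csum, one_mul]
    exact ih

/-- the deviation of a function on the words -/
noncomputable def dev (h : Arcs N e) (a : ℝ) (n m : ℕ) (f : T2 → ℝ) (w : Fin n → Fin N) : ℝ :=
  (∫ p in {p | W h a n ((S a)^[m] p) = w}, f p) - (∏ k, cc e (w k)) * ∫ p, f p

theorem Wm_meas (h : Arcs N e) (a : ℝ) (n m : ℕ) :
    Measurable (fun p => W h a n ((S a)^[m] p)) :=
  (W_meas h a n).comp ((S_cont a).iterate m).measurable

theorem int_word {f : T2 → ℝ} (hf : Integrable f) {n : ℕ} {V : T2 → (Fin n → Fin N)}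
    (hV : Measurable V) (Φ : (Fin n → Fin N) → ℝ) :
    ∫ p, f p * Φ (V p) = ∑ w, Φ w * ∫ p in {p | V p = w}, f p := by
  classical
  have hm : ∀ w, MeasurableSet {p | V p = w} := fun w => hV (measurableSet_singleton w)
  have h1 : ∀ p, f p * Φ (V p) = ∑ w, Φ w * ({p | V p = w}.indicator f p) := by
    intro p
    simp only [Set.indicator_apply, Set.mem_setOf_eq, mul_ite, mul_zero]
    rw [Finset.sum_ite_eq]
    simp [mul_comm]
  simp only [h1]
  rw [integral_finsetSum _ fun w _ => (hf.indicator (hm w)).const_mul _]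
  refine Finset.sum_congr rfl fun w _ => ?_
  rw [integral_const_mul, integral_indicator (hm w)]

theorem l2 (h : Arcs N e) {a : ℝ} (ha : 1 ≤ |a|) (hN : 1 ≤ N) (n : ℕ) {f : T2 → ℝ}
    (hf : MemLp f 2 (volume : Measure T2)) (r J : ℕ) {K : ℝ} (hK : 0 ≤ K)
    (hJK : 1 < J → CC * ((J * n : ℕ) * N / √|a|) ≤ K) :
    ∑ j : Fin J, (∑ w, |dev h a n (r + j * n) f w|) ^ 2 ≤ 4 * (1 + J * K) * ∫ p, f p ^ 2 := by
  have hf1 : Integrable f := hf.integrable (by norm_num)
  set Ψ : Fin J → (Fin n → Fin N) → ℝ := fun j w =>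
    SignType.sign (dev h a n (r + j * n) f w) with hΨ
  have hΨ1 : ∀ j w, |Ψ j w| ≤ 1 := by
    intro j w
    rw [hΨ]
    simp only
    rcases lt_trichotomy (dev h a n (r + j * n) f w) 0 with h1 | h1 | h1
    · rw [sign_neg h1]; simp
    · rw [h1]; simp
    · rw [sign_pos h1]; simp
  set Z : Fin J → (Fin n → Fin N) → ℝ := fun j w => (Ψ j w - MM (cc e) n (Ψ j)) / 2 with hZ
  have hMM : ∀ j, |MM (cc e) n (Ψ j)| ≤ 1 := fun j => MM_le h n (hΨ1 j)
  have hZ1 : ∀ j w, |Z j w| ≤ 1 := by
    intro j w
    rw [hZ]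
    simp only
    rw [abs_div, abs_of_pos (by norm_num : (0:ℝ) < 2), div_le_one (by norm_num)]
    have h1 := abs_sub (Ψ j w) (MM (cc e) n (Ψ j))
    have h2 := hΨ1 j w
    have h3 := hMM j
    linarith
  have hZ0 : ∀ j, MM (cc e) n (Z j) = 0 := by
    intro j
    have h1 : MM (cc e) n (Z j) = (MM (cc e) n (Ψ j) -
        MM (cc e) n (fun _ : Fin n → Fin N => MM (cc e) n (Ψ j))) / 2 := by
      rw [hZ]
      unfold MM
      rw [← Finset.sum_sub_distrib, Finset.sum_div]
      refine Finset.sum_congr rfl fun w _ => ?_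
      ring
    rw [h1, MM_const h, sub_self, zero_div]
  set v : Fin J → T2 → ℝ := fun j p => Z j (W h a n ((S a)^[r + j * n] p)) with hv
  have hvm : ∀ j, Measurable (v j) := fun j => word_meas (Wm_meas h a n _) (Z j)
  have hv1 : ∀ j p, |v j p| ≤ 1 := fun j p => hZ1 j _
  -- correlations
  have hcorr : ∀ i j : Fin J, i < j → |∫ p, v i p * v j p| ≤ K := by
    intro i j hij
    have hJ : 1 < J := by
      have := i.2
      have := j.2
      have : (i : ℕ) < j := hij
      omega
    have hij' : (i : ℕ) < j := hij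
    set m := (j - i : ℕ) * n with hm
    have hnm : n ≤ m := by
      rw [hm]
      exact Nat.le_mul_of_pos_left n (by omega)
    have h1 : ∀ p, v i p * v j p = (fun q => Z i (W h a n q) * Z j (W h a n ((S a)^[m] q)))
        ((S a)^[r + i * n] p) := by
      intro p
      rw [hv]
      simp only
      rw [← iterate_add_apply]
      congr 4
      have : (j : ℕ) * n = i * n + m := by
        rw [hm, ← Nat.add_mul]
        congr 1
        omega
      omega
    have hG : Measurable (fun q => Z i (W h a n q) * Z j (W h a n ((S a)^[m] q))) :=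
      (word_meas (W_meas h a n) (Z i)).mul (word_meas (Wm_meas h a n m) (Z j))
    have h2 : ∫ p, v i p * v j p = ∫ q, Z i (W h a n q) * Z j (W h a n ((S a)^[m] q)) := by
      simp only [h1]
      have h3 := (iter_mp a (r + i * n)).map_eq
      have h4 := integral_map (μ := (volume : Measure T2))
        (iter_mp a (r + i * n)).measurable.aemeasurable
        (f := fun q => Z i (W h a n q) * Z j (W h a n ((S a)^[m] q))) hG.aestronglyMeasurable
      rw [h3] at h4
      exact h4.symm
    rw [h2]
    refine (blocks h ha hN hnm (hZ1 i) (hZ1 j) (hZ0 j)).trans (le_trans ?_ (hJK hJ))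
    refine mul_le_mul_of_nonneg_left ?_ CC_pos.le
    refine div_le_div_of_nonneg_right ?_ (Real.sqrt_nonneg _)
    refine mul_le_mul_of_nonneg_right ?_ (Nat.cast_nonneg N)
    have h5 : m + n ≤ J * n := by
      rw [hm]
      calc (j - i : ℕ) * n + n = ((j - i : ℕ) + 1) * n := by ring
        _ ≤ J * n := Nat.mul_le_mul_right n (by
            have := j.2
            omega)
    exact_mod_cast h5
  have hg : ∀ i j : Fin J, i ≠ j → |∫ p, v i p * v j p| ≤ K := by
    intro i j hij
    rcases lt_or_gt_of_ne hij with h1 | h1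
    · exact hcorr i j h1
    · have h2 := hcorr j i h1
      have h3 : ∫ p, v i p * v j p = ∫ p, v j p * v i p :=
        integral_congr_ae (Eventually.of_forall fun p => mul_comm _ _)
      rw [h3]
      exact h2
  have hB := bessel hvm hv1 hK hg hf
  have hfv : ∀ j, ∫ p, f p * v j p = (∑ w, |dev h a n (r + j * n) f w|) / 2 := by
    intro j
    have h1 := int_word hf1 (Wm_meas h a n (r + j * n)) (Z j)
    have h2 : ∫ p, f p * v j p = ∑ w, Z j w *
        ∫ p in {p | W h a n ((S a)^[r + j * n] p) = w}, f p := h1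
    have h3 : ∀ w, ∫ p in {p | W h a n ((S a)^[r + j * n] p) = w}, f p =
        dev h a n (r + j * n) f w + (∏ k, cc e (w k)) * ∫ p, f p := by
      intro w
      unfold dev
      ring
    have h4 : ∑ w, Z j w * ((∏ k, cc e (w k)) * ∫ p, f p) = 0 := by
      have h5 : ∑ w, Z j w * ((∏ k, cc e (w k)) * ∫ p, f p) = MM (cc e) n (Z j) * ∫ p, f p := by
        unfold MM
        rw [Finset.sum_mul]
        refine Finset.sum_congr rfl fun w _ => ?_
        ring
      rw [h5, hZ0, zero_mul]
    have h6 : ∑ w, dev h a n (r + j * n) f w = 0 := by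
      have h7 : ∑ w, ∫ p in {p | W h a n ((S a)^[r + j * n] p) = w}, f p = ∫ p, f p := by
        have h8 := int_word hf1 (Wm_meas h a n (r + j * n)) (fun _ : Fin n → Fin N => (1:ℝ))
        simp only [mul_one, one_mul] at h8
        exact h8.symm
      have h9 : ∑ w : Fin n → Fin N, (∏ k, cc e (w k)) = 1 := by
        have := MM_const h n 1
        unfold MM at this
        simpa using this
      unfold dev
      rw [Finset.sum_sub_distrib, h7, ← Finset.sum_mul, h9, one_mul, sub_self]
    rw [h2]
    simp only [h3, mul_add, Finset.sum_add_distrib, h4, add_zero]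
    have h10 : ∀ w, Z j w * dev h a n (r + j * n) f w =
        |dev h a n (r + j * n) f w| / 2 - MM (cc e) n (Ψ j) / 2 * dev h a n (r + j * n) f w := by
      intro w
      have h11 : Ψ j w * dev h a n (r + j * n) f w = |dev h a n (r + j * n) f w| := by
        rw [hΨ]
        exact sign_mul_self _
      rw [hZ]
      simp only
      rw [← h11]
      ring
    simp only [h10, Finset.sum_sub_distrib, ← Finset.mul_sum, h6, mul_zero, sub_zero]
    rw [Finset.sum_div]
  simp only [hfv] at hB
  have h12 : ∑ j : Fin J, (∑ w, |dev h a n (r + j * n) f w|) ^ 2 =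
      4 * ∑ j : Fin J, ((∑ w, |dev h a n (r + j * n) f w|) / 2) ^ 2 := by
    rw [Finset.mul_sum]
    refine Finset.sum_congr rfl fun j _ => ?_
    ring
  rw [h12]
  linarith

theorem dev_inv (h : Arcs N e) (a : ℝ) (n m : ℕ) {f : T2 → ℝ}
    (hf : AEStronglyMeasurable f (volume : Measure T2))
    (hinv : ∀ᵐ p, f (S a p) = f p) (w : Fin n → Fin N) :
    dev h a n m f w = dev h a n 0 f w := by
  classical
  have hm : MeasurableSet {p | W h a n p = w} := (W_meas h a n) (measurableSet_singleton w)
  have hmm : MeasurableSet {p | W h a n ((S a)^[m] p) = w} :=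
    (Wm_meas h a n m) (measurableSet_singleton w)
  have h1 : ∀ᵐ p, f ((S a)^[m] p) = f p := by
    induction m with
    | zero => exact Eventually.of_forall fun p => rfl
    | succ m ih =>
      have ih' := ih ((Wm_meas h a n m) (measurableSet_singleton w))
      have h2 : ∀ᵐ p, f ((S a)^[m] (S a p)) = f (S a p) :=
        (S_mp a).quasiMeasurePreserving.ae ih'
      filter_upwards [h2, hinv] with p h3 h4
      rw [iterate_succ_apply, h3, h4]
  unfold dev
  congr 1
  have h2 : ∫ p in {p | W h a n ((S a)^[m] p) = w}, f p =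
      ∫ p, ({p | W h a n p = w}.indicator f) ((S a)^[m] p) := by
    rw [← integral_indicator hmm]
    refine integral_congr_ae ?_
    filter_upwards [h1] with p hp
    simp only [Set.indicator_apply, Set.mem_setOf_eq]
    rw [hp]
  have h3 := integral_map (μ := (volume : Measure T2)) (iter_mp a m).measurable.aemeasurable
    (f := {p | W h a n p = w}.indicator f) (by
      rw [(iter_mp a m).map_eq]
      exact hf.indicator hm)
  rw [(iter_mp a m).map_eq] at h3
  rw [h2, ← h3, integral_indicator hm]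
  rfl

/-- invariant functions -/
theorem inv (h : Arcs N e) {a : ℝ} (ha : 1 ≤ |a|) (hN : 1 ≤ N) {n : ℕ} (hn : 1 ≤ n) {f : T2 → ℝ}
    (hf : MemLp f 2 (volume : Measure T2)) (hinv : ∀ᵐ p, f (S a p) = f p) :
    (∑ w, |dev h a n 0 f w|) ^ 2 ≤ 4 * (1 + 2 * CC) * √(n * N / √|a|) * ∫ p, f p ^ 2 := by
  have hsa : 1 ≤ √|a| := by rw [Real.one_le_sqrt]; exact ha
  have hNr : (1:ℝ) ≤ N := by exact_mod_cast hN
  have hnr : (1:ℝ) ≤ n := by exact_mod_cast hn
  have hC := CC_pos
  have hf0 : 0 ≤ ∫ p, f p ^ 2 := integral_nonneg fun p => sq_nonneg _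
  set x : ℝ := n * N / √|a| with hx
  have hx0 : 0 < x := by positivity
  have hsx : 0 < √x := Real.sqrt_pos.2 hx0
  set Q : ℝ := ∑ w, |dev h a n 0 f w| with hQ
  have hdev : ∀ m, ∑ w, |dev h a n m f w| = Q := by
    intro m
    rw [hQ]
    refine Finset.sum_congr rfl fun w _ => ?_
    rw [dev_inv h a n m hf.1 hinv w]
  rcases le_or_gt 1 x with h1 | h1
  · have h2 := l2 h ha hN n hf 0 1 le_rfl (K := 0) (fun h3 => absurd h3 (by norm_num))
    simp only [hdev] at h2
    simp only [Finset.univ_unique, Finset.sum_const, Finset.card_singleton, one_smul, mul_zero,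
      add_zero, mul_one] at h2
    have h3 : 1 ≤ √x := by rw [Real.one_le_sqrt]; exact h1
    have h4 : 4 ≤ 4 * (1 + 2 * CC) * √x := by nlinarith
    exact h2.trans (mul_le_mul_of_nonneg_right h4 hf0)
  · have h3 : √x < 1 := by
      rw [← Real.sqrt_one]
      exact Real.sqrt_lt_sqrt hx0.le h1
    set J : ℕ := ⌈1 / √x⌉₊ with hJ
    have hJ1 : 1 / √x ≤ J := Nat.le_ceil _
    have hJ2 : (J : ℝ) ≤ 2 / √x := by
      have h5 := (Nat.ceil_lt_add_one (by positivity : 0 ≤ 1 / √x)).le
      have h6 : 1 ≤ 1 / √x := by rw [one_le_div hsx]; exact h3.le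
      calc (J : ℝ) ≤ 1 / √x + 1 := h5
        _ ≤ 1 / √x + 1 / √x := by linarith
        _ = _ := by ring
    have hJ0 : (0:ℝ) < J := lt_of_lt_of_le (by positivity) hJ1
    have h2 := l2 h ha hN n hf 0 J (K := CC * (J * x)) (by positivity) (fun _ => by
      refine le_of_eq ?_
      rw [hx]
      push_cast
      ring)
    simp only [hdev] at h2
    rw [Finset.sum_const, Finset.card_univ, Fintype.card_fin, nsmul_eq_mul] at h2
    have hxx : √x * √x = x := Real.mul_self_sqrt hx0.le
    have h7 : Q ^ 2 ≤ 4 * (1 / J + CC * (J * x)) * ∫ p, f p ^ 2 := by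
      have h8 : (J : ℝ) * (4 * (1 / J + CC * (J * x)) * ∫ p, f p ^ 2) =
          4 * (1 + J * (CC * (J * x))) * ∫ p, f p ^ 2 := by
        field_simp
      exact le_of_mul_le_mul_left (h2.trans h8.ge) hJ0
    refine h7.trans (mul_le_mul_of_nonneg_right ?_ hf0)
    have h9 : 1 / (J : ℝ) ≤ √x := by
      rw [div_le_iff₀ hJ0]
      rw [div_le_iff₀ hsx] at hJ1
      linarith
    have h10 : (J : ℝ) * x ≤ 2 * √x := by
      calc (J : ℝ) * x ≤ 2 / √x * x := mul_le_mul_of_nonneg_right hJ2 hx0.le
        _ = 2 / √x * (√x * √x) := by rw [hxx]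
        _ = 2 * √x := by field_simp
    have h11 : CC * (J * x) ≤ CC * (2 * √x) := mul_le_mul_of_nonneg_left h10 hC.le
    calc 4 * (1 / (J : ℝ) + CC * (J * x)) ≤ 4 * (√x + CC * (2 * √x)) := by linarith
      _ = _ := by ring

/-- entropy from total variation -/
theorem entropy {ι : Type*} [Fintype ι] {p : ι → ℝ} (hp0 : ∀ i, 0 ≤ p i) (hp1 : ∀ i, p i ≤ 1)
    {M K : ℝ} (hM : 2 ≤ M) (hcard : (Fintype.card ι : ℝ) = M) (hK : ∑ i, |p i - 1 / M| ≤ K) :
    (1 - K) * (log M - log 2) ≤ ∑ i, negMulLog (p i) := by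
  have hM0 : 0 < M := by linarith
  set L := log M - log 2 with hL
  have hL0 : 0 ≤ L := by
    rw [hL]
    have := Real.log_le_log (by norm_num) hM
    linarith
  have h1 : ∀ i, L * (p i - |p i - 1 / M| - (p i - 1 / M)) ≤ negMulLog (p i) := by
    intro i
    rcases le_or_gt (p i) (2 / M) with h2 | h2
    · have h3 : L * p i ≤ negMulLog (p i) := by
        rcases eq_or_lt_of_le (hp0 i) with h4 | h4
        · rw [← h4]; simp
        · have h5 := Real.log_le_log h4 h2
          rw [Real.log_div (by norm_num) hM0.ne'] at h5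
          unfold negMulLog
          have h6 : p i * log (p i) ≤ p i * (log 2 - log M) :=
            mul_le_mul_of_nonneg_left h5 h4.le
          rw [hL]
          linarith
      have h4 := neg_abs_le (p i - 1 / M)
      have h5 : L * (p i - |p i - 1 / M| - (p i - 1 / M)) ≤ L * p i :=
        mul_le_mul_of_nonneg_left (by linarith) hL0
      linarith
    · have h3 : 1 / M ≤ p i := by
        have : 1 / M ≤ 2 / M := by
          apply div_le_div_of_nonneg_right _ hM0.le
          norm_num
        linarith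
      have h4 := negMulLog_nonneg (hp0 i) (hp1 i)
      rw [abs_of_nonneg (by linarith)]
      have h5 : p i - (p i - 1 / M) - (p i - 1 / M) ≤ 0 := by
        have : 2 / M = 2 * (1 / M) := by ring
        rw [this] at h2
        linarith
      have h6 := mul_nonpos_of_nonneg_of_nonpos hL0 h5
      linarith
  refine le_trans ?_ (Finset.sum_le_sum fun i _ => h1 i)
  rw [← Finset.mul_sum]
  have h2 : ∑ i, (p i - |p i - 1 / M| - (p i - 1 / M)) = 1 - ∑ i, |p i - 1 / M| := by
    have h3 : ∀ i, p i - |p i - 1 / M| - (p i - 1 / M) = 1 / M - |p i - 1 / M| := fun i => by ring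
    simp only [h3]
    rw [Finset.sum_sub_distrib, Finset.sum_const, Finset.card_univ, nsmul_eq_mul, hcard,
      mul_one_div_cancel hM0.ne']
  rw [h2, mul_comm]
  exact mul_le_mul_of_nonneg_left (by linarith) hL0

end Run7.h408.SM
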