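import Mathlib

/-!
Abstract multiresolution argument in a Hilbert space.
-/

set_option autoImplicit false

namespace Run7.h408.Abs

open scoped InnerProductSpace

variable {H : Type*} [NormedAddCommGroup H] [InnerProductSpace ℂ H]

/-- The multiresolution argument. -/
theorem mra (D : H ≃ₗᵢ[ℂ] H) (V : Submodule ℂ H) [V.HasOrthogonalProjection]
    {ι : Type*} (e : ι → H)
    (hV : ∀ v ∈ V, D.symm v ∈ V)
    (he1 : ∀ i, D.symm (e i) ∈ V)
    (he2 : ∀ i, ∀ v ∈ V, ⟪v, e i⟫_ℂ = 0)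
    (he3 : Orthonormal ℂ e)
    (he4 : ∀ u, D.symm u ∈ V → (∀ v ∈ V, ⟪v, u⟫_ℂ = 0) → (∀ i, ⟪e i, u⟫_ℂ = 0) → u = 0)
    (hc : ∀ u, (∀ j : ℕ, (D ^ (j : ℤ) : H ≃ₗᵢ[ℂ] H) u ∈ V) → u = 0)
    (hd : ∀ u, ∀ ε > 0, ∃ j : ℕ, ∃ v ∈ V, ‖u - (D ^ (j : ℤ) : H ≃ₗᵢ[ℂ] H) v‖ < ε) :
    Orthonormal ℂ (fun p : ℤ × ι => (D ^ p.1 : H ≃ₗᵢ[ℂ] H) (e p.2)) ∧
    ∀ u, (∀ (j : ℤ) (i : ι), ⟪(D ^ j : H ≃ₗᵢ[ℂ] H) (e i), u⟫_ℂ = 0) → u = 0 := by
  have hadd : ∀ (j k : ℤ) (x : H), (D ^ (j + k) : H ≃ₗᵢ[ℂ] H) x =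
      (D ^ j : H ≃ₗᵢ[ℂ] H) ((D ^ k : H ≃ₗᵢ[ℂ] H) x) := by
    intro j k x; rw [zpow_add]; rfl
  have hzero : ∀ x : H, (D ^ (0 : ℤ) : H ≃ₗᵢ[ℂ] H) x = x := by intro x; rw [zpow_zero]; rfl
  have hone : ∀ x : H, (D ^ (1 : ℤ) : H ≃ₗᵢ[ℂ] H) x = D x := by intro x; rw [zpow_one]
  have hmone : ∀ x : H, (D ^ (-1 : ℤ) : H ≃ₗᵢ[ℂ] H) x = D.symm x := by
    intro x; rw [zpow_neg_one]; rfl
  have hneg : ∀ (j : ℤ) (x : H), (D ^ (-j) : H ≃ₗᵢ[ℂ] H) ((D ^ j : H ≃ₗᵢ[ℂ] H) x) = x := by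
    intro j x; rw [← hadd, neg_add_cancel, hzero]
  have hneg' : ∀ (j : ℤ) (x : H), (D ^ j : H ≃ₗᵢ[ℂ] H) ((D ^ (-j) : H ≃ₗᵢ[ℂ] H) x) = x := by
    intro j x; rw [← hadd, add_neg_cancel, hzero]
  have hinn : ∀ (j : ℤ) (x y : H), ⟪(D ^ j : H ≃ₗᵢ[ℂ] H) x, y⟫_ℂ =
      ⟪x, (D ^ (-j) : H ≃ₗᵢ[ℂ] H) y⟫_ℂ := by
    intro j x y
    conv_lhs => rw [← hneg' j y]
    exact LinearIsometryEquiv.inner_map_map _ _ _
  -- negative powers preserve `V`
  have hVn : ∀ (m : ℕ), ∀ v ∈ V, (D ^ (-(m : ℤ)) : H ≃ₗᵢ[ℂ] H) v ∈ V := by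
    intro m
    induction m with
    | zero => intro v hv; simpa [hzero] using hv
    | succ m ih =>
      intro v hv
      have : (-((m + 1 : ℕ) : ℤ)) = -1 + -(m : ℤ) := by push_cast; ring
      rw [this, hadd, hmone]
      exact hV _ (ih v hv)
  have horth : ∀ (m : ℕ) (i i' : ι), ⟪e i, (D ^ ((m : ℤ) + 1) : H ≃ₗᵢ[ℂ] H) (e i')⟫_ℂ = 0 := by
    intro m i i'
    have h1 : (D ^ (-((m : ℤ) + 1)) : H ≃ₗᵢ[ℂ] H) (e i) ∈ V := by
      have : -((m : ℤ) + 1) = -(m : ℤ) + -1 := by ring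
      rw [this, hadd, hmone]
      exact hVn m _ (he1 i)
    have h2 := he2 i' _ h1
    rw [hinn, neg_neg] at h2
    exact h2
  constructor
  · classical
    rw [orthonormal_iff_ite] at he3 ⊢
    rintro ⟨j, i⟩ ⟨j', i'⟩
    simp only [Prod.mk.injEq]
    have hle : ∀ (j j' : ℤ) (i i' : ι), j < j' →
        ⟪(D ^ j : H ≃ₗᵢ[ℂ] H) (e i), (D ^ j' : H ≃ₗᵢ[ℂ] H) (e i')⟫_ℂ = 0 := by
      intro j j' i i' hlt
      obtain ⟨m, hm⟩ := Int.exists_add_of_le (Int.add_one_le_iff.2 hlt)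
      rw [hinn, ← hadd]
      have : -j + j' = (m : ℤ) + 1 := by rw [hm]; ring
      rw [this]
      exact horth m i i'
    rcases lt_trichotomy j j' with h | h | h
    · rw [hle j j' i i' h, if_neg]; rintro ⟨h1, _⟩; omega
    · subst h
      rw [LinearIsometryEquiv.inner_map_map, he3 i i']
      simp
    · rw [← inner_conj_symm, hle j' j i' i h, map_zero, if_neg]; rintro ⟨h1, _⟩; omega
  · intro u hu
    -- the projections onto `V_j`
    let q : H → H := fun x => V.starProjection x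
    have hqV : ∀ x, q x ∈ V := fun x => V.starProjection_apply_mem x
    have hqi : ∀ v ∈ V, ∀ x, ⟪v, q x⟫_ℂ = ⟪v, x⟫_ℂ := by
      intro v hv x
      have h1 : ⟪v, x - q x⟫_ℂ = 0 := by
        have := V.sub_starProjection_mem_orthogonal x
        exact (Submodule.mem_orthogonal _ _).1 this v hv
      rw [inner_sub_right, sub_eq_zero] at h1
      exact h1.symm
    have key : ∀ u', (∀ i, ⟪e i, u'⟫_ℂ = 0) → D (q (D.symm u')) = q u' := by
      intro u' hu'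
      rw [← sub_eq_zero]
      apply he4
      · rw [map_sub, LinearIsometryEquiv.symm_apply_apply]
        exact V.sub_mem (hqV _) (hV _ (hqV _))
      · intro v hv
        rw [inner_sub_right, hqi v hv]
        have h1 : ⟪v, D (q (D.symm u'))⟫_ℂ = ⟪v, u'⟫_ℂ := by
          have h2 : v = D (D.symm v) := (LinearIsometryEquiv.apply_symm_apply D v).symm
          conv_lhs => rw [h2]
          rw [LinearIsometryEquiv.inner_map_map, hqi _ (hV v hv),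
            ← LinearIsometryEquiv.inner_map_map D, LinearIsometryEquiv.apply_symm_apply,
            LinearIsometryEquiv.apply_symm_apply]
        rw [h1, sub_self]
      · intro i
        rw [inner_sub_right]
        have h1 : ⟪e i, D (q (D.symm u'))⟫_ℂ = 0 := by
          have h2 : e i = D (D.symm (e i)) := (LinearIsometryEquiv.apply_symm_apply D _).symm
          rw [h2, LinearIsometryEquiv.inner_map_map, hqi _ (he1 i),
            ← LinearIsometryEquiv.inner_map_map D, LinearIsometryEquiv.apply_symm_apply,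
            LinearIsometryEquiv.apply_symm_apply]
          exact hu' i
        have h3 : ⟪e i, q u'⟫_ℂ = 0 := by
          rw [← inner_conj_symm, he2 i _ (hqV u'), map_zero]
        rw [h1, h3, sub_zero]
    -- the projections do not depend on `j`
    let p : ℤ → H := fun j => (D ^ j : H ≃ₗᵢ[ℂ] H) (q ((D ^ (-j) : H ≃ₗᵢ[ℂ] H) u))
    have hp : ∀ j, p (j + 1) = p j := by
      intro j
      have h1 := key ((D ^ (-j) : H ≃ₗᵢ[ℂ] H) u) (by
        intro i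
        have := hu j i
        rw [hinn] at this
        exact this)
      simp only [p]
      rw [hadd j 1, hone]
      have h2 : -(j + 1) = -1 + -j := by ring
      rw [h2, hadd, hmone, h1]
    have hp0 : ∀ j, p j = p 0 := by
      intro j
      induction j using Int.induction_on with
      | zero => rfl
      | succ j ih => rw [hp]; exact ih
      | pred j ih => rw [← ih, ← hp (-(j : ℤ) - 1), sub_add_cancel]
    have hz : p 0 = 0 := by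
      apply hc
      intro j
      rw [← hp0 (-(j : ℤ))]
      simp only [p]
      have := hneg' (j : ℤ) (q ((D ^ (- -(j : ℤ)) : H ≃ₗᵢ[ℂ] H) u))
      rw [this]
      exact hqV _
    have hq0 : ∀ j : ℤ, q ((D ^ (-j) : H ≃ₗᵢ[ℂ] H) u) = 0 := by
      intro j
      have h1 := hp0 j
      rw [hz] at h1
      simp only [p] at h1
      exact (LinearIsometryEquiv.map_eq_zero_iff _).1 h1
    by_contra hne
    have hpos : 0 < ‖u‖ := norm_pos_iff.2 hne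
    obtain ⟨j, v, hv, hlt⟩ := hd u ‖u‖ hpos
    have h1 : ⟪v, (D ^ (-(j : ℤ)) : H ≃ₗᵢ[ℂ] H) u⟫_ℂ = 0 := by
      rw [← hqi v hv, hq0, inner_zero_right]
    have h2 : ⟪(D ^ (j : ℤ) : H ≃ₗᵢ[ℂ] H) v, u⟫_ℂ = 0 := by rw [hinn]; exact h1
    have h3 : ‖u - (D ^ (j : ℤ) : H ≃ₗᵢ[ℂ] H) v‖ ^ 2 =
        ‖u‖ ^ 2 + ‖(D ^ (j : ℤ) : H ≃ₗᵢ[ℂ] H) v‖ ^ 2 := by
      rw [@norm_sub_sq ℂ]
      have : ⟪u, (D ^ (j : ℤ) : H ≃ₗᵢ[ℂ] H) v⟫_ℂ = 0 := by
        rw [← inner_conj_symm, h2, map_zero]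
      rw [this]; simp
    have h4 : ‖u‖ ^ 2 ≤ ‖u - (D ^ (j : ℤ) : H ≃ₗᵢ[ℂ] H) v‖ ^ 2 := by
      rw [h3]; nlinarith [sq_nonneg ‖(D ^ (j : ℤ) : H ≃ₗᵢ[ℂ] H) v‖]
    have h5 := (sq_le_sq₀ (norm_nonneg _) (norm_nonneg _)).1 h4
    linarith

end Run7.h408.Abs
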