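import Pool.Agent.Run7.h408.Freq

/-!
Periodization of integrable functions and Fourier coefficients.
-/

set_option autoImplicit false

open MeasureTheory FourierTransform Filter Topology
open scoped ENNReal ContDiff InnerProductSpace

namespace Run7.h408

variable {n : ℕ}

/-! ### the torus -/

/-- projection to the torus -/
def pr (ξ : E n) : UnitAddTorus (Fin n) := fun d => ((ξ d : ℝ) : UnitAddCircle)

lemma isOpenQuotientMap_pr : IsOpenQuotientMap (pr : E n → UnitAddTorus (Fin n)) := by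
  have h1 : IsOpenQuotientMap (Pi.map (fun (_ : Fin n) (x : ℝ) => (x : UnitAddCircle))) :=
    IsOpenQuotientMap.piMap (fun _ => QuotientAddGroup.isOpenQuotientMap_mk)
  have h2 : IsOpenQuotientMap (WithLp.ofLp : E n → (Fin n → ℝ)) :=
    (PiLp.homeomorph 2 (fun _ : Fin n => ℝ)).isOpenQuotientMap
  exact h1.comp h2

lemma continuous_pr : Continuous (pr : E n → UnitAddTorus (Fin n)) :=
  isOpenQuotientMap_pr.continuous

lemma pr_add_zv (ξ : E n) (k : Fin n → ℤ) : pr (ξ + zv k) = pr ξ := by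
  funext d
  unfold pr
  have h1 : (ξ + zv k) d = ξ d + k d := rfl
  rw [h1, AddCircle.coe_add]
  have h2 : ((k d : ℝ) : UnitAddCircle) = 0 := by
    rw [AddCircle.coe_eq_zero_iff]
    exact ⟨k d, by simp⟩
  rw [h2, add_zero]

lemma exists_zv_of_pr_eq {ξ η : E n} (h : pr ξ = pr η) : ∃ k : Fin n → ℤ, η = ξ + zv k := by
  have h1 : ∀ d, ∃ k : ℤ, η d = ξ d + k := by
    intro d
    have h2 := congrFun h d
    unfold pr at h2
    have h3 : (((η d - ξ d : ℝ)) : UnitAddCircle) = 0 := by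
      rw [AddCircle.coe_sub, h2, sub_self]
    rw [AddCircle.coe_eq_zero_iff] at h3
    obtain ⟨k, hk⟩ := h3
    refine ⟨k, ?_⟩
    simp only [zsmul_eq_mul, mul_one] at hk
    linarith
  choose k hk using h1
  refine ⟨k, ?_⟩
  ext d
  exact hk d

lemma ee_eq (k : Fin n → ℤ) (ξ : E n) : ee k ξ = UnitAddTorus.mFourier k (pr ξ) := by
  unfold ee
  have h1 : UnitAddTorus.mFourier k (pr ξ) = ∏ d, fourier (k d) ((ξ d : ℝ) : UnitAddCircle) := rfl
  rw [h1]
  simp only [fourier_coe_apply]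
  rw [← Complex.exp_sum]
  congr 1
  have h2 : inner ℝ (zv k) ξ = ∑ d, (k d : ℝ) * ξ d := by
    simp [EuclideanSpace.inner_eq_star_dotProduct, dotProduct, zv, mul_comm]
  rw [h2]
  push_cast
  rw [Finset.mul_sum, Finset.sum_mul]
  apply Finset.sum_congr rfl
  intro d _
  ring

/-- descent of a continuous periodic function -/
lemma exists_desc {G : E n → ℂ} (hG : Continuous G)
    (hper : ∀ (ξ : E n) (k : Fin n → ℤ), G (ξ + zv k) = G ξ) :
    ∃ g : C(UnitAddTorus (Fin n), ℂ), ∀ ξ, g (pr ξ) = G ξ := by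
  have hf : IsQuotientMap (⟨pr, continuous_pr⟩ : C(E n, UnitAddTorus (Fin n))) :=
    isOpenQuotientMap_pr.isQuotientMap
  have hfac : Function.FactorsThrough (⟨G, hG⟩ : C(E n, ℂ))
      (⟨pr, continuous_pr⟩ : C(E n, UnitAddTorus (Fin n))) := by
    intro ξ η h
    obtain ⟨k, rfl⟩ := exists_zv_of_pr_eq h
    exact (hper ξ k).symm
  refine ⟨hf.lift ⟨G, hG⟩ hfac, fun ξ => ?_⟩
  have := hf.lift_comp ⟨G, hG⟩ hfac
  exact congrArg (fun F : C(E n, ℂ) => F ξ) this

lemma bdd_of_per {G : E n → ℂ} (hG : Continuous G)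
    (hper : ∀ (ξ : E n) (k : Fin n → ℤ), G (ξ + zv k) = G ξ) : ∃ C, ∀ ξ, ‖G ξ‖ ≤ C := by
  obtain ⟨g, hg⟩ := exists_desc hG hper
  exact ⟨‖g‖, fun ξ => by rw [← hg]; exact g.norm_coe_le_norm _⟩

/-- integral over the cube -/
lemma integral_cube (g : UnitAddTorus (Fin n) → ℂ) :
    ∫ ξ in cube n, g (pr ξ) =
      ∫ x, g x ∂(Measure.pi fun _ : Fin n => (AddCircle.haarAddCircle : Measure UnitAddCircle)) := by
  have h0 : ∫ x, g x ∂(Measure.pi fun _ : Fin n => (AddCircle.haarAddCircle :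
      Measure UnitAddCircle)) = _ := UnitAddTorus.integral_preimage g 0
  rw [h0]
  have h1 := (PiLp.volume_preserving_ofLp (Fin n)).setIntegral_preimage_emb
    (MeasurableEquiv.toLp 2 (Fin n → ℝ)).symm.measurableEmbedding
    (fun x : Fin n → ℝ => g (fun i => (x i : UnitAddCircle)))
    {x : Fin n → ℝ | ∀ i, x i ∈ Set.Ioc ((0 : Fin n → ℝ) i) ((0 : Fin n → ℝ) i + 1)}
  rw [← h1]
  have h2 : cube n = WithLp.ofLp ⁻¹' {x : Fin n → ℝ | ∀ i, x i ∈ Set.Ioc ((0 : Fin n → ℝ) i)
      ((0 : Fin n → ℝ) i + 1)} := by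
    ext ξ
    simp [cube]
  rw [← h2]
  rfl

lemma measurableSet_cube : MeasurableSet (cube n) := by
  have : cube n = ⋂ d, (fun ξ : E n => ξ d) ⁻¹' (Set.Ioc (0 : ℝ) 1) := by
    ext ξ; simp [cube]
  rw [this]
  apply MeasurableSet.iInter
  intro d
  exact (EuclideanSpace.proj d : E n →L[ℝ] ℝ).continuous.measurable measurableSet_Ioc

/-- integral of a character over the unit cube -/
theorem cube_ee (k : Fin n → ℤ) : ∫ ξ in cube n, ee k ξ = if k = 0 then 1 else 0 := by
  simp only [ee_eq]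
  rw [integral_cube (fun x => UnitAddTorus.mFourier k x)]
  have h1 := (orthonormal_iff_ite.1 (UnitAddTorus.orthonormal_mFourier (d := Fin n))) 0 k
  rw [ContinuousMap.inner_toLp] at h1
  simp only [UnitAddTorus.mFourier_zero] at h1
  simp only [ContinuousMap.one_apply, map_one, mul_one] at h1
  refine Eq.trans h1 ?_
  simp only [eq_comm]

/-! ### tiles and unfolding -/

/-- translated cubes -/
def tile (m : Fin n → ℤ) : Set (E n) := {ξ : E n | ∀ d, ξ d ∈ Set.Ioc (m d : ℝ) (m d + 1)}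

lemma tile_zero : tile (0 : Fin n → ℤ) = cube n := by
  ext ξ; simp [tile, cube]

lemma measurableSet_tile (m : Fin n → ℤ) : MeasurableSet (tile m) := by
  have : tile m = ⋂ d, (fun ξ : E n => ξ d) ⁻¹' (Set.Ioc (m d : ℝ) (m d + 1)) := by
    ext ξ; simp [tile]
  rw [this]
  apply MeasurableSet.iInter
  intro d
  exact (EuclideanSpace.proj d : E n →L[ℝ] ℝ).continuous.measurable measurableSet_Ioc

lemma mem_tile_iff (m : Fin n → ℤ) (ξ : E n) : ξ ∈ tile m ↔ ∀ d, ⌈ξ d⌉ = m d + 1 := by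
  unfold tile
  constructor
  · intro h d
    rw [Int.ceil_eq_iff]
    have := h d
    push_cast
    exact ⟨by linarith [this.1], this.2⟩
  · intro h d
    have := h d
    rw [Int.ceil_eq_iff] at this
    push_cast at this
    exact ⟨by linarith [this.1], this.2⟩

lemma disjoint_tile : Pairwise (Function.onFun Disjoint (tile : (Fin n → ℤ) → Set (E n))) := by
  intro m m' hne
  rw [Function.onFun, Set.disjoint_left]
  intro ξ h1 h2
  rw [mem_tile_iff] at h1 h2
  apply hne
  funext d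
  have := (h1 d).symm.trans (h2 d)
  omega

lemma iUnion_tile : (⋃ m : Fin n → ℤ, tile m) = Set.univ := by
  rw [Set.eq_univ_iff_forall]
  intro ξ
  rw [Set.mem_iUnion]
  refine ⟨fun d => ⌈ξ d⌉ - 1, ?_⟩
  rw [mem_tile_iff]
  intro d
  ring

lemma preimage_tile (k m : Fin n → ℤ) : (fun ξ : E n => ξ + zv m) ⁻¹' (tile (k + m)) = tile k := by
  ext ξ
  simp only [Set.mem_preimage, tile, Set.mem_ofPred_eq]
  apply forall_congr'
  intro d
  have h1 : (ξ + zv m) d = ξ d + m d := rfl
  rw [h1]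
  simp only [Pi.add_apply, Int.cast_add, Set.mem_Ioc]
  constructor
  · rintro ⟨h2, h3⟩
    constructor <;> linarith
  · rintro ⟨h2, h3⟩
    constructor <;> linarith

lemma mp_add (m : Fin n → ℤ) : MeasurePreserving (fun ξ : E n => ξ + zv m) volume volume :=
  measurePreserving_add_right volume (zv m)

lemma me_add (m : Fin n → ℤ) : MeasurableEmbedding (fun ξ : E n => ξ + zv m) :=
  (MeasurableEquiv.addRight (zv m)).measurableEmbedding

lemma tsum_lintegral_tile (f : E n → ℝ≥0∞) (k : Fin n → ℤ) :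
    ∑' m : Fin n → ℤ, ∫⁻ ξ in tile k, f (ξ + zv m) = ∫⁻ ξ, f ξ := by
  have h1 : ∀ m : Fin n → ℤ, ∫⁻ ξ in tile k, f (ξ + zv m) = ∫⁻ ξ in tile (k + m), f ξ := by
    intro m
    rw [← (mp_add m).setLIntegral_comp_preimage_emb (me_add m) f (tile (k + m)), preimage_tile]
  simp only [h1]
  have h2 := (Equiv.addLeft k).tsum_eq (fun m : Fin n → ℤ => ∫⁻ ξ in tile m, f ξ)
  simp only [Equiv.coe_addLeft] at h2
  rw [h2]
  rw [← lintegral_iUnion measurableSet_tile disjoint_tile, iUnion_tile, Measure.restrict_univ]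

lemma tsum_eLpNorm_tile {f : E n → ℂ} (hf : Integrable f) (k : Fin n → ℤ) :
    ∑' m : Fin n → ℤ, eLpNorm (fun ξ => f (ξ + zv m)) 1 (volume.restrict (tile k)) ≠ ⊤ := by
  simp only [eLpNorm_one_eq_lintegral_enorm]
  rw [tsum_lintegral_tile (fun ξ => ‖f ξ‖ₑ) k]
  exact hf.2.ne

lemma integrable_shift {f : E n → ℂ} (hf : Integrable f) (m : Fin n → ℤ) :
    Integrable (fun ξ : E n => f (ξ + zv m)) := (mp_add m).integrable_comp_of_integrable hf

lemma ae_of_tile {p : E n → Prop} (h : ∀ k : Fin n → ℤ, ∀ᵐ ξ ∂(volume.restrict (tile k)), p ξ) :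
    ∀ᵐ ξ : E n, p ξ := by
  have := (ae_restrict_iUnion_iff (μ := (volume : Measure (E n))) tile p).2 h
  rwa [iUnion_tile, Measure.restrict_univ] at this

lemma per_ae {f : E n → ℂ} (hf : Integrable f) :
    ∀ᵐ ξ : E n, Summable (fun m : Fin n → ℤ => ‖f (ξ + zv m)‖) := by
  apply ae_of_tile
  intro k
  exact summable_norm_of_tsum_eLpNorm_ne_top le_rfl
    (fun m => (integrable_shift hf m).aestronglyMeasurable.restrict) (tsum_eLpNorm_tile hf k)

lemma per_integrableOn {f : E n → ℂ} (hf : Integrable f) (k : Fin n → ℤ) :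
    IntegrableOn (fun ξ => ∑' m : Fin n → ℤ, f (ξ + zv m)) (tile k) := by
  have h1 : ∀ m : Fin n → ℤ, MemLp (fun ξ => f (ξ + zv m)) 1 (volume.restrict (tile k)) := by
    intro m
    exact memLp_one_iff_integrable.2 (integrable_shift hf m).restrict
  let g : (Fin n → ℤ) → Lp ℂ 1 (volume.restrict (tile k)) := fun m => (h1 m).toLp _
  have h2 : ∑' m, ‖g m‖ₑ ≠ ⊤ := by
    have h3 : ∀ m, ‖g m‖ₑ = eLpNorm (fun ξ => f (ξ + zv m)) 1 (volume.restrict (tile k)) := by
      intro m
      rw [Lp.enorm_def]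
      exact eLpNorm_congr_ae (h1 m).coeFn_toLp
    simp only [h3]
    exact tsum_eLpNorm_tile hf k
  have h3 := Lp.coeFn_tsum h2
  have h4 : Integrable (⇑(∑' m, g m)) (volume.restrict (tile k)) :=
    memLp_one_iff_integrable.1 (Lp.memLp _)
  apply h4.congr
  have h5 : ∀ᵐ ξ ∂(volume.restrict (tile k)), ∀ m, g m ξ = f (ξ + zv m) := by
    rw [ae_all_iff]
    intro m
    exact (h1 m).coeFn_toLp
  filter_upwards [h3, h5] with ξ h6 h7
  rw [h6]
  simp only [h7]

lemma integral_per {f : E n → ℂ} (hf : Integrable f) (k : Fin n → ℤ) :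
    ∫ ξ in tile k, ∑' m : Fin n → ℤ, f (ξ + zv m) = ∫ ξ, f ξ := by
  have h1 : ∀ (g : E n → ℂ) (m : Fin n → ℤ), ∫ ξ in tile k, g (ξ + zv m) =
      ∫ ξ in tile (k + m), g ξ := by
    intro g m
    rw [← (mp_add m).setIntegral_preimage_emb (me_add m) g (tile (k + m)), preimage_tile]
  have h1' : ∀ (g : E n → ℝ) (m : Fin n → ℤ), ∫ ξ in tile k, g (ξ + zv m) =
      ∫ ξ in tile (k + m), g ξ := by
    intro g m
    rw [← (mp_add m).setIntegral_preimage_emb (me_add m) g (tile (k + m)), preimage_tile]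
  have h2 : Summable (fun m : Fin n → ℤ => ∫ ξ in tile k, ‖f (ξ + zv m)‖) := by
    simp only [h1' (fun ξ => ‖f ξ‖)]
    have h3 := hasSum_integral_iUnion (μ := (volume : Measure (E n))) measurableSet_tile
      disjoint_tile (f := fun ξ => ‖f ξ‖) hf.norm.integrableOn
    exact ((Equiv.addLeft k).summable_iff
      (f := fun m : Fin n → ℤ => ∫ ξ in tile m, ‖f ξ‖)).2 h3.summable
  have h3 := hasSum_integral_of_summable_integral_norm
    (fun m => (integrable_shift hf m).restrict (s := tile k)) h2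
  simp only [h1 f] at h3
  have h4 := hasSum_integral_iUnion (μ := (volume : Measure (E n))) measurableSet_tile
      disjoint_tile (f := f) hf.integrableOn
  rw [iUnion_tile, Measure.restrict_univ] at h4
  have h5 := (Equiv.addLeft k).hasSum_iff
      (f := fun m : Fin n → ℤ => ∫ ξ in tile m, f ξ) |>.2 h4
  exact h3.unique h5

/-- unfolding -/
theorem integral_mul_periodic (F : E n → ℂ) (hF : Integrable F) (c : ℂ)
    (h : ∀ᵐ ξ : E n, ∑' m : Fin n → ℤ, F (ξ + zv m) = c)
    (H : E n → ℂ) (hH : Continuous H) (hper : ∀ (ξ : E n) (k : Fin n → ℤ), H (ξ + zv k) = H ξ) :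
    ∫ ξ, F ξ * H ξ = c * ∫ ξ in cube n, H ξ := by
  obtain ⟨C, hC⟩ := bdd_of_per hH hper
  have h1 : Integrable (fun ξ => F ξ * H ξ) :=
    hF.mul_bdd hH.aestronglyMeasurable (ae_of_all _ hC)
  rw [← integral_per h1 0, tile_zero, ← integral_const_mul]
  apply integral_congr_ae
  filter_upwards [ae_restrict_of_ae h] with ξ hξ
  simp only [hper]
  rw [tsum_mul_right, hξ]

lemma cube_lt_top : volume (cube n) ≠ ⊤ := by
  have hb : Bornology.IsBounded (cube n) := by
    rw [isBounded_iff_forall_norm_le]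
    refine ⟨Real.sqrt n, fun ξ hξ => ?_⟩
    rw [EuclideanSpace.norm_eq]
    apply Real.sqrt_le_sqrt
    calc ∑ i, ‖ξ i‖ ^ 2 ≤ ∑ _i : Fin n, (1 : ℝ) := by
          apply Finset.sum_le_sum
          intro i _
          have h1 := hξ i
          rw [Set.mem_Ioc] at h1
          rw [Real.norm_eq_abs, abs_of_pos h1.1]
          nlinarith [h1.1, h1.2]
      _ = n := by simp
  exact hb.measure_lt_top.ne

lemma integrableOn_cube {G : E n → ℂ} (hG : Continuous G)
    (hper : ∀ (ξ : E n) (k : Fin n → ℤ), G (ξ + zv k) = G ξ) : IntegrableOn G (cube n) := by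
  obtain ⟨C, hC⟩ := bdd_of_per hG hper
  have : IsFiniteMeasure ((volume : Measure (E n)).restrict (cube n)) :=
    isFiniteMeasure_restrict.2 cube_lt_top
  exact Integrable.of_bound hG.aestronglyMeasurable C (ae_of_all _ hC)

lemma continuous_pairing (μ : Measure (E n)) (F : E n → ℂ) (hF : Integrable F μ) :
    Continuous (fun g : C(UnitAddTorus (Fin n), ℂ) => ∫ ξ, F ξ * g (pr ξ) ∂μ) := by
  have hint : ∀ g : C(UnitAddTorus (Fin n), ℂ), Integrable (fun ξ => F ξ * g (pr ξ)) μ := by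
    intro g
    exact hF.mul_bdd (g.continuous.comp continuous_pr).aestronglyMeasurable
      (ae_of_all _ (fun ξ => g.norm_coe_le_norm (pr ξ)))
  let Φ : C(UnitAddTorus (Fin n), ℂ) →ₗ[ℂ] ℂ :=
    { toFun := fun g => ∫ ξ, F ξ * g (pr ξ) ∂μ
      map_add' := by
        intro a b
        change ∫ ξ, F ξ * (a (pr ξ) + b (pr ξ)) ∂μ = _
        simp only [mul_add]
        rw [integral_add (hint a) (hint b)]
      map_smul' := by
        intro a g
        change ∫ ξ, F ξ * (a * g (pr ξ)) ∂μ = a * _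
        have e1 : ∀ ξ, F ξ * (a * g (pr ξ)) = a * (F ξ * g (pr ξ)) := fun ξ => by ring
        simp only [e1]
        rw [integral_const_mul] }
  have h1 : ∀ g, ‖Φ g‖ ≤ (∫ ξ, ‖F ξ‖ ∂μ) * ‖g‖ := by
    intro g
    calc ‖Φ g‖ ≤ ∫ ξ, ‖F ξ * g (pr ξ)‖ ∂μ := norm_integral_le_integral_norm _
      _ ≤ ∫ ξ, ‖F ξ‖ * ‖g‖ ∂μ := by
          apply integral_mono (hint g).norm (hF.norm.mul_const _)
          intro ξ
          change ‖F ξ * g (pr ξ)‖ ≤ ‖F ξ‖ * ‖g‖
          rw [norm_mul]
          exact mul_le_mul_of_nonneg_left (g.norm_coe_le_norm _) (norm_nonneg _)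
      _ = _ := integral_mul_const _ _
  exact (Φ.mkContinuous _ h1).continuous

/-- testing against continuous periodic functions -/
lemma integral_mul_per_of_coeff (F : E n → ℂ) (hF : Integrable F) (c : ℂ)
    (h : ∀ k : Fin n → ℤ, ∫ ξ, F ξ * ee k ξ = if k = 0 then c else 0)
    (G : E n → ℂ) (hG : Continuous G) (hper : ∀ (ξ : E n) (k : Fin n → ℤ), G (ξ + zv k) = G ξ) :
    ∫ ξ, F ξ * G ξ = c * ∫ ξ in cube n, G ξ := by
  have hint : ∀ g : C(UnitAddTorus (Fin n), ℂ), Integrable (fun ξ => F ξ * g (pr ξ)) := by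
    intro g
    exact hF.mul_bdd (g.continuous.comp continuous_pr).aestronglyMeasurable
      (ae_of_all _ (fun ξ => g.norm_coe_le_norm (pr ξ)))
  have hcube : ∀ g : C(UnitAddTorus (Fin n), ℂ), IntegrableOn (fun ξ => g (pr ξ)) (cube n) := by
    intro g
    exact integrableOn_cube (g.continuous.comp continuous_pr) (fun ξ k => by rw [pr_add_zv])
  -- the difference functional
  let S : Submodule ℂ C(UnitAddTorus (Fin n), ℂ) :=
    { carrier := {g | ∫ ξ, F ξ * g (pr ξ) = c * ∫ ξ in cube n, g (pr ξ)}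
      add_mem' := by
        intro a b ha hb
        change ∫ ξ, F ξ * (a (pr ξ) + b (pr ξ)) = c * ∫ ξ in cube n, (a (pr ξ) + b (pr ξ))
        simp only [mul_add]
        rw [integral_add (hint a) (hint b), integral_add (hcube a) (hcube b), mul_add]
        exact congrArg₂ _ ha hb
      zero_mem' := by
        change ∫ ξ, F ξ * 0 = c * ∫ ξ in cube n, 0
        simp
      smul_mem' := by
        intro a g hg
        change ∫ ξ, F ξ * (a * g (pr ξ)) = c * ∫ ξ in cube n, (a * g (pr ξ))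
        have e1 : ∀ ξ, F ξ * (a * g (pr ξ)) = a * (F ξ * g (pr ξ)) := fun ξ => by ring
        simp only [e1]
        rw [integral_const_mul, integral_const_mul]
        have hg' : ∫ ξ, F ξ * g (pr ξ) = c * ∫ ξ in cube n, g (pr ξ) := hg
        rw [hg']
        ring }
  have hS1 : Submodule.span ℂ (Set.range (UnitAddTorus.mFourier (d := Fin n))) ≤ S := by
    rw [Submodule.span_le]
    rintro _ ⟨k, rfl⟩
    change ∫ ξ, F ξ * UnitAddTorus.mFourier k (pr ξ) =
      c * ∫ ξ in cube n, UnitAddTorus.mFourier k (pr ξ)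
    simp only [← ee_eq]
    rw [h, cube_ee]
    split_ifs <;> simp
  have hS2 : IsClosed (S : Set C(UnitAddTorus (Fin n), ℂ)) := by
    have h1 := continuous_pairing volume F hF
    have h2 := continuous_pairing (volume.restrict (cube n)) (fun _ => 1)
      (integrableOn_cube continuous_const (fun _ _ => rfl))
    simp only [one_mul] at h2
    exact isClosed_eq h1 (continuous_const.mul h2)
  obtain ⟨g, hg⟩ := exists_desc hG hper
  have h3 : g ∈ S := by
    have h4 : g ∈ (Submodule.span ℂ (Set.range (UnitAddTorus.mFourier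
        (d := Fin n)))).topologicalClosure := by
      rw [UnitAddTorus.span_mFourier_closure_eq_top]; trivial
    exact (Submodule.topologicalClosure_minimal _ hS1 hS2) h4
  have h4 : ∫ ξ, F ξ * g (pr ξ) = c * ∫ ξ in cube n, g (pr ξ) := h3
  simpa only [hg] using h4

lemma integrableOn_tile_const (c : ℂ) (k : Fin n → ℤ) :
    IntegrableOn (fun _ : E n => c) (tile k) := by
  have h1 := (mp_add k).integrableOn_comp_preimage (me_add k) (f := fun _ : E n => c)
    (s := tile (0 + k))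
  rw [preimage_tile, tile_zero, zero_add] at h1
  rw [← h1]
  exact integrableOn_cube continuous_const (fun _ _ => rfl)

lemma locallyIntegrable_of_tile {f : E n → ℂ} (h : ∀ k : Fin n → ℤ, IntegrableOn f (tile k)) :
    LocallyIntegrable f volume := by
  rw [locallyIntegrable_iff]
  intro K hK
  obtain ⟨r, hr⟩ := hK.isBounded.subset_closedBall (0 : E n)
  have hfin : {m : Fin n → ℤ | ‖zv m‖ ≤ r + Real.sqrt n}.Finite := finite_zv _
  have hsub : K ⊆ ⋃ m ∈ {m : Fin n → ℤ | ‖zv m‖ ≤ r + Real.sqrt n}, tile m := by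
    intro ξ hξ
    have h1 : ξ ∈ ⋃ m : Fin n → ℤ, tile m := by rw [iUnion_tile]; trivial
    rw [Set.mem_iUnion] at h1
    obtain ⟨m, hm⟩ := h1
    rw [Set.mem_iUnion₂]
    refine ⟨m, ?_, hm⟩
    have h2 := hr hξ
    rw [Metric.mem_closedBall, dist_zero_right] at h2
    have h3 : ‖ξ - zv m‖ ≤ Real.sqrt n := by
      rw [EuclideanSpace.norm_eq]
      apply Real.sqrt_le_sqrt
      calc ∑ i, ‖(ξ - zv m) i‖ ^ 2 ≤ ∑ _i : Fin n, (1 : ℝ) := by
            apply Finset.sum_le_sum
            intro i _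
            have h4 := hm i
            rw [Set.mem_Ioc] at h4
            have h5 : (ξ - zv m) i = ξ i - m i := rfl
            rw [h5, Real.norm_eq_abs, abs_of_nonneg (by linarith [h4.1])]
            nlinarith [h4.1, h4.2]
        _ = n := by simp
    have h4 : ‖zv m‖ ≤ ‖ξ‖ + ‖ξ - zv m‖ := by
      have : zv m = ξ - (ξ - zv m) := by abel
      calc ‖zv m‖ = ‖ξ - (ξ - zv m)‖ := by rw [← this]
        _ ≤ _ := norm_sub_le _ _
    change ‖zv m‖ ≤ r + Real.sqrt n
    linarith
  apply IntegrableOn.mono_set _ hsub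
  rw [integrableOn_finite_biUnion hfin]
  intro m _
  exact h m

lemma finite_supp {g : E n → ℂ} (hg : HasCompactSupport g) (r : ℝ) :
    {m : Fin n → ℤ | ∃ ξ : E n, ‖ξ‖ ≤ r ∧ g (ξ + zv m) ≠ 0}.Finite := by
  obtain ⟨R, hR⟩ := hg.isCompact.isBounded.subset_closedBall 0
  apply (finite_zv (n := n) (R + r)).subset
  rintro m ⟨ξ, h1, h2⟩
  have h3 := hR (subset_tsupport _ h2)
  rw [Metric.mem_closedBall, dist_zero_right] at h3
  have h4 : ‖zv m‖ ≤ ‖ξ + zv m‖ + ‖ξ‖ := by
    calc ‖zv m‖ = ‖(ξ + zv m) - ξ‖ := by rw [add_sub_cancel_left]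
      _ ≤ _ := norm_sub_le _ _
  change ‖zv m‖ ≤ R + r
  linarith

lemma per_eq_sum {g : E n → ℂ} (hg : HasCompactSupport g) (r : ℝ) :
    ∃ s : Finset (Fin n → ℤ), ∀ ξ : E n, ‖ξ‖ ≤ r →
      ∑' m : Fin n → ℤ, g (ξ + zv m) = ∑ m ∈ s, g (ξ + zv m) := by
  refine ⟨(finite_supp hg r).toFinset, fun ξ hξ => ?_⟩
  apply tsum_eq_sum
  intro m hm
  by_contra hne
  exact hm ((Set.Finite.mem_toFinset _).2 ⟨ξ, hξ, hne⟩)

lemma continuous_per {g : E n → ℂ} (hg : HasCompactSupport g) (hc : Continuous g) :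
    Continuous (fun ξ : E n => ∑' m : Fin n → ℤ, g (ξ + zv m)) := by
  rw [continuous_iff_continuousAt]
  intro x
  obtain ⟨s, hs⟩ := per_eq_sum hg (‖x‖ + 1)
  have h1 : ContinuousAt (fun ξ : E n => ∑ m ∈ s, g (ξ + zv m)) x := by
    apply Continuous.continuousAt
    apply continuous_finsetSum
    intro m _
    exact hc.comp (continuous_id.add continuous_const)
  apply h1.congr
  filter_upwards [Metric.ball_mem_nhds x one_pos] with ξ hξ
  rw [Metric.mem_ball, dist_eq_norm] at hξ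
  have h2 : ‖ξ‖ ≤ ‖x‖ + 1 := by
    calc ‖ξ‖ = ‖x + (ξ - x)‖ := by congr 1; abel
      _ ≤ ‖x‖ + ‖ξ - x‖ := norm_add_le _ _
      _ ≤ _ := by linarith
  exact (hs ξ h2).symm

/-- uniqueness of Fourier coefficients of a periodization -/
theorem fiber_of_coeff (F : E n → ℂ) (hF : Integrable F) (c : ℂ)
    (h : ∀ k : Fin n → ℤ, ∫ ξ, F ξ * ee k ξ = if k = 0 then c else 0) :
    ∀ᵐ ξ : E n, HasSum (fun m : Fin n → ℤ => F (ξ + zv m)) c := by
  let P : E n → ℂ := fun ξ => ∑' m : Fin n → ℤ, F (ξ + zv m)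
  have hPper : ∀ (ξ : E n) (k : Fin n → ℤ), P (ξ + zv k) = P ξ := by
    intro ξ k
    have h2 := (Equiv.addLeft k).tsum_eq (fun m : Fin n → ℤ => F (ξ + zv m))
    simp only [Equiv.coe_addLeft, zv_add, ← add_assoc] at h2
    exact h2
  have hloc : LocallyIntegrable (fun ξ => P ξ - c) volume := by
    apply locallyIntegrable_of_tile
    intro k
    exact (per_integrableOn hF k).sub (integrableOn_tile_const c k)
  have h1 := ae_eq_zero_of_integral_contDiff_smul_eq_zero hloc (by
    intro g hg hgc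
    -- periodization of the test function
    let gc : E n → ℂ := fun ξ => (g ξ : ℂ)
    have hgcc : Continuous gc := Complex.continuous_ofReal.comp hg.continuous
    have hgcs : HasCompactSupport gc := hgc.comp_left (g := fun x : ℝ => (x : ℂ)) (by simp)
    let G : E n → ℂ := fun ξ => ∑' m : Fin n → ℤ, gc (ξ + zv m)
    have hGper : ∀ (ξ : E n) (k : Fin n → ℤ), G (ξ + zv k) = G ξ := by
      intro ξ k
      have h2 := (Equiv.addLeft k).tsum_eq (fun m : Fin n → ℤ => gc (ξ + zv m))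
      simp only [Equiv.coe_addLeft, zv_add, ← add_assoc] at h2
      exact h2
    have hGc : Continuous G := continuous_per hgcs hgcc
    obtain ⟨C, hC⟩ := bdd_of_per hGc hGper
    have h2 := integral_mul_per_of_coeff F hF c h G hGc hGper
    have h3 : Integrable (fun ξ => F ξ * G ξ) :=
      hF.mul_bdd hGc.aestronglyMeasurable (ae_of_all _ hC)
    have h4 := integral_per h3 0
    simp only [hGper, tsum_mul_right] at h4
    have h5 : Integrable (fun ξ => g ξ • (P ξ - c)) :=
      hloc.integrable_smul_left_of_hasCompactSupport hg.continuous hgc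
    rw [← integral_per h5 0]
    have h6 : ∀ ξ : E n, ∑' m : Fin n → ℤ, g (ξ + zv m) • (P (ξ + zv m) - c) =
        P ξ * G ξ - c * G ξ := by
      intro ξ
      simp only [hPper]
      have h7 : ∀ m : Fin n → ℤ, g (ξ + zv m) • (P ξ - c) = gc (ξ + zv m) * (P ξ - c) := by
        intro m
        rw [Complex.real_smul]
      simp only [h7]
      rw [tsum_mul_right]
      change G ξ * (P ξ - c) = _
      ring
    simp only [h6]
    rw [integral_sub, integral_const_mul, sub_eq_zero]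
    · rw [tile_zero] at h4 ⊢
      rw [← h2, ← h4]
    · exact (per_integrableOn hF 0).mul_bdd hGc.aestronglyMeasurable (ae_of_all _ hC)
    · rw [tile_zero]
      exact (integrableOn_cube hGc hGper).const_mul c)
  filter_upwards [h1, per_ae hF] with ξ h2 h3
  have h4 : P ξ = c := sub_eq_zero.1 h2
  have h5 : Summable (fun m : Fin n → ℤ => F (ξ + zv m)) := h3.of_norm
  rw [← h4]
  exact h5.hasSum

end Run7.h408
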