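import Pool.Agent.Run7.h408.Ops
import Pool.Agent.Run7.h408.Four

/-!
Brackets (periodizations) of compactly supported smooth functions.
-/

set_option autoImplicit false

open MeasureTheory FourierTransform Filter Topology
open scoped ENNReal ContDiff InnerProductSpace

namespace Run7.h408

variable {n : ℕ}

/-! ### smooth compactly supported functions -/

/-- smooth with compact support -/
def CS (f : E n → ℂ) : Prop := ContDiff ℝ ∞ f ∧ HasCompactSupport f

lemma CS.continuous {f : E n → ℂ} (h : CS f) : Continuous f := h.1.continuous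

lemma CS.memLp {f : E n → ℂ} (h : CS f) (p : ℝ≥0∞) : MemLp f p volume :=
  h.1.continuous.memLp_of_hasCompactSupport h.2

/-- class in `L²` -/
noncomputable def cl {f : E n → ℂ} (h : CS f) : L2 n := (h.memLp 2).toLp f

lemma coeFn_cl {f : E n → ℂ} (h : CS f) : (cl h : E n → ℂ) =ᵐ[volume] f := (h.memLp 2).coeFn_toLp

/-- modulation -/
noncomputable def eg (k : Fin n → ℤ) (g : E n → ℂ) (ξ : E n) : ℂ := (starRingEnd ℂ) (ee k ξ) * g ξ

lemma CS.mul_left {f g : E n → ℂ} (hg : CS g) (hf : ContDiff ℝ ∞ f) : CS (fun ξ => f ξ * g ξ) :=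
  ⟨hf.mul hg.1, hg.2.mul_left⟩

lemma CS.conj_ee_mul {g : E n → ℂ} (hg : CS g) (k : Fin n → ℤ) : CS (eg k g) := by
  unfold eg
  apply hg.mul_left
  have : (fun ξ : E n => (starRingEnd ℂ) (ee k ξ)) = ee (-k) := by funext ξ; exact conj_ee k ξ
  rw [this]
  exact contDiff_ee _

lemma inner_L2 (f u : L2 n) : ⟪f, u⟫_ℂ = ∫ ξ, u ξ * (starRingEnd ℂ) (f ξ) := by
  rw [L2.inner_def]
  apply integral_congr_ae
  filter_upwards with ξ
  rw [RCLike.inner_apply]

lemma inner_cl {f : E n → ℂ} (h : CS f) (u : L2 n) :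
    ⟪cl h, u⟫_ℂ = ∫ ξ, u ξ * (starRingEnd ℂ) (f ξ) := by
  rw [inner_L2]
  apply integral_congr_ae
  filter_upwards [coeFn_cl h] with ξ hξ
  rw [hξ]

lemma inner_cl_eg {g : E n → ℂ} (h : CS g) (k : Fin n → ℤ) (u : L2 n) :
    ⟪cl (h.conj_ee_mul k), u⟫_ℂ = ∫ ξ, (u ξ * (starRingEnd ℂ) (g ξ)) * ee k ξ := by
  rw [inner_cl]
  apply integral_congr_ae
  filter_upwards with ξ
  unfold eg
  rw [map_mul, Complex.conj_conj]
  ring

lemma integrable_mul_conj (u : L2 n) {g : E n → ℂ} (h : CS g) :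
    Integrable (fun ξ => u ξ * (starRingEnd ℂ) (g ξ)) := by
  have h1 := L2.integrable_inner (𝕜 := ℂ) (cl h) u
  apply h1.congr
  filter_upwards [coeFn_cl h] with ξ hξ
  rw [RCLike.inner_apply, hξ]

/-! ### brackets -/

/-- periodization of `f ḡ` -/
noncomputable def br (f g : E n → ℂ) (ξ : E n) : ℂ :=
  ∑' m : Fin n → ℤ, f (ξ + zv m) * (starRingEnd ℂ) (g (ξ + zv m))

lemma finite_supp_at {g : E n → ℂ} (hg : HasCompactSupport g) (ξ : E n) :
    {m : Fin n → ℤ | g (ξ + zv m) ≠ 0}.Finite := by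
  apply (finite_supp hg ‖ξ‖).subset
  intro m hm
  exact ⟨ξ, le_rfl, hm⟩

lemma summable_br (f : E n → ℂ) {g : E n → ℂ} (hg : HasCompactSupport g) (ξ : E n) :
    Summable (fun m : Fin n → ℤ => f (ξ + zv m) * (starRingEnd ℂ) (g (ξ + zv m))) := by
  apply summable_of_hasFiniteSupport
  apply (finite_supp_at hg ξ).subset
  intro m hm hg0
  apply hm
  simp [hg0]

lemma br_per (f g : E n → ℂ) (ξ : E n) (k : Fin n → ℤ) : br f g (ξ + zv k) = br f g ξ := by
  unfold br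
  rw [← (Equiv.addLeft k).tsum_eq (fun m : Fin n → ℤ =>
    f (ξ + zv m) * (starRingEnd ℂ) (g (ξ + zv m)))]
  congr 1
  funext m
  simp only [Equiv.coe_addLeft]
  rw [zv_add, add_assoc]

lemma br_eq_sum (f : E n → ℂ) {g : E n → ℂ} (hg : HasCompactSupport g) (r : ℝ) :
    ∃ s : Finset (Fin n → ℤ), ∀ ξ : E n, ‖ξ‖ ≤ r →
      br f g ξ = ∑ m ∈ s, f (ξ + zv m) * (starRingEnd ℂ) (g (ξ + zv m)) := by
  refine ⟨(finite_supp hg r).toFinset, fun ξ hξ => ?_⟩
  unfold br
  apply tsum_eq_sum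
  intro m hm
  by_contra hne
  apply hm
  rw [Set.Finite.mem_toFinset]
  refine ⟨ξ, hξ, ?_⟩
  intro h0
  apply hne
  simp [h0]

lemma contDiff_br {f g : E n → ℂ} (hf : ContDiff ℝ ∞ f) (hg : CS g) : ContDiff ℝ ∞ (br f g) := by
  rw [contDiff_iff_contDiffAt]
  intro x
  obtain ⟨s, hs⟩ := br_eq_sum f hg.2 (‖x‖ + 1)
  have h1 : ContDiff ℝ ∞ (fun ξ : E n => ∑ m ∈ s, f (ξ + zv m) * (starRingEnd ℂ) (g (ξ + zv m))) := by
    apply ContDiff.sum
    intro m _
    have h2 : ContDiff ℝ ∞ (fun ξ : E n => ξ + zv m) := contDiff_id.add contDiff_const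
    exact (hf.comp h2).mul (Complex.conjCLE.contDiff.comp (hg.1.comp h2))
  apply h1.contDiffAt.congr_of_eventuallyEq
  have h3 : ∀ᶠ ξ in 𝓝 x, ‖ξ‖ < ‖x‖ + 1 :=
    continuous_norm.continuousAt.eventually (gt_mem_nhds (by linarith))
  filter_upwards [h3] with ξ hξ
  exact hs ξ hξ.le

lemma br_sum_left {ι : Type*} (s : Finset ι) (f : ι → E n → ℂ) {g : E n → ℂ}
    (hg : HasCompactSupport g) (ξ : E n) :
    br (fun x => ∑ i ∈ s, f i x) g ξ = ∑ i ∈ s, br (f i) g ξ := by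
  unfold br
  rw [← Summable.tsum_finsetSum (fun i _ => summable_br (f i) hg ξ)]
  congr 1
  funext m
  rw [Finset.sum_mul]

lemma br_sum_right {ι : Type*} (s : Finset ι) (f : E n → ℂ) (g : ι → E n → ℂ)
    (hg : ∀ i ∈ s, HasCompactSupport (g i)) (ξ : E n) :
    br f (fun x => ∑ i ∈ s, g i x) ξ = ∑ i ∈ s, br f (g i) ξ := by
  unfold br
  rw [← Summable.tsum_finsetSum (fun i hi => summable_br f (hg i hi) ξ)]
  congr 1
  funext m
  rw [map_sum, Finset.mul_sum]

lemma br_mul_left {H : E n → ℂ} (hH : ∀ (ξ : E n) (k : Fin n → ℤ), H (ξ + zv k) = H ξ)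
    (f g : E n → ℂ) (ξ : E n) : br (fun x => H x * f x) g ξ = H ξ * br f g ξ := by
  unfold br
  rw [← tsum_mul_left]
  congr 1
  funext m
  change H (ξ + zv m) * f (ξ + zv m) * _ = _
  rw [hH, mul_assoc]

lemma br_mul_right {H : E n → ℂ} (hH : ∀ (ξ : E n) (k : Fin n → ℤ), H (ξ + zv k) = H ξ)
    (f g : E n → ℂ) (ξ : E n) :
    br f (fun x => H x * g x) ξ = (starRingEnd ℂ) (H ξ) * br f g ξ := by
  unfold br
  rw [← tsum_mul_left]
  congr 1
  funext m
  change f (ξ + zv m) * (starRingEnd ℂ) (H (ξ + zv m) * g (ξ + zv m)) = _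
  rw [hH, map_mul]
  ring

lemma br_congr_ae {f f' : E n → ℂ} (h : f =ᵐ[volume] f') (g : E n → ℂ) :
    ∀ᵐ ξ : E n, br f g ξ = br f' g ξ := by
  have h1 : ∀ m : Fin n → ℤ, ∀ᵐ ξ : E n, f (ξ + zv m) = f' (ξ + zv m) := by
    intro m
    exact (measurePreserving_add_right volume (zv m)).quasiMeasurePreserving.ae h
  rw [← ae_all_iff] at h1
  filter_upwards [h1] with ξ hξ
  unfold br
  congr 1
  funext m
  rw [hξ m]

/-- orthogonality to all modulations is vanishing of the bracket -/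
lemma orth_iff_br (u : L2 n) {g : E n → ℂ} (hg : CS g) :
    (∀ k, ⟪cl (hg.conj_ee_mul k), u⟫_ℂ = 0) ↔ ∀ᵐ ξ : E n, br u g ξ = 0 := by
  constructor
  · intro h
    have h1 := fiber_of_coeff (fun ξ => u ξ * (starRingEnd ℂ) (g ξ))
      (integrable_mul_conj u hg) 0 (by
        intro k
        rw [← inner_cl_eg hg k u, h k]
        simp)
    filter_upwards [h1] with ξ hξ
    exact hξ.tsum_eq
  · intro h k
    rw [inner_cl_eg hg]
    have h1 := integral_mul_periodic (fun ξ => u ξ * (starRingEnd ℂ) (g ξ))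
      (integrable_mul_conj u hg) 0 h (ee k) (contDiff_ee k).continuous (fun ξ m => ee_per k m ξ)
    rw [h1, zero_mul]

lemma integral_br_per (u : L2 n) {g : E n → ℂ} (hg : CS g) (c : ℂ)
    (h : ∀ᵐ ξ : E n, br u g ξ = c) {H : E n → ℂ} (hH : Continuous H)
    (hper : ∀ (ξ : E n) (k : Fin n → ℤ), H (ξ + zv k) = H ξ) :
    ∫ ξ, (u ξ * (starRingEnd ℂ) (g ξ)) * H ξ =
      c * ∫ ξ in cube n, H ξ :=
  integral_mul_periodic (fun ξ => u ξ * (starRingEnd ℂ) (g ξ))
      (integrable_mul_conj u hg) c h H hH hper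

/-- pointwise bracket from inner products -/
lemma br_eq_of_inner {f g : E n → ℂ} (hf : CS f) (hg : CS g) (c : ℂ)
    (h : ∀ k, ⟪cl (hg.conj_ee_mul k), cl hf⟫_ℂ = if k = 0 then c else 0) (ξ : E n) :
    br f g ξ = c := by
  have h1 := fiber_of_coeff (fun ξ => cl hf ξ * (starRingEnd ℂ) (g ξ))
      (integrable_mul_conj (cl hf) hg) c (by
        intro k
        rw [← inner_cl_eg hg k (cl hf), h k])
  have h2 : br f g =ᵐ[volume] fun _ => c := by
    filter_upwards [h1, br_congr_ae (coeFn_cl hf) g] with ξ hξ h3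
    rw [← h3]
    exact hξ.tsum_eq
  have h3 := (contDiff_br hf.1 hg).continuous.ae_eq_iff_eq volume continuous_const |>.1 h2
  exact congrFun h3 ξ

end Run7.h408
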