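import Pool.Agent.Run7.h408.Tal

/-!
Normalised bumps and the local computation of the levels.
-/

set_option autoImplicit false

open MeasureTheory FourierTransform Filter Topology
open scoped ENNReal ContDiff InnerProductSpace

namespace Run7.h408

variable {n : ℕ}

/-- the tent function -/
noncomputable def tent (r : ℝ) (x : E n) : ℝ := max 0 (r - ‖x‖)

lemma continuous_tent (r : ℝ) : Continuous (tent r : E n → ℝ) :=
  continuous_const.max (continuous_const.sub continuous_norm)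

lemma tent_eq_zero {r : ℝ} {x : E n} (h : r ≤ ‖x‖) : tent r x = 0 := max_eq_left (by linarith)

lemma tent_compact (r : ℝ) : HasCompactSupport (tent r : E n → ℝ) := by
  apply HasCompactSupport.intro (isCompact_closedBall (0 : E n) r)
  intro x hx
  rw [Metric.mem_closedBall, dist_zero_right] at hx
  exact tent_eq_zero (by linarith)

lemma tent_int_pos {r : ℝ} (hr : 0 < r) : 0 < ∫ x : E n, tent r x ^ 2 := by
  apply Continuous.integral_pos_of_hasCompactSupport_nonneg_nonzero (x := (0 : E n))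
  · exact (continuous_tent r).pow 2
  · have h1 : (fun x : E n => tent r x ^ 2) = fun x : E n => tent r x * tent r x := by
      funext x; ring
    rw [h1]
    exact (tent_compact r).mul_right
  · intro x
    exact sq_nonneg _
  · have : tent r (0 : E n) = r := by
      unfold tent
      rw [norm_zero, sub_zero]
      exact max_eq_right hr.le
    simp only [this]
    positivity

/-- the normalised bump -/
noncomputable def bump (r : ℝ) (x : E n) : ℝ := tent r x / Real.sqrt (∫ y : E n, tent r y ^ 2)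

lemma continuous_bump (r : ℝ) : Continuous (bump r : E n → ℝ) := (continuous_tent r).div_const _

lemma bump_eq_zero {r : ℝ} {x : E n} (h : r ≤ ‖x‖) : bump r x = 0 := by
  unfold bump; rw [tent_eq_zero h, zero_div]

lemma bump_int {r : ℝ} (hr : 0 < r) : ∫ x : E n, bump r x ^ 2 = 1 := by
  unfold bump
  simp only [div_pow]
  rw [integral_div, Real.sq_sqrt (tent_int_pos hr).le, div_self (tent_int_pos hr).ne']

/-- the bump centred at `ξ₀` -/
noncomputable def bpc (r : ℝ) (ξ0 : E n) (ξ : E n) : ℂ := ((bump r (ξ - ξ0) : ℝ) : ℂ)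

lemma continuous_bpc (r : ℝ) (ξ0 : E n) : Continuous (bpc r ξ0) :=
  Complex.continuous_ofReal.comp ((continuous_bump r).comp (continuous_id.sub continuous_const))

lemma bpc_eq_zero {r : ℝ} {ξ0 ξ : E n} (h : r ≤ ‖ξ - ξ0‖) : bpc r ξ0 ξ = 0 := by
  unfold bpc; rw [bump_eq_zero h, Complex.ofReal_zero]

lemma compact_bpc (r : ℝ) (ξ0 : E n) : HasCompactSupport (bpc r ξ0) := by
  apply HasCompactSupport.intro (isCompact_closedBall ξ0 r)
  intro x hx
  rw [Metric.mem_closedBall, dist_eq_norm] at hx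
  exact bpc_eq_zero (by linarith)

lemma conj_bpc (r : ℝ) (ξ0 ξ : E n) : (starRingEnd ℂ) (bpc r ξ0 ξ) = bpc r ξ0 ξ :=
  Complex.conj_ofReal _

lemma bpc_int_sq {r : ℝ} (hr : 0 < r) (ξ0 : E n) : ∫ ξ, ‖bpc r ξ0 ξ‖ ^ 2 = 1 := by
  unfold bpc
  simp only [Complex.norm_real, Real.norm_eq_abs, sq_abs]
  rw [integral_sub_right_eq_self (fun ξ : E n => bump r ξ ^ 2) ξ0]
  exact bump_int hr

lemma bpc_integrable_sq (r : ℝ) (ξ0 : E n) : Integrable (fun ξ => ‖bpc r ξ0 ξ‖ ^ 2) := by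
  apply Continuous.integrable_of_hasCompactSupport
  · exact (continuous_bpc r ξ0).norm.pow 2
  · apply HasCompactSupport.intro (compact_bpc r ξ0).isCompact
    intro x hx
    rw [image_eq_zero_of_notMem_tsupport hx]
    simp

lemma norm_le_of_bump {h : E n → ℂ} (hh : Continuous h) {r ε : ℝ} (hr : 0 < r) (ξ0 : E n)
    (hε : 0 ≤ ε) (hb : ∀ ξ, ‖ξ - ξ0‖ < r → ‖h ξ‖ ≤ ε) :
    ‖∫ ξ, bpc r ξ0 ξ * bpc r ξ0 ξ * h ξ‖ ≤ ε := by
  calc ‖∫ ξ, bpc r ξ0 ξ * bpc r ξ0 ξ * h ξ‖ ≤ ∫ ξ, ‖bpc r ξ0 ξ‖ ^ 2 * ε := by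
        apply norm_integral_le_of_norm_le ((bpc_integrable_sq r ξ0).mul_const ε)
        refine ae_of_all _ fun ξ => ?_
        rw [norm_mul, norm_mul, ← sq]
        by_cases hξ : ‖ξ - ξ0‖ < r
        · exact mul_le_mul_of_nonneg_left (hb ξ hξ) (by positivity)
        · rw [bpc_eq_zero (not_lt.1 hξ)]
          simp
    _ = ε := by rw [integral_mul_const, bpc_int_sq hr, one_mul]

lemma bpc_mul_integrable {h : E n → ℂ} (hh : Continuous h) (r : ℝ) (ξ0 : E n) :
    Integrable (fun ξ => bpc r ξ0 ξ * bpc r ξ0 ξ * h ξ) := by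
  apply Continuous.integrable_of_hasCompactSupport
  · exact ((continuous_bpc r ξ0).mul (continuous_bpc r ξ0)).mul hh
  · exact ((compact_bpc r ξ0).mul_right).mul_right

lemma bpc_sq_int {r : ℝ} (hr : 0 < r) (ξ0 : E n) : ∫ ξ, bpc r ξ0 ξ * bpc r ξ0 ξ = 1 := by
  have h1 : ∀ ξ, bpc r ξ0 ξ * bpc r ξ0 ξ = ((‖bpc r ξ0 ξ‖ ^ 2 : ℝ) : ℂ) := by
    intro ξ
    unfold bpc
    rw [Complex.norm_real, Real.norm_eq_abs, sq_abs]
    push_cast
    ring
  simp only [h1]
  have h2 : ∫ ξ, ((‖bpc r ξ0 ξ‖ ^ 2 : ℝ) : ℂ) = ((∫ ξ, ‖bpc r ξ0 ξ‖ ^ 2 : ℝ) : ℂ) :=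
    integral_ofReal
  rw [h2, bpc_int_sq hr, Complex.ofReal_one]

lemma tendsto_bump {h : E n → ℂ} (hh : Continuous h) (ξ0 : E n) :
    Tendsto (fun r => ∫ ξ, bpc r ξ0 ξ * bpc r ξ0 ξ * h ξ) (𝓝[>] 0) (𝓝 (h ξ0)) := by
  rw [Metric.tendsto_nhds]
  intro ε hε
  obtain ⟨δ, hδ, h1⟩ := Metric.continuous_iff.1 hh ξ0 (ε / 2) (by positivity)
  filter_upwards [Ioo_mem_nhdsGT hδ] with r hr
  rw [dist_eq_norm]
  have h3 : (∫ ξ, bpc r ξ0 ξ * bpc r ξ0 ξ * h ξ) - h ξ0 =
      ∫ ξ, bpc r ξ0 ξ * bpc r ξ0 ξ * (h ξ - h ξ0) := by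
    simp only [mul_sub]
    rw [integral_sub (bpc_mul_integrable hh r ξ0) (bpc_mul_integrable continuous_const r ξ0),
      integral_mul_const, bpc_sq_int hr.1, one_mul]
  rw [h3]
  refine lt_of_le_of_lt (norm_le_of_bump (hh.sub continuous_const) hr.1 ξ0 (by positivity)
    (ε := ε / 2) ?_) (by linarith)
  intro ξ hξ
  have := h1 ξ (by rw [dist_eq_norm]; exact hξ.trans hr.2)
  rw [dist_eq_norm] at this
  exact this.le

/-! ### the levels -/

lemma integral_per_mul {f g : E n → ℂ} (hf : Continuous f) (hfc : HasCompactSupport f)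
    (hg : Continuous g) (hgc : HasCompactSupport g) :
    ∫ ξ in cube n, per f ξ * (starRingEnd ℂ) (per g ξ) =
      ∫ ξ, f ξ * (starRingEnd ℂ) (per g ξ) := by
  have hi : Integrable (fun ξ => f ξ * (starRingEnd ℂ) (per g ξ)) := by
    apply Continuous.integrable_of_hasCompactSupport
    · exact hf.mul (Complex.continuous_conj.comp (continuous_per hgc hg))
    · exact hfc.mul_right
  rw [← integral_per hi 0, tile_zero]
  apply integral_congr_ae
  refine ae_of_all _ fun ξ => ?_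
  simp only [per_per]
  rw [tsum_mul_right]
  rfl

lemma exists_gap (A : GL (Fin n) ℝ) (j : ℤ) (x : E n) :
    ∃ δ : ℝ, 0 < δ ∧ ∀ m : Fin n → ℤ, ‖bj A j (zv m) - x‖ < δ → bj A j (zv m) = x := by
  -- finitely many candidates
  have h0 : ContinuousAt (bj A (-j)) (0 : E n) := (continuous_bj A (-j)).continuousAt
  obtain ⟨δ1, hδ1, h1⟩ := Metric.continuousAt_iff.1 h0 1 one_pos
  have hfin : {m : Fin n → ℤ | ‖bj A j (zv m) - x‖ < δ1}.Finite := by
    apply (finite_zv (n := n) (1 + ‖bj A (-j) x‖)).subset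
    intro m hm
    have h2 := h1 (x := bj A j (zv m) - x) (by rw [dist_zero_right]; exact hm)
    rw [bj_zero_arg, dist_zero_right, bj_sub, bj_neg_bj] at h2
    have h3 : ‖zv m‖ ≤ ‖zv m - bj A (-j) x‖ + ‖bj A (-j) x‖ := norm_le_norm_sub_add _ _
    exact h3.trans (by linarith)
  have h2 : ∀ᶠ δ in 𝓝[>] (0 : ℝ), ∀ m ∈ {m : Fin n → ℤ | ‖bj A j (zv m) - x‖ < δ1},
      ‖bj A j (zv m) - x‖ < δ → bj A j (zv m) = x := by
    rw [Filter.eventually_all_finite hfin]
    intro m _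
    by_cases hm : bj A j (zv m) = x
    · exact Eventually.of_forall fun _ _ => hm
    · have h3 : 0 < ‖bj A j (zv m) - x‖ := norm_pos_iff.2 (sub_ne_zero.2 hm)
      filter_upwards [Ioo_mem_nhdsGT h3] with δ hδ h4
      exact absurd h4 (not_lt.2 hδ.2.le)
  obtain ⟨δ, h3, h4⟩ := (h2.and (Ioo_mem_nhdsGT hδ1)).exists
  exact ⟨δ, h4.1, fun m hm => h3 m (hm.trans h4.2) hm⟩

lemma zv_inj {m m' : Fin n → ℤ} (h : zv m = zv m') : m = m' := by
  funext i
  have h1 : (zv m : E n) i = (zv m' : E n) i := by rw [h]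
  have h2 : ((m i : ℤ) : ℝ) = ((m' i : ℤ) : ℝ) := h1
  exact_mod_cast h2

lemma tau1_eq (A : GL (Fin n) ℝ) {v : E n → ℂ} (hv : Continuous v) (j : ℤ) (α : Fin n → ℤ)
    (ξ0 : E n) : ∀ᶠ r in 𝓝[>] (0 : ℝ), ∀ F G : E n → ℂ, Continuous F → HasCompactSupport F →
      Continuous G → HasCompactSupport G → (∀ ξ, r ≤ ‖ξ - ξ0‖ → F ξ = 0) →
      (∀ ξ, r ≤ ‖ξ - (ξ0 + zv α)‖ → G ξ = 0) →
      ((∃ m : Fin n → ℤ, bj A j (zv m) = zv α) → tau1 A v j F G =
        ∫ ξ, F ξ * (starRingEnd ℂ) (G (ξ + zv α)) *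
          ((starRingEnd ℂ) (v (bj A (-j) ξ)) * v (bj A (-j) (ξ + zv α)))) ∧
      ((¬ ∃ m : Fin n → ℤ, bj A j (zv m) = zv α) → tau1 A v j F G = 0) := by
  obtain ⟨δ, hδ, h1⟩ := exists_gap A j (zv α)
  filter_upwards [Ioo_mem_nhdsGT (half_pos hδ)] with r hr F G hF hFc hG hGc hF0 hG0
  have h0 : tau1 A v j F G = ∫ η, (fj A j F η * (starRingEnd ℂ) (v η)) *
      (starRingEnd ℂ) (per (fun η => fj A j G η * (starRingEnd ℂ) (v η)) η) :=
    integral_per_mul ((continuous_fj A j hF).mul (Complex.continuous_conj.comp hv))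
      ((compact_fj A j hFc).mul_right)
      ((continuous_fj A j hG).mul (Complex.continuous_conj.comp hv))
      ((compact_fj A j hGc).mul_right)
  have h2 : ∀ (η : E n) (m : Fin n → ℤ), F (bj A j η) ≠ 0 → G (bj A j (η + zv m)) ≠ 0 →
      bj A j (zv m) = zv α := by
    intro η m h3 h4
    have h5 : ‖bj A j η - ξ0‖ < r := by
      by_contra hcon
      exact h3 (hF0 _ (not_lt.1 hcon))
    have h6 : ‖bj A j (η + zv m) - (ξ0 + zv α)‖ < r := by
      by_contra hcon
      exact h4 (hG0 _ (not_lt.1 hcon))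
    apply h1
    have h7 : bj A j (zv m) - zv α = (bj A j (η + zv m) - (ξ0 + zv α)) - (bj A j η - ξ0) := by
      rw [bj_add]; abel
    rw [h7]
    refine (norm_sub_le _ _).trans_lt ?_
    linarith [hr.2]
  constructor
  · rintro ⟨m0, hm0⟩
    have h3 : ∀ η, (fj A j F η * (starRingEnd ℂ) (v η)) *
        (starRingEnd ℂ) (per (fun η => fj A j G η * (starRingEnd ℂ) (v η)) η) =
        (fj A j F η * (starRingEnd ℂ) (v η)) *
        (starRingEnd ℂ) (fj A j G (η + zv m0) * (starRingEnd ℂ) (v (η + zv m0))) := by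
      intro η
      by_cases hz : F (bj A j η) = 0
      · unfold fj
        rw [hz]
        simp
      · congr 2
        unfold per
        apply tsum_eq_single
        intro m hm
        have h4 : G (bj A j (η + zv m)) = 0 := by
          by_contra hcon
          apply hm
          apply zv_inj
          exact bj_inj A j ((h2 η m hz hcon).trans hm0.symm)
        change fj A j G (η + zv m) * (starRingEnd ℂ) (v (η + zv m)) = 0
        unfold fj
        rw [h4]
        simp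
    rw [h0]
    simp only [h3]
    have h5 : 0 < |(A : Matrix (Fin n) (Fin n) ℝ).det| := abs_pos.2 (det_ne_zero_GL A)
    have h4 := integral_bj A j (fun ξ =>
      ((|(A : Matrix (Fin n) (Fin n) ℝ).det| ^ ((j : ℝ)) : ℝ) : ℂ) *
      (F ξ * (starRingEnd ℂ) (G (ξ + zv α)) *
          ((starRingEnd ℂ) (v (bj A (-j) ξ)) * v (bj A (-j) (ξ + zv α)))))
    have h9 : ((|(A : Matrix (Fin n) (Fin n) ℝ).det| ^ (-(j : ℝ)) : ℝ) : ℂ) *
        ((|(A : Matrix (Fin n) (Fin n) ℝ).det| ^ ((j : ℝ)) : ℝ) : ℂ) = 1 := by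
      rw [← Complex.ofReal_mul, ← Real.rpow_add h5, neg_add_cancel, Real.rpow_zero,
        Complex.ofReal_one]
    have h10 : ∫ ξ, ((|(A : Matrix (Fin n) (Fin n) ℝ).det| ^ ((j : ℝ)) : ℝ) : ℂ) *
      (F ξ * (starRingEnd ℂ) (G (ξ + zv α)) *
          ((starRingEnd ℂ) (v (bj A (-j) ξ)) * v (bj A (-j) (ξ + zv α)))) =
        ((|(A : Matrix (Fin n) (Fin n) ℝ).det| ^ ((j : ℝ)) : ℝ) : ℂ) *
        ∫ ξ, (F ξ * (starRingEnd ℂ) (G (ξ + zv α)) *
          ((starRingEnd ℂ) (v (bj A (-j) ξ)) * v (bj A (-j) (ξ + zv α)))) :=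
      integral_const_mul _ _
    rw [h10, ← mul_assoc, h9, one_mul] at h4
    rw [← h4]
    congr 1
    funext η
    have h6 : bj A (-j) (bj A j η + zv α) = η + zv m0 := by
      rw [bj_add, bj_neg_bj, ← hm0, bj_neg_bj]
    have h7 : bj A j (η + zv m0) = bj A j η + zv α := by rw [bj_add, hm0]
    have h8 : ((|(A : Matrix (Fin n) (Fin n) ℝ).det| ^ ((j : ℝ)) : ℝ) : ℂ) =
        ((|(A : Matrix (Fin n) (Fin n) ℝ).det| ^ ((j : ℝ) / 2) : ℝ) : ℂ) *
        ((|(A : Matrix (Fin n) (Fin n) ℝ).det| ^ ((j : ℝ) / 2) : ℝ) : ℂ) := by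
      rw [← Complex.ofReal_mul, ← Real.rpow_add h5]
      congr 2
      ring
    rw [h6, bj_neg_bj, h8]
    unfold fj
    rw [h7, map_mul, map_mul, Complex.conj_ofReal, Complex.conj_conj]
    ring
  · intro hno
    have h3 : ∀ η, (fj A j F η * (starRingEnd ℂ) (v η)) *
        (starRingEnd ℂ) (per (fun η => fj A j G η * (starRingEnd ℂ) (v η)) η) = 0 := by
      intro η
      by_cases hz : F (bj A j η) = 0
      · unfold fj
        rw [hz]
        simp
      · have h4 : per (fun η => fj A j G η * (starRingEnd ℂ) (v η)) η = 0 := by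
          unfold per
          have h5 : ∀ m : Fin n → ℤ, fj A j G (η + zv m) * (starRingEnd ℂ) (v (η + zv m)) = 0 := by
            intro m
            have h6 : G (bj A j (η + zv m)) = 0 := by
              by_contra hcon
              exact hno ⟨m, h2 η m hz hcon⟩
            unfold fj
            rw [h6]
            simp
          simp only [h5]
          exact tsum_zero
        rw [h4, map_zero, mul_zero]
    rw [h0]
    simp only [h3]
    exact integral_zero _ _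

end Run7.h408
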