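import Pool.Agent.Run7.h408.Defs

/-!
Completion of a smooth periodic isometry to a unitary matrix.
-/

set_option autoImplicit false

open MeasureTheory
open scoped ENNReal ContDiff InnerProductSpace

namespace Run7.h408

variable {n : ℕ}

/-- A smooth field of unit vectors in a space of large dimension misses a unit vector. -/
lemma exists_miss {N : ℕ} (hN : n + 1 < 2 * N) (p : E n → Fin N → ℂ)
    (hs : ∀ b, ContDiff ℝ ∞ (fun ξ => p ξ b)) (hp : ∀ ξ, ∑ b, p ξ b * (starRingEnd ℂ) (p ξ b) = 1) :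
    ∃ c : Fin N → ℂ, (∑ b, c b * (starRingEnd ℂ) (c b) = 1) ∧ ∀ ξ, p ξ ≠ -c := by
  let Φ : E n × ℝ → EuclideanSpace ℂ (Fin N) := fun z => WithLp.toLp 2 (fun b => -(z.2 : ℂ) * p z.1 b)
  have hΦ : ContDiff ℝ 1 Φ := by
    refine (contDiff_piLp 2).2 fun b => ?_
    have h1 : ContDiff ℝ ∞ (fun z : E n × ℝ => -(z.2 : ℂ) * p z.1 b) := by
      apply ContDiff.mul
      · exact (Complex.ofRealCLM.contDiff.comp contDiff_snd).neg
      · exact (hs b).comp contDiff_fst
    exact h1.of_le (by exact_mod_cast le_top)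
  have hfr : Module.finrank ℝ (E n × ℝ) < Module.finrank ℝ (EuclideanSpace ℂ (Fin N)) := by
    rw [Module.finrank_prod, finrank_euclideanSpace_fin, Module.finrank_self,
      finrank_real_of_complex, finrank_euclideanSpace_fin]
    exact hN
  have hd := hΦ.dense_compl_range_of_finrank_lt_finrank hfr
  obtain ⟨x, hx⟩ := hd.nonempty
  have hx0 : x ≠ 0 := by
    rintro rfl
    apply hx
    refine ⟨(0, 0), ?_⟩
    ext b
    simp [Φ]
  have hnx : (‖x‖ : ℂ) ≠ 0 := by
    exact_mod_cast (norm_pos_iff.2 hx0).ne'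
  refine ⟨fun b => (‖x‖ : ℂ)⁻¹ * x b, ?_, ?_⟩
  · have h1 : ∑ b, ((‖x‖ : ℂ)⁻¹ * x b) * (starRingEnd ℂ) ((‖x‖ : ℂ)⁻¹ * x b) =
        (‖x‖ : ℂ)⁻¹ * (‖x‖ : ℂ)⁻¹ * ∑ b, ((‖x b‖ ^ 2 : ℝ) : ℂ) := by
      rw [Finset.mul_sum]
      apply Finset.sum_congr rfl
      intro b _
      rw [map_mul, map_inv₀, Complex.conj_ofReal]
      have h2 : x b * (starRingEnd ℂ) (x b) = ((‖x b‖ ^ 2 : ℝ) : ℂ) := by
        rw [Complex.mul_conj, Complex.normSq_eq_norm_sq]
      rw [← h2]
      ring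
    rw [h1, ← Complex.ofReal_sum, ← EuclideanSpace.norm_sq_eq]
    push_cast
    field_simp
  · intro ξ h
    apply hx
    refine ⟨(ξ, ‖x‖), ?_⟩
    ext b
    have h2 := congrFun h b
    simp only [Pi.neg_apply] at h2
    simp only [Φ]
    rw [h2]
    field_simp

lemma alg_id {A : Type*} [Ring A] [Algebra ℂ A] (t s : ℂ) (ht : t ≠ 0) (hs : s ≠ 0)
    (X Y Z P : A) (h1 : X * X = (t + s) • X) (h2 : X * Z = t • (P + Z)) (h3 : Y * X = s • (P + Y))
    (h4 : Y * Z = P) :
    (1 - t⁻¹ • X + (2 : ℂ) • Y) * (1 - s⁻¹ • X + (2 : ℂ) • Z) = 1 := by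
  have e0 : (1 - t⁻¹ • X + (2 : ℂ) • Y) * (1 - s⁻¹ • X + (2 : ℂ) • Z) =
      1 - s⁻¹ • X + (2 : ℂ) • Z - t⁻¹ • X + (t⁻¹ * s⁻¹) • (X * X) - (t⁻¹ * 2) • (X * Z) +
      (2 : ℂ) • Y - (2 * s⁻¹) • (Y * X) + (4 : ℂ) • (Y * Z) := by
    simp only [mul_add, add_mul, sub_mul, mul_sub, smul_mul_assoc, mul_smul_comm,
      one_mul, mul_one]
    module
  have e1 : (t⁻¹ * s⁻¹) • ((t + s) • X) = s⁻¹ • X + t⁻¹ • X := by
    rw [smul_smul, ← add_smul]
    congr 1
    field_simp
  have e2 : (t⁻¹ * 2) • (t • (P + Z)) = (2 : ℂ) • P + (2 : ℂ) • Z := by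
    rw [smul_smul, ← smul_add]
    congr 1
    field_simp
  have e3 : (2 * s⁻¹) • (s • (P + Y)) = (2 : ℂ) • P + (2 : ℂ) • Y := by
    rw [smul_smul, ← smul_add]
    congr 1
    field_simp
  rw [e0, h1, h2, h3, h4, e1, e2, e3]
  module

/-- entry functions of a matrix valued map -/
def SmoothPer {r N : ℕ} (M : E n → Matrix (Fin r) (Fin N) ℂ) : Prop :=
  (∀ a b, ContDiff ℝ ∞ (fun ξ => M ξ a b)) ∧ ∀ (ξ : E n) (k : Fin n → ℤ), M (ξ + zv k) = M ξ

lemma contDiff_conj {f : E n → ℂ} (h : ContDiff ℝ ∞ f) :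
    ContDiff ℝ ∞ (fun ξ => (starRingEnd ℂ) (f ξ)) :=
  (Complex.conjCLE : ℂ →L[ℝ] ℂ).contDiff.comp h

lemma SmoothPer.mul {r N m : ℕ} {M : E n → Matrix (Fin r) (Fin N) ℂ}
    {M' : E n → Matrix (Fin N) (Fin m) ℂ} (h : SmoothPer M) (h' : SmoothPer M') :
    SmoothPer (fun ξ => M ξ * M' ξ) := by
  refine ⟨fun a b => ?_, fun ξ k => ?_⟩
  · simp only [Matrix.mul_apply]
    exact ContDiff.sum (fun i _ => (h.1 a i).mul (h'.1 i b))
  · simp only [h.2, h'.2]

lemma SmoothPer.conjTranspose {r N : ℕ} {M : E n → Matrix (Fin r) (Fin N) ℂ}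
    (h : SmoothPer M) : SmoothPer (fun ξ => (M ξ).conjTranspose) := by
  refine ⟨fun a b => ?_, fun ξ k => ?_⟩
  · simp only [Matrix.conjTranspose_apply]
    exact contDiff_conj (h.1 b a)
  · simp only [h.2]

lemma SmoothPer.const {r N : ℕ} (M : Matrix (Fin r) (Fin N) ℂ) :
    SmoothPer (fun _ : E n => M) := ⟨fun _ _ => contDiff_const, fun _ _ => rfl⟩

/-- rotating a smooth field of unit vectors to a constant vector -/
lemma exists_rot {N : ℕ} (hN : n + 1 < 2 * N) (p : E n → Matrix (Fin 1) (Fin N) ℂ)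
    (hs : SmoothPer p) (hp : ∀ ξ, p ξ * (p ξ).conjTranspose = 1) :
    ∃ (c : Matrix (Fin 1) (Fin N) ℂ) (M : E n → Matrix (Fin N) (Fin N) ℂ),
      c * c.conjTranspose = 1 ∧
      SmoothPer M ∧ (∀ ξ, M ξ * (M ξ).conjTranspose = 1) ∧ ∀ ξ, p ξ * M ξ = c := by
  have hp' : ∀ ξ, ∑ b, p ξ 0 b * (starRingEnd ℂ) (p ξ 0 b) = 1 := by
    intro ξ
    have h1 := congrFun (congrFun (hp ξ) 0) 0
    rw [Matrix.mul_apply] at h1
    simpa [Matrix.conjTranspose_apply] using h1
  obtain ⟨c0, hc0, hmiss⟩ := exists_miss hN (fun ξ => p ξ 0) (fun b => hs.1 0 b) hp'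
  let c : Matrix (Fin 1) (Fin N) ℂ := fun _ b => c0 b
  have hc : c * c.conjTranspose = 1 := by
    ext i j
    rw [Matrix.mul_apply, Subsingleton.elim i 0, Subsingleton.elim j 0]
    simpa [c, Matrix.conjTranspose_apply] using hc0
  -- the scalar
  let t : E n → ℂ := fun ξ => 1 + ∑ b, p ξ 0 b * (starRingEnd ℂ) (c0 b)
  have ht : ∀ ξ, t ξ ≠ 0 := by
    intro ξ h0
    apply hmiss ξ
    have h1 : ∑ b, (p ξ 0 b + c0 b) * (starRingEnd ℂ) (p ξ 0 b + c0 b) = 0 := by
      have h2 : ∑ b, (p ξ 0 b + c0 b) * (starRingEnd ℂ) (p ξ 0 b + c0 b) =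
          t ξ + (starRingEnd ℂ) (t ξ) := by
        simp only [t, map_add, map_one, map_sum, map_mul, Complex.conj_conj]
        have h3 := hp' ξ
        calc _ = ∑ b, p ξ 0 b * (starRingEnd ℂ) (p ξ 0 b) + ∑ b, c0 b * (starRingEnd ℂ) (c0 b)
              + ∑ b, p ξ 0 b * (starRingEnd ℂ) (c0 b) +
              ∑ b, (starRingEnd ℂ) (p ξ 0 b) * c0 b := by
                rw [← Finset.sum_add_distrib, ← Finset.sum_add_distrib, ← Finset.sum_add_distrib]
                apply Finset.sum_congr rfl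
                intro b _
                ring
          _ = _ := by rw [h3, hc0]; ring
      rw [h2, h0, map_zero, add_zero]
    have h4 : ∀ b, (p ξ 0 b + c0 b) * (starRingEnd ℂ) (p ξ 0 b + c0 b) =
        ((‖p ξ 0 b + c0 b‖ ^ 2 : ℝ) : ℂ) := by
      intro b
      rw [Complex.mul_conj, Complex.normSq_eq_norm_sq]
    simp only [h4] at h1
    rw [← Complex.ofReal_sum, Complex.ofReal_eq_zero,
      Finset.sum_eq_zero_iff_of_nonneg (fun _ _ => by positivity)] at h1
    funext b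
    have h5 := h1 b (Finset.mem_univ b)
    rw [sq_eq_zero_iff, norm_eq_zero] at h5
    rw [Pi.neg_apply]
    exact eq_neg_of_add_eq_zero_left h5
  let w : E n → Matrix (Fin 1) (Fin N) ℂ := fun ξ => p ξ + c
  have hpc : ∀ ξ, p ξ * c.conjTranspose = (t ξ - 1) • (1 : Matrix (Fin 1) (Fin 1) ℂ) := by
    intro ξ
    ext i j
    rw [Matrix.mul_apply, Subsingleton.elim i 0, Subsingleton.elim j 0]
    simp [t, c, Matrix.conjTranspose_apply]
  have hcp : ∀ ξ, c * (p ξ).conjTranspose =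
      ((starRingEnd ℂ) (t ξ) - 1) • (1 : Matrix (Fin 1) (Fin 1) ℂ) := by
    intro ξ
    have h1 := congrArg Matrix.conjTranspose (hpc ξ)
    rw [Matrix.conjTranspose_mul, Matrix.conjTranspose_conjTranspose, Matrix.conjTranspose_smul,
      Matrix.conjTranspose_one] at h1
    rw [h1]
    congr 1
    simp
  have hwp : ∀ ξ, w ξ * (p ξ).conjTranspose = (starRingEnd ℂ) (t ξ) • 1 := by
    intro ξ
    simp only [w]
    rw [Matrix.add_mul, hp, hcp, sub_smul, one_smul]
    abel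
  have hpw : ∀ ξ, p ξ * (w ξ).conjTranspose = t ξ • 1 := by
    intro ξ
    simp only [w]
    rw [Matrix.conjTranspose_add, Matrix.mul_add, hp, hpc, sub_smul, one_smul]
    abel
  have hwc : ∀ ξ, w ξ * c.conjTranspose = t ξ • 1 := by
    intro ξ
    simp only [w]
    rw [Matrix.add_mul, hc, hpc, sub_smul, one_smul]
    abel
  have hcw : ∀ ξ, c * (w ξ).conjTranspose = (starRingEnd ℂ) (t ξ) • 1 := by
    intro ξ
    simp only [w]
    rw [Matrix.conjTranspose_add, Matrix.mul_add, hc, hcp, sub_smul, one_smul]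
    abel
  have hww : ∀ ξ, w ξ * (w ξ).conjTranspose = (t ξ + (starRingEnd ℂ) (t ξ)) • 1 := by
    intro ξ
    have h1 : w ξ * (w ξ).conjTranspose = p ξ * (w ξ).conjTranspose + c * (w ξ).conjTranspose := by
      rw [← Matrix.add_mul]
    rw [h1, hpw, hcw, ← add_smul]
  let M : E n → Matrix (Fin N) (Fin N) ℂ := fun ξ =>
    1 - (t ξ)⁻¹ • ((w ξ).conjTranspose * w ξ) + (2 : ℂ) • ((p ξ).conjTranspose * c)
  refine ⟨c, M, hc, ?_, ?_, ?_⟩
  · have htS : ContDiff ℝ ∞ t := by
      apply contDiff_const.add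
      exact ContDiff.sum (fun b _ => (hs.1 0 b).mul contDiff_const)
    have hwS : SmoothPer w := by
      refine ⟨fun a b => (hs.1 a b).add contDiff_const, fun ξ k => ?_⟩
      simp only [w, hs.2]
    have h1 := hwS.conjTranspose.mul hwS
    have h2 := hs.conjTranspose.mul (SmoothPer.const (n := n) c)
    refine ⟨fun a b => ?_, fun ξ k => ?_⟩
    · simp only [M, Matrix.add_apply, Matrix.sub_apply, Matrix.smul_apply, smul_eq_mul]
      apply ContDiff.add
      · apply contDiff_const.sub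
        exact (htS.inv ht).mul (h1.1 a b)
      · exact contDiff_const.mul (h2.1 a b)
    · have h3 : t (ξ + zv k) = t ξ := by simp only [t, hs.2]
      simp only [M, w, h3, hs.2]
  · intro ξ
    have hct : (M ξ).conjTranspose = 1 - ((starRingEnd ℂ) (t ξ))⁻¹ • ((w ξ).conjTranspose * w ξ) +
        (2 : ℂ) • (c.conjTranspose * p ξ) := by
      simp only [M]
      rw [Matrix.conjTranspose_add, Matrix.conjTranspose_sub, Matrix.conjTranspose_smul,
        Matrix.conjTranspose_smul, Matrix.conjTranspose_mul, Matrix.conjTranspose_mul,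
        Matrix.conjTranspose_conjTranspose, Matrix.conjTranspose_conjTranspose,
        Matrix.conjTranspose_one]
      simp
    rw [hct]
    have ht' : (starRingEnd ℂ) (t ξ) ≠ 0 := by
      rw [Ne, map_eq_zero]; exact ht ξ
    -- products of rank one operators
    have e1 : ((w ξ).conjTranspose * w ξ) * ((w ξ).conjTranspose * w ξ) =
        (t ξ + (starRingEnd ℂ) (t ξ)) • ((w ξ).conjTranspose * w ξ) := by
      rw [Matrix.mul_assoc, ← Matrix.mul_assoc (w ξ), hww, Matrix.smul_mul, Matrix.one_mul,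
        Matrix.mul_smul]
    have e5 : (w ξ).conjTranspose * p ξ = (p ξ).conjTranspose * p ξ + c.conjTranspose * p ξ := by
      simp only [w]
      rw [Matrix.conjTranspose_add, Matrix.add_mul]
    have e6 : (p ξ).conjTranspose * w ξ = (p ξ).conjTranspose * p ξ + (p ξ).conjTranspose * c := by
      simp only [w]
      rw [Matrix.mul_add]
    have e2 : ((w ξ).conjTranspose * w ξ) * (c.conjTranspose * p ξ) =
        t ξ • ((p ξ).conjTranspose * p ξ + c.conjTranspose * p ξ) := by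
      rw [← e5, Matrix.mul_assoc, ← Matrix.mul_assoc (w ξ), hwc, Matrix.smul_mul, Matrix.one_mul,
        Matrix.mul_smul]
    have e3 : ((p ξ).conjTranspose * c) * ((w ξ).conjTranspose * w ξ) =
        (starRingEnd ℂ) (t ξ) • ((p ξ).conjTranspose * p ξ + (p ξ).conjTranspose * c) := by
      rw [← e6, Matrix.mul_assoc, ← Matrix.mul_assoc c, hcw, Matrix.smul_mul, Matrix.one_mul,
        Matrix.mul_smul]
    have e4 : ((p ξ).conjTranspose * c) * (c.conjTranspose * p ξ) =
        (p ξ).conjTranspose * p ξ := by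
      rw [Matrix.mul_assoc, ← Matrix.mul_assoc c, hc, Matrix.one_mul]
    exact alg_id _ _ (ht ξ) ht' _ _ _ _ e1 e2 e3 e4
  · intro ξ
    simp only [M]
    rw [Matrix.mul_add, Matrix.mul_sub, Matrix.mul_one, Matrix.mul_smul, Matrix.mul_smul,
      ← Matrix.mul_assoc, ← Matrix.mul_assoc, hpw, hp, Matrix.smul_mul, Matrix.one_mul, smul_smul,
      inv_mul_cancel₀ (ht ξ), one_smul, Matrix.one_mul, two_smul]
    simp only [w]
    abel

/-- rotating a smooth field of unit vectors to the first basis vector -/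
lemma exists_rot0 {N : ℕ} (hN : n + 1 < 2 * (N + 1)) (p : E n → Matrix (Fin 1) (Fin (N + 1)) ℂ)
    (hs : SmoothPer p) (hp : ∀ ξ, p ξ * (p ξ).conjTranspose = 1) :
    ∃ M : E n → Matrix (Fin (N + 1)) (Fin (N + 1)) ℂ,
      SmoothPer M ∧ (∀ ξ, M ξ * (M ξ).conjTranspose = 1) ∧
      ∀ ξ b, (p ξ * M ξ) 0 b = if b = 0 then 1 else 0 := by
  obtain ⟨c, M, hc, hM, hMM, hpM⟩ := exists_rot hN p hs hp
  let v : Fin (N + 1) → EuclideanSpace ℂ (Fin (N + 1)) := fun _ => WithLp.toLp 2 (fun b => c 0 b)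
  have hv : Orthonormal ℂ (({0} : Set (Fin (N + 1))).domRestrict v) := by
    rw [orthonormal_iff_ite]
    rintro ⟨i, hi⟩ ⟨j, hj⟩
    rw [Set.mem_singleton_iff] at hi hj
    subst hi
    subst hj
    rw [if_pos rfl]
    have h1 := congrFun (congrFun hc 0) 0
    rw [Matrix.mul_apply] at h1
    simp only [Matrix.conjTranspose_apply, Matrix.one_apply_eq] at h1
    simp only [Set.domRestrict_apply, v]
    rw [PiLp.inner_apply, ← h1]
    apply Finset.sum_congr rfl
    intro b _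
    rw [RCLike.inner_apply]
    rfl
  obtain ⟨b, hb⟩ := hv.exists_orthonormalBasis_extension_of_card_eq (by
    rw [finrank_euclideanSpace_fin, Fintype.card_fin])
  have hb0 : b 0 = v 0 := hb 0 rfl
  let D : Matrix (Fin (N + 1)) (Fin (N + 1)) ℂ := fun j k => (starRingEnd ℂ) (b k j)
  have hD' : D.conjTranspose * D = 1 := by
    ext i k
    rw [Matrix.mul_apply, Matrix.one_apply]
    have h1 := (orthonormal_iff_ite.1 b.orthonormal) k i
    rw [PiLp.inner_apply] at h1
    have h2 : ∑ j, D.conjTranspose i j * D j k = if k = i then 1 else 0 := by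
      rw [← h1]
      apply Finset.sum_congr rfl
      intro j _
      rw [RCLike.inner_apply, Matrix.conjTranspose_apply]
      simp [D]
    rw [h2]
    simp only [eq_comm]
  have hD : D * D.conjTranspose = 1 := mul_eq_one_comm.1 hD'
  refine ⟨fun ξ => M ξ * D, hM.mul (SmoothPer.const D), fun ξ => ?_, fun ξ k => ?_⟩
  · rw [Matrix.conjTranspose_mul, Matrix.mul_assoc, ← Matrix.mul_assoc D, hD, Matrix.one_mul, hMM]
  · rw [← Matrix.mul_assoc, hpM, Matrix.mul_apply]
    have h1 := (orthonormal_iff_ite.1 b.orthonormal) k 0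
    rw [PiLp.inner_apply] at h1
    rw [← h1]
    apply Finset.sum_congr rfl
    intro j _
    rw [RCLike.inner_apply, hb0]

theorem completion_aux (r d : ℕ) (hd : n ≤ d) (N : ℕ) (hN : N = r + d)
    (H : E n → Matrix (Fin r) (Fin N) ℂ) (hs : SmoothPer H)
    (hH : ∀ ξ, H ξ * (H ξ).conjTranspose = 1) :
    ∃ K : E n → Matrix (Fin d) (Fin N) ℂ, SmoothPer K ∧
      (∀ ξ, K ξ * (K ξ).conjTranspose = 1) ∧ (∀ ξ, H ξ * (K ξ).conjTranspose = 0) := by
  induction r generalizing N with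
  | zero =>
    rw [zero_add] at hN
    subst hN
    refine ⟨fun _ => 1, SmoothPer.const 1, fun ξ => by simp, fun ξ => ?_⟩
    ext a b
    exact a.elim0
  | succ r ih =>
    obtain ⟨N', rfl⟩ : ∃ N', N = N' + 1 := ⟨r + d, by omega⟩
    -- rotate the first row
    let p : E n → Matrix (Fin 1) (Fin (N' + 1)) ℂ := fun ξ _ b => H ξ 0 b
    have hp : SmoothPer p := ⟨fun a b => hs.1 0 b, fun ξ k => by simp only [p, hs.2]⟩
    have hpp : ∀ ξ, p ξ * (p ξ).conjTranspose = 1 := by
      intro ξ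
      ext i j
      have h1 := congrFun (congrFun (hH ξ) 0) 0
      rw [Matrix.mul_apply] at h1
      rw [Matrix.mul_apply, Subsingleton.elim i 0, Subsingleton.elim j 0]
      simpa [p, Matrix.conjTranspose_apply] using h1
    obtain ⟨M, hM, hMM, hpM⟩ := exists_rot0 (n := n) (by omega) p hp hpp
    let G : E n → Matrix (Fin (r + 1)) (Fin (N' + 1)) ℂ := fun ξ => H ξ * M ξ
    have hG : SmoothPer G := hs.mul hM
    have hG0 : ∀ ξ b, G ξ 0 b = if b = 0 then 1 else 0 := by
      intro ξ b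
      rw [← hpM ξ b]
      simp only [G, Matrix.mul_apply, p]
    have hGG : ∀ ξ, G ξ * (G ξ).conjTranspose = 1 := by
      intro ξ
      simp only [G]
      rw [Matrix.conjTranspose_mul, Matrix.mul_assoc, ← Matrix.mul_assoc (M ξ), hMM,
        Matrix.one_mul, hH]
    have hGs : ∀ ξ (a : Fin r), G ξ a.succ 0 = 0 := by
      intro ξ a
      have h1 := congrFun (congrFun (hGG ξ) a.succ) 0
      rw [Matrix.mul_apply] at h1
      simp only [Matrix.conjTranspose_apply, hG0] at h1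
      rw [Matrix.one_apply_ne (Fin.succ_ne_zero a)] at h1
      simpa using h1
    let H1 : E n → Matrix (Fin r) (Fin N') ℂ := fun ξ a b => G ξ a.succ b.succ
    have hH1 : SmoothPer H1 := ⟨fun a b => hG.1 _ _, fun ξ k => by simp only [H1, hG.2]⟩
    have hH11 : ∀ ξ, H1 ξ * (H1 ξ).conjTranspose = 1 := by
      intro ξ
      ext a b
      have h1 := congrFun (congrFun (hGG ξ) a.succ) b.succ
      rw [Matrix.mul_apply, Fin.sum_univ_succ, hGs, zero_mul, zero_add] at h1
      rw [Matrix.mul_apply]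
      simp only [Matrix.conjTranspose_apply] at h1 ⊢
      rw [h1, Matrix.one_apply, Matrix.one_apply]
      simp
    obtain ⟨K1, hK1, hK11, hK12⟩ := ih N' (by omega) H1 hH1 hH11
    let K2 : E n → Matrix (Fin d) (Fin (N' + 1)) ℂ := fun ξ l => Fin.cons 0 (K1 ξ l)
    have hK2 : SmoothPer K2 := by
      refine ⟨fun a b => ?_, fun ξ k => ?_⟩
      · refine Fin.cases ?_ (fun b => ?_) b
        · simp only [K2, Fin.cons_zero]; exact contDiff_const
        · simp only [K2, Fin.cons_succ]; exact hK1.1 a b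
      · simp only [K2, hK1.2]
    have hK22 : ∀ ξ, K2 ξ * (K2 ξ).conjTranspose = 1 := by
      intro ξ
      rw [← hK11 ξ]
      ext a b
      rw [Matrix.mul_apply, Matrix.mul_apply, Fin.sum_univ_succ]
      simp [K2, Matrix.conjTranspose_apply]
    have hGK2 : ∀ ξ, G ξ * (K2 ξ).conjTranspose = 0 := by
      intro ξ
      ext a l
      rw [Matrix.mul_apply, Fin.sum_univ_succ]
      simp only [Matrix.conjTranspose_apply, K2, Fin.cons_zero, Fin.cons_succ, star_zero, mul_zero,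
        zero_add, Matrix.zero_apply]
      refine Fin.cases ?_ (fun a => ?_) a
      · apply Finset.sum_eq_zero
        intro b _
        rw [hG0, if_neg (Fin.succ_ne_zero b), zero_mul]
      · have h1 := congrFun (congrFun (hK12 ξ) a) l
        rw [Matrix.mul_apply] at h1
        exact h1
    refine ⟨fun ξ => K2 ξ * (M ξ).conjTranspose, hK2.mul hM.conjTranspose, fun ξ => ?_,
      fun ξ => ?_⟩
    · have hMM' : (M ξ).conjTranspose * M ξ = 1 := mul_eq_one_comm.1 (hMM ξ)
      rw [Matrix.conjTranspose_mul, Matrix.conjTranspose_conjTranspose, Matrix.mul_assoc,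
        ← Matrix.mul_assoc (M ξ).conjTranspose, hMM', Matrix.one_mul, hK22]
    · rw [Matrix.conjTranspose_mul, Matrix.conjTranspose_conjTranspose, ← Matrix.mul_assoc]
      exact hGK2 ξ

/-- Completion of a smooth periodic isometry to a unitary matrix. -/
theorem completion {n r N : ℕ} (hrN : r + n ≤ N) (H : E n → Matrix (Fin r) (Fin N) ℂ)
    (hs : ∀ a b, ContDiff ℝ ∞ (fun ξ => H ξ a b))
    (hper : ∀ (ξ : E n) (k : Fin n → ℤ), H (ξ + zv k) = H ξ)
    (hH : ∀ ξ, H ξ * (H ξ).conjTranspose = 1) :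
    ∃ K : E n → Matrix (Fin (N - r)) (Fin N) ℂ,
      (∀ a b, ContDiff ℝ ∞ (fun ξ => K ξ a b)) ∧
      (∀ (ξ : E n) (k : Fin n → ℤ), K (ξ + zv k) = K ξ) ∧
      (∀ ξ, K ξ * (K ξ).conjTranspose = 1) ∧ (∀ ξ, H ξ * (K ξ).conjTranspose = 0) := by
  obtain ⟨K, hK1, hK2, hK3⟩ := completion_aux r (N - r) (by omega) N (by omega) H ⟨hs, hper⟩ hH
  exact ⟨K, hK1.1, hK1.2, hK2, hK3⟩

end Run7.h408
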