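import Pool.Agent.Run7.h408.Sys

/-!
Finite systems of generators over `ℤ^n`, and supports.
-/

set_option autoImplicit false

open MeasureTheory FourierTransform Filter Topology
open scoped ENNReal ContDiff InnerProductSpace

namespace Run7.h408

variable {n : ℕ}

lemma zv_mulVec (Q : Matrix (Fin n) (Fin n) ℤ) (k : Fin n → ℤ) :
    zv (Q.mulVec k) = act (Q.map (Int.cast : ℤ → ℝ)) (zv k) := by
  unfold zv act
  ext i
  simp [Matrix.mulVec, dotProduct]

lemma ee_compat (G : GL (Fin n) ℝ) (Q : Matrix (Fin n) (Fin n) ℤ)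
    (hGQ : (G : Matrix (Fin n) (Fin n) ℝ).transpose * Q.map (Int.cast : ℤ → ℝ) = 1)
    (k : Fin n → ℤ) (ξ : E n) :
    ee (Q.mulVec k) (act (G : Matrix (Fin n) (Fin n) ℝ) ξ) = ee k ξ := by
  unfold ee
  have h1 : inner ℝ (zv (Q.mulVec k)) (act (G : Matrix (Fin n) (Fin n) ℝ) ξ) =
      inner ℝ (zv k) ξ := by
    rw [zv_mulVec]
    have h2 := inner_act (G : Matrix (Fin n) (Fin n) ℝ).transpose
      (act (Q.map (Int.cast : ℤ → ℝ)) (zv k)) ξ
    rw [Matrix.transpose_transpose] at h2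
    rw [← h2, ← act_mul, hGQ, act_one]
  rw [h1]

lemma cl_congr {f g : E n → ℂ} (h : f = g) (hf : CS f) (hg : CS g) : cl hf = cl hg := by
  subst h; rfl

lemma mulVec_inj {Q : Matrix (Fin n) (Fin n) ℤ} (hQ : Q.det ≠ 0) :
    Function.Injective Q.mulVec := Matrix.mulVec_injective_of_det_ne_zero hQ

lemma card_quot (Q : Matrix (Fin n) (Fin n) ℤ) (hQ : Q.det ≠ 0) :
    Nat.card ((Fin n → ℤ) ⧸ LinearMap.range Q.mulVecLin) = Q.det.natAbs := by
  have hinj : Function.Injective Q.mulVecLin := mulVec_inj hQ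
  let e : (Fin n → ℤ) ≃ₗ[ℤ] LinearMap.range Q.mulVecLin := LinearEquiv.ofInjective _ hinj
  have h := Submodule.natAbs_det_equiv (LinearMap.range Q.mulVecLin) e
  rw [← h]
  congr 1
  have h2 : ((LinearMap.range Q.mulVecLin).subtype ∘ₗ
      AddMonoidHom.toIntLinearMap (e : (Fin n → ℤ) →+ LinearMap.range Q.mulVecLin)) =
      Matrix.toLin' Q := by
    ext x i
    rfl
  rw [h2, LinearMap.det_toLin']

lemma exists_gen {W : (Fin n → ℕ) → E n → ℂ} (hW : Wil W) (G : GL (Fin n) ℝ)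
    (Q : Matrix (Fin n) (Fin n) ℤ)
    (hGQ : (G : Matrix (Fin n) (Fin n) ℝ).transpose * Q.map (Int.cast : ℤ → ℝ) = 1)
    (hQ : Q.det ≠ 0) (S : Finset (Fin n → ℕ)) :
    ∃ (h : Fin (S.card * Q.det.natAbs) → E n → ℂ) (hh : ∀ a, CS (h a)),
      Gen (hW.VG G S) h hh := by
  classical
  set q := (Fin n → ℤ) ⧸ LinearMap.range Q.mulVecLin with hq
  have hc : Nat.card q = Q.det.natAbs := card_quot Q hQ
  have hfin : Finite q := by
    apply Nat.finite_of_card_ne_zero
    rw [hc]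
    exact Int.natAbs_ne_zero.2 hQ
  have hcard : Nat.card (S × q) = S.card * Q.det.natAbs := by
    rw [Nat.card_prod, hc, Nat.card_eq_fintype_card, Fintype.card_coe]
  have e : Fin (S.card * Q.det.natAbs) ≃ S × q := by
    rw [← hcard]
    exact (Finite.equivFin _).symm
  let rep : q → (Fin n → ℤ) := fun x => Quotient.out x
  have hrep : ∀ x : q, Submodule.Quotient.mk (rep x) = x := fun x => Quotient.out_eq x
  have hshift : ∀ (I : Fin n → ℕ) (κ k : Fin n → ℤ),
      eg k (hW.uG G I κ) = hW.uG G I (κ + Q.mulVec k) := by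
    intro I κ k
    funext ξ
    unfold Wil.uG eg
    rw [ee_add, ee_compat G Q hGQ, map_mul]
    ring
  have hcl : ∀ (I : Fin n → ℕ) (κ k : Fin n → ℤ),
      cl ((hW.cs_uG G I κ).conj_ee_mul k) = hW.UG G I (κ + Q.mulVec k) := by
    intro I κ k
    rw [← hW.cl_uG]
    exact cl_congr (hshift I κ k) _ _
  refine ⟨fun b => hW.uG G (e b).1 (rep (e b).2), fun b => hW.cs_uG G _ _, ?_, ?_, ?_⟩
  · intro b b' k
    rw [hcl, hW.cl_uG, hW.inner_UG]
    congr 1
    apply propext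
    constructor
    · rintro ⟨h1, h2⟩
      have h3 : (e b).2 = (e b').2 := by
        rw [← hrep (e b).2, ← hrep (e b').2, ← h2, Submodule.Quotient.mk_add]
        have : (Submodule.Quotient.mk (Q.mulVec k) : q) = 0 := by
          rw [Submodule.Quotient.mk_eq_zero]
          exact ⟨k, rfl⟩
        rw [this, add_zero]
      have h4 : e b = e b' := Prod.ext (Subtype.ext h1) h3
      refine ⟨e.injective h4, ?_⟩
      rw [h3, add_eq_left] at h2
      exact mulVec_inj hQ (by rw [h2, Matrix.mulVec_zero])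
    · rintro ⟨rfl, rfl⟩
      simp
  · intro b k
    rw [hcl]
    exact hW.UG_mem G S (e b).1.2 _
  · intro u hu
    apply hW.tot_VG
    intro I hI κ
    have h1 : (Submodule.Quotient.mk κ : q) = Submodule.Quotient.mk (rep (Submodule.Quotient.mk κ)) :=
      (hrep _).symm
    rw [Submodule.Quotient.eq] at h1
    obtain ⟨k, hk⟩ := h1
    have h2 := hu (e.symm (⟨I, hI⟩, Submodule.Quotient.mk κ)) k
    rw [hcl] at h2
    simp only [Equiv.apply_symm_apply] at h2
    have h3 : rep (Submodule.Quotient.mk κ) + Q.mulVec k = κ := by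
      have : Q.mulVec k = κ - rep (Submodule.Quotient.mk κ) := hk
      rw [this]; abel
    rw [h3] at h2
    exact h2

namespace Wil

variable {W : (Fin n → ℕ) → E n → ℂ} (hW : Wil W)

include hW

lemma finite_S (R : ℝ) : {I : Fin n → ℕ | ∃ ξ : E n, ‖ξ‖ ≤ R ∧ W I ξ ≠ 0}.Finite := by
  apply (Set.Finite.pi (fun _ : Fin n => Set.finite_Iic ⌈2 * R + 1⌉₊)).subset
  rintro I ⟨ξ, h1, h2⟩
  rw [Set.mem_pi]
  intro d _
  have h3 := (hW.supp I ξ h2 d).1
  have h4 : |ξ d| ≤ ‖ξ‖ := by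
    have := PiLp.norm_apply_le ξ d
    simpa using this
  rw [Set.mem_Iic]
  have h5 : (I d : ℝ) ≤ (⌈2 * R + 1⌉₊ : ℝ) := by
    refine le_trans ?_ (Nat.le_ceil _)
    linarith
  exact_mod_cast h5

/-- indices of the functions meeting the ball of radius `R` -/
noncomputable def SR (R : ℝ) : Finset (Fin n → ℕ) := (hW.finite_S R).toFinset

lemma mem_SR (R : ℝ) (I : Fin n → ℕ) : I ∈ hW.SR R ↔ ∃ ξ : E n, ‖ξ‖ ≤ R ∧ W I ξ ≠ 0 := by
  unfold SR
  rw [Set.Finite.mem_toFinset]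
  rfl

lemma supp_SR {R : ℝ} {I : Fin n → ℕ} (hI : I ∈ hW.SR R) {η : E n} (h : W I η ≠ 0) :
    ‖η‖ ≤ R + Real.sqrt n := by
  obtain ⟨ξ, h1, h2⟩ := (hW.mem_SR R I).1 hI
  have h3 : ‖η‖ ≤ ‖ξ‖ + Real.sqrt n := by
    apply norm_le_of_coord
    intro d
    have h4 := (hW.supp I ξ h2 d).1
    have h5 := (hW.supp I η h d).2
    linarith
  linarith

lemma mem_of_supp (G : GL (Fin n) ℝ) (R : ℝ) (f : L2 n)
    (hf : ∀ᵐ ξ : E n, R < ‖act (G : Matrix (Fin n) (Fin n) ℝ) ξ‖ → f ξ = 0) :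
    f ∈ hW.VG G (hW.SR R) := by
  rw [mem_VG]
  intro I hI κ
  rw [← hW.cl_uG, inner_cl]
  apply integral_eq_zero_of_ae
  filter_upwards [hf] with ξ hξ
  rw [Pi.zero_apply]
  by_cases h1 : R < ‖act (G : Matrix (Fin n) (Fin n) ℝ) ξ‖
  · rw [hξ h1, zero_mul]
  · push Not at h1
    have h2 : W I (act (G : Matrix (Fin n) (Fin n) ℝ) ξ) = 0 := by
      by_contra hne
      exact hI ((hW.mem_SR R I).2 ⟨_, h1, hne⟩)
    unfold uG eg
    rw [h2]
    simp

lemma supp_of_mem (G : GL (Fin n) ℝ) (R : ℝ) (v : L2 n) (hv : v ∈ hW.VG G (hW.SR R)) :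
    ∀ᵐ ξ : E n, R + Real.sqrt n < ‖act (G : Matrix (Fin n) (Fin n) ℝ) ξ‖ → v ξ = 0 := by
  let s : Set (E n) := {ξ | R + Real.sqrt n < ‖act (G : Matrix (Fin n) (Fin n) ℝ) ξ‖}
  have hs : MeasurableSet s :=
    (isOpen_lt continuous_const (continuous_act _).norm).measurableSet
  let f : L2 n := ((Lp.memLp v).indicator hs).toLp _
  have hf : (f : E n → ℂ) =ᵐ[volume] s.indicator v := MemLp.coeFn_toLp _
  have h1 : ⟪v, f⟫_ℂ = 0 := by
    apply hW.tot_VG G (hW.SR R) f _ v hv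
    intro I hI κ
    rw [← hW.cl_uG, inner_cl]
    apply integral_eq_zero_of_ae
    filter_upwards [hf] with ξ hξ
    rw [Pi.zero_apply, hξ]
    by_cases h1 : ξ ∈ s
    · have h2 : W I (act (G : Matrix (Fin n) (Fin n) ℝ) ξ) = 0 := by
        by_contra hne
        have := hW.supp_SR hI hne
        exact absurd h1 (not_lt.2 this)
      unfold uG eg
      rw [h2]
      simp
    · rw [Set.indicator_of_notMem h1, zero_mul]
  have h2 : ⟪f, f⟫_ℂ = 0 := by
    rw [← h1, inner_L2, inner_L2]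
    apply integral_congr_ae
    filter_upwards [hf] with ξ hξ
    rw [hξ]
    by_cases h3 : ξ ∈ s
    · rw [Set.indicator_of_mem h3]
    · rw [Set.indicator_of_notMem h3, zero_mul, zero_mul]
  have h3 : f = 0 := inner_self_eq_zero.1 h2
  rw [h3] at hf
  filter_upwards [hf, Lp.coeFn_zero ℂ 2 (volume : Measure (E n))] with ξ h4 h5 h6
  rw [h5, Set.indicator_of_mem (show ξ ∈ s from h6)] at h4
  exact h4.symm

/-- many indices for large `R` -/
lemma card_SR (hn : 0 < n) (M : ℕ) : M ≤ (hW.SR (2 * M)).card := by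
  classical
  let d0 : Fin n := ⟨0, hn⟩
  have hex : ∀ m : Fin M, ∃ I, W I (EuclideanSpace.single d0 (2 * (m : ℕ) : ℝ)) ≠ 0 := by
    intro m
    by_contra hcon
    push Not at hcon
    have h1 := hW.col (EuclideanSpace.single d0 (2 * (m : ℕ) : ℝ)) 0
    simp only [hcon, zero_mul, if_true] at h1
    exact one_ne_zero (h1.unique hasSum_zero)
  choose I hI using hex
  have hIm : ∀ m : Fin M, 4 * (m : ℕ) ≤ 2 + I m d0 ∧ I m d0 ≤ 4 * (m : ℕ) + 1 := by
    intro m
    have h1 := hW.supp (I m) _ (hI m) d0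
    simp only [EuclideanSpace.single_apply, if_true] at h1
    rw [abs_of_nonneg (by positivity)] at h1
    constructor
    · have h2 : (4 * (m : ℕ) : ℝ) < 2 + I m d0 := by linarith [h1.2]
      have h3 : 4 * (m : ℕ) < 2 + I m d0 := by exact_mod_cast h2
      omega
    · have h2 : (I m d0 : ℝ) < 4 * (m : ℕ) + 1 := by linarith [h1.1]
      have h3 : I m d0 < 4 * (m : ℕ) + 1 := by exact_mod_cast h2
      omega
  have hinj : Function.Injective I := by
    intro m m' h
    have h1 := hIm m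
    have h2 := hIm m'
    rw [h] at h1
    apply Fin.ext
    omega
  have hsub : Finset.univ.image I ⊆ hW.SR (2 * M) := by
    intro J hJ
    rw [Finset.mem_image] at hJ
    obtain ⟨m, _, rfl⟩ := hJ
    rw [mem_SR]
    refine ⟨_, ?_, hI m⟩
    rw [EuclideanSpace.norm_single, Real.norm_eq_abs, abs_of_nonneg (by positivity)]
    have : (m : ℕ) ≤ M := m.2.le
    have h2 : ((m : ℕ) : ℝ) ≤ M := by exact_mod_cast this
    linarith
  have h1 := Finset.card_le_card hsub
  rw [Finset.card_image_of_injective _ hinj, Finset.card_univ, Fintype.card_fin] at h1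
  exact h1

lemma SR_mono {R R' : ℝ} (h : R ≤ R') : hW.SR R ⊆ hW.SR R' := by
  intro I hI
  rw [mem_SR] at hI ⊢
  obtain ⟨ξ, h1, h2⟩ := hI
  exact ⟨ξ, h1.trans h, h2⟩

end Wil

end Run7.h408
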