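import Pool.Agent.Run7.h408.Ops

/-!
A rational expansive matrix is strictly expansive for the Euclidean norm in a rational basis.
-/

set_option autoImplicit false

open MeasureTheory Filter Topology
open scoped ENNReal NNReal ContDiff InnerProductSpace

namespace Run7.h408

variable {n : ℕ}

section gelfand

open scoped Matrix.Norms.L2Operator

/-- powers of the inverse of an expansive matrix tend to zero -/
lemma exists_pow_small (hn : 0 < n) (A : GL (Fin n) ℝ)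
    (hA : IsExpansive (A : Matrix (Fin n) (Fin n) ℝ)) :
    ∀ ε > 0, ∃ K : ℕ, 0 < K ∧ ∀ i j, |(((A⁻¹ : GL (Fin n) ℝ) : Matrix (Fin n) (Fin n) ℝ) ^ K) i j| ≤ ε := by
  intro ε hε
  have : Nonempty (Fin n) := ⟨⟨0, hn⟩⟩
  have : Nontrivial (Matrix (Fin n) (Fin n) ℂ) := inferInstance
  let f : Matrix (Fin n) (Fin n) ℝ →+* Matrix (Fin n) (Fin n) ℂ :=
    (algebraMap ℝ ℂ).mapMatrix
  let u : (Matrix (Fin n) (Fin n) ℂ)ˣ := Units.map (f : Matrix (Fin n) (Fin n) ℝ →* _) A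
  have hu : (u : Matrix (Fin n) (Fin n) ℂ) = (A : Matrix (Fin n) (Fin n) ℝ).map (algebraMap ℝ ℂ) :=
    rfl
  have hui : ((u⁻¹ : (Matrix (Fin n) (Fin n) ℂ)ˣ) : Matrix (Fin n) (Fin n) ℂ) =
      ((A⁻¹ : GL (Fin n) ℝ) : Matrix (Fin n) (Fin n) ℝ).map (algebraMap ℝ ℂ) := rfl
  set D : Matrix (Fin n) (Fin n) ℂ := ((u⁻¹ : (Matrix (Fin n) (Fin n) ℂ)ˣ) :
    Matrix (Fin n) (Fin n) ℂ) with hD
  have hlt : spectralRadius ℂ D < 1 := by
    have h1 := spectrum.spectralRadius_lt_of_forall_lt D (r := 1) (by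
      intro z hz
      have h2 : z⁻¹ ∈ spectrum ℂ (u : Matrix (Fin n) (Fin n) ℂ) := spectrum.inv₀_mem_iff.2 hz
      have h3 := hA z⁻¹ h2
      rw [norm_inv] at h3
      have h4 : ‖z‖ < 1 := by
        by_contra hge
        push Not at hge
        have := inv_le_one_of_one_le₀ hge
        linarith
      exact_mod_cast h4)
    simpa using h1
  have hG := spectrum.pow_nnnorm_pow_one_div_tendsto_nhds_spectralRadius D
  obtain ⟨r, hr1, hr2⟩ := exists_between hlt
  have hev : ∀ᶠ m : ℕ in atTop, (‖D ^ m‖₊ : ℝ≥0∞) ^ (1 / m : ℝ) < r :=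
    hG.eventually_lt_const hr1
  have hr0 : Tendsto (fun m : ℕ => r ^ m) atTop (𝓝 0) :=
    ENNReal.tendsto_pow_atTop_nhds_zero_of_lt_one hr2
  have hev2 : ∀ᶠ m : ℕ in atTop, r ^ m < ENNReal.ofReal ε := by
    apply hr0.eventually_lt_const
    simpa using hε
  obtain ⟨K, h1, h2, h3⟩ := (hev.and (hev2.and (eventually_gt_atTop 0))).exists
  refine ⟨K, h3, fun i j => ?_⟩
  have hK : (K : ℝ) ≠ 0 := by exact_mod_cast h3.ne'
  have h4 : (‖D ^ K‖₊ : ℝ≥0∞) < ENNReal.ofReal ε := by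
    have h5 : (‖D ^ K‖₊ : ℝ≥0∞) = ((‖D ^ K‖₊ : ℝ≥0∞) ^ (1 / K : ℝ)) ^ (K : ℝ) := by
      rw [← ENNReal.rpow_mul, one_div, inv_mul_cancel₀ hK, ENNReal.rpow_one]
    rw [h5]
    refine lt_of_le_of_lt ?_ h2
    rw [← ENNReal.rpow_natCast]
    exact ENNReal.rpow_le_rpow h1.le (by positivity)
  have h6 : ‖D ^ K‖ < ε := by
    rw [← ENNReal.ofReal_coe_nnreal, coe_nnnorm] at h4
    exact (ENNReal.ofReal_lt_ofReal_iff hε).1 h4
  have h7 : (D ^ K) i j = (((((A⁻¹ : GL (Fin n) ℝ) : Matrix (Fin n) (Fin n) ℝ) ^ K) i j : ℝ) : ℂ) := by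
    have h8 : D = f ((A⁻¹ : GL (Fin n) ℝ) : Matrix (Fin n) (Fin n) ℝ) := rfl
    rw [h8, ← map_pow]
    rfl
  have h8 : ‖(D ^ K) i j‖ ≤ ‖D ^ K‖ := by
    have h9 := (D ^ K).l2_opNorm_mulVec (EuclideanSpace.single j (1 : ℂ))
    rw [PiLp.norm_single, norm_one, mul_one] at h9
    refine le_trans ?_ h9
    have h10 := PiLp.norm_apply_le ((EuclideanSpace.equiv (Fin n) ℂ).symm
      ((D ^ K).mulVec (EuclideanSpace.single j (1 : ℂ)).ofLp)) i
    refine le_trans (le_of_eq ?_) h10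
    congr 1
    simp
  rw [h7, Complex.norm_real, Real.norm_eq_abs] at h8
  linarith

end gelfand

/-- crude bound -/
lemma norm_act_le (M : Matrix (Fin n) (Fin n) ℝ) (ε : ℝ) (hM : ∀ i j, |M i j| ≤ ε) (x : E n) :
    ‖act M x‖ ≤ (n * ε) * ‖x‖ := by
  have h1 : ∀ i, |(act M x) i| ≤ ε * ∑ j, |x j| := by
    intro i
    have : (act M x) i = ∑ j, M i j * x j := rfl
    rw [this, Finset.mul_sum]
    refine (Finset.abs_sum_le_sum_abs _ _).trans ?_
    apply Finset.sum_le_sum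
    intro j _
    rw [abs_mul]
    exact mul_le_mul_of_nonneg_right (hM i j) (abs_nonneg _)
  have h2 : ∑ j, |x j| ≤ Real.sqrt n * ‖x‖ := by
    rw [EuclideanSpace.norm_eq, ← Real.sqrt_mul (Nat.cast_nonneg n)]
    apply Real.le_sqrt_of_sq_le
    have h3 := sq_sum_le_card_mul_sum_sq (s := (Finset.univ : Finset (Fin n))) (f := fun j => |x j|)
    rw [Finset.card_univ, Fintype.card_fin] at h3
    simpa [sq_abs] using h3
  have hε : 0 ≤ ε ∨ n = 0 := by
    rcases Nat.eq_zero_or_pos n with h | h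
    · right; exact h
    · left
      exact (abs_nonneg _).trans (hM ⟨0, h⟩ ⟨0, h⟩)
  rcases hε with hε | hn
  · have h3 : ‖act M x‖ ≤ Real.sqrt n * (ε * (Real.sqrt n * ‖x‖)) := by
      rw [EuclideanSpace.norm_eq (act M x)]
      have h4 : 0 ≤ ε * (Real.sqrt n * ‖x‖) := by positivity
      rw [show Real.sqrt n * (ε * (Real.sqrt n * ‖x‖)) =
        Real.sqrt (n * (ε * (Real.sqrt n * ‖x‖)) ^ 2) by
          rw [Real.sqrt_mul (Nat.cast_nonneg n), Real.sqrt_sq h4]]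
      apply Real.sqrt_le_sqrt
      calc ∑ i, ‖(act M x) i‖ ^ 2 ≤ ∑ _i : Fin n, (ε * (Real.sqrt n * ‖x‖)) ^ 2 := by
            apply Finset.sum_le_sum
            intro i _
            rw [Real.norm_eq_abs]
            exact pow_le_pow_left₀ (abs_nonneg _)
              ((h1 i).trans (mul_le_mul_of_nonneg_left h2 hε)) 2
        _ = _ := by simp
    refine h3.trans (le_of_eq ?_)
    have h5 : Real.sqrt n * Real.sqrt n = n := Real.mul_self_sqrt (Nat.cast_nonneg n)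
    calc _ = (Real.sqrt n * Real.sqrt n) * ε * ‖x‖ := by ring
      _ = _ := by rw [h5]
  · subst hn
    have : x = 0 := Subsingleton.elim _ _
    rw [this, act_zero]
    simp

section gram

open scoped Matrix.Norms.L2Operator MatrixOrder

/-- a sum of squares of matrices is a square -/
lemma exists_sqrt_sum (K : ℕ) (c : ℕ → Matrix (Fin n) (Fin n) ℝ) :
    ∃ S : Matrix (Fin n) (Fin n) ℝ, ∀ x : E n, ‖act S x‖ ^ 2 =
      ∑ k ∈ Finset.range K, ‖act (c k) x‖ ^ 2 := by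
  have hpos : (∑ k ∈ Finset.range K, (c k).conjTranspose * c k).PosSemidef := by
    apply Matrix.posSemidef_sum
    intro k _
    exact Matrix.posSemidef_conjTranspose_mul_self _
  obtain ⟨S, hS⟩ := CStarAlgebra.nonneg_iff_eq_star_mul_self.mp hpos.nonneg
  have key : ∀ (M : Matrix (Fin n) (Fin n) ℝ) (x : E n),
      ‖act M x‖ ^ 2 = inner ℝ (act (M.conjTranspose * M) x) x := by
    intro M x
    rw [act_mul, inner_act, ← real_inner_self_eq_norm_sq]
    congr 1
  refine ⟨S, fun x => ?_⟩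
  rw [key S x, ← Matrix.star_eq_conjTranspose, ← hS]
  simp only [key]
  rw [← sum_inner]
  congr 1
  have : ∀ m : ℕ, act (∑ k ∈ Finset.range m, (c k).conjTranspose * c k) x =
      ∑ k ∈ Finset.range m, act ((c k).conjTranspose * c k) x := by
    intro m
    induction m with
    | zero => 
      simp only [Finset.range_zero, Finset.sum_empty]
      unfold act
      ext i
      simp
    | succ m ih =>
      rw [Finset.sum_range_succ, Finset.sum_range_succ, ← ih]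
      unfold act
      ext i
      simp [Matrix.add_mulVec]
  exact this K

end gram

/-- common denominator -/
lemma exists_den {m : ℕ} (M : Matrix (Fin m) (Fin m) ℚ) :
    ∃ (d : ℕ) (Z : Matrix (Fin m) (Fin m) ℤ), 0 < d ∧ ∀ i j, (d : ℚ) * M i j = Z i j := by
  let d : ℕ := ∏ i, ∏ j, (M i j).den
  have hdvd : ∀ i j, (M i j).den ∣ d := by
    intro i j
    exact (Finset.dvd_prod_of_mem (fun j => (M i j).den) (Finset.mem_univ j)).trans
      (Finset.dvd_prod_of_mem (fun i => ∏ j, (M i j).den) (Finset.mem_univ i))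
  refine ⟨d, fun i j => (d / (M i j).den : ℕ) * (M i j).num, ?_, ?_⟩
  · exact Finset.prod_pos fun i _ => Finset.prod_pos fun j _ => (M i j).pos
  · intro i j
    obtain ⟨e, he⟩ := hdvd i j
    have h1 : d / (M i j).den = e := by
      rw [he, Nat.mul_div_cancel_left _ (M i j).pos]
    change (d : ℚ) * M i j = (((d / (M i j).den : ℕ) * (M i j).num : ℤ) : ℚ)
    rw [h1, he]
    push_cast
    have h2 := Rat.den_mul_eq_num (M i j)
    calc ((M i j).den : ℚ) * e * M i j = e * ((M i j).den * M i j) := by ring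
      _ = _ := by rw [h2]

lemma map_ratCast_mul {m : ℕ} (M N : Matrix (Fin m) (Fin m) ℚ) :
    (M * N).map (Rat.cast : ℚ → ℝ) = M.map (Rat.cast : ℚ → ℝ) * N.map (Rat.cast : ℚ → ℝ) := by
  exact (Rat.castHom ℝ).mapMatrix.map_mul M N

/-- A rational expansive matrix becomes strictly expansive for the Euclidean norm after a change
of basis `P`, with `P⁻¹` and `P⁻¹ A` integer matrices. -/
theorem exists_adapted (hn : 0 < n) (A : GL (Fin n) ℝ)
    (hA : IsExpansive (A : Matrix (Fin n) (Fin n) ℝ))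
    (hrat : ∀ i j, ∃ q : ℚ, (A : Matrix (Fin n) (Fin n) ℝ) i j = (q : ℝ)) :
    ∃ (P : Matrix (Fin n) (Fin n) ℝ) (Q T : Matrix (Fin n) (Fin n) ℤ) (ρ : ℝ),
      1 < ρ ∧ P * Q.map (Int.cast : ℤ → ℝ) = 1 ∧
      Q.map (Int.cast : ℤ → ℝ) * (A : Matrix (Fin n) (Fin n) ℝ) = T.map (Int.cast : ℤ → ℝ) ∧
      ∀ x : E n, ρ * ‖act P.transpose x‖ ≤
        ‖act (P.transpose * (A : Matrix (Fin n) (Fin n) ℝ).transpose) x‖ := by
  have hn' : (0 : ℝ) < n := by exact_mod_cast hn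
  set B : Matrix (Fin n) (Fin n) ℝ := (A : Matrix (Fin n) (Fin n) ℝ).transpose with hB
  set C : Matrix (Fin n) (Fin n) ℝ := ((A⁻¹ : GL (Fin n) ℝ) : Matrix (Fin n) (Fin n) ℝ).transpose
    with hC
  have hCB : C * B = 1 := by
    rw [hC, hB, ← Matrix.transpose_mul, ← Units.val_mul, mul_inv_cancel, Units.val_one,
      Matrix.transpose_one]
  -- a small power
  obtain ⟨K, hK0, hK⟩ := exists_pow_small hn A hA (1 / (2 * n)) (by positivity)
  have hCK : ∀ x : E n, ‖act (C ^ K) x‖ ≤ 1 / 2 * ‖x‖ := by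
    intro x
    have h1 := norm_act_le (C ^ K) (1 / (2 * n)) (by
      intro i j
      rw [hC, ← Matrix.transpose_pow, Matrix.transpose_apply]
      exact hK j i) x
    refine h1.trans (le_of_eq ?_)
    field_simp
  -- the growth rate
  let ρ0 : ℝ := (2 : ℝ) ^ ((K : ℝ)⁻¹)
  have hρ0 : 1 < ρ0 := Real.one_lt_rpow (by norm_num) (by positivity)
  have hρK : ρ0 ^ K = 2 := Real.rpow_inv_natCast_pow (by norm_num) hK0.ne'
  -- the adapted norm
  obtain ⟨S, hS⟩ := exists_sqrt_sum K (fun k => (ρ0 ^ k) • C ^ k)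
  have hS' : ∀ x : E n, ‖act S x‖ ^ 2 = ∑ k ∈ Finset.range K, ρ0 ^ (2 * k) * ‖act (C ^ k) x‖ ^ 2 := by
    intro x
    rw [hS x]
    apply Finset.sum_congr rfl
    intro k _
    have h1 : act ((ρ0 ^ k) • C ^ k) x = (ρ0 ^ k) • act (C ^ k) x := by
      unfold act
      ext i
      simp [Matrix.smul_mulVec]
    rw [h1, norm_smul, mul_pow, Real.norm_eq_abs, sq_abs, ← pow_mul, mul_comm k 2]
  have hSx : ∀ x : E n, ‖x‖ ≤ ‖act S x‖ := by
    intro x
    apply le_of_sq_le_sq _ (norm_nonneg _)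
    rw [hS' x]
    have h1 : ρ0 ^ (2 * 0) * ‖act (C ^ 0) x‖ ^ 2 ≤
        ∑ k ∈ Finset.range K, ρ0 ^ (2 * k) * ‖act (C ^ k) x‖ ^ 2 :=
      Finset.single_le_sum (f := fun k => ρ0 ^ (2 * k) * ‖act (C ^ k) x‖ ^ 2)
        (fun k _ => by positivity) (Finset.mem_range.2 hK0)
    simp only [mul_zero, pow_zero, one_mul, act_one] at h1
    exact h1
  have hSC : ∀ y : E n, ρ0 * ‖act S (act C y)‖ ≤ ‖act S y‖ := by
    intro y
    apply le_of_sq_le_sq _ (norm_nonneg _)
    rw [mul_pow, hS', hS' y, Finset.mul_sum]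
    have h1 : ∀ k, ρ0 ^ 2 * (ρ0 ^ (2 * k) * ‖act (C ^ k) (act C y)‖ ^ 2) =
        ρ0 ^ (2 * (k + 1)) * ‖act (C ^ (k + 1)) y‖ ^ 2 := by
      intro k
      rw [← act_mul, ← pow_succ, show 2 * (k + 1) = 2 * k + 2 by ring, pow_add]
      ring
    simp only [h1]
    have h2 := Finset.sum_range_succ (fun k => ρ0 ^ (2 * k) * ‖act (C ^ k) y‖ ^ 2) K
    have h3 := Finset.sum_range_succ' (fun k => ρ0 ^ (2 * k) * ‖act (C ^ k) y‖ ^ 2) K
    have h4 : ρ0 ^ (2 * K) * ‖act (C ^ K) y‖ ^ 2 ≤ ρ0 ^ (2 * 0) * ‖act (C ^ 0) y‖ ^ 2 := by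
      have h5 := hCK y
      rw [mul_comm 2 K, pow_mul, hρK, mul_zero, pow_zero, pow_zero, one_mul, act_one]
      have h6 : ‖act (C ^ K) y‖ ^ 2 ≤ (1 / 2 * ‖y‖) ^ 2 := pow_le_pow_left₀ (norm_nonneg _) h5 2
      nlinarith
    linarith
  have hSB : ∀ x : E n, ρ0 * ‖act S x‖ ≤ ‖act S (act B x)‖ := by
    intro x
    have h1 := hSC (act B x)
    rwa [← act_mul C, hCB, act_one] at h1
  -- rational approximation
  set ε : ℝ := (ρ0 - 1) / (2 * (ρ0 + 1)) with hε
  have hε0 : 0 < ε := by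
    apply div_pos <;> linarith
  have hε1 : ε < 1 := by
    rw [hε, div_lt_one (by linarith)]
    linarith
  have hε2 : 1 + ε < (1 - ε) * ρ0 := by
    have h1 : ε * (ρ0 + 1) = (ρ0 - 1) / 2 := by
      rw [hε]; field_simp
    nlinarith
  have happ : ∀ i j, ∃ q : ℚ, |(q : ℝ) - S i j| ≤ ε / n := by
    intro i j
    obtain ⟨q, hq⟩ := exists_rat_near (S i j) (show 0 < ε / n by positivity)
    exact ⟨q, by rw [abs_sub_comm]; exact hq.le⟩
  choose R hR using happ
  set S' : Matrix (Fin n) (Fin n) ℝ := (Matrix.of R).map (Rat.cast : ℚ → ℝ) with hS'def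
  have hdiff : ∀ x : E n, ‖act S' x - act S x‖ ≤ ε * ‖act S x‖ := by
    intro x
    have h1 : act S' x - act S x = act (S' - S) x := by
      unfold act
      ext i
      simp [Matrix.sub_mulVec]
    rw [h1]
    refine (norm_act_le (S' - S) (ε / n) (fun i j => hR i j) x).trans ?_
    have h2 : (n : ℝ) * (ε / n) = ε := by field_simp
    rw [h2]
    exact mul_le_mul_of_nonneg_left (hSx x) hε0.le
  have hlow : ∀ x : E n, (1 - ε) * ‖act S x‖ ≤ ‖act S' x‖ := by
    intro x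
    have h1 := hdiff x
    have h2 : ‖act S x‖ ≤ ‖act S' x‖ + ‖act S' x - act S x‖ := by
      have : act S x = act S' x - (act S' x - act S x) := by abel
      calc ‖act S x‖ = ‖act S' x - (act S' x - act S x)‖ := by rw [← this]
        _ ≤ _ := norm_sub_le _ _
    linarith
  have hup : ∀ x : E n, ‖act S' x‖ ≤ (1 + ε) * ‖act S x‖ := by
    intro x
    have h1 := hdiff x
    have h2 : ‖act S' x‖ ≤ ‖act S x‖ + ‖act S' x - act S x‖ := by
      have : act S' x = act S x + (act S' x - act S x) := by abel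
      calc ‖act S' x‖ = ‖act S x + (act S' x - act S x)‖ := by rw [← this]
        _ ≤ _ := norm_add_le _ _
    linarith
  -- invertibility
  have hdet : (Matrix.of R).det ≠ 0 := by
    intro h0
    have h1 : S'.det = 0 := by
      have := (Rat.castHom ℝ).map_det (Matrix.of R)
      rw [h0, map_zero] at this
      exact this.symm
    obtain ⟨v, hv0, hv⟩ := Matrix.exists_mulVec_eq_zero_iff.2 h1
    have h2 : act S' (WithLp.toLp 2 v) = 0 := by
      unfold act
      ext i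
      simp [hv]
    have h3 := hlow (WithLp.toLp 2 v)
    rw [h2, norm_zero] at h3
    have h4 := hSx (WithLp.toLp 2 v)
    have h5 : ‖(WithLp.toLp 2 v : E n)‖ = 0 := by
      have h6 : 0 < 1 - ε := by linarith
      nlinarith [norm_nonneg (WithLp.toLp 2 v : E n), norm_nonneg (act S (WithLp.toLp 2 v))]
    rw [norm_eq_zero] at h5
    apply hv0
    have := congrArg WithLp.ofLp h5
    exact this
  choose aq haq using hrat
  set Rt : Matrix (Fin n) (Fin n) ℚ := (Matrix.of R).transpose with hRt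
  have hRtdet : IsUnit Rt.det := by
    rw [hRt, Matrix.det_transpose]
    exact isUnit_iff_ne_zero.2 hdet
  obtain ⟨d1, Z1, hd1, hZ1⟩ := exists_den Rt⁻¹
  obtain ⟨d2, Z2, hd2, hZ2⟩ := exists_den (Rt⁻¹ * Matrix.of aq)
  have hd1' : (d1 : ℝ) ≠ 0 := by exact_mod_cast hd1.ne'
  have hd2' : (d2 : ℝ) ≠ 0 := by exact_mod_cast hd2.ne'
  have hAq : (A : Matrix (Fin n) (Fin n) ℝ) = (Matrix.of aq).map (Rat.cast : ℚ → ℝ) := by
    ext i j
    exact haq i j
  set RI : Matrix (Fin n) (Fin n) ℝ := (Rt⁻¹).map (Rat.cast : ℚ → ℝ) with hRI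
  have hS't : S'.transpose * RI = 1 := by
    have h1 : S'.transpose = Rt.map (Rat.cast : ℚ → ℝ) := rfl
    rw [h1, hRI, ← map_ratCast_mul, Matrix.mul_nonsing_inv _ hRtdet]
    simp
  have hQ : ((d2 : ℤ) • Z1).map (Int.cast : ℤ → ℝ) = ((d1 * d2 : ℕ) : ℝ) • RI := by
    ext i j
    have h1 := hZ1 i j
    have h2 : ((d1 : ℚ) : ℝ) * ((Rt⁻¹ i j : ℚ) : ℝ) = ((Z1 i j : ℚ) : ℝ) := by
      rw [← h1]; push_cast; ring
    simp only [Matrix.map_apply, Matrix.smul_apply, smul_eq_mul, hRI]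
    push_cast at h2 ⊢
    rw [← h2]
    ring
  have hT : ((d1 * d2 : ℕ) : ℝ) • (RI * (A : Matrix (Fin n) (Fin n) ℝ)) =
      ((d1 : ℤ) • Z2).map (Int.cast : ℤ → ℝ) := by
    rw [hAq, hRI, ← map_ratCast_mul]
    ext i j
    have h1 := hZ2 i j
    have h2 : ((d2 : ℚ) : ℝ) * (((Rt⁻¹ * Matrix.of aq) i j : ℚ) : ℝ) = ((Z2 i j : ℚ) : ℝ) := by
      rw [← h1]; push_cast; ring
    simp only [Matrix.map_apply, Matrix.smul_apply, smul_eq_mul]
    push_cast at h2 ⊢
    rw [← h2]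
    ring
  set δ : ℝ := ((d1 * d2 : ℕ) : ℝ) with hδ
  have hδ0 : 0 < δ := by
    rw [hδ]; exact_mod_cast Nat.mul_pos hd1 hd2
  refine ⟨δ⁻¹ • S'.transpose, (d2 : ℤ) • Z1, (d1 : ℤ) • Z2, (1 - ε) * ρ0 / (1 + ε), ?_, ?_, ?_, ?_⟩
  · rw [lt_div_iff₀ (by linarith)]
    linarith
  · rw [hQ, Matrix.smul_mul, Matrix.mul_smul, hS't, smul_smul, inv_mul_cancel₀ hδ0.ne', one_smul]
  · rw [hQ, Matrix.smul_mul, hT]
  · intro x
    have h1 : ∀ y : E n, act (δ⁻¹ • S'.transpose).transpose y = δ⁻¹ • act S' y := by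
      intro y
      rw [Matrix.transpose_smul, Matrix.transpose_transpose]
      unfold act
      ext i
      simp [Matrix.smul_mulVec]
    rw [act_mul, h1, h1, norm_smul, norm_smul, Real.norm_eq_abs, abs_of_pos (inv_pos.2 hδ0)]
    have h2 : (1 - ε) * ρ0 / (1 + ε) * ‖act S' x‖ ≤ ‖act S' (act B x)‖ := by
      have h3 := hup x
      have h4 := hlow (act B x)
      have h5 := hSB x
      have h6 : 0 < 1 - ε := by linarith
      have h7 : 0 < 1 + ε := by linarith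
      rw [div_mul_eq_mul_div, div_le_iff₀ h7]
      calc (1 - ε) * ρ0 * ‖act S' x‖ ≤ (1 - ε) * ρ0 * ((1 + ε) * ‖act S x‖) := by
            apply mul_le_mul_of_nonneg_left h3 (by positivity)
        _ = (1 + ε) * ((1 - ε) * (ρ0 * ‖act S x‖)) := by ring
        _ ≤ (1 + ε) * ((1 - ε) * ‖act S (act B x)‖) := by
            apply mul_le_mul_of_nonneg_left _ h7.le
            exact mul_le_mul_of_nonneg_left h5 h6.le
        _ ≤ (1 + ε) * ‖act S' (act B x)‖ := mul_le_mul_of_nonneg_left h4 h7.le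
        _ = _ := by ring
    calc (1 - ε) * ρ0 / (1 + ε) * (δ⁻¹ * ‖act S' x‖) =
        δ⁻¹ * ((1 - ε) * ρ0 / (1 + ε) * ‖act S' x‖) := by ring
      _ ≤ _ := mul_le_mul_of_nonneg_left h2 (inv_pos.2 hδ0).le

end Run7.h408
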