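import Pool.Agent.Run7.h408.Defs

/-!
A smooth Wilson system on the line and its tensor products.
-/

set_option autoImplicit false

open MeasureTheory Filter Topology
open scoped ENNReal ContDiff

namespace Run7.h408

/-- smooth transition with `β(x)² + β(-x)² = 1` -/
noncomputable def bt (x : ℝ) : ℝ := Real.sin (Real.pi / 2 * Real.smoothTransition (2 * x + 1 / 2))

lemma bt_smooth : ContDiff ℝ ∞ bt := by
  unfold bt
  apply Real.contDiff_sin.comp
  apply contDiff_const.mul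
  apply Real.smoothTransition.contDiff.comp
  exact (contDiff_const.mul contDiff_id).add contDiff_const

lemma bt_ge {x : ℝ} (h : 1 / 4 ≤ x) : bt x = 1 := by
  unfold bt
  rw [Real.smoothTransition.one_of_one_le (by linarith), mul_one, Real.sin_pi_div_two]

lemma bt_le {x : ℝ} (h : x ≤ -1 / 4) : bt x = 0 := by
  unfold bt
  rw [Real.smoothTransition.zero_of_nonpos (by linarith), mul_zero, Real.sin_zero]

lemma trans_add (x : ℝ) : Real.smoothTransition x + Real.smoothTransition (1 - x) = 1 := by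
  unfold Real.smoothTransition
  have h := Real.smoothTransition.pos_denom x
  rw [sub_sub_cancel, add_comm (expNegInvGlue (1 - x)) (expNegInvGlue x), ← add_div,
    div_self h.ne']

lemma bt_sq (x : ℝ) : bt x ^ 2 + bt (-x) ^ 2 = 1 := by
  have h1 : bt (-x) = Real.cos (Real.pi / 2 * Real.smoothTransition (2 * x + 1 / 2)) := by
    unfold bt
    have h2 := trans_add (2 * x + 1 / 2)
    have h3 : Real.smoothTransition (2 * -x + 1 / 2) =
        1 - Real.smoothTransition (2 * x + 1 / 2) := by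
      have e : 2 * -x + 1 / 2 = 1 - (2 * x + 1 / 2) := by ring
      rw [e]
      linarith
    rw [h3, mul_sub, mul_one, Real.sin_pi_div_two_sub]
  rw [h1]
  unfold bt
  exact Real.sin_sq_add_cos_sq _

/-- one bump -/
noncomputable def bb (i : ℕ) (x : ℝ) : ℝ := bt (x - i / 2) * bt ((i + 1) / 2 - x)

lemma bb_smooth (i : ℕ) : ContDiff ℝ ∞ (bb i) := by
  unfold bb
  exact (bt_smooth.comp (contDiff_id.sub contDiff_const)).mul
    (bt_smooth.comp (contDiff_const.sub contDiff_id))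

lemma bb_eval (i : ℕ) (m : ℤ) (u : ℝ) (hu : |u| ≤ 1 / 4) :
    bb i (m / 2 + u) = if m = i then bt u else if m = i + 1 then bt (-u) else 0 := by
  rw [abs_le] at hu
  obtain ⟨hu1, hu2⟩ := hu
  unfold bb
  rcases lt_trichotomy m (i : ℤ) with h | h | h
  · rw [if_neg h.ne, if_neg (by omega), bt_le, zero_mul]
    have h1 : (m : ℝ) + 1 ≤ i := by exact_mod_cast h
    linarith
  · rw [if_pos h, h]
    have h1 : ((i : ℤ) : ℝ) / 2 + u - i / 2 = u := by push_cast; ring
    rw [h1, bt_ge (x := ((i : ℝ) + 1) / 2 - _), mul_one]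
    push_cast
    linarith
  · rw [if_neg h.ne']
    by_cases h2 : m = i + 1
    · rw [if_pos h2, h2]
      have h1 : ((i : ℝ) + 1) / 2 - ((((i : ℤ) + 1 : ℤ) : ℝ) / 2 + u) = -u := by push_cast; ring
      rw [h1, bt_ge, one_mul]
      push_cast
      linarith
    · rw [if_neg h2, bt_le (x := ((i : ℝ) + 1) / 2 - _), mul_zero]
      have h3 : (i : ℤ) + 2 ≤ m := by omega
      have h1 : (i : ℝ) + 2 ≤ m := by exact_mod_cast h3
      linarith

lemma bb_supp (i : ℕ) (x : ℝ) (h : bb i x ≠ 0) : (i : ℝ) / 2 - 1 / 4 < x ∧ x < (i : ℝ) / 2 + 3 / 4 := by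
  unfold bb at h
  constructor
  · by_contra hc
    push Not at hc
    apply h
    rw [bt_le (by linarith), zero_mul]
  · by_contra hc
    push Not at hc
    apply h
    rw [bt_le (x := ((i : ℝ) + 1) / 2 - x) (by linarith), mul_zero]

/-- the Wilson system -/
noncomputable def ws (i : ℕ) (x : ℝ) : ℂ :=
  if i = 0 then ((bt (x + 1 / 2) * bt (1 / 2 - x) : ℝ) : ℂ)
  else Complex.exp (Real.pi * x * Complex.I) *
    ((bb i x + (-1) ^ (i + 1) * bb i (-x) : ℝ) : ℂ)

lemma ws_smooth (i : ℕ) : ContDiff ℝ ∞ (ws i) := by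
  unfold ws
  by_cases h : i = 0
  · simp only [h, if_true]
    apply Complex.ofRealCLM.contDiff.comp
    exact (bt_smooth.comp (contDiff_id.add contDiff_const)).mul
      (bt_smooth.comp (contDiff_const.sub contDiff_id))
  · simp only [h, if_false]
    apply ContDiff.mul
    · apply ContDiff.cexp
      apply ContDiff.mul _ contDiff_const
      apply contDiff_const.mul
      exact Complex.ofRealCLM.contDiff
    · apply Complex.ofRealCLM.contDiff.comp
      exact (bb_smooth i).add (contDiff_const.mul ((bb_smooth i).comp contDiff_neg))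

lemma ws_supp' (i : ℕ) (x : ℝ) (h : ws i x ≠ 0) :
    (i = 0 ∨ (i : ℝ) / 2 - 1 / 4 < |x|) ∧ |x| < (i : ℝ) / 2 + 3 / 4 := by
  unfold ws at h
  by_cases h0 : i = 0
  · simp only [h0, if_true] at h
    rw [h0]
    refine ⟨Or.inl rfl, ?_⟩
    rw [abs_lt]
    constructor
    · by_contra hc
      push Not at hc
      apply h
      rw [bt_le (by push_cast at hc; linarith), zero_mul]
      simp
    · by_contra hc
      push Not at hc
      apply h
      rw [bt_le (x := 1 / 2 - x) (by push_cast at hc; linarith), mul_zero]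
      simp
  · simp only [h0, if_false] at h
    have h1 : bb i x ≠ 0 ∨ bb i (-x) ≠ 0 := by
      by_contra hc
      push Not at hc
      apply h
      rw [hc.1, hc.2]
      simp
    have hi : (1 : ℝ) ≤ i := by exact_mod_cast Nat.one_le_iff_ne_zero.2 h0
    rcases h1 with h1 | h1
    · have h2 := bb_supp i x h1
      rw [abs_of_pos (by linarith)]
      exact ⟨Or.inr h2.1, h2.2⟩
    · have h2 := bb_supp i (-x) h1
      rw [abs_of_neg (by linarith)]
      exact ⟨Or.inr h2.1, h2.2⟩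

lemma ws_supp (i : ℕ) (x : ℝ) (h : ws i x ≠ 0) :
    (i : ℝ) / 2 - 1 / 4 ≤ |x| ∧ |x| ≤ (i : ℝ) / 2 + 3 / 4 := by
  obtain ⟨h1, h2⟩ := ws_supp' i x h
  refine ⟨?_, h2.le⟩
  rcases h1 with h1 | h1
  · rw [h1]
    have := abs_nonneg x
    push_cast
    linarith
  · exact h1.le

/-- the phases -/
noncomputable def om (p : ℕ) (u : ℝ) : ℂ := Complex.exp (Real.pi * (p / 2 + u) * Complex.I)

lemma om_mul_conj (p : ℕ) (u : ℝ) : om p u * (starRingEnd ℂ) (om p u) = 1 := by
  unfold om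
  rw [Complex.mul_conj, Complex.normSq_eq_norm_sq]
  have : (Real.pi * ((p : ℂ) / 2 + u) * Complex.I : ℂ) =
      ((Real.pi * ((p : ℝ) / 2 + u) : ℝ) : ℂ) * Complex.I := by push_cast; ring
  rw [this, Complex.norm_exp_ofReal_mul_I]
  simp

/-- the phase of the lower row -/
noncomputable def om' (p : ℕ) (u : ℝ) : ℂ := if p = 1 then 1 else om p u

lemma om'_mul_conj (p : ℕ) (u : ℝ) : om' p u * (starRingEnd ℂ) (om' p u) = 1 := by
  unfold om'
  split_ifs
  · simp
  · exact om_mul_conj p u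

lemma exp_neg_half (p : ℕ) (u : ℝ) :
    Complex.exp (Real.pi * ((-(p : ℝ) / 2 + u : ℝ) : ℂ) * Complex.I) = (-1) ^ p * om p u := by
  unfold om
  have h1 : (Real.pi * ((-(p : ℝ) / 2 + u : ℝ) : ℂ) * Complex.I : ℂ) =
      -(p * (Real.pi * Complex.I)) + Real.pi * (p / 2 + u) * Complex.I := by
    push_cast; ring
  rw [h1, Complex.exp_add, Complex.exp_neg, Complex.exp_nat_mul, Complex.exp_pi_mul_I, ← inv_pow,
    inv_neg, inv_one]

lemma ws_a (p : ℕ) (hp : 0 < p) (u : ℝ) (hu : |u| ≤ 1 / 4) : ws p ((p : ℝ) / 2 + u) = om p u * bt u := by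
  unfold ws
  rw [if_neg hp.ne']
  have h1 := bb_eval p (p : ℤ) u hu
  have h2 := bb_eval p (-(p : ℤ)) (-u) (by rwa [abs_neg])
  rw [if_pos rfl] at h1
  rw [if_neg (by omega), if_neg (by omega)] at h2
  have e1 : (((p : ℤ) : ℝ) / 2 + u) = (p : ℝ) / 2 + u := by push_cast; ring
  have e2 : ((((-(p : ℤ)) : ℤ) : ℝ) / 2 + -u) = -((p : ℝ) / 2 + u) := by push_cast; ring
  rw [e1] at h1
  rw [e2] at h2
  rw [h1, h2]
  unfold om
  push_cast
  ring_nf

lemma ws_b (p : ℕ) (hp : 0 < p) (u : ℝ) (hu : |u| ≤ 1 / 4) :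
    ws p (-(p : ℝ) / 2 + u) = -om p u * bt (-u) := by
  unfold ws
  rw [if_neg hp.ne']
  have h1 := bb_eval p (-(p : ℤ)) u hu
  have h2 := bb_eval p (p : ℤ) (-u) (by rwa [abs_neg])
  rw [if_neg (by omega), if_neg (by omega)] at h1
  rw [if_pos rfl] at h2
  have e1 : ((((-(p : ℤ)) : ℤ) : ℝ) / 2 + u) = -(p : ℝ) / 2 + u := by push_cast; ring
  have e2 : (((p : ℤ) : ℝ) / 2 + -u) = -(-(p : ℝ) / 2 + u) := by push_cast; ring
  rw [e1] at h1
  rw [e2] at h2
  rw [h1, h2, exp_neg_half]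
  push_cast
  have h3 : ((-1 : ℂ) ^ p) * (-1) ^ (p + 1) = -1 := by
    rw [← pow_add, show p + (p + 1) = 2 * p + 1 by ring, pow_succ, pow_mul]
    simp
  calc (-1) ^ p * om p u * (0 + (-1) ^ (p + 1) * (bt (-u) : ℂ)) =
      ((-1 : ℂ) ^ p * (-1) ^ (p + 1)) * (om p u * bt (-u)) := by ring
    _ = _ := by rw [h3]; ring

lemma ws_c (p : ℕ) (u : ℝ) (hu : |u| ≤ 1 / 4) :
    ws p (((p + 1 : ℕ) : ℝ) / 2 + u) = om' (p + 1) u * bt (-u) := by
  unfold ws om'
  by_cases h0 : p = 0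
  · subst h0
    rw [if_pos rfl, if_pos rfl]
    have h3 : (((0 + 1 : ℕ) : ℝ) / 2 + u + 1 / 2) = 1 + u := by push_cast; ring
    have h4 : 1 / 2 - (((0 + 1 : ℕ) : ℝ) / 2 + u) = -u := by push_cast; ring
    rw [abs_le] at hu
    rw [h3, h4, bt_ge (by linarith [hu.1])]
    push_cast; ring
  · rw [if_neg h0, if_neg (by omega)]
    have h1 := bb_eval p ((p + 1 : ℕ) : ℤ) u hu
    have h2 := bb_eval p (-((p + 1 : ℕ) : ℤ)) (-u) (by rwa [abs_neg])
    rw [if_neg (by push_cast; omega), if_pos (by push_cast; ring)] at h1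
    rw [if_neg (by push_cast; omega), if_neg (by push_cast; omega)] at h2
    have e1 : ((((p + 1 : ℕ) : ℤ) : ℝ) / 2 + u) = ((p + 1 : ℕ) : ℝ) / 2 + u := by push_cast; ring
    have e2 : ((((-((p + 1 : ℕ) : ℤ)) : ℤ) : ℝ) / 2 + -u) = -(((p + 1 : ℕ) : ℝ) / 2 + u) := by
      push_cast; ring
    rw [e1] at h1
    rw [e2] at h2
    rw [h1, h2]
    unfold om
    push_cast
    ring_nf

lemma ws_d (p : ℕ) (u : ℝ) (hu : |u| ≤ 1 / 4) :
    ws p (-((p + 1 : ℕ) : ℝ) / 2 + u) = om' (p + 1) u * bt u := by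
  unfold ws om'
  by_cases h0 : p = 0
  · subst h0
    rw [if_pos rfl, if_pos rfl]
    have h3 : (-((0 + 1 : ℕ) : ℝ) / 2 + u + 1 / 2) = u := by push_cast; ring
    have h4 : 1 / 2 - (-((0 + 1 : ℕ) : ℝ) / 2 + u) = 1 - u := by push_cast; ring
    rw [abs_le] at hu
    rw [h3, h4, bt_ge (x := 1 - u) (by linarith [hu.2])]
    push_cast; ring
  · rw [if_neg h0, if_neg (by omega)]
    have h1 := bb_eval p (-((p + 1 : ℕ) : ℤ)) u hu
    have h2 := bb_eval p (((p + 1 : ℕ) : ℤ)) (-u) (by rwa [abs_neg])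
    rw [if_neg (by push_cast; omega), if_neg (by push_cast; omega)] at h1
    rw [if_neg (by push_cast; omega), if_pos (by push_cast; ring), neg_neg] at h2
    have e1 : ((((-((p + 1 : ℕ) : ℤ)) : ℤ) : ℝ) / 2 + u) = -((p + 1 : ℕ) : ℝ) / 2 + u := by
      push_cast; ring
    have e2 : (((((p + 1 : ℕ) : ℤ)) : ℝ) / 2 + -u) = -(-((p + 1 : ℕ) : ℝ) / 2 + u) := by
      push_cast; ring
    rw [e1] at h1
    rw [e2] at h2
    rw [h1, h2, exp_neg_half]
    push_cast
    have h3 : ((-1 : ℂ) ^ (p + 1)) * (-1) ^ (p + 1) = 1 := by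
      rw [← mul_pow]; simp
    calc (-1) ^ (p + 1) * om (p + 1) u * (0 + (-1) ^ (p + 1) * (bt u : ℂ)) =
        ((-1 : ℂ) ^ (p + 1) * (-1) ^ (p + 1)) * (om (p + 1) u * bt u) := by ring
      _ = _ := by rw [h3]; ring

lemma ws_e (u : ℝ) (hu : |u| ≤ 1 / 4) : ws 0 u = 1 := by
  unfold ws
  rw [abs_le] at hu
  rw [if_pos rfl, bt_ge (by linarith [hu.1]), bt_ge (by linarith [hu.2])]
  simp

lemma ws_z (i : ℕ) (m : ℤ) (u : ℝ) (hu : |u| ≤ 1 / 4) (hne : ws i ((m : ℝ) / 2 + u) ≠ 0) :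
    m.natAbs = i ∨ m.natAbs = i + 1 := by
  obtain ⟨h1, h2⟩ := ws_supp' i _ hne
  have h6 : |(m : ℝ) / 2| = (m.natAbs : ℝ) / 2 := by
    rw [abs_div, abs_of_pos (by norm_num : (0 : ℝ) < 2), Nat.cast_natAbs]
    simp
  have h4 : |(m : ℝ) / 2 + u| ≤ (m.natAbs : ℝ) / 2 + 1 / 4 := by
    calc |(m : ℝ) / 2 + u| ≤ |(m : ℝ) / 2| + |u| := abs_add_le _ _
      _ ≤ _ := by rw [h6]; linarith
  have h5 : (m.natAbs : ℝ) / 2 - 1 / 4 ≤ |(m : ℝ) / 2 + u| := by
    have h7 : |(m : ℝ) / 2| ≤ |(m : ℝ) / 2 + u| + |u| := by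
      calc |(m : ℝ) / 2| = |((m : ℝ) / 2 + u) - u| := by congr 1; ring
        _ ≤ _ := abs_sub _ _
    rw [h6] at h7
    linarith
  have h7 : (m.natAbs : ℝ) < i + 2 := by linarith
  have h9 : m.natAbs < i + 2 := by exact_mod_cast h7
  have h8 : i ≤ m.natAbs := by
    rcases h1 with h1 | h1
    · omega
    · have h8 : (i : ℝ) < m.natAbs + 1 := by linarith
      have h10 : i < m.natAbs + 1 := by exact_mod_cast h8
      omega
  omega

lemma exists_mu (t : ℝ) : ∃ (m : ℤ) (u : ℝ), |u| ≤ 1 / 4 ∧ t = m / 2 + u := by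
  refine ⟨round (2 * t), t - round (2 * t) / 2, ?_, by ring⟩
  have h := abs_sub_round (2 * t)
  have : t - (round (2 * t) : ℝ) / 2 = (2 * t - round (2 * t)) / 2 := by ring
  rw [this, abs_div, abs_of_pos (by norm_num : (0 : ℝ) < 2)]
  linarith

/-- products in a two by two block -/
lemma block (p : ℕ) (u : ℝ) (hu : |u| ≤ 1 / 4) :
    (∀ i i' : ℕ, (i = p ∨ i = p + 1) → (i' = p ∨ i' = p + 1) →
      ws i (((p + 1 : ℕ) : ℝ) / 2 + u) * (starRingEnd ℂ) (ws i' (((p + 1 : ℕ) : ℝ) / 2 + u)) +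
      ws i (-((p + 1 : ℕ) : ℝ) / 2 + u) * (starRingEnd ℂ) (ws i' (-((p + 1 : ℕ) : ℝ) / 2 + u)) =
      if i = i' then 1 else 0) := by
  have ha := ws_a (p + 1) (Nat.succ_pos p) u hu
  have hb := ws_b (p + 1) (Nat.succ_pos p) u hu
  have hc := ws_c p u hu
  have hd := ws_d p u hu
  have ho := om_mul_conj (p + 1) u
  have ho' := om'_mul_conj (p + 1) u
  have hsq : (bt u : ℂ) ^ 2 + (bt (-u) : ℂ) ^ 2 = 1 := by
    exact_mod_cast bt_sq u
  rintro i i' (hi | hi) (hi' | hi') <;> rw [hi, hi']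
  · rw [if_pos rfl, hc, hd]
    simp only [map_mul, Complex.conj_ofReal]
    calc _ = (om' (p + 1) u * (starRingEnd ℂ) (om' (p + 1) u)) *
          ((bt u : ℂ) ^ 2 + (bt (-u) : ℂ) ^ 2) := by ring
      _ = 1 := by rw [ho', hsq, one_mul]
  · rw [if_neg (by omega), hc, hd, ha, hb]
    simp only [map_mul, map_neg, Complex.conj_ofReal]
    ring
  · rw [if_neg (by omega), hc, hd, ha, hb]
    simp only [map_mul, Complex.conj_ofReal]
    ring
  · rw [if_pos rfl, ha, hb]
    simp only [map_mul, map_neg, Complex.conj_ofReal]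
    calc _ = (om (p + 1) u * (starRingEnd ℂ) (om (p + 1) u)) *
          ((bt u : ℂ) ^ 2 + (bt (-u) : ℂ) ^ 2) := by ring
      _ = 1 := by rw [ho, hsq, one_mul]

lemma block' (p : ℕ) (u : ℝ) (hu : |u| ≤ 1 / 4) :
    (∀ m m' : ℤ, (m = ((p + 1 : ℕ) : ℤ) ∨ m = -((p + 1 : ℕ) : ℤ)) →
      (m' = ((p + 1 : ℕ) : ℤ) ∨ m' = -((p + 1 : ℕ) : ℤ)) →
      ws p ((m : ℝ) / 2 + u) * (starRingEnd ℂ) (ws p ((m' : ℝ) / 2 + u)) +
      ws (p + 1) ((m : ℝ) / 2 + u) * (starRingEnd ℂ) (ws (p + 1) ((m' : ℝ) / 2 + u)) =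
      if m = m' then 1 else 0) := by
  have ha := ws_a (p + 1) (Nat.succ_pos p) u hu
  have hb := ws_b (p + 1) (Nat.succ_pos p) u hu
  have hc := ws_c p u hu
  have hd := ws_d p u hu
  have ho := om_mul_conj (p + 1) u
  have ho' := om'_mul_conj (p + 1) u
  have hsq : (bt u : ℂ) ^ 2 + (bt (-u) : ℂ) ^ 2 = 1 := by
    exact_mod_cast bt_sq u
  have e1 : ((((p + 1 : ℕ) : ℤ)) : ℝ) = ((p + 1 : ℕ) : ℝ) := by push_cast; ring
  have e2 : (((-((p + 1 : ℕ) : ℤ)) : ℤ) : ℝ) = -((p + 1 : ℕ) : ℝ) := by push_cast; ring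
  rintro m m' (rfl | rfl) (rfl | rfl)
  · rw [if_pos rfl, e1, hc, ha]
    simp only [map_mul, Complex.conj_ofReal]
    calc _ = (om' (p + 1) u * (starRingEnd ℂ) (om' (p + 1) u)) * (bt (-u) : ℂ) ^ 2 +
          (om (p + 1) u * (starRingEnd ℂ) (om (p + 1) u)) * (bt u : ℂ) ^ 2 := by ring
      _ = 1 := by rw [ho', ho, one_mul, one_mul, add_comm, hsq]
  · rw [if_neg (by push_cast; omega), e1, e2, hc, hd, ha, hb]
    simp only [map_mul, map_neg, Complex.conj_ofReal]
    calc _ = ((om' (p + 1) u * (starRingEnd ℂ) (om' (p + 1) u)) -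
          (om (p + 1) u * (starRingEnd ℂ) (om (p + 1) u))) * (bt u * bt (-u) : ℂ) := by ring
      _ = 0 := by rw [ho', ho]; ring
  · rw [if_neg (by push_cast; omega), e1, e2, hc, hd, ha, hb]
    simp only [map_mul, map_neg, Complex.conj_ofReal]
    calc _ = ((om' (p + 1) u * (starRingEnd ℂ) (om' (p + 1) u)) -
          (om (p + 1) u * (starRingEnd ℂ) (om (p + 1) u))) * (bt u * bt (-u) : ℂ) := by ring
      _ = 0 := by rw [ho', ho]; ring
  · rw [if_pos rfl, e2, hd, hb]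
    simp only [map_mul, map_neg, Complex.conj_ofReal]
    calc _ = (om' (p + 1) u * (starRingEnd ℂ) (om' (p + 1) u)) * (bt u : ℂ) ^ 2 +
          (om (p + 1) u * (starRingEnd ℂ) (om (p + 1) u)) * (bt (-u) : ℂ) ^ 2 := by ring
      _ = 1 := by rw [ho', ho, one_mul, one_mul, hsq]

theorem ws_row (i i' : ℕ) (t : ℝ) : HasSum (fun k : ℤ => ws i (t + k) *
    (starRingEnd ℂ) (ws i' (t + k))) (if i = i' then 1 else 0) := by
  obtain ⟨m0, u, hu, rfl⟩ := exists_mu t
  have harg : ∀ k : ℤ, (m0 : ℝ) / 2 + u + k = ((m0 + 2 * k : ℤ) : ℝ) / 2 + u := by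
    intro k; push_cast; ring
  simp only [harg]
  -- the column of the row `i`
  have hcol : ∀ j : ℕ, ∃ p : ℕ, (p = j ∨ p = j + 1) ∧ ∃ a : ℤ, m0 + 2 * a = p ∧
      ∀ k : ℤ, ws j (((m0 + 2 * k : ℤ) : ℝ) / 2 + u) ≠ 0 → (m0 + 2 * k).natAbs = p := by
    intro j
    rcases Int.even_or_odd ((j : ℤ) - m0) with ⟨a, ha⟩ | ⟨a, ha⟩
    · refine ⟨j, Or.inl rfl, a, by omega, fun k hk => ?_⟩
      have := ws_z j _ u hu hk
      omega
    · refine ⟨j + 1, Or.inr rfl, a + 1, by push_cast; omega, fun k hk => ?_⟩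
      have := ws_z j _ u hu hk
      omega
  obtain ⟨p, hp, a, ha, hpz⟩ := hcol i
  obtain ⟨p', hp', a', ha', hpz'⟩ := hcol i'
  by_cases hpp : p = p'
  · subst hpp
    have haa : a = a' := by omega
    subst haa
    rcases Nat.eq_zero_or_pos p with h0 | h0
    · subst h0
      have hi : i = 0 := by omega
      have hi' : i' = 0 := by omega
      subst hi
      subst hi'
      have h1 : ∀ k ∉ ({a} : Finset ℤ), ws 0 (((m0 + 2 * k : ℤ) : ℝ) / 2 + u) *
          (starRingEnd ℂ) (ws 0 (((m0 + 2 * k : ℤ) : ℝ) / 2 + u)) = 0 := by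
        intro k hk
        by_contra hne
        have h2 := hpz k (left_ne_zero_of_mul hne)
        apply hk
        rw [Finset.mem_singleton]
        omega
      have h3 := hasSum_sum_of_ne_finset_zero (L := SummationFilter.unconditional _) h1
      rw [Finset.sum_singleton, ha] at h3
      simpa [ws_e u hu] using h3
    · obtain ⟨q, rfl⟩ : ∃ q, p = q + 1 := ⟨p - 1, by omega⟩
      have h1 : ∀ k ∉ ({a, a - (q + 1)} : Finset ℤ), ws i (((m0 + 2 * k : ℤ) : ℝ) / 2 + u) *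
          (starRingEnd ℂ) (ws i' (((m0 + 2 * k : ℤ) : ℝ) / 2 + u)) = 0 := by
        intro k hk
        by_contra hne
        have h2 := hpz k (left_ne_zero_of_mul hne)
        apply hk
        rw [Finset.mem_insert, Finset.mem_singleton]
        omega
      have h3 := hasSum_sum_of_ne_finset_zero (L := SummationFilter.unconditional _) h1
      rw [Finset.sum_pair (by omega), ha,
        show m0 + 2 * (a - ((q : ℤ) + 1)) = -((q + 1 : ℕ) : ℤ) by push_cast at ha ⊢; omega] at h3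
      have h4 := block q u hu i i' (by omega) (by omega)
      have e1 : ((((q + 1 : ℕ) : ℤ)) : ℝ) = ((q + 1 : ℕ) : ℝ) := by push_cast; ring
      have e2 : (((-((q + 1 : ℕ) : ℤ)) : ℤ) : ℝ) = -((q + 1 : ℕ) : ℝ) := by push_cast; ring
      rw [e1, e2, h4] at h3
      exact h3
  · have h1 : ∀ k : ℤ, ws i (((m0 + 2 * k : ℤ) : ℝ) / 2 + u) *
          (starRingEnd ℂ) (ws i' (((m0 + 2 * k : ℤ) : ℝ) / 2 + u)) = 0 := by
      intro k
      by_contra hne
      have h2 := hpz k (left_ne_zero_of_mul hne)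
      have h3 := hpz' k (by
        intro h0
        apply hne
        rw [h0, map_zero, mul_zero])
      omega
    have hii : i ≠ i' := by
      rintro rfl
      omega
    rw [if_neg hii]
    simp only [h1]
    exact hasSum_zero

theorem ws_col (t : ℝ) (k : ℤ) : HasSum (fun i : ℕ => ws i t *
    (starRingEnd ℂ) (ws i (t + k))) (if k = 0 then 1 else 0) := by
  obtain ⟨m, u, hu, rfl⟩ := exists_mu t
  have harg : (m : ℝ) / 2 + u + k = ((m + 2 * k : ℤ) : ℝ) / 2 + u := by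
    push_cast; ring
  simp only [harg]
  set m' := m + 2 * k with hm'
  have hkm : (if k = 0 then (1 : ℂ) else 0) = if m = m' then 1 else 0 := by
    by_cases h : k = 0
    · rw [if_pos h, if_pos (by omega)]
    · rw [if_neg h, if_neg (by omega)]
  rw [hkm]
  by_cases hpp : m.natAbs = m'.natAbs
  · rcases Nat.eq_zero_or_pos m.natAbs with h0 | h0
    · have h1 : m = 0 := by omega
      have h2 : m' = 0 := by omega
      rw [h1, h2, if_pos rfl]
      have h3 : ∀ i ∉ ({0} : Finset ℕ), ws i (((0 : ℤ) : ℝ) / 2 + u) *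
          (starRingEnd ℂ) (ws i (((0 : ℤ) : ℝ) / 2 + u)) = 0 := by
        intro i hi
        by_contra hne
        have h4 := ws_z i 0 u hu (left_ne_zero_of_mul hne)
        apply hi
        rw [Finset.mem_singleton]
        omega
      have h4 := hasSum_sum_of_ne_finset_zero (L := SummationFilter.unconditional _) h3
      rw [Finset.sum_singleton] at h4
      simpa [ws_e u hu] using h4
    · obtain ⟨q, hq⟩ : ∃ q, m.natAbs = q + 1 := ⟨m.natAbs - 1, by omega⟩
      have h3 : ∀ i ∉ ({q, q + 1} : Finset ℕ), ws i ((m : ℝ) / 2 + u) *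
          (starRingEnd ℂ) (ws i ((m' : ℝ) / 2 + u)) = 0 := by
        intro i hi
        by_contra hne
        have h4 := ws_z i m u hu (left_ne_zero_of_mul hne)
        apply hi
        rw [Finset.mem_insert, Finset.mem_singleton]
        omega
      have h4 := hasSum_sum_of_ne_finset_zero (L := SummationFilter.unconditional _) h3
      rw [Finset.sum_pair (by omega), block' q u hu m m' (by omega) (by omega)] at h4
      exact h4
  · rw [if_neg (by intro h; exact hpp (by rw [h]))]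
    have h1 : ∀ i : ℕ, ws i ((m : ℝ) / 2 + u) *
          (starRingEnd ℂ) (ws i ((m' : ℝ) / 2 + u)) = 0 := by
      intro i
      by_contra hne
      have h2 := ws_z i m u hu (left_ne_zero_of_mul hne)
      have h3 := ws_z i m' u hu (by
        intro h0
        apply hne
        rw [h0, map_zero, mul_zero])
      omega
    simp only [h1]
    exact hasSum_zero

lemma ws_fin_row (i i' : ℕ) (t : ℝ) : (Function.support (fun k : ℤ => ws i (t + k) *
    (starRingEnd ℂ) (ws i' (t + k)))).Finite := by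
  apply (Set.finite_Icc (-⌈|t| + i + 1⌉) ⌈|t| + i + 1⌉).subset
  intro k hk
  rw [Function.mem_support] at hk
  have h1 := (ws_supp i _ (left_ne_zero_of_mul hk)).2
  have h2 : |(k : ℝ)| ≤ |t + k| + |t| := by
    calc |(k : ℝ)| = |(t + k) - t| := by congr 1; ring
      _ ≤ _ := abs_sub _ _
  have h3 : |(k : ℝ)| ≤ (⌈|t| + i + 1⌉ : ℝ) := by
    refine le_trans ?_ (Int.le_ceil _)
    have : (0 : ℝ) ≤ i := Nat.cast_nonneg i
    linarith
  rw [abs_le] at h3
  constructor
  · exact_mod_cast h3.1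
  · exact_mod_cast h3.2

lemma ws_fin_col (t s : ℝ) : (Function.support (fun i : ℕ => ws i t *
    (starRingEnd ℂ) (ws i s))).Finite := by
  apply (Set.finite_Iic ⌈2 * |t| + 1⌉₊).subset
  intro i hi
  rw [Function.mem_support] at hi
  have h1 := (ws_supp i _ (left_ne_zero_of_mul hi)).1
  have h2 : (i : ℝ) ≤ (⌈2 * |t| + 1⌉₊ : ℝ) := by
    refine le_trans ?_ (Nat.le_ceil _)
    linarith
  rw [Set.mem_Iic]
  exact_mod_cast h2

lemma hasSum_pi_fin {κ : Type*} {n : ℕ} (f : Fin n → κ → ℂ) (c : Fin n → ℂ)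
    (hfin : ∀ d, (Function.support (f d)).Finite) (h : ∀ d, HasSum (f d) (c d)) :
    HasSum (fun x : Fin n → κ => ∏ d, f d (x d)) (∏ d, c d) := by
  classical
  have h1 : ∀ d, ∑ x ∈ (hfin d).toFinset, f d x = c d := by
    intro d
    have h2 : ∀ x ∉ (hfin d).toFinset, f d x = 0 := by
      intro x hx
      by_contra hne
      exact hx ((Set.Finite.mem_toFinset _).2 hne)
    exact (hasSum_sum_of_ne_finset_zero (L := SummationFilter.unconditional _) h2).unique (h d)
  have h2 : ∏ d, c d = ∑ x ∈ Fintype.piFinset (fun d => (hfin d).toFinset), ∏ d, f d (x d) := by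
    rw [← Finset.prod_univ_sum]
    simp only [h1]
  rw [h2]
  apply hasSum_sum_of_ne_finset_zero
  intro x hx
  rw [Fintype.mem_piFinset] at hx
  push Not at hx
  obtain ⟨d, hd⟩ := hx
  apply Finset.prod_eq_zero (Finset.mem_univ d)
  by_contra hne
  exact hd ((Set.Finite.mem_toFinset _).2 hne)

lemma prod_ite_one {n : ℕ} (P : Fin n → Prop) [DecidablePred P] [Decidable (∀ d, P d)] :
    ∏ d, (if P d then (1 : ℂ) else 0) = if ∀ d, P d then 1 else 0 := by
  by_cases h : ∀ d, P d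
  · rw [if_pos h]
    apply Finset.prod_eq_one
    intro d _
    rw [if_pos (h d)]
  · rw [if_neg h]
    push Not at h
    obtain ⟨d, hd⟩ := h
    apply Finset.prod_eq_zero (Finset.mem_univ d)
    rw [if_neg hd]

/-- tensor products of the Wilson system -/
theorem wilson_n (n : ℕ) : ∃ W : (Fin n → ℕ) → E n → ℂ,
    (∀ I, ContDiff ℝ ∞ (W I)) ∧
    (∀ I ξ, W I ξ ≠ 0 → ∀ d, (I d : ℝ) / 2 - 1 / 4 ≤ |ξ d| ∧ |ξ d| ≤ (I d : ℝ) / 2 + 3 / 4) ∧
    (∀ I I' ξ, HasSum (fun k : Fin n → ℤ => W I (ξ + zv k) * (starRingEnd ℂ) (W I' (ξ + zv k)))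
      (if I = I' then 1 else 0)) ∧
    (∀ ξ (k : Fin n → ℤ), HasSum (fun I => W I ξ * (starRingEnd ℂ) (W I (ξ + zv k)))
      (if k = 0 then 1 else 0)) := by
  classical
  refine ⟨fun I ξ => ∏ d, ws (I d) (ξ d), ?_, ?_, ?_, ?_⟩
  · intro I
    apply contDiff_prod
    intro d _
    apply (ws_smooth (I d)).comp
    exact (EuclideanSpace.proj d : E n →L[ℝ] ℝ).contDiff
  · intro I ξ h d
    have h1 : ws (I d) (ξ d) ≠ 0 := by
      intro h0
      exact h (Finset.prod_eq_zero (Finset.mem_univ d) h0)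
    exact ws_supp _ _ h1
  · intro I I' ξ
    have h1 := hasSum_pi_fin (fun d (k : ℤ) => ws (I d) (ξ d + k) *
      (starRingEnd ℂ) (ws (I' d) (ξ d + k))) _ (fun d => ws_fin_row _ _ _)
      (fun d => ws_row (I d) (I' d) (ξ d))
    rw [prod_ite_one (fun d => I d = I' d)] at h1
    have h2 : (if ∀ d, I d = I' d then (1 : ℂ) else 0) = if I = I' then 1 else 0 := by
      by_cases h : I = I'
      · rw [if_pos h, if_pos (fun d => congrFun h d)]
      · rw [if_neg h, if_neg (fun h' => h (funext h'))]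
    rw [h2] at h1
    have h3 : (fun k : Fin n → ℤ => (∏ d, ws (I d) ((ξ + zv k) d)) *
        (starRingEnd ℂ) (∏ d, ws (I' d) ((ξ + zv k) d))) =
        fun k => ∏ d, (ws (I d) (ξ d + k d) * (starRingEnd ℂ) (ws (I' d) (ξ d + k d))) := by
      funext k
      rw [map_prod, ← Finset.prod_mul_distrib]
      rfl
    rw [h3]
    exact h1
  · intro ξ k
    have h1 := hasSum_pi_fin (fun d (i : ℕ) => ws i (ξ d) *
      (starRingEnd ℂ) (ws i (ξ d + k d))) _ (fun d => ws_fin_col _ _)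
      (fun d => ws_col (ξ d) (k d))
    rw [prod_ite_one (fun d => k d = 0)] at h1
    have h2 : (if ∀ d, k d = 0 then (1 : ℂ) else 0) = if k = 0 then 1 else 0 := by
      by_cases h : k = 0
      · rw [if_pos h, if_pos (fun d => by rw [h]; rfl)]
      · rw [if_neg h, if_neg (fun h' : ∀ d, k d = 0 => h (funext h'))]
    rw [h2] at h1
    have h3 : (fun I : Fin n → ℕ => (∏ d, ws (I d) (ξ d)) *
        (starRingEnd ℂ) (∏ d, ws (I d) ((ξ + zv k) d))) =
        fun I => ∏ d, (ws (I d) (ξ d) * (starRingEnd ℂ) (ws (I d) (ξ d + k d))) := by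
      funext I
      rw [map_prod, ← Finset.prod_mul_distrib]
      rfl
    rw [h3]
    exact h1

end Run7.h408
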