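import Pool.Agent.Run7.h408.Abs
import Pool.Agent.Run7.h408.Cos
import Pool.Agent.Run7.h408.Wils
import Pool.Agent.Run7.h408.Ell

/-!
Assembly: every rational expansive matrix has a wavelet system with smooth compactly supported
Fourier transforms (frequency side).
-/

set_option autoImplicit false

open MeasureTheory FourierTransform Filter Topology
open scoped ENNReal ContDiff InnerProductSpace

namespace Run7.h408

variable {n : ℕ}

lemma norm_prod_gt (s : Multiset ℂ) (h : ∀ z ∈ s, 1 < ‖z‖) (hs : s ≠ 0) : 1 < ‖s.prod‖ := by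
  induction s using Multiset.induction_on with
  | empty => exact absurd rfl hs
  | cons a s ih =>
    rw [Multiset.prod_cons, norm_mul]
    have ha := h a (Multiset.mem_cons_self a s)
    by_cases h0 : s = 0
    · subst h0; simpa using ha
    · have h1 := ih (fun z hz => h z (Multiset.mem_cons_of_mem hz)) h0
      nlinarith

lemma det_gt_one (hn : 0 < n) (A : Matrix (Fin n) (Fin n) ℝ) (hA : IsExpansive A) :
    1 < |A.det| := by
  have h1 : (A.map (algebraMap ℝ ℂ)).det = ((A.det : ℝ) : ℂ) := by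
    have := (RingHom.map_det (algebraMap ℝ ℂ) A)
    rw [RingHom.mapMatrix_apply] at this
    exact this.symm
  have h2 : |A.det| = ‖(A.map (algebraMap ℝ ℂ)).det‖ := by
    rw [h1, Complex.norm_real, Real.norm_eq_abs]
  rw [h2, Matrix.det_eq_prod_roots_charpoly]
  apply norm_prod_gt
  · intro z hz
    apply hA
    rw [Matrix.mem_spectrum_iff_isRoot_charpoly]
    exact Polynomial.isRoot_of_mem_roots hz
  · intro h0
    have h3 : (A.map (algebraMap ℝ ℂ)).charpoly.roots.card = n := by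
      have h4 := (IsAlgClosed.splits (A.map (algebraMap ℝ ℂ)).charpoly).natDegree_eq_card_roots
      rw [← h4, Matrix.charpoly_natDegree_eq_dim, Fintype.card_fin]
    rw [h0, Multiset.card_zero] at h3
    omega

lemma Dop_UG {W : (Fin n → ℕ) → E n → ℂ} (hW : Wil W) (A G : GL (Fin n) ℝ) (I : Fin n → ℕ)
    (κ : Fin n → ℤ) : Dop A (hW.UG G I κ) = hW.UG (G * tr A⁻¹) I κ := by
  unfold Wil.UG Dop
  rw [dil_dil]

lemma mem_VG_iff {W : (Fin n → ℕ) → E n → ℂ} (hW : Wil W) (A G : GL (Fin n) ℝ)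
    (S : Finset (Fin n → ℕ)) (u : L2 n) :
    u ∈ hW.VG (G * tr A⁻¹) S ↔ (Dop A).symm u ∈ hW.VG G S := by
  rw [hW.mem_VG, hW.mem_VG]
  have h1 : ∀ I κ, ⟪hW.UG G I κ, (Dop A).symm u⟫_ℂ = ⟪hW.UG (G * tr A⁻¹) I κ, u⟫_ℂ := by
    intro I κ
    rw [← Dop_UG, ← LinearIsometryEquiv.inner_map_map (Dop A),
      LinearIsometryEquiv.apply_symm_apply]
  simp only [h1]

lemma growth (A G : GL (Fin n) ℝ) (ρ : ℝ) (hρ : 1 < ρ)
    (h : ∀ x : E n, ρ * ‖act (G : Matrix (Fin n) (Fin n) ℝ) x‖ ≤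
      ‖act (G : Matrix (Fin n) (Fin n) ℝ) (act (A : Matrix (Fin n) (Fin n) ℝ).transpose x)‖)
    (j : ℕ) (x : E n) :
    ρ ^ j * ‖act (G : Matrix (Fin n) (Fin n) ℝ) x‖ ≤
      ‖act (G : Matrix (Fin n) (Fin n) ℝ) (act ((tr (A ^ (j : ℤ)) : GL (Fin n) ℝ) :
        Matrix (Fin n) (Fin n) ℝ) x)‖ := by
  induction j generalizing x with
  | zero =>
    rw [Nat.cast_zero, zpow_zero, tr_one, Units.val_one, act_one, pow_zero, one_mul]
  | succ j ih =>
    have h1 := ih (act (A : Matrix (Fin n) (Fin n) ℝ).transpose x)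
    have h2 : (A ^ ((j + 1 : ℕ) : ℤ) : GL (Fin n) ℝ) = A * A ^ (j : ℤ) := by
      push_cast
      rw [add_comm, zpow_add, zpow_one]
    rw [h2, tr_mul, Units.val_mul, act_mul, coe_tr A]
    refine le_trans ?_ h1
    rw [pow_succ, mul_assoc]
    exact mul_le_mul_of_nonneg_left (h x) (by positivity)

lemma Dop_zpow_ae (A : GL (Fin n) ℝ) (j : ℤ) (u : L2 n) :
    (((Dop A ^ j : L2 n ≃ₗᵢ[ℂ] L2 n) u : L2 n) : E n → ℂ) =ᵐ[volume] fun ξ =>
      ((Real.sqrt |((tr (A ^ (-j)) : GL (Fin n) ℝ) : Matrix (Fin n) (Fin n) ℝ).det| : ℝ) : ℂ) *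
        u (act ((tr (A ^ (-j)) : GL (Fin n) ℝ) : Matrix (Fin n) (Fin n) ℝ) ξ) := by
  rw [Dop_zpow]
  unfold Dop
  rw [← zpow_neg]
  exact coeFn_dil _ _

lemma act_tr_cancel (A : GL (Fin n) ℝ) (j : ℤ) (ξ : E n) :
    act ((tr (A ^ (-j)) : GL (Fin n) ℝ) : Matrix (Fin n) (Fin n) ℝ)
      (act ((tr (A ^ j) : GL (Fin n) ℝ) : Matrix (Fin n) (Fin n) ℝ) ξ) = ξ := by
  rw [← act_mul, ← Units.val_mul, ← tr_mul, zpow_neg, mul_inv_cancel, tr_one, Units.val_one,
    act_one]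

lemma sqrt_det_ne (M : GL (Fin n) ℝ) :
    ((Real.sqrt |(M : Matrix (Fin n) (Fin n) ℝ).det| : ℝ) : ℂ) ≠ 0 := by
  have h := Real.sqrt_pos.2 (abs_pos.2 (det_ne_zero_GL M))
  exact_mod_cast h.ne'

lemma det_zpow_GL (A : GL (Fin n) ℝ) (j : ℤ) :
    ((A ^ j : GL (Fin n) ℝ) : Matrix (Fin n) (Fin n) ℝ).det =
      (A : Matrix (Fin n) (Fin n) ℝ).det ^ j := by
  have h := map_zpow (Matrix.GeneralLinearGroup.det (n := Fin n) (R := ℝ)) A j
  have h2 := congrArg (Units.val) h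
  rw [Units.val_zpow_eq_zpow_val] at h2
  exact h2

lemma act_ne_zero (G : GL (Fin n) ℝ) {x : E n} (hx : x ≠ 0) :
    act (G : Matrix (Fin n) (Fin n) ℝ) x ≠ 0 := by
  intro h
  apply hx
  have := (toE G).map_eq_zero_iff.1 (by rw [toE_apply]; exact h)
  exact this

theorem core (hn : 0 < n) (A : GL (Fin n) ℝ)
    (hA : IsExpansive (A : Matrix (Fin n) (Fin n) ℝ))
    (hrat : ∀ i j, ∃ q : ℚ, (A : Matrix (Fin n) (Fin n) ℝ) i j = (q : ℝ)) :
    ∃ (L : ℕ) (v : Fin L → E n → ℂ), 0 < L ∧ (∀ l, CS (v l)) ∧ IsFreqBasis A v := by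
  classical
  obtain ⟨P, Q, T, ρ, hρ, hPQ, hQA, hgr⟩ := exists_adapted hn A hA hrat
  obtain ⟨W, hW1, hW2, hW3, hW4⟩ := wilson_n n
  have hW : Wil W := ⟨hW1, hW2, hW3, hW4⟩
  -- the matrices
  have hQP : Q.map (Int.cast : ℤ → ℝ) * P = 1 := mul_eq_one_comm.1 hPQ
  let PG : GL (Fin n) ℝ := ⟨P, Q.map (Int.cast : ℤ → ℝ), hPQ, hQP⟩
  let G0 : GL (Fin n) ℝ := tr PG
  have hG0 : (G0 : Matrix (Fin n) (Fin n) ℝ) = P.transpose := rfl
  let G1 : GL (Fin n) ℝ := G0 * tr A⁻¹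
  have hG0Q : (G0 : Matrix (Fin n) (Fin n) ℝ).transpose * Q.map (Int.cast : ℤ → ℝ) = 1 := by
    rw [hG0, Matrix.transpose_transpose]; exact hPQ
  have hG1T : (G1 : Matrix (Fin n) (Fin n) ℝ).transpose * T.map (Int.cast : ℤ → ℝ) = 1 := by
    have h1 : (G1 : Matrix (Fin n) (Fin n) ℝ).transpose =
        ((A⁻¹ : GL (Fin n) ℝ) : Matrix (Fin n) (Fin n) ℝ) * P := by
      change (P.transpose * ((A⁻¹ : GL (Fin n) ℝ) :
        Matrix (Fin n) (Fin n) ℝ).transpose).transpose = _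
      rw [Matrix.transpose_mul, Matrix.transpose_transpose, Matrix.transpose_transpose]
    rw [h1, ← hQA, Matrix.mul_assoc, ← Matrix.mul_assoc P, hPQ, Matrix.one_mul, ← Units.val_mul,
      inv_mul_cancel, Units.val_one]
  have hdQ : (Q.map (Int.cast : ℤ → ℝ)).det = (Q.det : ℝ) := (Int.cast_det Q).symm
  have hdT : (T.map (Int.cast : ℤ → ℝ)).det = (T.det : ℝ) := (Int.cast_det T).symm
  have hQ0 : Q.det ≠ 0 := by
    intro h0
    have h1 : P.det * (Q.map (Int.cast : ℤ → ℝ)).det = 1 := by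
      rw [← Matrix.det_mul, hPQ, Matrix.det_one]
    rw [hdQ, h0] at h1
    simp at h1
  have hTQ : (T.det : ℝ) = (Q.det : ℝ) * (A : Matrix (Fin n) (Fin n) ℝ).det := by
    rw [← hdT, ← hdQ, ← hQA, Matrix.det_mul]
  have hT0 : T.det ≠ 0 := by
    intro h0
    rw [h0] at hTQ
    have h1 := det_ne_zero_GL A
    have h2 : (Q.det : ℝ) ≠ 0 := by exact_mod_cast hQ0
    have h3 : (Q.det : ℝ) * (A : Matrix (Fin n) (Fin n) ℝ).det ≠ 0 := mul_ne_zero h2 h1
    rw [← hTQ] at h3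
    simp at h3
  have hcardQT : Q.det.natAbs + 1 ≤ T.det.natAbs := by
    have h1 := det_gt_one hn _ hA
    have h2 : |(Q.det : ℝ)| < |(T.det : ℝ)| := by
      rw [hTQ, abs_mul]
      have h3 : 0 < |(Q.det : ℝ)| := abs_pos.2 (by exact_mod_cast hQ0)
      nlinarith
    have h3 : |Q.det| < |T.det| := by exact_mod_cast h2
    rw [Int.abs_eq_natAbs, Int.abs_eq_natAbs] at h3
    have h4 : Q.det.natAbs < T.det.natAbs := by exact_mod_cast h3
    omega
  -- norms
  have hgr' : ∀ x : E n, ρ * ‖act (G0 : Matrix (Fin n) (Fin n) ℝ) x‖ ≤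
      ‖act (G0 : Matrix (Fin n) (Fin n) ℝ) (act (A : Matrix (Fin n) (Fin n) ℝ).transpose x)‖ := by
    intro x
    have := hgr x
    rw [act_mul] at this
    exact this
  have hgrow := growth A G0 ρ hρ hgr'
  -- the radius
  let R : ℝ := max (Real.sqrt n / (ρ - 1)) (2 * n)
  have hR1 : R + Real.sqrt n ≤ ρ * R := by
    have h1 : Real.sqrt n / (ρ - 1) ≤ R := le_max_left _ _
    have h2 : 0 < ρ - 1 := by linarith
    rw [div_le_iff₀ h2] at h1
    linarith
  have hR2 : 2 * (n : ℝ) ≤ R := le_max_right _ _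
  have hR0 : 0 < R := by
    have : (0 : ℝ) < n := by exact_mod_cast hn
    linarith
  set S := hW.SR R with hS
  have hScard : n ≤ S.card :=
    (hW.card_SR hn n).trans (Finset.card_le_card (hW.SR_mono hR2))
  set V := hW.VG G0 S with hV
  set V' := hW.VG G1 S with hV'
  have hVV' : ∀ u, u ∈ V' ↔ (Dop A).symm u ∈ V := fun u => mem_VG_iff hW A G0 S u
  -- D.symm maps V to V
  have hVD : ∀ v ∈ V, (Dop A).symm v ∈ V := by
    intro v hv
    have h1 := hW.supp_of_mem G0 R v hv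
    apply hW.mem_of_supp G0 R
    have h2 : (((Dop A).symm v : L2 n) : E n → ℂ) =ᵐ[volume] fun ξ =>
        ((Real.sqrt |((tr A : GL (Fin n) ℝ) : Matrix (Fin n) (Fin n) ℝ).det| : ℝ) : ℂ) *
        v (act ((tr A : GL (Fin n) ℝ) : Matrix (Fin n) (Fin n) ℝ) ξ) := by
      rw [Dop_symm]
      unfold Dop
      rw [inv_inv]
      exact coeFn_dil _ _
    filter_upwards [h2, (qmp_act (tr A)).ae h1] with ξ h3 h4 h5
    rw [h3, h4, mul_zero]
    have h6 := hgr' ξ
    rw [coe_tr A]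
    have h7 : ρ * R < ρ * ‖act (G0 : Matrix (Fin n) (Fin n) ℝ) ξ‖ := by
      apply mul_lt_mul_of_pos_left h5 (by linarith)
    linarith
  have hle : V ≤ V' := fun v hv => (hVV' v).2 (hVD v hv)
  -- generators
  obtain ⟨h, hh, Gh⟩ := exists_gen hW G0 Q hG0Q hQ0 S
  obtain ⟨g, hg, Gg⟩ := exists_gen hW G1 T hG1T hT0 S
  have hcard : S.card * Q.det.natAbs + n ≤ S.card * T.det.natAbs := by
    have h1 : S.card * (Q.det.natAbs + 1) ≤ S.card * T.det.natAbs :=
      Nat.mul_le_mul_left _ hcardQT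
    rw [Nat.mul_add, Nat.mul_one] at h1
    omega
  obtain ⟨ψ, hψ, hon, hmem, hperp, htot⟩ := frame_compl V V' hle h hh g hg Gh Gg hcard (by omega)
  -- the abstract argument
  let e : Fin (S.card * T.det.natAbs - S.card * Q.det.natAbs) × (Fin n → ℤ) → L2 n :=
    fun p => cl ((hψ p.1).conj_ee_mul p.2)
  have hmra := Abs.mra (Dop A) V e hVD
    (fun p => (hVV' _).1 (hmem p.1 p.2))
    (fun p v hv => hperp p.1 p.2 v hv)
    (by
      rw [orthonormal_iff_ite]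
      intro p q
      change ⟪cl ((hψ p.1).conj_ee_mul p.2), cl ((hψ q.1).conj_ee_mul q.2)⟫_ℂ = _
      rw [hon]
      congr 1
      rw [Prod.ext_iff])
    (fun u hu1 hu2 hu3 => htot u ((hVV' u).2 hu1) hu2 (fun l k => hu3 (l, k)))
    (by
      -- trivial intersection
      intro u hu
      have h1 : ∀ j : ℕ, ∀ᵐ η : E n, R + Real.sqrt n <
          ‖act (G0 : Matrix (Fin n) (Fin n) ℝ) (act ((tr (A ^ (j : ℤ)) : GL (Fin n) ℝ) :
            Matrix (Fin n) (Fin n) ℝ) η)‖ → u η = 0 := by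
        intro j
        have h2 := hW.supp_of_mem G0 R _ (hu j)
        have h3 := Dop_zpow_ae A (j : ℤ) u
        filter_upwards [(qmp_act (tr (A ^ (j : ℤ)))).ae h2,
          (qmp_act (tr (A ^ (j : ℤ)))).ae h3] with η h4 h5 h6
        have h7 := h4 h6
        rw [h5, act_tr_cancel] at h7
        exact (mul_eq_zero.1 h7).resolve_left (sqrt_det_ne _)
      rw [← ae_all_iff] at h1
      have hne : ∀ᵐ η : E n, η ≠ 0 := by
        have : Nonempty (Fin n) := ⟨⟨0, hn⟩⟩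
        rw [ae_iff]
        simp
      apply Lp.ext
      filter_upwards [h1, hne, Lp.coeFn_zero ℂ 2 (volume : Measure (E n))] with η h2 h3 h4
      rw [h4, Pi.zero_apply]
      have h5 : 0 < ‖act (G0 : Matrix (Fin n) (Fin n) ℝ) η‖ :=
        norm_pos_iff.2 (act_ne_zero G0 h3)
      obtain ⟨j, hj⟩ := pow_unbounded_of_one_lt
        ((R + Real.sqrt n) / ‖act (G0 : Matrix (Fin n) (Fin n) ℝ) η‖) hρ
      apply h2 j
      refine lt_of_lt_of_le ?_ (hgrow j η)
      rwa [div_lt_iff₀ h5] at hj)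
    (by
      -- density
      intro u ε hε
      have h1 : MemLp (u : E n → ℂ) 2 volume := Lp.memLp u
      obtain ⟨f, hf1, hf2, hf3, hf4⟩ := h1.exists_hasCompactSupport_eLpNorm_sub_le
        (by norm_num) (ε := ENNReal.ofReal (ε / 2)) (by positivity)
      obtain ⟨r, hr⟩ := hf1.isCompact.isBounded.subset_closedBall (0 : E n)
      let F : L2 n := hf4.toLp f
      have hF : (F : E n → ℂ) =ᵐ[volume] f := hf4.coeFn_toLp
      have hdist : ‖u - F‖ < ε := by
        rw [Lp.norm_def]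
        have h2 : eLpNorm ((u - F : L2 n) : E n → ℂ) 2 volume =
            eLpNorm ((u : E n → ℂ) - f) 2 volume := by
          apply eLpNorm_congr_ae
          filter_upwards [Lp.coeFn_sub u F, hF] with ξ h3 h4
          rw [h3, Pi.sub_apply, Pi.sub_apply, h4]
        rw [h2]
        have h3 := ENNReal.toReal_mono ENNReal.ofReal_ne_top hf2
        rw [ENNReal.toReal_ofReal (by positivity)] at h3
        linarith
      obtain ⟨C, hC0, hC⟩ : ∃ C : ℝ, 0 < C ∧ ∀ x : E n,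
          ‖act (G0 : Matrix (Fin n) (Fin n) ℝ) x‖ ≤ C * ‖x‖ := by
        refine ⟨‖(toE G0 : E n →L[ℝ] E n)‖ + 1, by positivity, fun x => ?_⟩
        have h2 := (toE G0 : E n →L[ℝ] E n).le_opNorm x
        have h3 : (toE G0 : E n →L[ℝ] E n) x = act (G0 : Matrix (Fin n) (Fin n) ℝ) x := rfl
        rw [h3] at h2
        nlinarith [norm_nonneg x]
      obtain ⟨j, hj⟩ := pow_unbounded_of_one_lt (C * r / R) hρ
      refine ⟨j, (Dop A ^ (-(j : ℤ)) : L2 n ≃ₗᵢ[ℂ] L2 n) F, ?_, ?_⟩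
      · apply hW.mem_of_supp G0 R
        filter_upwards [Dop_zpow_ae A (-(j : ℤ)) F, (qmp_act (tr (A ^ (-(-(j : ℤ)))))).ae hF]
          with ξ h2 h3 h4
        rw [h2, h3]
        rw [neg_neg]
        have h5 : f (act ((tr (A ^ (j : ℤ)) : GL (Fin n) ℝ) : Matrix (Fin n) (Fin n) ℝ) ξ) = 0 := by
          by_contra hne
          have h6 := hr (subset_tsupport _ hne)
          rw [Metric.mem_closedBall, dist_zero_right] at h6
          have h7 := hgrow j ξ
          have h8 := hC (act ((tr (A ^ (j : ℤ)) : GL (Fin n) ℝ) : Matrix (Fin n) (Fin n) ℝ) ξ)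
          rw [div_lt_iff₀ hR0] at hj
          have h9 : ρ ^ j * R < ρ ^ j * ‖act (G0 : Matrix (Fin n) (Fin n) ℝ) ξ‖ :=
            mul_lt_mul_of_pos_left h4 (by positivity)
          have h10 : C * ‖act ((tr (A ^ (j : ℤ)) : GL (Fin n) ℝ) :
              Matrix (Fin n) (Fin n) ℝ) ξ‖ ≤ C * r := mul_le_mul_of_nonneg_left h6 hC0.le
          linarith
        rw [h5, mul_zero]
      · have h2 : (Dop A ^ (j : ℤ) : L2 n ≃ₗᵢ[ℂ] L2 n)
            ((Dop A ^ (-(j : ℤ)) : L2 n ≃ₗᵢ[ℂ] L2 n) F) = F := by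
          rw [Dop_zpow, Dop_zpow, Dop_mul, zpow_neg, inv_mul_cancel, Dop_one]
        rw [h2]
        exact hdist)
  obtain ⟨horth, htotal⟩ := hmra
  -- conversion
  have hfw : ∀ l (j : ℤ) (k : Fin n → ℤ),
      (((Dop A ^ j : L2 n ≃ₗᵢ[ℂ] L2 n) (e (l, k)) : L2 n) : E n → ℂ) =ᵐ[volume]
        fw A (ψ l) j k := by
    intro l j k
    filter_upwards [Dop_zpow_ae A j (e (l, k)),
      (qmp_act (tr (A ^ (-j)))).ae (coeFn_cl ((hψ l).conj_ee_mul k))] with ξ h1 h2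
    rw [h1, h2]
    unfold fw eg
    rw [← coe_tr]
    have h3 : Real.sqrt |((tr (A ^ (-j)) : GL (Fin n) ℝ) : Matrix (Fin n) (Fin n) ℝ).det| =
        |(A : Matrix (Fin n) (Fin n) ℝ).det| ^ (-(j : ℝ) / 2) := by
      have h4 : ((tr (A ^ (-j)) : GL (Fin n) ℝ) : Matrix (Fin n) (Fin n) ℝ).det =
          (A : Matrix (Fin n) (Fin n) ℝ).det ^ (-j) := by
        rw [coe_tr, Matrix.det_transpose, det_zpow_GL]
      have h5 : 0 < |(A : Matrix (Fin n) (Fin n) ℝ).det| := abs_pos.2 (det_ne_zero_GL A)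
      rw [h4, abs_zpow, Real.sqrt_eq_rpow, ← Real.rpow_intCast, ← Real.rpow_mul h5.le]
      congr 1
      push_cast
      ring
    rw [h3]
    have h5 : (starRingEnd ℂ) (ee k (act ((tr (A ^ (-j)) : GL (Fin n) ℝ) :
        Matrix (Fin n) (Fin n) ℝ) ξ)) = Complex.exp (((-2 * Real.pi * inner ℝ (zv k)
      (act ((tr (A ^ (-j)) : GL (Fin n) ℝ) : Matrix (Fin n) (Fin n) ℝ) ξ) : ℝ) : ℂ) *
        Complex.I) := by
      rw [conj_ee]
      unfold ee
      congr 1
      rw [zv_neg, inner_neg_left]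
      push_cast
      ring
    rw [h5]
    ring
  refine ⟨_, ψ, ?_, hψ, ?_, ?_, ?_⟩
  · have := hcard
    omega
  · intro l
    exact (hψ l).memLp 2
  · intro l j k l' j' k'
    have h1 : ∫ ξ, fw A (ψ l) j k ξ * (starRingEnd ℂ) (fw A (ψ l') j' k' ξ) =
        ⟪(Dop A ^ j' : L2 n ≃ₗᵢ[ℂ] L2 n) (e (l', k')), (Dop A ^ j : L2 n ≃ₗᵢ[ℂ] L2 n)
          (e (l, k))⟫_ℂ := by
      rw [inner_L2]
      apply integral_congr_ae
      filter_upwards [hfw l j k, hfw l' j' k'] with ξ h2 h3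
      rw [h2, h3]
    rw [h1]
    rw [orthonormal_iff_ite] at horth
    have h2 := horth (j', (l', k')) (j, (l, k))
    dsimp only at h2
    rw [h2]
    congr 1
    apply propext
    rw [Prod.mk.injEq, Prod.mk.injEq]
    constructor
    · rintro ⟨rfl, rfl, rfl⟩; exact ⟨rfl, rfl, rfl⟩
    · rintro ⟨rfl, rfl, rfl⟩; exact ⟨rfl, rfl, rfl⟩
  · intro f hf hf0
    have h1 : hf.toLp f = 0 := by
      apply htotal
      rintro j ⟨l, k⟩
      rw [inner_L2, ← hf0 l j k]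
      apply integral_congr_ae
      filter_upwards [hfw l j k, hf.coeFn_toLp] with ξ h2 h3
      rw [h2, h3]
    have h2 := hf.coeFn_toLp
    rw [h1] at h2
    filter_upwards [h2, Lp.coeFn_zero ℂ 2 (volume : Measure (E n))] with ξ h3 h4
    rw [← h3, h4]

end Run7.h408
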