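import Pool.Agent.Run7.h408.N2

/-!
Third obstruction: a set `I` of scales which is bounded above, such that the common vectors of
the lattices of scales in `I` and of the lattices of scales outside of `I` lie in a proper subspace.
-/

set_option autoImplicit false

open MeasureTheory FourierTransform Filter Topology
open scoped ENNReal ContDiff InnerProductSpace

namespace Run7.h408

variable {n : ℕ}

open Classical in
lemma coef_tsum_zero {ι : Type*} (c : ι → ℂ) (hc : Summable (fun i => ‖c i‖))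
    (x : ι → E n) (h : ∀ k : Fin n → ℤ, HasSum (fun i => c i * ee k (x i)) 0) :
    HasSum (fun i => if ∀ d, zc (x i) d = 1 then c i else 0) 0 := by
  have h2 : ∀ K : ℕ, ∑' i, c i * av K (x i) = 0 := by
    intro K
    have h3 : HasSum (fun i => ((K : ℂ)⁻¹) ^ n *
        ∑ k ∈ Fintype.piFinset (fun _ : Fin n => Finset.range K),
          c i * ee (fun i => (k i : ℤ)) (x i))
        (((K : ℂ)⁻¹) ^ n * ∑ k ∈ Fintype.piFinset (fun _ : Fin n => Finset.range K), (0 : ℂ)) :=
      (hasSum_sum fun k _ => h _).mul_left _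
    rw [Finset.sum_const_zero, mul_zero] at h3
    rw [← h3.tsum_eq]
    congr 1
    funext i
    rw [av_eq, ← Finset.mul_sum]
    ring
  have h3 : Tendsto (fun K : ℕ => ∑' i, c i * av K (x i)) atTop
      (𝓝 (∑' i, if ∀ d, zc (x i) d = 1 then c i else 0)) := by
    apply tendsto_tsum_of_dominated_convergence hc
    · intro i
      by_cases hi : ∀ d, zc (x i) d = 1
      · rw [if_pos hi]
        refine tendsto_const_nhds.congr' ?_
        filter_upwards [eventually_gt_atTop 0] with K hK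
        rw [av_one K hK _ hi, mul_one]
      · rw [if_neg hi]
        push Not at hi
        obtain ⟨d, hd⟩ := hi
        have := (av_tendsto_zero (x i) d hd).const_mul (c i)
        rwa [mul_zero] at this
    · refine Eventually.of_forall fun K i => ?_
      rw [norm_mul]
      calc ‖c i‖ * ‖av K (x i)‖ ≤ ‖c i‖ * 1 :=
            mul_le_mul_of_nonneg_left (av_le K _) (norm_nonneg _)
        _ = _ := mul_one _
  have h4 : Summable (fun i => if ∀ d, zc (x i) d = 1 then c i else 0) := by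
    apply Summable.of_norm_bounded hc
    intro i
    split_ifs
    · exact le_rfl
    · rw [norm_zero]; exact norm_nonneg _
  simp only [h2] at h3
  have h5 := tendsto_nhds_unique h3 tendsto_const_nhds
  have h6 := h4.hasSum
  rw [h5] at h6
  exact h6

lemma zc_all_iff (A : GL (Fin n) ℝ) (j : ℤ) (m : Fin n → ℤ) :
    (∀ d, zc (bj A (-j) (zv m)) d = 1) ↔ ∃ m' : Fin n → ℤ, bj A j (zv m') = zv m := by
  constructor
  · intro hcon
    have h4 : ∀ d, ∃ k : ℤ, bj A (-j) (zv m) d = k := by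
      intro d
      have h6 := hcon d
      unfold zc at h6
      rw [Complex.exp_eq_one_iff] at h6
      obtain ⟨k, hk⟩ := h6
      refine ⟨k, ?_⟩
      have h7 : ((bj A (-j) (zv m) d : ℝ) : ℂ) * (2 * Real.pi * Complex.I) =
          k * (2 * Real.pi * Complex.I) := by
        rw [← hk]
        push_cast
        ring
      have h8 := mul_right_cancel₀ Complex.two_pi_I_ne_zero h7
      exact_mod_cast h8
    choose k hk using h4
    have h6 : bj A (-j) (zv m) = zv k := by
      ext d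
      rw [hk d]
      rfl
    exact ⟨k, by rw [← h6, bj_bj_neg]⟩
  · rintro ⟨m', hm'⟩ d
    rw [← hm', bj_neg_bj]
    unfold zc
    rw [Complex.exp_eq_one_iff]
    refine ⟨m' d, ?_⟩
    rw [zv_apply]
    push_cast
    ring

section

variable {A : GL (Fin n) ℝ} {L : ℕ} {v : Fin L → E n → ℂ} {N ε C : ℝ}

open Classical in
/-- orthogonality of different levels -/
theorem orth_levels (hb : IsFreqBasis A v) (hN : (n : ℝ) < N) (hC : 0 ≤ C)
    (hr : ∀ l, Reg N ε C (v l)) (j : ℤ) (hj0 : j ≠ 0) (l l' : Fin L) (ξ : E n) :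
    HasSum (fun m : Fin n → ℤ => if ∃ m' : Fin n → ℤ, bj A j (zv m') = zv m then
      v l (ξ + zv m) * (starRingEnd ℂ) (v l' (bj A (-j) (ξ + zv m))) else 0) 0 := by
  have hN0 : 0 ≤ N := (lt_of_le_of_lt (Nat.cast_nonneg n) hN).le
  set G : E n → ℂ := fun ξ => v l ξ * (starRingEnd ℂ) (v l' (bj A (-j) ξ)) with hG
  have hGc : Continuous G := (hr l).cont.mul
    (Complex.continuous_conj.comp ((hr l').cont.comp (continuous_bj A (-j))))
  have hGd : ∀ ξ, ‖G ξ‖ ≤ C * C * (1 + ‖ξ‖) ^ (-N) := by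
    intro ξ
    have h1 := (hr l).dec ξ
    have h2 := (hr l').bdd hN0 hC (bj A (-j) ξ)
    rw [hG]
    simp only [norm_mul, RCLike.norm_conj]
    calc ‖v l ξ‖ * ‖v l' (bj A (-j) ξ)‖ ≤ (C * (1 + ‖ξ‖) ^ (-N)) * C :=
          mul_le_mul h1 h2 (norm_nonneg _) (by positivity)
      _ = _ := by ring
  have h5 : 0 < |(A : Matrix (Fin n) (Fin n) ℝ).det| := abs_pos.2 (det_ne_zero_GL A)
  have h1 : ∀ k' : Fin n → ℤ, ∀ᵐ ξ : E n,
      HasSum (fun m : Fin n → ℤ => G (ξ + zv m) * ee k' (bj A (-j) (zv m))) 0 := by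
    intro k'
    have h2 : ∀ k : Fin n → ℤ, ∫ ξ, (G ξ * ee k' (bj A (-j) ξ)) * ee k ξ =
        if k = 0 then 0 else 0 := by
      intro k
      have h3 := hb.2.1 l 0 (-k) l' j k'
      rw [if_neg (fun h => hj0 h.2.1.symm)] at h3
      have h4 : ∀ ξ, fw A (v l) 0 (-k) ξ * (starRingEnd ℂ) (fw A (v l') j k' ξ) =
          ((|(A : Matrix (Fin n) (Fin n) ℝ).det| ^ (-(j : ℝ) / 2) : ℝ) : ℂ) *
            ((G ξ * ee k' (bj A (-j) ξ)) * ee k ξ) := by
        intro ξ
        rw [fw_zero, fw_gen, neg_neg, hG]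
        ring
      simp only [h4] at h3
      have h6 : ∫ ξ, ((|(A : Matrix (Fin n) (Fin n) ℝ).det| ^ (-(j : ℝ) / 2) : ℝ) : ℂ) *
            ((G ξ * ee k' (bj A (-j) ξ)) * ee k ξ) =
          ((|(A : Matrix (Fin n) (Fin n) ℝ).det| ^ (-(j : ℝ) / 2) : ℝ) : ℂ) *
            ∫ ξ, (G ξ * ee k' (bj A (-j) ξ)) * ee k ξ := integral_const_mul _ _
      rw [h6] at h3
      have h7 : ((|(A : Matrix (Fin n) (Fin n) ℝ).det| ^ (-(j : ℝ) / 2) : ℝ) : ℂ) ≠ 0 := by
        exact_mod_cast (Real.rpow_pos_of_pos h5 _).ne'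
      rw [(mul_eq_zero.1 h3).resolve_left h7]
      simp
    have hi : Integrable (fun ξ => G ξ * ee k' (bj A (-j) ξ)) := by
      apply integrable_of_dec (C := C * C) hN
      · exact hGc.mul ((contDiff_ee k').continuous.comp (continuous_bj A (-j)))
      · intro ξ
        rw [norm_mul, norm_ee, mul_one]
        exact hGd ξ
    filter_upwards [fiber_of_coeff _ hi 0 h2] with ξ hξ
    have h3 := hξ.mul_left ((starRingEnd ℂ) (ee k' (bj A (-j) ξ)))
    rw [mul_zero] at h3
    refine h3.congr_fun fun m => ?_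
    rw [bj_add, ee_arg_add]
    have h4 := ee_mul_conj k' (bj A (-j) ξ)
    calc _ = (G (ξ + zv m) * ee k' (bj A (-j) (zv m))) *
          (ee k' (bj A (-j) ξ) * (starRingEnd ℂ) (ee k' (bj A (-j) ξ))) := by rw [h4, mul_one]
      _ = _ := by ring
  set ind : (Fin n → ℤ) → ℂ := fun m => if ∃ m' : Fin n → ℤ, bj A j (zv m') = zv m then 1 else 0
    with hind
  have hind1 : ∀ m, ‖ind m‖ ≤ 1 := by
    intro m
    rw [hind]
    simp only
    split_ifs <;> simp
  have hcont := lattice_continuous hN (by positivity) hGc hGd ind hind1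
  have h2 : (fun ξ : E n => ∑' m : Fin n → ℤ, ind m * G (ξ + zv m)) =ᵐ[volume] fun _ => 0 := by
    filter_upwards [ae_all_iff.2 h1] with ξ hξ
    have hs : Summable (fun m : Fin n → ℤ => ‖G (ξ + zv m)‖) := by
      have := (lattice_summable hN (by positivity) hGd (fun _ => 1) (by simp) ξ).norm
      simpa using this
    have h3 := coef_tsum_zero (fun m : Fin n → ℤ => G (ξ + zv m)) hs
      (fun m => bj A (-j) (zv m)) hξ
    rw [← h3.tsum_eq]
    congr 1
    funext m
    simp only [zc_all_iff, hind]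
    split_ifs <;> simp
  have h3 := congrFun ((hcont.ae_eq_iff_eq volume continuous_const).1 h2) ξ
  have h4 := (lattice_summable hN (by positivity) hGd ind hind1 ξ).hasSum
  beta_reduce at h3
  rw [h3] at h4
  refine h4.congr_fun fun m => ?_
  simp only [hind]
  split_ifs <;> simp [hG]

open Classical in
/-- the Gram relations and the orthogonality of the levels together -/
lemma reproducing (hb : IsFreqBasis A v) (hN : (n : ℝ) < N) (hC : 0 ≤ C)
    (hr : ∀ l, Reg N ε C (v l)) (j : ℤ) (l l' : Fin L) (ξ : E n) :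
    HasSum (fun m : Fin n → ℤ => if ∃ m' : Fin n → ℤ, bj A j (zv m') = zv m then
      v l (ξ + zv m) * (starRingEnd ℂ) (v l' (bj A (-j) (ξ + zv m))) else 0)
      (if j = 0 ∧ l = l' then 1 else 0) := by
  by_cases hj : j = 0
  · subst hj
    have h1 := gram hb hN hC hr l l' ξ
    have h2 : (if (0 : ℤ) = 0 ∧ l = l' then (1 : ℂ) else 0) = if l = l' then 1 else 0 := by
      simp
    rw [h2]
    refine h1.congr_fun fun m => ?_
    rw [if_pos ⟨m, bj_zero A _⟩, neg_zero, bj_zero]
  · rw [if_neg (fun h => hj h.1)]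
    exact orth_levels hb hN hC hr j hj l l' ξ

open Classical in
/-- the kernel of level `j` -/
noncomputable def KK (A : GL (Fin n) ℝ) (v : Fin L → E n → ℂ) (j : ℤ) (ξ γ : E n) : ℂ :=
  if ∃ m' : Fin n → ℤ, bj A j (zv m') = γ then
    ∑ l, (starRingEnd ℂ) (v l (bj A (-j) ξ)) * v l (bj A (-j) (ξ + γ)) else 0

lemma hasSum_KK (hn : 0 < n) (hA : IsExpansive (A : Matrix (Fin n) (Fin n) ℝ))
    (hb : IsFreqBasis A v) (hN : (n : ℝ) < N) (hε : 0 < ε) (hC : 0 ≤ C)
    (hr : ∀ l, Reg N ε C (v l)) (i : ℤ) (m : Fin n → ℤ) (ξ : E n) (h1 : ξ ≠ 0)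
    (h2 : ξ + bj A i (zv m) ≠ 0) :
    HasSum (fun j : ℤ => KK A v j ξ (bj A i (zv m))) (if m = 0 then 1 else 0) := by
  have h3 := hasSum_TT hn hA hb hN hε hC hr m (bj A (-i) ξ) (bj_ne_zero A _ h1) (by
    intro h
    apply h2
    have := congrArg (bj A i) h
    rwa [bj_add, bj_bj_neg, bj_zero_arg] at this)
  rw [← (Equiv.subRight i).hasSum_iff] at h3
  refine h3.congr_fun fun j => ?_
  simp only [Function.comp_apply, Equiv.subRight_apply]
  unfold KK TT
  have h4 : (∃ m' : Fin n → ℤ, bj A j (zv m') = bj A i (zv m)) ↔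
      ∃ m' : Fin n → ℤ, bj A (j - i) (zv m') = zv m := by
    apply exists_congr
    intro m'
    constructor
    · intro h
      have := congrArg (bj A (-i)) h
      rwa [bj_bj, bj_neg_bj, show -i + j = j - i by ring] at this
    · intro h
      have := congrArg (bj A i) h
      rwa [bj_bj, show i + (j - i) = j by ring] at this
  by_cases h5 : ∃ m' : Fin n → ℤ, bj A (j - i) (zv m') = zv m
  · simp only [if_pos h5, if_pos (h4.2 h5)]
    apply Finset.sum_congr rfl
    intro l _
    have e1 : bj A (-(j - i)) (bj A (-i) ξ) = bj A (-j) ξ := by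
      rw [bj_bj]; congr 1; ring
    have e2 : bj A (-(j - i)) (zv m) = bj A (-j) (bj A i (zv m)) := by
      rw [bj_bj]; congr 1; ring
    rw [bj_add, bj_add, e1, e2]
  · simp only [if_neg h5, if_neg (fun h => h5 (h4.1 h))]
    simp

/-! ### the set of scales -/

open Classical in
/-- the double family -/
noncomputable def ff (A : GL (Fin n) ℝ) (v : Fin L → E n → ℂ) (I : Set ℤ) (i : ℤ) (l : Fin L)
    (ξ : E n) (p : ℤ × (Fin n → ℤ)) : ℂ :=
  (if p.1 ∈ I then KK A v p.1 ξ (bj A i (zv p.2)) else 0) *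
    (starRingEnd ℂ) (v l (bj A (-i) ξ + zv p.2))

lemma norm_KK_le (hN0 : 0 ≤ N) (hC : 0 ≤ C) (hr : ∀ l, Reg N ε C (v l)) (j : ℤ) (ξ γ : E n) :
    ‖KK A v j ξ γ‖ ≤ (∑ l, ‖v l (bj A (-j) ξ)‖) * C := by
  unfold KK
  split_ifs
  · refine (norm_sum_le _ _).trans ?_
    rw [Finset.sum_mul]
    apply Finset.sum_le_sum
    intro l _
    rw [norm_mul, RCLike.norm_conj]
    exact mul_le_mul_of_nonneg_left ((hr l).bdd hN0 hC _) (norm_nonneg _)
  · rw [norm_zero]
    positivity

/-- summability over the levels -/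
lemma summable_levels (hn : 0 < n) (hA : IsExpansive (A : Matrix (Fin n) (Fin n) ℝ))
    (hN0 : 0 < N) (hε : 0 < ε) (hC : 0 ≤ C) (hr : ∀ l, Reg N ε C (v l)) (h0 : ∀ l, v l 0 = 0)
    (ξ : E n) (hξ : ξ ≠ 0) : Summable (fun j : ℤ => ∑ l, ‖v l (bj A (-j) ξ)‖) := by
  obtain ⟨s, hs, hs0, hsb⟩ := exists_level_bound hn hA hN0 hε hC hr h0 (norm_pos_iff.2 hξ)
    (norm_nonneg ξ)
  apply Summable.of_nonneg_of_le (fun j => Finset.sum_nonneg fun l _ => norm_nonneg _)
    (fun j => ?_) (hs.mul_left (L : ℝ))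
  calc ∑ l, ‖v l (bj A (-j) ξ)‖ ≤ ∑ _l : Fin L, s j :=
        Finset.sum_le_sum fun l _ => hsb l j ξ le_rfl le_rfl
    _ = L * s j := by simp

lemma summable_ff (hn : 0 < n) (hA : IsExpansive (A : Matrix (Fin n) (Fin n) ℝ))
    (hN : (n : ℝ) < N) (hε : 0 < ε) (hC : 0 ≤ C) (hr : ∀ l, Reg N ε C (v l))
    (h0 : ∀ l, v l 0 = 0) (I : Set ℤ) (i : ℤ) (l : Fin L) (ξ : E n) (hξ : ξ ≠ 0) :
    Summable (ff A v I i l ξ) := by
  have hN0 : 0 < N := lt_of_le_of_lt (Nat.cast_nonneg n) hN
  have h1 := summable_levels hn hA hN0 hε hC hr h0 ξ hξ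
  have h2 : Summable (fun m : Fin n → ℤ => ‖v l (bj A (-i) ξ + zv m)‖) := by
    have := (lattice_summable hN hC (hr l).dec (fun _ => 1) (by simp) (bj A (-i) ξ)).norm
    simpa using this
  have h3 := (h1.mul_right C).mul_of_nonneg h2
    (fun j => by positivity) (fun m => norm_nonneg _)
  apply Summable.of_norm_bounded h3
  rintro ⟨j, m⟩
  unfold ff
  rw [norm_mul, RCLike.norm_conj]
  apply mul_le_mul_of_nonneg_right _ (norm_nonneg _)
  split_ifs
  · exact norm_KK_le hN0.le hC hr j ξ _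
  · rw [norm_zero]; positivity

open Classical in
lemma sum_ff (hn : 0 < n) (hA : IsExpansive (A : Matrix (Fin n) (Fin n) ℝ))
    (hb : IsFreqBasis A v) (hN : (n : ℝ) < N) (hε : 0 < ε) (hC : 0 ≤ C)
    (hr : ∀ l, Reg N ε C (v l)) (h0 : ∀ l, v l 0 = 0) (I : Set ℤ) (i : ℤ) (hi : i ∈ I)
    (l : Fin L) (ξ : E n) (hξ : ξ ≠ 0) :
    HasSum (ff A v I i l ξ) ((starRingEnd ℂ) (v l (bj A (-i) ξ))) := by
  have hs := summable_ff hn hA hN hε hC hr h0 I i l ξ hξ
  have h1 : ∀ j : ℤ, HasSum (fun m : Fin n → ℤ => ff A v I i l ξ (j, m))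
      (if j = i then (starRingEnd ℂ) (v l (bj A (-i) ξ)) else 0) := by
    intro j
    by_cases hj : j ∈ I
    · have h2 : ∀ l' ∈ Finset.univ, HasSum (fun m : Fin n → ℤ =>
          (starRingEnd ℂ) (v l' (bj A (-j) ξ)) *
            (starRingEnd ℂ) (if ∃ m' : Fin n → ℤ, bj A (j - i) (zv m') = zv m then
            v l (bj A (-i) ξ + zv m) *
              (starRingEnd ℂ) (v l' (bj A (-(j - i)) (bj A (-i) ξ + zv m))) else 0))
          ((starRingEnd ℂ) (v l' (bj A (-j) ξ)) * (starRingEnd ℂ)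
            (if j - i = 0 ∧ l = l' then 1 else 0)) := by
        intro l' _
        apply HasSum.mul_left
        exact (reproducing hb hN hC hr (j - i) l l' (bj A (-i) ξ)).map (starRingEnd ℂ)
          Complex.continuous_conj
      have h3 := hasSum_sum h2
      have h4 : (∑ l', (starRingEnd ℂ) (v l' (bj A (-j) ξ)) * (starRingEnd ℂ)
          (if j - i = 0 ∧ l = l' then (1 : ℂ) else 0)) =
          if j = i then (starRingEnd ℂ) (v l (bj A (-i) ξ)) else 0 := by
        by_cases hji : j = i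
        · subst hji
          rw [if_pos rfl]
          rw [Finset.sum_eq_single l]
          · simp
          · intro l' _ hl'
            rw [if_neg (fun h => hl' h.2.symm)]
            simp
          · intro h
            exact absurd (Finset.mem_univ l) h
        · rw [if_neg hji]
          apply Finset.sum_eq_zero
          intro l' _
          rw [if_neg (fun h => hji (sub_eq_zero.1 h.1))]
          simp
      rw [h4] at h3
      refine h3.congr_fun fun m => ?_
      unfold ff KK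
      simp only [if_pos hj]
      have h5 : (∃ m' : Fin n → ℤ, bj A j (zv m') = bj A i (zv m)) ↔
          ∃ m' : Fin n → ℤ, bj A (j - i) (zv m') = zv m := by
        apply exists_congr
        intro m'
        constructor
        · intro h
          have := congrArg (bj A (-i)) h
          rwa [bj_bj, bj_neg_bj, show -i + j = j - i by ring] at this
        · intro h
          have := congrArg (bj A i) h
          rwa [bj_bj, show i + (j - i) = j by ring] at this
      by_cases h6 : ∃ m' : Fin n → ℤ, bj A (j - i) (zv m') = zv m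
      · simp only [if_pos h6, if_pos (h5.2 h6)]
        rw [Finset.sum_mul]
        apply Finset.sum_congr rfl
        intro l' _
        have e1 : bj A (-(j - i)) (bj A (-i) ξ) = bj A (-j) ξ := by
          rw [bj_bj]; congr 1; ring
        have e2 : bj A (-(j - i)) (zv m) = bj A (-j) (bj A i (zv m)) := by
          rw [bj_bj]; congr 1; ring
        rw [bj_add, bj_add, e1, e2, map_mul, Complex.conj_conj]
        ring
      · simp only [if_neg h6, if_neg (fun h => h6 (h5.1 h))]
        simp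
    · have h2 : ∀ m : Fin n → ℤ, ff A v I i l ξ (j, m) = 0 := by
        intro m
        unfold ff
        simp only [if_neg hj, zero_mul]
      simp only [h2]
      have hji : j ≠ i := fun h => hj (by rw [h]; exact hi)
      rw [if_neg hji]
      exact hasSum_zero
  have h2 := hs.hasSum.prod_fiberwise h1
  have h3 : HasSum (fun j : ℤ => if j = i then (starRingEnd ℂ) (v l (bj A (-i) ξ)) else 0)
      ((starRingEnd ℂ) (v l (bj A (-i) ξ))) := hasSum_ite_eq i _
  have h4 := hs.hasSum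
  rw [h2.unique h3] at h4
  exact h4

lemma vanish (hn : 0 < n) (hA : IsExpansive (A : Matrix (Fin n) (Fin n) ℝ))
    (hb : IsFreqBasis A v) (hN : (n : ℝ) < N) (hε : 0 < ε) (hC : 0 ≤ C)
    (hr : ∀ l, Reg N ε C (v l)) (h0 : ∀ l, v l 0 = 0) (I : Set ℤ) (V : Submodule ℝ (E n))
    (hint : ∀ i ∈ I, ∀ j ∉ I, ∀ k m : Fin n → ℤ, bj A i (zv k) = bj A j (zv m) →
      bj A i (zv k) ∈ V) (i : ℤ) (hi : i ∈ I) (l : Fin L) (ξ : E n) (hξ : ξ ≠ 0)
    (m : Fin n → ℤ) (hm : bj A i (zv m) ∉ V) :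
    HasSum (fun j : ℤ => ff A v I i l ξ (j, m)) 0 := by
  by_cases h1 : ξ + bj A i (zv m) = 0
  · have h2 : bj A (-i) ξ + zv m = 0 := by
      have := congrArg (bj A (-i)) h1
      rwa [bj_add, bj_neg_bj, bj_zero_arg] at this
    have h3 : ∀ j : ℤ, ff A v I i l ξ (j, m) = 0 := by
      intro j
      unfold ff
      simp only [h2, h0, map_zero, mul_zero]
    simp only [h3]
    exact hasSum_zero
  · have hm0 : m ≠ 0 := by
      rintro rfl
      apply hm
      rw [zv_zero, bj_zero_arg]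
      exact V.zero_mem
    have h2 := hasSum_KK hn hA hb hN hε hC hr i m ξ hξ h1
    rw [if_neg hm0] at h2
    have h3 := h2.mul_right ((starRingEnd ℂ) (v l (bj A (-i) ξ + zv m)))
    rw [zero_mul] at h3
    refine h3.congr_fun fun j => ?_
    unfold ff
    by_cases hj : j ∈ I
    · simp only [if_pos hj]
    · simp only [if_neg hj]
      have h4 : KK A v j ξ (bj A i (zv m)) = 0 := by
        unfold KK
        rw [if_neg]
        rintro ⟨m', hm'⟩
        exact hm (hint i hi j hj m m' hm'.symm)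
      rw [h4]

open Classical in
lemma inj_sum (A : GL (Fin n) ℝ) {C1 : ℝ}
    (hC1 : ∀ η : E n, Summable (fun m : Fin n → ℤ => (1 + ‖η + zv m‖) ^ (-N)) ∧
      ∑' m : Fin n → ℤ, (1 + ‖η + zv m‖) ^ (-N) ≤ C1) (i j : ℤ) (η : E n)
    (S : Finset (Fin n → ℤ)) :
    ∑ m ∈ S, (if ∃ m' : Fin n → ℤ, bj A j (zv m') = bj A i (zv m) then
      (1 + ‖η + bj A (-j) (bj A i (zv m))‖) ^ (-N) else 0) ≤ C1 := by
  rw [← Finset.sum_filter]
  set S' := S.filter (fun m : Fin n → ℤ => ∃ m' : Fin n → ℤ, bj A j (zv m') = bj A i (zv m))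
    with hS'
  have h1 : ∀ m ∈ S', ∃ m' : Fin n → ℤ, bj A j (zv m') = bj A i (zv m) := by
    intro m hm
    rw [hS', Finset.mem_filter] at hm
    exact hm.2
  choose! φ hφ using h1
  have hinj : Set.InjOn φ S' := by
    intro a ha b hb hab
    have h2 := hφ a ha
    have h3 := hφ b hb
    rw [hab] at h2
    exact zv_inj (bj_inj A i (h2.symm.trans h3))
  calc ∑ m ∈ S', (1 + ‖η + bj A (-j) (bj A i (zv m))‖) ^ (-N) =
        ∑ m ∈ S', (1 + ‖η + zv (φ m)‖) ^ (-N) := by
        apply Finset.sum_congr rfl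
        intro m hm
        rw [← hφ m hm, bj_neg_bj]
    _ = ∑ m' ∈ S'.image φ, (1 + ‖η + zv m'‖) ^ (-N) :=
        (Finset.sum_image (f := fun m' : Fin n → ℤ => (1 + ‖η + zv m'‖) ^ (-N)) hinj).symm
    _ ≤ ∑' m' : Fin n → ℤ, (1 + ‖η + zv m'‖) ^ (-N) :=
        (hC1 η).1.sum_le_tsum _ (fun m _ => by positivity)
    _ ≤ C1 := (hC1 η).2

open Classical in
/-- the smallness parameter -/
noncomputable def kap (A : GL (Fin n) ℝ) (v : Fin L → E n → ℂ) (I : Set ℤ) (c : ℝ) (ξ : E n) : ℝ :=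
  ∑' j : ℤ, (if j ∈ I then ∑ l, ‖v l (bj A (-j) ξ)‖ else 0) * c

open Classical in
lemma bound_step (hn : 0 < n) (hA : IsExpansive (A : Matrix (Fin n) (Fin n) ℝ))
    (hb : IsFreqBasis A v) (hN : (n : ℝ) < N) (hε : 0 < ε) (hC : 0 ≤ C)
    (hr : ∀ l, Reg N ε C (v l)) (h0 : ∀ l, v l 0 = 0) (I : Set ℤ) (V : Submodule ℝ (E n))
    (hint : ∀ i ∈ I, ∀ j ∉ I, ∀ k m : Fin n → ℤ, bj A i (zv k) = bj A j (zv m) →
      bj A i (zv k) ∈ V) {C1 : ℝ} (hC10 : 0 ≤ C1)
    (hC1 : ∀ η : E n, Summable (fun m : Fin n → ℤ => (1 + ‖η + zv m‖) ^ (-N)) ∧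
      ∑' m : Fin n → ℤ, (1 + ‖η + zv m‖) ^ (-N) ≤ C1)
    (i : ℤ) (hi : i ∈ I) (l : Fin L) (ξ : E n) (hξ : ξ ≠ 0) (M : ℝ) (hM : 0 ≤ M)
    (hMV : ∀ w ∈ V, ‖v l (bj A (-i) (ξ + w))‖ ≤ M) :
    ‖v l (bj A (-i) ξ)‖ ≤ kap A v I (C * C1) ξ * M := by
  have hN0 : 0 < N := lt_of_le_of_lt (Nat.cast_nonneg n) hN
  have hs := sum_ff hn hA hb hN hε hC hr h0 I i hi l ξ hξ
  -- the restricted family
  set ff' : ℤ × (Fin n → ℤ) → ℂ := fun p => if bj A i (zv p.2) ∈ V then ff A v I i l ξ p else 0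
    with hff'
  have hsn : Summable (fun p => ‖ff A v I i l ξ p‖) := hs.summable.norm
  have hle : ∀ p, ‖ff' p‖ ≤ ‖ff A v I i l ξ p‖ := by
    intro p
    rw [hff']
    simp only
    split_ifs
    · exact le_rfl
    · rw [norm_zero]; exact norm_nonneg _
  have hs' : Summable (fun p => ‖ff' p‖) :=
    Summable.of_nonneg_of_le (fun _ => norm_nonneg _) hle hsn
  have hT : ∑' p, ff' p = (starRingEnd ℂ) (v l (bj A (-i) ξ)) := by
    -- sum over the levels first
    have h1 : HasSum (fun m : Fin n → ℤ => ∑' j : ℤ, ff A v I i l ξ (j, m))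
        ((starRingEnd ℂ) (v l (bj A (-i) ξ))) := by
      have h2 := (Equiv.prodComm (Fin n → ℤ) ℤ).hasSum_iff.2 hs
      apply h2.prod_fiberwise
      intro m
      exact (h2.summable.prod_factor m).hasSum
    have h2 : HasSum (fun m : Fin n → ℤ => ∑' j : ℤ, ff' (j, m)) (∑' p, ff' p) := by
      have h3 := (Equiv.prodComm (Fin n → ℤ) ℤ).hasSum_iff.2 hs'.of_norm.hasSum
      apply h3.prod_fiberwise
      intro m
      exact (h3.summable.prod_factor m).hasSum
    have h3 : (fun m : Fin n → ℤ => ∑' j : ℤ, ff' (j, m)) =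
        fun m : Fin n → ℤ => ∑' j : ℤ, ff A v I i l ξ (j, m) := by
      funext m
      by_cases hm : bj A i (zv m) ∈ V
      · simp only [hff', if_pos hm]
      · simp only [hff', if_neg hm, tsum_zero]
        exact (vanish hn hA hb hN hε hC hr h0 I V hint i hi l ξ hξ m hm).tsum_eq.symm
    rw [h3] at h2
    exact h2.unique h1
  have hT2 : ‖v l (bj A (-i) ξ)‖ ≤ ∑' p, ‖ff' p‖ := by
    have h1 : ‖v l (bj A (-i) ξ)‖ = ‖(starRingEnd ℂ) (v l (bj A (-i) ξ))‖ :=
      (RCLike.norm_conj _).symm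
    rw [h1, ← hT]
    exact norm_tsum_le_tsum_norm hs'
  refine hT2.trans ?_
  rw [hs'.tsum_prod]
  unfold kap
  rw [← tsum_mul_right]
  have hsl := summable_levels hn hA hN0 hε hC hr h0 ξ hξ
  have hsl' : Summable (fun j : ℤ => (if j ∈ I then ∑ l, ‖v l (bj A (-j) ξ)‖ else 0) *
      (C * C1) * M) := by
    apply Summable.mul_right
    apply Summable.mul_right
    apply Summable.of_nonneg_of_le (fun j => ?_) (fun j => ?_) hsl
    · split_ifs
      · positivity
      · exact le_rfl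
    · split_ifs
      · exact le_rfl
      · positivity
  apply Summable.tsum_le_tsum _ hs'.prod hsl'
  intro j
  apply Real.tsum_le_of_sum_le (fun m => norm_nonneg _)
  intro S
  by_cases hj : j ∈ I
  · rw [if_pos hj]
    -- pointwise bound
    have h1 : ∀ m : Fin n → ℤ, ‖ff' (j, m)‖ ≤ (∑ l', ‖v l' (bj A (-j) ξ)‖) * C * M *
        (if ∃ m' : Fin n → ℤ, bj A j (zv m') = bj A i (zv m) then
      (1 + ‖bj A (-j) ξ + bj A (-j) (bj A i (zv m))‖) ^ (-N) else 0) := by
      intro m
      rw [hff']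
      simp only
      by_cases hm : bj A i (zv m) ∈ V
      · rw [if_pos hm]
        unfold ff KK
        simp only [if_pos hj]
        by_cases hm' : ∃ m' : Fin n → ℤ, bj A j (zv m') = bj A i (zv m)
        · simp only [if_pos hm']
          rw [norm_mul, RCLike.norm_conj]
          have h2 : bj A (-i) ξ + zv m = bj A (-i) (ξ + bj A i (zv m)) := by
            rw [bj_add, bj_neg_bj]
          have h3 : ‖v l (bj A (-i) ξ + zv m)‖ ≤ M := by
            rw [h2]
            exact hMV _ hm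
          have h4 : ‖∑ l', (starRingEnd ℂ) (v l' (bj A (-j) ξ)) *
              v l' (bj A (-j) (ξ + bj A i (zv m)))‖ ≤ (∑ l', ‖v l' (bj A (-j) ξ)‖) * (C *
              (1 + ‖bj A (-j) ξ + bj A (-j) (bj A i (zv m))‖) ^ (-N)) := by
            refine (norm_sum_le _ _).trans ?_
            rw [Finset.sum_mul]
            apply Finset.sum_le_sum
            intro l' _
            rw [norm_mul, RCLike.norm_conj, bj_add]
            exact mul_le_mul_of_nonneg_left ((hr l').dec _) (norm_nonneg _)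
          calc _ ≤ ((∑ l', ‖v l' (bj A (-j) ξ)‖) * (C *
              (1 + ‖bj A (-j) ξ + bj A (-j) (bj A i (zv m))‖) ^ (-N))) * M :=
                mul_le_mul h4 h3 (norm_nonneg _) (by positivity)
            _ = _ := by ring
        · simp only [if_neg hm']
          simp
      · rw [if_neg hm, norm_zero]
        apply mul_nonneg
        · positivity
        · split_ifs
          · positivity
          · exact le_rfl
    calc ∑ m ∈ S, ‖ff' (j, m)‖ ≤ ∑ m ∈ S, (∑ l', ‖v l' (bj A (-j) ξ)‖) * C * M *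
        (if ∃ m' : Fin n → ℤ, bj A j (zv m') = bj A i (zv m) then
        (1 + ‖bj A (-j) ξ + bj A (-j) (bj A i (zv m))‖) ^ (-N) else 0) :=
          Finset.sum_le_sum fun m _ => h1 m
      _ = (∑ l', ‖v l' (bj A (-j) ξ)‖) * C * M * ∑ m ∈ S,
        (if ∃ m' : Fin n → ℤ, bj A j (zv m') = bj A i (zv m) then
        (1 + ‖bj A (-j) ξ + bj A (-j) (bj A i (zv m))‖) ^ (-N) else 0) := by
          rw [Finset.mul_sum]
      _ ≤ (∑ l', ‖v l' (bj A (-j) ξ)‖) * C * M * C1 := by
          apply mul_le_mul_of_nonneg_left _ (by positivity)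
          exact inj_sum A hC1 i j _ S
      _ = _ := by ring
  · rw [if_neg hj, zero_mul, zero_mul]
    apply le_of_eq
    apply Finset.sum_eq_zero
    intro m _
    rw [hff']
    simp only [ff, if_neg hj, zero_mul]
    simp

end

end Run7.h408
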