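import Pool.Agent.Run7.h408.Cut

/-!
The third obstruction, second part.
-/

set_option autoImplicit false

open MeasureTheory FourierTransform Filter Topology
open scoped ENNReal ContDiff InnerProductSpace

namespace Run7.h408

variable {n : ℕ}

/-- a linear map is bounded below by an invertible one -/
lemma exists_lower (A : GL (Fin n) ℝ) (j : ℤ) : ∃ c : ℝ, 0 < c ∧ ∀ x : E n, c * ‖x‖ ≤ ‖bj A j x‖ := by
  obtain ⟨c, hc⟩ : ∃ c : ℝ, ∀ i k, |((tr (A ^ (-j)) : GL (Fin n) ℝ) :
      Matrix (Fin n) (Fin n) ℝ) i k| ≤ c := by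
    refine ⟨∑ i, ∑ k, |((tr (A ^ (-j)) : GL (Fin n) ℝ) : Matrix (Fin n) (Fin n) ℝ) i k|,
      fun i k => ?_⟩
    refine le_trans ?_ (Finset.single_le_sum (f := fun i => ∑ k,
      |((tr (A ^ (-j)) : GL (Fin n) ℝ) : Matrix (Fin n) (Fin n) ℝ) i k|)
      (fun i _ => Finset.sum_nonneg fun j _ => abs_nonneg _) (Finset.mem_univ i))
    exact Finset.single_le_sum (f := fun k => |((tr (A ^ (-j)) : GL (Fin n) ℝ) :
      Matrix (Fin n) (Fin n) ℝ) i k|) (fun j _ => abs_nonneg _) (Finset.mem_univ k)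
  have h1 := fun x => norm_act_le _ c hc x
  set c' : ℝ := max (n * c) 1 with hc'
  have hc0 : 0 < c' := lt_of_lt_of_le one_pos (le_max_right _ _)
  refine ⟨c'⁻¹, inv_pos.2 hc0, fun x => ?_⟩
  rw [inv_mul_le_iff₀ hc0]
  have h2 := h1 (bj A j x)
  have h3 : act ((tr (A ^ (-j)) : GL (Fin n) ℝ) : Matrix (Fin n) (Fin n) ℝ) (bj A j x) = x :=
    bj_neg_bj A j x
  rw [h3] at h2
  exact h2.trans (mul_le_mul_of_nonneg_right (le_max_left _ _) (norm_nonneg _))

section

variable {A : GL (Fin n) ℝ} {L : ℕ} {v : Fin L → E n → ℂ} {N ε C : ℝ}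

lemma kap_small (hn : 0 < n) (hA : IsExpansive (A : Matrix (Fin n) (Fin n) ℝ))
    (hN0 : 0 < N) (hC : 0 ≤ C) (hr : ∀ l, Reg N ε C (v l)) (I : Set ℤ) (J0 : ℤ)
    (hJ : ∀ i ∈ I, i ≤ J0) (c : ℝ) (hc : 0 ≤ c) :
    ∃ R : ℝ, 0 < R ∧ ∀ ξ : E n, R ≤ ‖ξ‖ → kap A v I c ξ ≤ 1 / 2 := by
  obtain ⟨K, ρ, hρ, hK, hg⟩ := exists_growth hn A hA
  obtain ⟨c0, hc0, hlow⟩ := exists_lower A (-J0)
  have hρ0 : 0 < ρ := by linarith
  have hK0 : 0 < K := by linarith
  set θ : ℝ := ρ ^ (-N) with hθ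
  have hθ0 : 0 < θ := by positivity
  have hθ1 : θ < 1 := Real.rpow_lt_one_of_one_lt_of_neg hρ (by linarith)
  have hgeo : Summable (fun j : ℤ => θ ^ (J0 - j).natAbs) := by
    have h1 : Summable (fun j : ℤ => θ ^ j.natAbs) := by
      apply Summable.of_nat_of_neg
      · simpa using summable_geometric_of_lt_one hθ0.le hθ1
      · simpa using summable_geometric_of_lt_one hθ0.le hθ1
    exact (Equiv.subLeft J0).summable_iff.2 h1
  set S : ℝ := ∑' j : ℤ, θ ^ (J0 - j).natAbs with hS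
  have hS0 : 0 ≤ S := tsum_nonneg fun j => by positivity
  -- the bound
  have hbd : ∀ ξ : E n, ξ ≠ 0 → kap A v I c ξ ≤ (L * C * c * S * (c0 / K) ^ (-N)) * ‖ξ‖ ^ (-N) := by
    intro ξ hξ
    have hξ0 : 0 < ‖ξ‖ := norm_pos_iff.2 hξ
    unfold kap
    have h1 : ∀ j : ℤ, (open Classical in if j ∈ I then ∑ l, ‖v l (bj A (-j) ξ)‖ else 0) * c ≤
        (L * C * c * (c0 / K) ^ (-N) * ‖ξ‖ ^ (-N)) * θ ^ (J0 - j).natAbs := by
      intro j
      split_ifs with hj
      · have hj2 := hJ j hj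
        obtain ⟨t, ht⟩ := Int.eq_ofNat_of_zero_le (sub_nonneg.2 hj2)
        rw [ht, Int.natAbs_natCast]
        have h2 : bj A (-j) ξ = bj A (t : ℤ) (bj A (-J0) ξ) := by
          rw [bj_bj]
          congr 1
          omega
        have h3 : ρ ^ t * (c0 / K * ‖ξ‖) ≤ ‖bj A (-j) ξ‖ := by
          rw [h2]
          have h4 := hg t (bj A (-J0) ξ)
          have h5 := hlow ξ
          have h6 : ρ ^ t * (c0 * ‖ξ‖) ≤ K * ‖bj A (t : ℤ) (bj A (-J0) ξ)‖ :=
            (mul_le_mul_of_nonneg_left h5 (by positivity)).trans h4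
          have h7 : ρ ^ t * (c0 / K * ‖ξ‖) = (ρ ^ t * (c0 * ‖ξ‖)) / K := by
            field_simp
          rw [h7, div_le_iff₀ hK0, mul_comm _ K]
          exact h6
        have h4 : ∀ l, ‖v l (bj A (-j) ξ)‖ ≤ C * ((c0 / K) ^ (-N) * ‖ξ‖ ^ (-N) * θ ^ t) := by
          intro l
          refine ((hr l).dec _).trans (mul_le_mul_of_nonneg_left ?_ hC)
          have h5 : (1 + ‖bj A (-j) ξ‖) ^ (-N) ≤ (ρ ^ t * (c0 / K * ‖ξ‖)) ^ (-N) := by
            apply Real.rpow_le_rpow_of_nonpos (by positivity) (by linarith) (by linarith)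
          refine h5.trans (le_of_eq ?_)
          rw [Real.mul_rpow (by positivity) (by positivity),
            Real.mul_rpow (by positivity) (by positivity), mul_comm, hθ,
            ← Real.rpow_natCast ρ, ← Real.rpow_natCast, ← Real.rpow_mul hρ0.le,
            ← Real.rpow_mul hρ0.le]
          congr 2
          ring
        calc (∑ l, ‖v l (bj A (-j) ξ)‖) * c ≤
            (∑ _l : Fin L, C * ((c0 / K) ^ (-N) * ‖ξ‖ ^ (-N) * θ ^ t)) * c :=
              mul_le_mul_of_nonneg_right (Finset.sum_le_sum fun l _ => h4 l) hc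
          _ = _ := by
              rw [Finset.sum_const, Finset.card_univ, Fintype.card_fin, nsmul_eq_mul]
              ring
      · rw [zero_mul]
        positivity
    have h2 : Summable (fun j : ℤ => (L * C * c * (c0 / K) ^ (-N) * ‖ξ‖ ^ (-N)) *
        θ ^ (J0 - j).natAbs) := hgeo.mul_left _
    have h3 : Summable (fun j : ℤ => (open Classical in
        if j ∈ I then ∑ l, ‖v l (bj A (-j) ξ)‖ else 0) * c) := by
      apply Summable.of_nonneg_of_le (fun j => ?_) h1 h2
      apply mul_nonneg _ hc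
      split_ifs
      · positivity
      · exact le_rfl
    refine (h3.tsum_le_tsum h1 h2).trans (le_of_eq ?_)
    rw [tsum_mul_left]
    ring
  -- the limit
  have hlim : Tendsto (fun r : ℝ => (L * C * c * S * (c0 / K) ^ (-N)) * r ^ (-N)) atTop (𝓝 0) := by
    have := (tendsto_rpow_neg_atTop hN0).const_mul (L * C * c * S * (c0 / K) ^ (-N))
    rwa [mul_zero] at this
  obtain ⟨R, hR⟩ := ((hlim.eventually (gt_mem_nhds (show (0 : ℝ) < 1 / 2 by norm_num))).and
    (eventually_gt_atTop 0)).exists_forall_of_atTop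
  refine ⟨max R 1, by positivity, fun ξ hξ => ?_⟩
  have h1 := (hR ‖ξ‖ ((le_max_left _ _).trans hξ)).1
  have h2 : ξ ≠ 0 := by
    intro h
    rw [h, norm_zero] at hξ
    linarith [le_max_right R 1]
  exact (hbd ξ h2).trans h1.le

lemma kap_continuousOn (hn : 0 < n) (hA : IsExpansive (A : Matrix (Fin n) (Fin n) ℝ))
    (hN0 : 0 < N) (hε : 0 < ε) (hC : 0 ≤ C) (hr : ∀ l, Reg N ε C (v l))
    (h0 : ∀ l, v l 0 = 0) (I : Set ℤ) (c : ℝ) (hc : 0 ≤ c) (x : E n) (hx : x ≠ 0) :
    ContinuousAt (kap A v I c) x := by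
  have hx0 : 0 < ‖x‖ := norm_pos_iff.2 hx
  obtain ⟨s, hs, hs0, hsb⟩ := exists_level_bound hn hA hN0 hε hC hr h0
    (a := ‖x‖ / 2) (b := 2 * ‖x‖) (by positivity) (by positivity)
  set W : Set (E n) := {ξ | ‖x‖ / 2 < ‖ξ‖ ∧ ‖ξ‖ < 2 * ‖x‖} with hW
  have hWo : IsOpen W := (isOpen_lt continuous_const continuous_norm).inter
    (isOpen_lt continuous_norm continuous_const)
  have h1 : ContinuousOn (kap A v I c) W := by
    unfold kap
    apply continuousOn_tsum (u := fun j => (L * s j) * c)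
    · intro j
      apply Continuous.continuousOn
      apply Continuous.mul _ continuous_const
      split_ifs
      · exact continuous_finsetSum _ fun l _ => ((hr l).cont.comp (continuous_bj A (-j))).norm
      · exact continuous_const
    · exact (hs.mul_left _).mul_right _
    · intro j ξ hξ
      rw [norm_mul, Real.norm_eq_abs c, abs_of_nonneg hc]
      apply mul_le_mul_of_nonneg_right _ hc
      split_ifs
      · rw [Real.norm_eq_abs, abs_of_nonneg (Finset.sum_nonneg fun l _ => norm_nonneg _)]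
        calc ∑ l, ‖v l (bj A (-j) ξ)‖ ≤ ∑ _l : Fin L, s j :=
              Finset.sum_le_sum fun l _ => hsb l j ξ hξ.1.le hξ.2.le
          _ = L * s j := by simp
      · rw [norm_zero]
        have := hs0 j
        positivity
  exact h1.continuousAt (hWo.mem_nhds ⟨by linarith, by linarith⟩)

lemma kap_eq_zero (I : Set ℤ) (c : ℝ) (ξ : E n) (h : ∀ j ∈ I, ∀ l, v l (bj A (-j) ξ) = 0) :
    kap A v I c ξ = 0 := by
  unfold kap
  have h1 : ∀ j : ℤ, (open Classical in if j ∈ I then ∑ l, ‖v l (bj A (-j) ξ)‖ else 0) * c = 0 := by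
    intro j
    split_ifs with hj
    · rw [Finset.sum_eq_zero, zero_mul]
      intro l _
      rw [h j hj l, norm_zero]
    · rw [zero_mul]
  simp only [h1]
  exact tsum_zero

/-- a fibre on which the parameter is small carries nothing -/
lemma fibre_zero (hn : 0 < n) (hA : IsExpansive (A : Matrix (Fin n) (Fin n) ℝ))
    (hb : IsFreqBasis A v) (hN : (n : ℝ) < N) (hε : 0 < ε) (hC : 0 ≤ C)
    (hr : ∀ l, Reg N ε C (v l)) (h0 : ∀ l, v l 0 = 0) (I : Set ℤ) (V : Submodule ℝ (E n))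
    (hint : ∀ i ∈ I, ∀ j ∉ I, ∀ k m : Fin n → ℤ, bj A i (zv k) = bj A j (zv m) →
      bj A i (zv k) ∈ V) {C1 : ℝ} (hC10 : 0 ≤ C1)
    (hC1 : ∀ η : E n, Summable (fun m : Fin n → ℤ => (1 + ‖η + zv m‖) ^ (-N)) ∧
      ∑' m : Fin n → ℤ, (1 + ‖η + zv m‖) ^ (-N) ≤ C1)
    (ξ : E n) (hξ : ξ ∉ V) (hk : ∀ w ∈ V, kap A v I (C * C1) (ξ + w) ≤ 1 / 2) :
    ∀ i ∈ I, ∀ l, ∀ w ∈ V, v l (bj A (-i) (ξ + w)) = 0 := by
  intro i hi l
  have hN0 : 0 < N := lt_of_le_of_lt (Nat.cast_nonneg n) hN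
  have h1 : ∀ (k : ℕ), ∀ w ∈ V, ‖v l (bj A (-i) (ξ + w))‖ ≤ C * (1 / 2) ^ k := by
    intro k
    induction k with
    | zero =>
      intro w _
      rw [pow_zero, mul_one]
      exact (hr l).bdd hN0.le hC _
    | succ k ih =>
      intro w hw
      have h2 : ξ + w ≠ 0 := by
        intro h
        apply hξ
        rw [eq_neg_of_add_eq_zero_left h]
        exact V.neg_mem hw
      have h3 := bound_step hn hA hb hN hε hC hr h0 I V hint hC10 hC1 i hi l (ξ + w) h2
        (C * (1 / 2) ^ k) (by positivity) (by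
          intro w' hw'
          rw [add_assoc]
          exact ih _ (V.add_mem hw hw'))
      calc ‖v l (bj A (-i) (ξ + w))‖ ≤ kap A v I (C * C1) (ξ + w) * (C * (1 / 2) ^ k) := h3
        _ ≤ 1 / 2 * (C * (1 / 2) ^ k) :=
            mul_le_mul_of_nonneg_right (hk w hw) (by positivity)
        _ = _ := by rw [pow_succ]; ring
  intro w hw
  have h2 : Tendsto (fun k : ℕ => C * (1 / 2 : ℝ) ^ k) atTop (𝓝 0) := by
    have := (tendsto_pow_atTop_nhds_zero_of_lt_one (r := (1 / 2 : ℝ)) (by norm_num)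
      (by norm_num)).const_mul C
    rwa [mul_zero] at this
  have h3 : ‖v l (bj A (-i) (ξ + w))‖ ≤ 0 := ge_of_tendsto' h2 (fun k => h1 k w hw)
  exact norm_le_zero_iff.1 h3

/-- **Third obstruction.** -/
theorem n3 (hn : 0 < n) (hA : IsExpansive (A : Matrix (Fin n) (Fin n) ℝ))
    (hb : IsFreqBasis A v) (hN : (n : ℝ) < N) (hε : 0 < ε) (hC : 0 ≤ C)
    (hr : ∀ l, Reg N ε C (v l)) (I : Set ℤ) (hIn : I.Nonempty) (hIb : BddAbove I)
    (V : Submodule ℝ (E n)) (hV : V ≠ ⊤)
    (hint : ∀ i ∈ I, ∀ j ∉ I, ∀ k m : Fin n → ℤ, bj A i (zv k) = bj A j (zv m) →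
      bj A i (zv k) ∈ V) : False := by
  have hN0 : 0 < N := lt_of_le_of_lt (Nat.cast_nonneg n) hN
  have h0 := v_zero hn hA hb (fun l => (hr l).cont)
  obtain ⟨C1, hC10, hC1⟩ := exists_lattice_bound (n := n) hN
  obtain ⟨J0, hJ0⟩ := hIb
  have hc : 0 ≤ C * C1 := by positivity
  obtain ⟨R, hR, hsmall⟩ := kap_small hn hA hN0 hC hr I J0 (fun i hi => hJ0 hi) (C * C1) hc
  have hVc : IsClosed (V : Set (E n)) := V.closed_of_finiteDimensional
  -- a generator exists
  have hL : 0 < L := by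
    by_contra h0
    have h1 : L = 0 := by omega
    subst h1
    have h2 := hb.2.2 (bpc 1 0) ((continuous_bpc 1 0).memLp_of_hasCompactSupport
      (compact_bpc 1 0)) (fun l => l.elim0)
    have h3 := bpc_int_sq one_pos (0 : E n)
    have h4 : ∫ ξ : E n, ‖bpc 1 (0 : E n) ξ‖ ^ 2 = 0 := by
      have : (fun ξ : E n => ‖bpc 1 (0 : E n) ξ‖ ^ 2) =ᵐ[volume] 0 := by
        filter_upwards [h2] with ξ hξ
        rw [hξ]
        simp
      rw [integral_congr_ae this]
      simp
    rw [h4] at h3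
    exact zero_ne_one h3
  -- everything vanishes outside of `V`
  have hmain : ∀ ξ : E n, ξ ∉ V → ∀ i ∈ I, ∀ l, v l (bj A (-i) ξ) = 0 := by
    intro ξ0 hξ0
    -- the distance to `V`
    obtain ⟨δ, hδ, hdist⟩ : ∃ δ : ℝ, 0 < δ ∧ ∀ (t : ℝ), 0 ≤ t → ∀ w ∈ V,
        t * δ ≤ ‖t • ξ0 + w‖ := by
      have h1 : 0 < Metric.infDist ξ0 V := (hVc.notMem_iff_infDist_pos ⟨0, V.zero_mem⟩).1 hξ0
      refine ⟨Metric.infDist ξ0 V, h1, fun t ht w hw => ?_⟩
      rcases ht.eq_or_lt with rfl | ht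
      · rw [zero_mul]; exact norm_nonneg _
      · have h2 : Metric.infDist ξ0 V ≤ dist ξ0 (-(t⁻¹ • w)) :=
          Metric.infDist_le_dist_of_mem (V.neg_mem (V.smul_mem _ hw))
        rw [dist_eq_norm, sub_neg_eq_add] at h2
        have h3 : t • ξ0 + w = t • (ξ0 + t⁻¹ • w) := by
          rw [smul_add, smul_smul, mul_inv_cancel₀ ht.ne', one_smul]
        rw [h3, norm_smul, Real.norm_eq_abs, abs_of_pos ht]
        exact mul_le_mul_of_nonneg_left h2 ht.le
    have hnotin : ∀ t : ℝ, 0 < t → t • ξ0 ∉ V := by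
      intro t ht h
      apply hξ0
      have := V.smul_mem t⁻¹ h
      rwa [smul_smul, inv_mul_cancel₀ ht.ne', one_smul] at this
    let T : Set ℝ := {t | ∀ i ∈ I, ∀ l, ∀ w ∈ V, v l (bj A (-i) (t • ξ0 + w)) = 0}
    have hTc : IsClosed T := by
      have h1 : T = ⋂ i ∈ I, ⋂ l, ⋂ w ∈ V, {t : ℝ | v l (bj A (-i) (t • ξ0 + w)) = 0} := by
        ext t
        simp [T]
      rw [h1]
      refine isClosed_biInter fun i _ => isClosed_iInter fun l => isClosed_biInter fun w _ => ?_
      apply isClosed_eq _ continuous_const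
      apply (hr l).cont.comp
      apply (continuous_bj A (-i)).comp
      exact (continuous_id.smul continuous_const).add continuous_const
    have hTo : ∀ t0 : ℝ, 0 < t0 → t0 ∈ T → T ∈ 𝓝 t0 := by
      intro t0 ht0 hT0
      -- the compact part of the fibres
      set R' : ℝ := R + 2 * t0 * ‖ξ0‖ with hR'
      have hK : IsCompact {w : E n | w ∈ V ∧ ‖w‖ ≤ R'} := by
        have h1 : {w : E n | w ∈ V ∧ ‖w‖ ≤ R'} = (V : Set (E n)) ∩ Metric.closedBall 0 R' := by
          ext w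
          simp
        rw [h1]
        exact (isCompact_closedBall (0 : E n) R').inter_left hVc
      have h1 : ∀ᶠ t in 𝓝 t0, ∀ w ∈ {w : E n | w ∈ V ∧ ‖w‖ ≤ R'},
          kap A v I (C * C1) (t • ξ0 + w) ≤ 1 / 2 := by
        apply hK.eventually_forall_of_forall_eventually
        rintro w ⟨hw, _⟩
        have h2 : t0 • ξ0 + w ≠ 0 := by
          intro h
          apply hnotin t0 ht0
          rw [eq_neg_of_add_eq_zero_left h]
          exact V.neg_mem hw
        have h3 := kap_continuousOn hn hA hN0 hε hC hr h0 I (C * C1) hc _ h2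
        have h4 : kap A v I (C * C1) (t0 • ξ0 + w) = 0 :=
          kap_eq_zero I _ _ (fun j hj l => hT0 j hj l w hw)
        have h5 : ContinuousAt (fun z : ℝ × E n => z.1 • ξ0 + z.2) (t0, w) := by
          apply Continuous.continuousAt
          exact (continuous_fst.smul continuous_const).add continuous_snd
        have h6 : Tendsto (fun z : ℝ × E n => kap A v I (C * C1) (z.1 • ξ0 + z.2)) (𝓝 (t0, w))
            (𝓝 0) := by
          rw [← h4]
          exact ContinuousAt.comp (f := fun z : ℝ × E n => z.1 • ξ0 + z.2) h3 h5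
        exact (h6.eventually (gt_mem_nhds (show (0 : ℝ) < 1 / 2 by norm_num))).mono
          fun z hz => le_of_lt hz
      filter_upwards [h1, Ioo_mem_nhds (show t0 / 2 < t0 by linarith)
        (show t0 < 2 * t0 by linarith)] with t h2 ht
      have ht0' : 0 < t := by linarith [ht.1]
      apply fibre_zero hn hA hb hN hε hC hr h0 I V hint hC10 hC1 (t • ξ0) (hnotin t ht0')
      intro w hw
      by_cases h3 : ‖w‖ ≤ R'
      · exact h2 w ⟨hw, h3⟩
      · apply hsmall
        push Not at h3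
        have h4 : ‖w‖ ≤ ‖t • ξ0 + w‖ + ‖t • ξ0‖ := by
          have : w = (t • ξ0 + w) - t • ξ0 := by abel
          conv_lhs => rw [this]
          exact norm_sub_le _ _
        rw [norm_smul, Real.norm_eq_abs, abs_of_pos ht0'] at h4
        have h5 : t * ‖ξ0‖ ≤ 2 * t0 * ‖ξ0‖ :=
          mul_le_mul_of_nonneg_right ht.2.le (norm_nonneg _)
        linarith
    -- far fibres
    have hfar : ∃ t : ℝ, 0 < t ∧ t ∈ T := by
      refine ⟨R / δ, by positivity, ?_⟩
      apply fibre_zero hn hA hb hN hε hC hr h0 I V hint hC10 hC1 _ (hnotin _ (by positivity))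
      intro w hw
      apply hsmall
      have h1 := hdist (R / δ) (by positivity) w hw
      rwa [div_mul_cancel₀ _ hδ.ne'] at h1
    -- connectedness
    have hall : Set.Ioi (0 : ℝ) ⊆ T := by
      refine Set.Subset.trans ((isPreconnected_Ioi (a := (0 : ℝ))).subset_of_closure_inter_subset
        (u := interior T) isOpen_interior ?_ ?_) interior_subset
      · obtain ⟨t, ht, htT⟩ := hfar
        exact ⟨t, ht, mem_interior_iff_mem_nhds.2 (hTo t ht htT)⟩
      · rintro t ⟨h1, h2⟩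
        have h3 : t ∈ T := by
          have := closure_mono (interior_subset (s := T)) h1
          rwa [hTc.closure_eq] at this
        exact mem_interior_iff_mem_nhds.2 (hTo t h2 h3)
    have h1 := hall (show (1 : ℝ) ∈ Set.Ioi (0 : ℝ) from Set.mem_Ioi.2 one_pos)
    intro i hi l
    have := h1 i hi l 0 V.zero_mem
    rwa [one_smul, add_zero] at this
  -- conclusion
  obtain ⟨i, hi⟩ := hIn
  have h1 : ∀ l (ξ : E n), v l ξ = 0 := by
    intro l
    have h2 : (fun ξ => v l (bj A (-i) ξ)) =ᵐ[volume] fun _ => 0 := by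
      have h3 : ∀ᵐ ξ : E n, ξ ∉ (V : Set (E n)) := by
        rw [ae_iff]
        simp only [not_not]
        exact Measure.addHaar_submodule volume V hV
      filter_upwards [h3] with ξ hξ
      exact hmain ξ hξ i hi l
    have h3 := (((hr l).cont.comp (continuous_bj A (-i))).ae_eq_iff_eq volume
      continuous_const).1 h2
    intro ξ
    have h4 := congrFun h3 (bj A i ξ)
    simp only [Function.comp_apply, bj_neg_bj] at h4
    exact h4
  have h2 := gram hb hN hC hr ⟨0, hL⟩ ⟨0, hL⟩ (0 : E n)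
  simp only [h1, zero_mul, if_true] at h2
  exact zero_ne_one (hasSum_zero.unique h2)

end

end Run7.h408
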