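import Mathlib

/-!
# Well-localized orthonormal multiwavelets for expansive dilations: definitions

`E n` is the Euclidean space `ℝ^n`. A real matrix acts on it by `act`, an integer vector is viewed
in it by `zv`.
-/

set_option autoImplicit false

open MeasureTheory FourierTransform
open scoped ENNReal SchwartzMap

namespace Run7.h408

/-- The Euclidean space `ℝ^n`. -/
abbrev E (n : ℕ) : Type := EuclideanSpace ℝ (Fin n)

/-- The matrix `M` acting on column vectors: `act M x = M x`. -/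
noncomputable def act {n : ℕ} (M : Matrix (Fin n) (Fin n) ℝ) (x : E n) : E n :=
  WithLp.toLp 2 (M.mulVec x.ofLp)

/-- An integer vector viewed in `ℝ^n`. -/
noncomputable def zv {n : ℕ} (k : Fin n → ℤ) : E n := WithLp.toLp 2 (fun i => (k i : ℝ))

/-- `A` is expansive: every complex eigenvalue `z` of `A` satisfies `|z| > 1`. -/
def IsExpansive {n : ℕ} (A : Matrix (Fin n) (Fin n) ℝ) : Prop :=
  ∀ z ∈ spectrum ℂ (A.map (algebraMap ℝ ℂ)), 1 < ‖z‖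

/-- The function `ψ_{j,k}(x) = |det A|^{j/2} ψ(A^j x - k)`. -/
noncomputable def wav {n : ℕ} (A : GL (Fin n) ℝ) (ψ : E n → ℂ) (j : ℤ) (k : Fin n → ℤ)
    (x : E n) : ℂ :=
  ((|(A : Matrix (Fin n) (Fin n) ℝ).det| ^ ((j : ℝ) / 2) : ℝ) : ℂ) *
    ψ (act ((A ^ j : GL (Fin n) ℝ) : Matrix (Fin n) (Fin n) ℝ) x - zv k)

/-- `Ψ = {ψ_0, …, ψ_{L-1}} ⊂ L²(ℝ^n)` is an orthonormal wavelet for `(A, ℤ^n)`: the system
`{ψ^l_{j,k}}` is orthonormal and total in `L²(ℝ^n)`, that is, it is an orthonormal basis. -/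
def IsONWavelet {n : ℕ} (A : GL (Fin n) ℝ) {L : ℕ} (Ψ : Fin L → E n → ℂ) : Prop :=
  (∀ l, MemLp (Ψ l) 2 volume) ∧
  (∀ (l : Fin L) (j : ℤ) (k : Fin n → ℤ) (l' : Fin L) (j' : ℤ) (k' : Fin n → ℤ),
    ∫ x, wav A (Ψ l) j k x * (starRingEnd ℂ) (wav A (Ψ l') j' k' x) =
      if l = l' ∧ j = j' ∧ k = k' then 1 else 0) ∧
  ∀ f : E n → ℂ, MemLp f 2 volume →
    (∀ (l : Fin L) (j : ℤ) (k : Fin n → ℤ),
      ∫ x, f x * (starRingEnd ℂ) (wav A (Ψ l) j k x) = 0) → f =ᵐ[volume] 0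

/-- `f(x) = O(|x|^{-N})` as `|x| → ∞`, almost everywhere. -/
def Decays {n : ℕ} (N : ℝ) (f : E n → ℂ) : Prop :=
  ∃ C R : ℝ, 0 < R ∧ ∀ᵐ x : E n, R ≤ ‖x‖ → ‖f x‖ ≤ C * ‖x‖ ^ (-N)

/-- `f, g ∈ L²(V)` and `g` is the Fourier transform of `f`: `∫ g φ = ∫ f 𝓕 φ` for every Schwartz
function `φ`. -/
def IsL2Fourier {V : Type} [NormedAddCommGroup V] [InnerProductSpace ℝ V] [FiniteDimensional ℝ V]
    [MeasurableSpace V] [BorelSpace V] (f g : V → ℂ) : Prop :=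
  MemLp f 2 (volume : Measure V) ∧ MemLp g 2 (volume : Measure V) ∧
    ∀ φ : 𝓢(V, ℂ), ∫ x, g x * φ x = ∫ x, f x * (𝓕 φ : 𝓢(V, ℂ)) x

/-- `ψ ∈ L²(ℝ^n)` is well-localized of order `N`: `ψ(x) = O(|x|^{-N})` as `|x| → ∞` and
`g(ξ) = O(|ξ|^{-N})` as `|ξ| → ∞`, where `g` is the `L²` Fourier transform of `ψ`; both
bounds are understood almost everywhere. -/
def WellLocalized {n : ℕ} (N : ℝ) (ψ : E n → ℂ) : Prop :=
  Decays N ψ ∧ ∃ g : E n → ℂ, IsL2Fourier ψ g ∧ Decays N g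

/-- The Fourier transform of the Schwartz function `ψ` has compact support. -/
def BandLimited {n : ℕ} (ψ : 𝓢(E n, ℂ)) : Prop := HasCompactSupport (𝓕 ψ : 𝓢(E n, ℂ))

end Run7.h408
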