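import Pool.Agent.Run7.h408.Br
import Pool.Agent.Run7.h408.Comp

/-!
Complementing a finitely generated shift-invariant space inside another one.
-/

set_option autoImplicit false

open MeasureTheory FourierTransform Filter Topology
open scoped ENNReal ContDiff InnerProductSpace

namespace Run7.h408

variable {n : ℕ}

lemma br_conj (f g : E n → ℂ) (ξ : E n) : (starRingEnd ℂ) (br f g ξ) = br g f ξ := by
  unfold br
  rw [Complex.conj_tsum]
  congr 1
  funext m
  rw [map_mul, Complex.conj_conj, mul_comm]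

lemma br_sub_left (f f' : E n → ℂ) {g : E n → ℂ} (hg : HasCompactSupport g) (ξ : E n) :
    br (fun x => f x - f' x) g ξ = br f g ξ - br f' g ξ := by
  have h1 := (summable_br f hg ξ).tsum_sub (summable_br f' hg ξ)
  unfold br
  rw [← h1]
  congr 1
  funext m
  ring

/-- linear algebra: an isometry and its complement -/
lemma compl_mat {r N : ℕ} (hrN : r ≤ N) (H : Matrix (Fin r) (Fin N) ℂ)
    (K : Matrix (Fin (N - r)) (Fin N) ℂ) (hH : H * H.conjTranspose = 1)
    (hK : K * K.conjTranspose = 1) (hHK : H * K.conjTranspose = 0) (U : Fin N → ℂ)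
    (h1 : ∀ a, ∑ b, (starRingEnd ℂ) (H a b) * U b = 0)
    (h2 : ∀ l, ∑ b, (starRingEnd ℂ) (K l b) * U b = 0) : U = 0 := by
  let M : Matrix (Fin r ⊕ Fin (N - r)) (Fin N) ℂ := Matrix.fromRows H K
  have hM : M * M.conjTranspose = 1 := by
    rw [Matrix.conjTranspose_fromRows_eq_fromCols_conjTranspose, Matrix.fromRows_mul_fromCols,
      hH, hK, hHK]
    have : K * H.conjTranspose = 0 := by
      have := congrArg Matrix.conjTranspose hHK
      rwa [Matrix.conjTranspose_mul, Matrix.conjTranspose_conjTranspose,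
        Matrix.conjTranspose_zero] at this
    rw [this, Matrix.fromBlocks_one]
  have hM' : M.conjTranspose * M = 1 := by
    have hc : Fintype.card (Fin r ⊕ Fin (N - r)) = Fintype.card (Fin N) := by
      simp
      omega
    exact (Matrix.mul_eq_one_comm_of_equiv (Fintype.card_eq.mp hc).some).1 hM
  have h3 : M.mulVec (star U) = 0 := by
    ext x
    rcases x with a | l
    · have := congrArg (starRingEnd ℂ) (h1 a)
      simp only [map_sum, map_mul, Complex.conj_conj, map_zero] at this
      simpa [M, Matrix.mulVec, dotProduct, Matrix.fromRows_apply_inl] using this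
    · have := congrArg (starRingEnd ℂ) (h2 l)
      simp only [map_sum, map_mul, Complex.conj_conj, map_zero] at this
      simpa [M, Matrix.mulVec, dotProduct, Matrix.fromRows_apply_inr] using this
  have h4 : star U = 0 := by
    have h5 : M.conjTranspose.mulVec (M.mulVec (star U)) = star U := by
      rw [Matrix.mulVec_mulVec, hM', Matrix.one_mulVec]
    rw [← h5, h3, Matrix.mulVec_zero]
  exact star_eq_zero.1 h4

/-- a finite system of generators of a closed shift-invariant subspace -/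
structure Gen {N : ℕ} (V : Submodule ℂ (L2 n)) (g : Fin N → E n → ℂ) (hg : ∀ b, CS (g b)) :
    Prop where
  on : ∀ b b' k, ⟪cl ((hg b).conj_ee_mul k), cl (hg b')⟫_ℂ = if b = b' ∧ k = 0 then 1 else 0
  mem : ∀ b k, cl ((hg b).conj_ee_mul k) ∈ V
  tot : ∀ u, (∀ b k, ⟪cl ((hg b).conj_ee_mul k), u⟫_ℂ = 0) → ∀ v ∈ V, ⟪v, u⟫_ℂ = 0

lemma cs_sum {N : ℕ} {g : Fin N → E n → ℂ} (hg : ∀ b, CS (g b)) {H : Fin N → E n → ℂ}
    (hH : ∀ b, ContDiff ℝ ∞ (H b)) : CS (fun x => ∑ b, H b x * g b x) := by
  constructor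
  · apply ContDiff.sum
    intro b _
    exact (hH b).mul (hg b).1
  · have h1 : ∀ b, HasCompactSupport (fun x => H b x * g b x) := fun b => (hg b).2.mul_left
    choose R hR using fun b => (h1 b).isCompact.isBounded.subset_closedBall (0 : E n)
    apply HasCompactSupport.of_support_subset_isCompact
      (isCompact_closedBall (0 : E n) (∑ b, |R b|))
    intro x hx
    rw [Function.mem_support] at hx
    obtain ⟨b, _, hb⟩ := Finset.exists_ne_zero_of_sum_ne_zero hx
    have h2 := hR b (subset_tsupport _ hb)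
    rw [Metric.mem_closedBall] at h2 ⊢
    refine h2.trans ((le_abs_self _).trans ?_)
    exact Finset.single_le_sum (f := fun b => |R b|) (fun i _ => abs_nonneg _) (Finset.mem_univ b)

lemma Gen.br_eq {N : ℕ} {V : Submodule ℂ (L2 n)} {g : Fin N → E n → ℂ} {hg : ∀ b, CS (g b)}
    (G : Gen V g hg) (b b' : Fin N) (ξ : E n) : br (g b) (g b') ξ = if b = b' then 1 else 0 := by
  apply br_eq_of_inner (hg b) (hg b')
  intro k
  rw [G.on b' b k]
  by_cases h1 : k = 0 <;> by_cases h2 : b = b'
  · simp [h1, h2]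
  · simp [h1, h2, Ne.symm h2]
  · simp [h1]
  · simp [h1]

lemma Gen.perMul_mem {N : ℕ} {V : Submodule ℂ (L2 n)} [V.HasOrthogonalProjection]
    {g : Fin N → E n → ℂ} {hg : ∀ b, CS (g b)} (G : Gen V g hg) {H : Fin N → E n → ℂ}
    (hH : ∀ b, ContDiff ℝ ∞ (H b))
    (hper : ∀ b (ξ : E n) (k : Fin n → ℤ), H b (ξ + zv k) = H b ξ) :
    cl (cs_sum hg hH) ∈ V := by
  rw [← Submodule.orthogonal_orthogonal V, Submodule.mem_orthogonal]
  intro z hz
  rw [← inner_conj_symm]
  have h0 : ⟪cl (cs_sum hg hH), z⟫_ℂ = 0 := by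
    rw [inner_cl]
    have h1 : ∀ ξ : E n, z ξ * (starRingEnd ℂ) (∑ b, H b ξ * g b ξ) =
        ∑ b, z ξ * (starRingEnd ℂ) (H b ξ * g b ξ) := by
      intro ξ
      rw [map_sum, Finset.mul_sum]
    simp_rw [h1]
    rw [integral_finsetSum _ (fun b _ => integrable_mul_conj z ((hg b).mul_left (hH b)))]
    apply Finset.sum_eq_zero
    intro b _
    have h2 : ∀ k, ⟪cl ((hg b).conj_ee_mul k), z⟫_ℂ = 0 := by
      intro k
      exact (Submodule.mem_orthogonal _ _).1 hz _ (G.mem b k)
    have h3 := (orth_iff_br z (hg b)).1 h2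
    have h4 := integral_br_per z (hg b) 0 h3 (H := fun ξ => (starRingEnd ℂ) (H b ξ))
      (Complex.continuous_conj.comp (hH b).continuous) (by intro ξ k; rw [hper])
    rw [zero_mul] at h4
    rw [← h4]
    congr 1
    funext ξ
    rw [map_mul]
    ring
  rw [h0, map_zero]

theorem frame_compl {r N : ℕ} (V V' : Submodule ℂ (L2 n)) [V'.HasOrthogonalProjection]
    (hVV : V ≤ V') (h : Fin r → E n → ℂ) (hh : ∀ a, CS (h a)) (g : Fin N → E n → ℂ)
    (hg : ∀ b, CS (g b)) (Gh : Gen V h hh) (Gg : Gen V' g hg) (hcard : r + n ≤ N) (hN : 0 < N) :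
    ∃ (ψ : Fin (N - r) → E n → ℂ) (hψ : ∀ l, CS (ψ l)),
      (∀ l k l' k', ⟪cl ((hψ l).conj_ee_mul k), cl ((hψ l').conj_ee_mul k')⟫_ℂ =
        if l = l' ∧ k = k' then 1 else 0) ∧
      (∀ l k, cl ((hψ l).conj_ee_mul k) ∈ V') ∧
      (∀ l k, ∀ v ∈ V, ⟪v, cl ((hψ l).conj_ee_mul k)⟫_ℂ = 0) ∧
      (∀ u ∈ V', (∀ v ∈ V, ⟪v, u⟫_ℂ = 0) → (∀ l k, ⟪cl ((hψ l).conj_ee_mul k), u⟫_ℂ = 0) →
        u = 0) := by
  -- the symbol
  let H : E n → Matrix (Fin r) (Fin N) ℂ := fun ξ => Matrix.of fun a b => br (h a) (g b) ξ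
  have hHs : ∀ a b, ContDiff ℝ ∞ (fun ξ => H ξ a b) := fun a b => contDiff_br (hh a).1 (hg b)
  have hHper : ∀ (ξ : E n) (k : Fin n → ℤ), H (ξ + zv k) = H ξ := by
    intro ξ k
    ext a b
    exact br_per _ _ _ _
  have hper' : ∀ a b (ξ : E n) (k : Fin n → ℤ), H (ξ + zv k) a b = H ξ a b := by
    intro a b ξ k; rw [hHper]
  have hexp : ∀ a, h a = fun x => ∑ b, H x a b * g b x := by
    intro a
    have hcs := cs_sum hg (hHs a)
    have hmem := Gg.perMul_mem (hHs a) (hper' a)
    have hmem2 : cl (hh a) ∈ V' := by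
      have := Gh.mem a 0
      have h2 : cl ((hh a).conj_ee_mul 0) = cl (hh a) := by
        apply Lp.ext
        filter_upwards [coeFn_cl ((hh a).conj_ee_mul 0), coeFn_cl (hh a)] with x h1 h2
        rw [h1, h2]
        simp [eg, ee_zero]
      rw [h2] at this
      exact hVV this
    have hy : cl (hh a) - cl hcs ∈ V' := V'.sub_mem hmem2 hmem
    have hy0 : cl (hh a) - cl hcs = 0 := by
      have h1 : ∀ b k, ⟪cl ((hg b).conj_ee_mul k), cl (hh a) - cl hcs⟫_ℂ = 0 := by
        intro b
        rw [orth_iff_br _ (hg b)]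
        have e1 : ((cl (hh a) - cl hcs : L2 n) : E n → ℂ) =ᵐ[volume]
            fun x => h a x - ∑ b, H x a b * g b x := by
          filter_upwards [Lp.coeFn_sub (cl (hh a)) (cl hcs), coeFn_cl (hh a), coeFn_cl hcs]
            with x h1 h2 h3
          rw [h1, Pi.sub_apply, h2, h3]
        filter_upwards [br_congr_ae e1 (g b)] with ξ hξ
        rw [hξ]
        have e2 : br (fun x => h a x - ∑ b, H x a b * g b x) (g b) ξ =
            br (h a) (g b) ξ - br (fun x => ∑ b, H x a b * g b x) (g b) ξ :=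
          br_sub_left _ _ (hg b).2 ξ
        rw [e2, br_sum_left _ _ (hg b).2]
        have e3 : ∀ b' : Fin N, br (fun x => H x a b' * g b' x) (g b) ξ =
            H ξ a b' * (if b' = b then 1 else 0) := by
          intro b'
          rw [br_mul_left (H := fun x => H x a b') (hper' a b'), Gg.br_eq]
        simp_rw [e3]
        simp [H]
      have h2 := Gg.tot _ h1 _ hy
      exact inner_self_eq_zero.1 h2
    have hae : h a =ᵐ[volume] fun x => ∑ b, H x a b * g b x := by
      have := sub_eq_zero.1 hy0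
      filter_upwards [coeFn_cl (hh a), coeFn_cl hcs] with x h1 h2
      rw [← h1, this, h2]
    exact ((hh a).continuous.ae_eq_iff_eq volume hcs.continuous).1 hae
  have hHH : ∀ ξ, H ξ * (H ξ).conjTranspose = 1 := by
    intro ξ
    ext a a'
    rw [Matrix.mul_apply, Matrix.one_apply, ← Gh.br_eq a a' ξ]
    conv_rhs => rw [hexp a]
    rw [br_sum_left _ _ (hh a').2]
    apply Finset.sum_congr rfl
    intro b _
    rw [br_mul_left (H := fun x => H x a b) (hper' a b), Matrix.conjTranspose_apply]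
    congr 1
    exact br_conj (h a') (g b) ξ
  obtain ⟨K, hK1, hK2, hK3, hK4⟩ := completion hcard H hHs hHper hHH
  have hKper : ∀ l b (ξ : E n) (k : Fin n → ℤ), K (ξ + zv k) l b = K ξ l b := by
    intro l b ξ k; rw [hK2]
  let ψ : Fin (N - r) → E n → ℂ := fun l x => ∑ b, K x l b * g b x
  have hψ : ∀ l, CS (ψ l) := fun l => cs_sum hg (hK1 l)
  have hgψ : ∀ b l ξ, br (g b) (ψ l) ξ = (starRingEnd ℂ) (K ξ l b) := by
    intro b l ξ
    rw [← br_conj]
    congr 1
    change br (fun x => ∑ b, K x l b * g b x) (g b) ξ = _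
    rw [br_sum_left _ _ (hg b).2]
    have e3 : ∀ b' : Fin N, br (fun x => K x l b' * g b' x) (g b) ξ =
        K ξ l b' * (if b' = b then 1 else 0) := by
      intro b'
      rw [br_mul_left (H := fun x => K x l b') (hKper l b'), Gg.br_eq]
    simp_rw [e3]
    simp
  have hψψ : ∀ l l' ξ, br (ψ l) (ψ l') ξ = if l = l' then 1 else 0 := by
    intro l l' ξ
    change br (fun x => ∑ b, K x l b * g b x) (ψ l') ξ = _
    rw [br_sum_left _ _ (hψ l').2]
    have e3 : ∀ b : Fin N, br (fun x => K x l b * g b x) (ψ l') ξ =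
        K ξ l b * (starRingEnd ℂ) (K ξ l' b) := by
      intro b
      rw [br_mul_left (H := fun x => K x l b) (hKper l b), hgψ]
    simp_rw [e3]
    have := congrFun (congrFun (hK3 ξ) l) l'
    rw [Matrix.mul_apply, Matrix.one_apply] at this
    exact this
  have hhψ : ∀ a l ξ, br (h a) (ψ l) ξ = 0 := by
    intro a l ξ
    rw [hexp a, br_sum_left _ _ (hψ l).2]
    have e3 : ∀ b : Fin N, br (fun x => H x a b * g b x) (ψ l) ξ =
        H ξ a b * (starRingEnd ℂ) (K ξ l b) := by
      intro b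
      rw [br_mul_left (H := fun x => H x a b) (hper' a b), hgψ]
    simp_rw [e3]
    have := congrFun (congrFun (hK4 ξ) a) l
    rw [Matrix.mul_apply] at this
    exact this
  -- the integral of a character over the cube
  have hcube : ∀ k : Fin n → ℤ, ∫ ξ in cube n, ee k ξ =
      if k = 0 then 1 else 0 := by
    intro k
    let b : Fin N := ⟨0, hN⟩
    have e1 := Gg.on b b k
    rw [inner_cl_eg (hg b)] at e1
    rw [integral_br_per (cl (hg b)) (hg b) 1 (by
      filter_upwards [br_congr_ae (coeFn_cl (hg b)) (g b)] with ξ hξ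
      rw [hξ, Gg.br_eq]; simp) (contDiff_ee k).continuous (fun ξ m => ee_per k m ξ)] at e1
    rw [one_mul] at e1
    rw [e1]
    simp
  refine ⟨ψ, hψ, ?_, ?_, ?_, ?_⟩
  · intro l k l' k'
    have e0 : ⟪cl ((hψ l).conj_ee_mul k), cl ((hψ l').conj_ee_mul k')⟫_ℂ =
        ∫ ξ, (cl (hψ l') ξ * (starRingEnd ℂ) (ψ l ξ)) * ee (k - k') ξ := by
      rw [inner_cl_eg (hψ l)]
      apply integral_congr_ae
      filter_upwards [coeFn_cl ((hψ l').conj_ee_mul k'), coeFn_cl (hψ l')] with ξ h1 h2
      rw [h1, h2]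
      unfold eg
      rw [sub_eq_add_neg, ee_add, ← conj_ee]
      ring
    rw [e0, integral_br_per (cl (hψ l')) (hψ l) (if l' = l then 1 else 0) (by
      filter_upwards [br_congr_ae (coeFn_cl (hψ l')) (ψ l)] with ξ hξ
      rw [hξ, hψψ]) (contDiff_ee _).continuous (fun ξ m => ee_per _ m ξ), hcube]
    by_cases h1 : l = l'
    · by_cases h2 : k = k'
      · simp [h1, h2]
      · simp [h1, h2, sub_eq_zero]
    · simp [h1, Ne.symm h1]
  · intro l k
    have hs : ∀ b, ContDiff ℝ ∞ (fun x => (starRingEnd ℂ) (ee k x) * K x l b) := by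
      intro b
      exact (Complex.conjCLE.contDiff.comp (contDiff_ee k)).mul (hK1 l b)
    have := Gg.perMul_mem (H := fun b x => (starRingEnd ℂ) (ee k x) * K x l b) hs (by
      intro b ξ m
      rw [ee_per, hKper])
    convert this using 2
    funext x
    unfold eg
    simp only [ψ]
    rw [Finset.mul_sum]
    apply Finset.sum_congr rfl
    intro b _
    ring
  · intro l k v hv
    apply Gh.tot _ _ v hv
    intro a m
    rw [inner_cl_eg (hh a)]
    have e0 : ∫ ξ, (cl ((hψ l).conj_ee_mul k) ξ * (starRingEnd ℂ) (h a ξ)) * ee m ξ =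
        ∫ ξ, (cl (hψ l) ξ * (starRingEnd ℂ) (h a ξ)) * ee (m - k) ξ := by
      apply integral_congr_ae
      filter_upwards [coeFn_cl ((hψ l).conj_ee_mul k), coeFn_cl (hψ l)] with ξ h1 h2
      rw [h1, h2]
      unfold eg
      rw [sub_eq_add_neg, ee_add, ← conj_ee]
      ring
    rw [e0, integral_br_per (cl (hψ l)) (hh a) 0 (by
      filter_upwards [br_congr_ae (coeFn_cl (hψ l)) (h a)] with ξ hξ
      rw [hξ, ← br_conj, hhψ, map_zero]) (contDiff_ee _).continuous (fun ξ m => ee_per _ m ξ),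
      zero_mul]
  · intro u hu h1 h2
    have e1 : ∀ a, ∀ᵐ ξ : E n, br u (h a) ξ = 0 := by
      intro a
      rw [← orth_iff_br u (hh a)]
      intro k
      exact h1 _ (Gh.mem a k)
    have e2 : ∀ l, ∀ᵐ ξ : E n, br u (ψ l) ξ = 0 := by
      intro l
      rw [← orth_iff_br u (hψ l)]
      intro k
      exact h2 l k
    rw [← ae_all_iff] at e1 e2
    have e3 : ∀ b, ∀ᵐ ξ : E n, br u (g b) ξ = 0 := by
      intro b
      filter_upwards [e1, e2] with ξ h3 h4
      have h5 : (fun b => br u (g b) ξ) = 0 := by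
        apply compl_mat (by omega) (H ξ) (K ξ) (hHH ξ) (hK3 ξ) (hK4 ξ)
        · intro a
          rw [← h3 a]
          conv_rhs => rw [hexp a]
          rw [br_sum_right Finset.univ u (fun b x => H x a b * g b x)
            (fun b _ => (hg b).2.mul_left)]
          apply Finset.sum_congr rfl
          intro b _
          exact (br_mul_right (H := fun x => H x a b) (hper' a b) u (g b) ξ).symm
        · intro l
          rw [← h4 l]
          change _ = br u (fun x => ∑ b, K x l b * g b x) ξ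
          rw [br_sum_right Finset.univ u (fun b x => K x l b * g b x)
            (fun b _ => (hg b).2.mul_left)]
          apply Finset.sum_congr rfl
          intro b _
          exact (br_mul_right (H := fun x => K x l b) (hKper l b) u (g b) ξ).symm
      exact congrFun h5 b
    have e4 : ∀ b k, ⟪cl ((hg b).conj_ee_mul k), u⟫_ℂ = 0 := by
      intro b
      rw [orth_iff_br u (hg b)]
      exact e3 b
    exact inner_self_eq_zero.1 (Gg.tot u e4 u hu)

end Run7.h408
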