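import Pool.Agent.Run7.h408.Defs

/-!
Characters of `ℤ^n` on `ℝ^n` and the wavelet system on the frequency side.
-/

set_option autoImplicit false

open MeasureTheory FourierTransform Filter Topology
open scoped ENNReal ContDiff InnerProductSpace

namespace Run7.h408

variable {n : ℕ}

/-- The character `e(k·ξ)`. -/
noncomputable def ee {n : ℕ} (k : Fin n → ℤ) (ξ : E n) : ℂ :=
  Complex.exp (((2 * Real.pi * inner ℝ (zv k) ξ : ℝ) : ℂ) * Complex.I)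

/-- The unit cube. -/
def cube (n : ℕ) : Set (E n) := {ξ : E n | ∀ d, ξ d ∈ Set.Ioc (0 : ℝ) 1}

/-- Frequency side of the wavelet system: the Fourier transform of `ψ_{j,k}` where `v = 𝓕 ψ`. -/
noncomputable def fw {n : ℕ} (A : GL (Fin n) ℝ) (v : E n → ℂ) (j : ℤ) (k : Fin n → ℤ)
    (ξ : E n) : ℂ :=
  ((|(A : Matrix (Fin n) (Fin n) ℝ).det| ^ (-(j : ℝ) / 2) : ℝ) : ℂ) *
    Complex.exp (((-2 * Real.pi * inner ℝ (zv k)
      (act ((A ^ (-j) : GL (Fin n) ℝ) : Matrix (Fin n) (Fin n) ℝ).transpose ξ) : ℝ) : ℂ) *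
        Complex.I) *
    v (act ((A ^ (-j) : GL (Fin n) ℝ) : Matrix (Fin n) (Fin n) ℝ).transpose ξ)

/-- The frequency side of an orthonormal wavelet. -/
def IsFreqBasis {n : ℕ} (A : GL (Fin n) ℝ) {L : ℕ} (v : Fin L → E n → ℂ) : Prop :=
  (∀ l, MemLp (v l) 2 volume) ∧
  (∀ (l : Fin L) (j : ℤ) (k : Fin n → ℤ) (l' : Fin L) (j' : ℤ) (k' : Fin n → ℤ),
    ∫ ξ, fw A (v l) j k ξ * (starRingEnd ℂ) (fw A (v l') j' k' ξ) =
      if l = l' ∧ j = j' ∧ k = k' then 1 else 0) ∧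
  ∀ f : E n → ℂ, MemLp f 2 volume →
    (∀ (l : Fin L) (j : ℤ) (k : Fin n → ℤ),
      ∫ ξ, f ξ * (starRingEnd ℂ) (fw A (v l) j k ξ) = 0) → f =ᵐ[volume] 0

/-! ### integer vectors -/

lemma zv_add (k m : Fin n → ℤ) : zv (k + m) = zv k + zv m := by
  unfold zv; ext i; simp

lemma zv_neg (k : Fin n → ℤ) : zv (-k) = -zv k := by
  unfold zv; ext i; simp

lemma zv_zero : zv (0 : Fin n → ℤ) = 0 := by
  unfold zv; ext i; simp

lemma zv_apply (k : Fin n → ℤ) (i : Fin n) : zv k i = (k i : ℝ) := rfl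

lemma inner_zv_zv (k m : Fin n → ℤ) : inner ℝ (zv k) (zv m) = ((∑ i, k i * m i : ℤ) : ℝ) := by
  simp [EuclideanSpace.inner_eq_star_dotProduct, dotProduct, zv, mul_comm]

lemma abs_le_norm_zv (k : Fin n → ℤ) (i : Fin n) : |(k i : ℝ)| ≤ ‖zv k‖ := by
  have := EuclideanSpace.norm_eq (zv k)
  rw [this]
  apply Real.le_sqrt_of_sq_le
  rw [sq_abs]
  have h : ((k i : ℝ)) ^ 2 = ‖(zv k) i‖ ^ 2 := by rw [zv_apply, Real.norm_eq_abs, sq_abs]
  rw [h]
  exact Finset.single_le_sum (f := fun i => ‖(zv k) i‖ ^ 2) (fun i _ => sq_nonneg _)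
    (Finset.mem_univ i)

lemma finite_zv (r : ℝ) : {m : Fin n → ℤ | ‖zv m‖ ≤ r}.Finite := by
  apply (Set.Finite.pi (fun _ : Fin n => Set.finite_Icc (-⌈r⌉) ⌈r⌉)).subset
  intro m hm
  rw [Set.mem_pi]
  intro i _
  have h1 := (abs_le_norm_zv m i).trans hm
  have h2 : |(m i : ℝ)| ≤ (⌈r⌉ : ℝ) := h1.trans (Int.le_ceil r)
  rw [abs_le] at h2
  rw [Set.mem_Icc]
  constructor
  · exact_mod_cast h2.1
  · exact_mod_cast h2.2

/-! ### characters -/

lemma ee_zero (ξ : E n) : ee 0 ξ = 1 := by simp [ee, zv_zero]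

lemma ee_add (k m : Fin n → ℤ) (ξ : E n) : ee (k + m) ξ = ee k ξ * ee m ξ := by
  unfold ee
  rw [← Complex.exp_add, zv_add, inner_add_left]
  congr 1
  push_cast
  ring

lemma ee_arg_add (k : Fin n → ℤ) (x y : E n) : ee k (x + y) = ee k x * ee k y := by
  unfold ee
  rw [← Complex.exp_add, inner_add_right]
  congr 1
  push_cast
  ring

lemma ee_zv (k m : Fin n → ℤ) : ee k (zv m) = 1 := by
  unfold ee
  rw [inner_zv_zv, Complex.exp_eq_one_iff]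
  refine ⟨∑ i, k i * m i, ?_⟩
  push_cast
  ring

lemma ee_per (k m : Fin n → ℤ) (ξ : E n) : ee k (ξ + zv m) = ee k ξ := by
  rw [ee_arg_add, ee_zv, mul_one]

lemma conj_ee (k : Fin n → ℤ) (ξ : E n) : (starRingEnd ℂ) (ee k ξ) = ee (-k) ξ := by
  unfold ee
  rw [← Complex.exp_conj, zv_neg, inner_neg_left, map_mul, Complex.conj_ofReal, Complex.conj_I]
  congr 1
  push_cast
  ring

lemma norm_ee (k : Fin n → ℤ) (ξ : E n) : ‖ee k ξ‖ = 1 := Complex.norm_exp_ofReal_mul_I _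

lemma ee_mul_conj (k : Fin n → ℤ) (ξ : E n) : ee k ξ * (starRingEnd ℂ) (ee k ξ) = 1 := by
  rw [conj_ee, ← ee_add, add_neg_cancel, ee_zero]

lemma contDiff_ee (k : Fin n → ℤ) : ContDiff ℝ ∞ (ee k : E n → ℂ) := by
  have h1 : ContDiff ℝ ∞ (fun ξ : E n => 2 * Real.pi * inner ℝ (zv k) ξ) :=
    contDiff_const.mul (contDiff_const.inner ℝ contDiff_id)
  have h2 : ContDiff ℝ ∞ (fun ξ : E n => ((2 * Real.pi * inner ℝ (zv k) ξ : ℝ) : ℂ)) :=
    Complex.ofRealCLM.contDiff.comp h1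
  exact (h2.mul contDiff_const).cexp

end Run7.h408
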