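import Pool.Agent.Run7.h408.Talpha

/-!
Passage to the Fourier side, the Gram relations, and disjointness of the supports.
-/

set_option autoImplicit false

open MeasureTheory FourierTransform Filter Topology
open scoped ENNReal ContDiff InnerProductSpace

namespace Run7.h408

variable {n : ℕ}

/-- passage to regular functions on the Fourier side -/
theorem exists_freq (A : GL (Fin n) ℝ) {L : ℕ} (ψ : Fin L → E n → ℂ) {N : ℝ} (hN : (n : ℝ) < N)
    (hψ : IsONWavelet A ψ) (hloc : ∀ l, WellLocalized N (ψ l)) :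
    ∃ (v : Fin L → E n → ℂ) (ε C : ℝ), 0 < ε ∧ 0 ≤ C ∧ (∀ l, Reg N ε C (v l)) ∧
      IsFreqBasis A v := by
  have h1 := fun l => exists_reg hN (hloc l)
  choose v hv hreg using h1
  set ε : ℝ := min 1 ((N - n) / 2) with hε
  have hε0 : 0 < ε := lt_min one_pos (by linarith)
  have hε1 : ε ≤ 1 := min_le_left _ _
  have hε2 : (n : ℝ) < N - ε := by
    have := min_le_right 1 ((N - n) / 2)
    linarith
  have h2 := fun l => hreg l ε hε0 hε1 hε2
  choose C hC0 hC using h2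
  refine ⟨v, ε, ∑ l, C l, hε0, Finset.sum_nonneg fun l _ => hC0 l, fun l => ?_, ?_⟩
  · exact (hC l).mono (Finset.single_le_sum (f := C) (fun l _ => hC0 l) (Finset.mem_univ l))
  · let Ψ : Fin L → L2 n := fun l => (hv l).1.toLp (ψ l)
    have h3 : IsONWavelet A (fun l => (Ψ l : E n → ℂ)) :=
      hψ.congr (fun l => ((hv l).1.coeFn_toLp).symm)
    rw [transfer] at h3
    refine h3.congr fun l => ?_
    have h4 := (isL2Fourier_iff (hv l).1 (hv l).2.1).1 (hv l)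
    change ((𝓕 ((hv l).1.toLp (ψ l)) : L2 n) : E n → ℂ) =ᵐ[volume] v l
    rw [h4]
    exact (hv l).2.1.coeFn_toLp

/-! ### lattice sums of decaying continuous functions -/

lemma lattice_dom {N C : ℝ} (hN : 0 ≤ N) (hC : 0 ≤ C) {f : E n → ℂ}
    (hd : ∀ ξ, ‖f ξ‖ ≤ C * (1 + ‖ξ‖) ^ (-N)) {R : ℝ} {ξ : E n} (hξ : ‖ξ‖ ≤ R)
    (m : Fin n → ℤ) :
    ‖f (ξ + zv m)‖ ≤ C * (1 + R) ^ N * (1 + ‖(0 : E n) + zv m‖) ^ (-N) := by
  have hR : 0 ≤ R := (norm_nonneg ξ).trans hξ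
  refine (hd _).trans ?_
  rw [mul_assoc]
  apply mul_le_mul_of_nonneg_left _ hC
  rw [zero_add]
  have h2 : 1 + ‖(zv m : E n)‖ ≤ (1 + R) * (1 + ‖ξ + zv m‖) := by
    have h3 : ‖(zv m : E n)‖ ≤ ‖ξ + zv m‖ + ‖ξ‖ := by
      have : (zv m : E n) = (ξ + zv m) - ξ := by abel
      conv_lhs => rw [this]
      exact norm_sub_le _ _
    nlinarith [norm_nonneg (ξ + zv m)]
  rw [Real.rpow_neg (by positivity), Real.rpow_neg (by positivity), ← div_eq_mul_inv,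
    inv_le_comm₀ (by positivity) (by positivity), inv_div, div_le_iff₀ (by positivity),
    mul_comm, ← Real.mul_rpow (by positivity) (by positivity)]
  exact Real.rpow_le_rpow (by positivity) h2 hN

lemma lattice_summable {N C : ℝ} (hN : (n : ℝ) < N) (hC : 0 ≤ C) {f : E n → ℂ}
    (hd : ∀ ξ, ‖f ξ‖ ≤ C * (1 + ‖ξ‖) ^ (-N)) (c : (Fin n → ℤ) → ℂ) (hc : ∀ m, ‖c m‖ ≤ 1)
    (ξ : E n) : Summable (fun m : Fin n → ℤ => c m * f (ξ + zv m)) := by
  have hN0 : 0 ≤ N := (lt_of_le_of_lt (Nat.cast_nonneg n) hN).le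
  obtain ⟨C1, hC10, hC1⟩ := exists_lattice_bound (n := n) hN
  apply Summable.of_norm_bounded ((hC1 0).1.mul_left (C * (1 + ‖ξ‖) ^ N))
  intro m
  rw [norm_mul]
  calc ‖c m‖ * ‖f (ξ + zv m)‖ ≤ 1 * ‖f (ξ + zv m)‖ :=
        mul_le_mul_of_nonneg_right (hc m) (norm_nonneg _)
    _ ≤ _ := by
      rw [one_mul]
      exact lattice_dom hN0 hC hd le_rfl m

lemma lattice_continuous {N C : ℝ} (hN : (n : ℝ) < N) (hC : 0 ≤ C) {f : E n → ℂ}
    (hf : Continuous f) (hd : ∀ ξ, ‖f ξ‖ ≤ C * (1 + ‖ξ‖) ^ (-N)) (c : (Fin n → ℤ) → ℂ)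
    (hc : ∀ m, ‖c m‖ ≤ 1) : Continuous (fun ξ : E n => ∑' m : Fin n → ℤ, c m * f (ξ + zv m)) := by
  have hN0 : 0 ≤ N := (lt_of_le_of_lt (Nat.cast_nonneg n) hN).le
  obtain ⟨C1, hC10, hC1⟩ := exists_lattice_bound (n := n) hN
  rw [continuous_iff_continuousAt]
  intro x
  have h1 : ContinuousOn (fun ξ : E n => ∑' m : Fin n → ℤ, c m * f (ξ + zv m))
      (Metric.ball (0 : E n) (‖x‖ + 1)) := by
    apply continuousOn_tsum (u := fun m => C * (1 + (‖x‖ + 1)) ^ N *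
      (1 + ‖(0 : E n) + zv m‖) ^ (-N))
    · intro m
      exact (continuous_const.mul (hf.comp (continuous_id.add continuous_const))).continuousOn
    · exact (hC1 0).1.mul_left _
    · intro m ξ hξ
      rw [Metric.mem_ball, dist_zero_right] at hξ
      rw [norm_mul]
      calc ‖c m‖ * ‖f (ξ + zv m)‖ ≤ 1 * ‖f (ξ + zv m)‖ :=
            mul_le_mul_of_nonneg_right (hc m) (norm_nonneg _)
        _ ≤ _ := by
          rw [one_mul]
          exact lattice_dom hN0 hC hd hξ.le m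
  exact h1.continuousAt (Metric.isOpen_ball.mem_nhds (by
    rw [Metric.mem_ball, dist_zero_right]; linarith))

section

variable {A : GL (Fin n) ℝ} {L : ℕ} {v : Fin L → E n → ℂ} {N ε C : ℝ}

lemma mul_dec (hN : 0 ≤ N) (hC : 0 ≤ C) {u w : E n → ℂ}
    (hu : ∀ ξ, ‖u ξ‖ ≤ C * (1 + ‖ξ‖) ^ (-N)) (hw : ∀ ξ, ‖w ξ‖ ≤ C) (ξ : E n) :
    ‖u ξ * (starRingEnd ℂ) (w ξ)‖ ≤ C * C * (1 + ‖ξ‖) ^ (-N) := by
  rw [norm_mul, RCLike.norm_conj]
  calc ‖u ξ‖ * ‖w ξ‖ ≤ (C * (1 + ‖ξ‖) ^ (-N)) * C :=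
        mul_le_mul (hu ξ) (hw ξ) (norm_nonneg _) (by positivity)
    _ = _ := by ring

lemma Reg.bdd (hN : 0 ≤ N) (hC : 0 ≤ C) {u : E n → ℂ} (h : Reg N ε C u) (ξ : E n) :
    ‖u ξ‖ ≤ C := by
  refine (h.dec ξ).trans ?_
  have h1 : (1 + ‖ξ‖) ^ (-N) ≤ 1 := by
    apply Real.rpow_le_one_of_one_le_of_nonpos
    · linarith [norm_nonneg ξ]
    · linarith
  calc C * (1 + ‖ξ‖) ^ (-N) ≤ C * 1 := mul_le_mul_of_nonneg_left h1 hC
    _ = C := mul_one C

lemma integrable_of_dec (hN : (n : ℝ) < N) {u : E n → ℂ} (hu : Continuous u) {C : ℝ}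
    (hd : ∀ ξ, ‖u ξ‖ ≤ C * (1 + ‖ξ‖) ^ (-N)) : Integrable u := by
  have h1 : Integrable (fun x : E n => C * (1 + ‖x‖) ^ (-N)) := by
    apply Integrable.const_mul
    apply integrable_one_add_norm
    rw [finrank_euclideanSpace_fin]
    exact hN
  exact h1.mono' hu.aestronglyMeasurable (ae_of_all _ hd)

lemma fw_zero (A : GL (Fin n) ℝ) (u : E n → ℂ) (k : Fin n → ℤ) (ξ : E n) :
    fw A u 0 k ξ = ee (-k) ξ * u ξ := by
  have h1 := fw_bj A u 0 k ξ
  rw [bj_zero] at h1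
  have h2 := congrArg (starRingEnd ℂ) h1
  rw [Complex.conj_conj] at h2
  rw [h2]
  simp only [Int.cast_zero, neg_zero, zero_div, Real.rpow_zero, Complex.ofReal_one, one_mul,
    map_mul, Complex.conj_conj, conj_ee]

lemma fw_gen (A : GL (Fin n) ℝ) (u : E n → ℂ) (j : ℤ) (k : Fin n → ℤ) (ξ : E n) :
    (starRingEnd ℂ) (fw A u j k ξ) =
      ((|(A : Matrix (Fin n) (Fin n) ℝ).det| ^ (-(j : ℝ) / 2) : ℝ) : ℂ) *
        (ee k (bj A (-j) ξ) * (starRingEnd ℂ) (u (bj A (-j) ξ))) := by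
  have h1 := fw_bj A u j k (bj A (-j) ξ)
  rwa [bj_bj_neg] at h1

/-- the Gram relations -/
theorem gram (hb : IsFreqBasis A v) (hN : (n : ℝ) < N) (hC : 0 ≤ C)
    (hr : ∀ l, Reg N ε C (v l)) (l l' : Fin L) (ξ : E n) :
    HasSum (fun m : Fin n → ℤ => v l (ξ + zv m) * (starRingEnd ℂ) (v l' (ξ + zv m)))
      (if l = l' then 1 else 0) := by
  have hN0 : 0 ≤ N := (lt_of_le_of_lt (Nat.cast_nonneg n) hN).le
  set F : E n → ℂ := fun ξ => v l ξ * (starRingEnd ℂ) (v l' ξ) with hF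
  have hFc : Continuous F := (hr l).cont.mul (Complex.continuous_conj.comp (hr l').cont)
  have hFd : ∀ ξ, ‖F ξ‖ ≤ C * C * (1 + ‖ξ‖) ^ (-N) :=
    mul_dec hN0 hC (hr l).dec (fun ξ => (hr l').bdd hN0 hC ξ)
  have hFi : Integrable F := integrable_of_dec hN hFc hFd
  have h1 : ∀ k : Fin n → ℤ, ∫ ξ, F ξ * ee k ξ = if k = 0 then (if l = l' then 1 else 0) else 0 := by
    intro k
    have h2 := hb.2.1 l 0 (-k) l' 0 0
    have h3 : ∀ ξ, fw A (v l) 0 (-k) ξ * (starRingEnd ℂ) (fw A (v l') 0 0 ξ) = F ξ * ee k ξ := by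
      intro ξ
      rw [fw_zero, fw_zero, neg_neg, neg_zero, ee_zero, one_mul]
      rw [hF]
      ring
    simp only [h3] at h2
    rw [h2]
    by_cases hk : k = 0
    · by_cases hl : l = l'
      · simp [hk, hl]
      · simp [hk, hl]
    · simp [hk]
  have h2 := fiber_of_coeff F hFi _ h1
  have h3 := lattice_continuous hN (by positivity) hFc hFd (fun _ => 1) (by simp)
  have h4 := lattice_summable hN (by positivity) hFd (fun _ => 1) (by simp) ξ
  simp only [one_mul] at h3 h4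
  have h5 : (fun ξ : E n => ∑' m : Fin n → ℤ, F (ξ + zv m)) = fun _ => (if l = l' then 1 else 0) := by
    rw [← h3.ae_eq_iff_eq volume continuous_const]
    filter_upwards [h2] with ξ hξ
    exact hξ.tsum_eq
  have h6 := congrFun h5 ξ
  beta_reduce at h6
  rw [← h6]
  exact h4.hasSum

end

end Run7.h408
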