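import Pool.Agent.Run7.h408.Four

/-!
Parseval identity for periodizations of continuous compactly supported functions.
-/

set_option autoImplicit false

open MeasureTheory FourierTransform Filter Topology
open scoped ENNReal ContDiff InnerProductSpace

namespace Run7.h408

variable {n : ℕ}

/-- the normalised measure on the circle, as in Mathlib's file on multiple Fourier series -/
noncomputable local instance instMSCircle : MeasureSpace UnitAddCircle := ⟨AddCircle.haarAddCircle⟩

local instance instHaarCircle : Measure.IsAddHaarMeasure (volume : Measure UnitAddCircle) :=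
  inferInstanceAs (Measure.IsAddHaarMeasure AddCircle.haarAddCircle)

local instance instProbCircle : IsProbabilityMeasure (volume : Measure UnitAddCircle) :=
  inferInstanceAs (IsProbabilityMeasure AddCircle.haarAddCircle)

/-- periodization -/
noncomputable def per (f : E n → ℂ) (ξ : E n) : ℂ := ∑' m : Fin n → ℤ, f (ξ + zv m)

lemma per_per (f : E n → ℂ) (ξ : E n) (k : Fin n → ℤ) : per f (ξ + zv k) = per f ξ := by
  have h2 := (Equiv.addLeft k).tsum_eq (fun m : Fin n → ℤ => f (ξ + zv m))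
  simp only [Equiv.coe_addLeft, zv_add, ← add_assoc] at h2
  exact h2

lemma integral_ee_eq {f : E n → ℂ} (hf : Continuous f) (hfc : HasCompactSupport f)
    (k : Fin n → ℤ) : ∫ ξ, f ξ * ee k ξ = ∫ ξ in cube n, per f ξ * ee k ξ := by
  have hi : Integrable (fun ξ => f ξ * ee k ξ) := by
    apply Continuous.integrable_of_hasCompactSupport
    · exact hf.mul (contDiff_ee k).continuous
    · exact hfc.mul_right
  rw [← integral_per hi 0, tile_zero]
  apply integral_congr_ae
  refine ae_of_all _ fun ξ => ?_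
  simp only [ee_per]
  rw [tsum_mul_right]
  rfl

theorem parseval (F G : E n → ℂ) (hF : Continuous F) (hFc : HasCompactSupport F)
    (hG : Continuous G) (hGc : HasCompactSupport G) :
    HasSum (fun k : Fin n → ℤ => (∫ ξ, F ξ * ee k ξ) * (starRingEnd ℂ) (∫ ξ, G ξ * ee k ξ))
      (∫ ξ in cube n, per F ξ * (starRingEnd ℂ) (per G ξ)) := by
  obtain ⟨f, hf⟩ := exists_desc (continuous_per hFc hF) (per_per F)
  obtain ⟨g, hg⟩ := exists_desc (continuous_per hGc hG) (per_per G)
  have hf' : ∀ ξ, f (pr ξ) = per F ξ := hf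
  have hg' : ∀ ξ, g (pr ξ) = per G ξ := hg
  have h1 := UnitAddTorus.hasSum_prod_mFourierCoeff (d := Fin n)
    (ContinuousMap.toLp (E := ℂ) 2 volume ℂ g) (ContinuousMap.toLp (E := ℂ) 2 volume ℂ f)
  have h1c : ∀ (u : C(UnitAddTorus (Fin n), ℂ)) (k : Fin n → ℤ),
      UnitAddTorus.mFourierCoeff (ContinuousMap.toLp (E := ℂ) 2 volume ℂ u) k =
        UnitAddTorus.mFourierCoeff u k := fun u k => UnitAddTorus.mFourierCoeff_toLp u k
  simp only [h1c] at h1
  have hcoef : ∀ (u : C(UnitAddTorus (Fin n), ℂ)) (F : E n → ℂ), Continuous F →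
      HasCompactSupport F → (∀ ξ, u (pr ξ) = per F ξ) → ∀ k : Fin n → ℤ,
      UnitAddTorus.mFourierCoeff u k = ∫ ξ, F ξ * ee (-k) ξ := by
    intro u F hF hFc hu k
    rw [integral_ee_eq hF hFc]
    unfold UnitAddTorus.mFourierCoeff
    refine Eq.trans (integral_cube (fun x => UnitAddTorus.mFourier (-k) x • u x)).symm ?_
    apply integral_congr_ae
    refine ae_of_all _ fun ξ => ?_
    simp only [hu, ← ee_eq, smul_eq_mul]
    ring
  have hs := (Equiv.neg (Fin n → ℤ)).hasSum_iff (f := fun k : Fin n → ℤ =>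
    (∫ ξ, F ξ * ee k ξ) * (starRingEnd ℂ) (∫ ξ, G ξ * ee k ξ))
    (a := ∫ ξ in cube n, per F ξ * (starRingEnd ℂ) (per G ξ))
  rw [← hs]
  have e1 : ((fun k : Fin n → ℤ => (∫ ξ, F ξ * ee k ξ) * (starRingEnd ℂ) (∫ ξ, G ξ * ee k ξ)) ∘
      ⇑(Equiv.neg (Fin n → ℤ))) = fun k => (starRingEnd ℂ) (UnitAddTorus.mFourierCoeff g k) *
        UnitAddTorus.mFourierCoeff f k := by
    funext k
    rw [hcoef f F hF hFc hf' k, hcoef g G hG hGc hg' k]
    simp only [Function.comp_apply, Equiv.neg_apply]
    ring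
  rw [e1]
  have e2 : ∫ t, (starRingEnd ℂ) ((ContinuousMap.toLp (E := ℂ) 2 volume ℂ g :
      Lp ℂ 2 (volume : Measure (UnitAddTorus (Fin n)))) t) *
      (ContinuousMap.toLp (E := ℂ) 2 volume ℂ f :
      Lp ℂ 2 (volume : Measure (UnitAddTorus (Fin n)))) t =
      ∫ ξ in cube n, per F ξ * (starRingEnd ℂ) (per G ξ) := by
    have e3 : ∫ t, (starRingEnd ℂ) ((ContinuousMap.toLp (E := ℂ) 2 volume ℂ g :
        Lp ℂ 2 (volume : Measure (UnitAddTorus (Fin n)))) t) *
        (ContinuousMap.toLp (E := ℂ) 2 volume ℂ f :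
        Lp ℂ 2 (volume : Measure (UnitAddTorus (Fin n)))) t =
        ∫ t, (starRingEnd ℂ) (g t) * f t := by
      apply integral_congr_ae
      filter_upwards [ContinuousMap.coeFn_toLp (E := ℂ) (p := 2) (𝕜 := ℂ) volume f,
        ContinuousMap.coeFn_toLp (E := ℂ) (p := 2) (𝕜 := ℂ) volume g] with t h2 h3
      rw [h2, h3]
    rw [e3]
    refine Eq.trans (integral_cube (fun x => (starRingEnd ℂ) (g x) * f x)).symm ?_
    apply integral_congr_ae
    refine ae_of_all _ fun ξ => ?_
    simp only [hf', hg']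
    ring
  rw [← e2]
  exact h1

end Run7.h408
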