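import Pool.Agent.Run7.h408.Reg
import Pool.Agent.Run7.h408.Pars

/-!
Growth of the powers of the transpose of an expansive matrix, change of variables.
-/

set_option autoImplicit false

open MeasureTheory FourierTransform Filter Topology
open scoped ENNReal ContDiff InnerProductSpace

namespace Run7.h408

open Pool.Agent.Helper537.FT (adet adet_pos integral_aff)

variable {n : ℕ}

/-- the powers of the transpose of `A` -/
noncomputable def bj (A : GL (Fin n) ℝ) (j : ℤ) (ξ : E n) : E n :=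
  act ((tr (A ^ j) : GL (Fin n) ℝ) : Matrix (Fin n) (Fin n) ℝ) ξ

lemma bj_zero (A : GL (Fin n) ℝ) (ξ : E n) : bj A 0 ξ = ξ := by
  unfold bj
  rw [zpow_zero, tr_one, Units.val_one, act_one]

lemma bj_bj (A : GL (Fin n) ℝ) (j k : ℤ) (ξ : E n) : bj A j (bj A k ξ) = bj A (j + k) ξ := by
  unfold bj
  rw [← act_mul, ← Units.val_mul, ← tr_mul, ← zpow_add, add_comm]

lemma bj_neg_bj (A : GL (Fin n) ℝ) (j : ℤ) (ξ : E n) : bj A (-j) (bj A j ξ) = ξ := by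
  rw [bj_bj, neg_add_cancel, bj_zero]

lemma bj_bj_neg (A : GL (Fin n) ℝ) (j : ℤ) (ξ : E n) : bj A j (bj A (-j) ξ) = ξ := by
  rw [bj_bj, add_neg_cancel, bj_zero]

lemma bj_add (A : GL (Fin n) ℝ) (j : ℤ) (x y : E n) : bj A j (x + y) = bj A j x + bj A j y :=
  act_add _ _ _

lemma bj_sub (A : GL (Fin n) ℝ) (j : ℤ) (x y : E n) : bj A j (x - y) = bj A j x - bj A j y :=
  act_sub _ _ _

lemma bj_zero_arg (A : GL (Fin n) ℝ) (j : ℤ) : bj A j (0 : E n) = 0 := act_zero _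

lemma continuous_bj (A : GL (Fin n) ℝ) (j : ℤ) : Continuous (bj A j) := continuous_act _

lemma bj_inj (A : GL (Fin n) ℝ) (j : ℤ) {x y : E n} (h : bj A j x = bj A j y) : x = y := by
  have := congrArg (bj A (-j)) h
  rwa [bj_neg_bj, bj_neg_bj] at this

lemma bj_ne_zero (A : GL (Fin n) ℝ) (j : ℤ) {x : E n} (hx : x ≠ 0) : bj A j x ≠ 0 := by
  intro h
  exact hx (bj_inj A j (h.trans (bj_zero_arg A j).symm))

lemma adapted_norm (hn : 0 < n) (A : GL (Fin n) ℝ)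
    (hA : IsExpansive (A : Matrix (Fin n) (Fin n) ℝ)) :
    ∃ (S : Matrix (Fin n) (Fin n) ℝ) (ρ : ℝ), 1 < ρ ∧ (∀ x : E n, ‖x‖ ≤ ‖act S x‖) ∧
      ∀ x : E n, ρ * ‖act S x‖ ≤
        ‖act S (act (A : Matrix (Fin n) (Fin n) ℝ).transpose x)‖ := by
  have hn' : (0 : ℝ) < n := by exact_mod_cast hn
  set B : Matrix (Fin n) (Fin n) ℝ := (A : Matrix (Fin n) (Fin n) ℝ).transpose with hB
  set C : Matrix (Fin n) (Fin n) ℝ := ((A⁻¹ : GL (Fin n) ℝ) : Matrix (Fin n) (Fin n) ℝ).transpose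
    with hC
  have hCB : C * B = 1 := by
    rw [hC, hB, ← Matrix.transpose_mul, ← Units.val_mul, mul_inv_cancel, Units.val_one,
      Matrix.transpose_one]
  -- a small power
  obtain ⟨K, hK0, hK⟩ := exists_pow_small hn A hA (1 / (2 * n)) (by positivity)
  have hCK : ∀ x : E n, ‖act (C ^ K) x‖ ≤ 1 / 2 * ‖x‖ := by
    intro x
    have h1 := norm_act_le (C ^ K) (1 / (2 * n)) (by
      intro i j
      rw [hC, ← Matrix.transpose_pow, Matrix.transpose_apply]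
      exact hK j i) x
    refine h1.trans (le_of_eq ?_)
    field_simp
  -- the growth rate
  let ρ0 : ℝ := (2 : ℝ) ^ ((K : ℝ)⁻¹)
  have hρ0 : 1 < ρ0 := Real.one_lt_rpow (by norm_num) (by positivity)
  have hρK : ρ0 ^ K = 2 := Real.rpow_inv_natCast_pow (by norm_num) hK0.ne'
  -- the adapted norm
  obtain ⟨S, hS⟩ := exists_sqrt_sum K (fun k => (ρ0 ^ k) • C ^ k)
  have hS' : ∀ x : E n, ‖act S x‖ ^ 2 = ∑ k ∈ Finset.range K, ρ0 ^ (2 * k) * ‖act (C ^ k) x‖ ^ 2 := by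
    intro x
    rw [hS x]
    apply Finset.sum_congr rfl
    intro k _
    have h1 : act ((ρ0 ^ k) • C ^ k) x = (ρ0 ^ k) • act (C ^ k) x := by
      unfold act
      ext i
      simp [Matrix.smul_mulVec]
    rw [h1, norm_smul, mul_pow, Real.norm_eq_abs, sq_abs, ← pow_mul, mul_comm k 2]
  have hSx : ∀ x : E n, ‖x‖ ≤ ‖act S x‖ := by
    intro x
    apply le_of_sq_le_sq _ (norm_nonneg _)
    rw [hS' x]
    have h1 : ρ0 ^ (2 * 0) * ‖act (C ^ 0) x‖ ^ 2 ≤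
        ∑ k ∈ Finset.range K, ρ0 ^ (2 * k) * ‖act (C ^ k) x‖ ^ 2 :=
      Finset.single_le_sum (f := fun k => ρ0 ^ (2 * k) * ‖act (C ^ k) x‖ ^ 2)
        (fun k _ => by positivity) (Finset.mem_range.2 hK0)
    simp only [mul_zero, pow_zero, one_mul, act_one] at h1
    exact h1
  have hSC : ∀ y : E n, ρ0 * ‖act S (act C y)‖ ≤ ‖act S y‖ := by
    intro y
    apply le_of_sq_le_sq _ (norm_nonneg _)
    rw [mul_pow, hS', hS' y, Finset.mul_sum]
    have h1 : ∀ k, ρ0 ^ 2 * (ρ0 ^ (2 * k) * ‖act (C ^ k) (act C y)‖ ^ 2) =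
        ρ0 ^ (2 * (k + 1)) * ‖act (C ^ (k + 1)) y‖ ^ 2 := by
      intro k
      rw [← act_mul, ← pow_succ, show 2 * (k + 1) = 2 * k + 2 by ring, pow_add]
      ring
    simp only [h1]
    have h2 := Finset.sum_range_succ (fun k => ρ0 ^ (2 * k) * ‖act (C ^ k) y‖ ^ 2) K
    have h3 := Finset.sum_range_succ' (fun k => ρ0 ^ (2 * k) * ‖act (C ^ k) y‖ ^ 2) K
    have h4 : ρ0 ^ (2 * K) * ‖act (C ^ K) y‖ ^ 2 ≤ ρ0 ^ (2 * 0) * ‖act (C ^ 0) y‖ ^ 2 := by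
      have h5 := hCK y
      rw [mul_comm 2 K, pow_mul, hρK, mul_zero, pow_zero, pow_zero, one_mul, act_one]
      have h6 : ‖act (C ^ K) y‖ ^ 2 ≤ (1 / 2 * ‖y‖) ^ 2 := pow_le_pow_left₀ (norm_nonneg _) h5 2
      nlinarith
    linarith
  refine ⟨S, ρ0, hρ0, hSx, fun x => ?_⟩
  have h1 := hSC (act B x)
  rwa [← act_mul C, hCB, act_one] at h1

lemma exists_growth (hn : 0 < n) (A : GL (Fin n) ℝ)
    (hA : IsExpansive (A : Matrix (Fin n) (Fin n) ℝ)) :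
    ∃ K ρ : ℝ, 1 < ρ ∧ 1 ≤ K ∧ ∀ (j : ℕ) (x : E n), ρ ^ j * ‖x‖ ≤ K * ‖bj A j x‖ := by
  obtain ⟨S, ρ, hρ, hS1, hS2⟩ := adapted_norm hn A hA
  obtain ⟨c, hc⟩ : ∃ c : ℝ, ∀ i j, |S i j| ≤ c := by
    refine ⟨∑ i, ∑ j, |S i j|, fun i j => ?_⟩
    refine le_trans ?_ (Finset.single_le_sum (f := fun i => ∑ j, |S i j|)
      (fun i _ => Finset.sum_nonneg fun j _ => abs_nonneg _) (Finset.mem_univ i))
    exact Finset.single_le_sum (f := fun j => |S i j|) (fun j _ => abs_nonneg _)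
      (Finset.mem_univ j)
  have hSc := fun x => norm_act_le S c hc x
  refine ⟨max (n * c) 1, ρ, hρ, le_max_right _ _, fun j x => ?_⟩
  have h1 : ρ ^ j * ‖act S x‖ ≤ ‖act S (bj A j x)‖ := by
    induction j generalizing x with
    | zero => rw [Nat.cast_zero, bj_zero, pow_zero, one_mul]
    | succ j ih =>
      have h2 := ih (bj A 1 x)
      rw [bj_bj] at h2
      push_cast
      refine le_trans ?_ h2
      rw [pow_succ, mul_assoc]
      apply mul_le_mul_of_nonneg_left _ (by positivity)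
      have h3 := hS2 x
      unfold bj
      rw [zpow_one, coe_tr]
      exact h3
  calc ρ ^ j * ‖x‖ ≤ ρ ^ j * ‖act S x‖ := mul_le_mul_of_nonneg_left (hS1 x) (by positivity)
    _ ≤ ‖act S (bj A j x)‖ := h1
    _ ≤ n * c * ‖bj A j x‖ := hSc _
    _ ≤ _ := mul_le_mul_of_nonneg_right (le_max_left _ _) (norm_nonneg _)

/-- change of variables -/
lemma integral_bj (A : GL (Fin n) ℝ) (j : ℤ) (f : E n → ℂ) :
    ∫ η, f (bj A j η) = ((|(A : Matrix (Fin n) (Fin n) ℝ).det| ^ (-(j : ℝ)) : ℝ) : ℂ) *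
      ∫ ξ, f ξ := by
  have h1 := integral_aff (toE (tr (A ^ j))) 0 f
  simp only [sub_zero, toE_apply] at h1
  have h2 : adet (toE (tr (A ^ j))) = |(A : Matrix (Fin n) (Fin n) ℝ).det| ^ (j : ℝ) := by
    rw [adet_toE, coe_tr, Matrix.det_transpose, det_zpow_GL, abs_zpow, Real.rpow_intCast]
  have h5 : 0 < |(A : Matrix (Fin n) (Fin n) ℝ).det| := abs_pos.2 (det_ne_zero_GL A)
  rw [h2, ← Real.rpow_neg h5.le, Complex.real_smul] at h1
  exact h1

lemma fw_bj (A : GL (Fin n) ℝ) (v : E n → ℂ) (j : ℤ) (k : Fin n → ℤ) (η : E n) :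
    (starRingEnd ℂ) (fw A v j k (bj A j η)) =
      ((|(A : Matrix (Fin n) (Fin n) ℝ).det| ^ (-(j : ℝ) / 2) : ℝ) : ℂ) *
        (ee k η * (starRingEnd ℂ) (v η)) := by
  unfold fw
  rw [← coe_tr]
  have h1 : act ((tr (A ^ (-j)) : GL (Fin n) ℝ) : Matrix (Fin n) (Fin n) ℝ) (bj A j η) = η :=
    bj_neg_bj A j η
  rw [h1, map_mul, map_mul, Complex.conj_ofReal, mul_assoc]
  congr 1
  congr 1
  unfold ee
  rw [← Complex.exp_conj, map_mul, Complex.conj_ofReal, Complex.conj_I]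
  congr 1
  push_cast
  ring

/-- the coefficients of a function as Fourier coefficients -/
lemma coef_eq (A : GL (Fin n) ℝ) (v : E n → ℂ) (F : E n → ℂ) (j : ℤ) (k : Fin n → ℤ) :
    ∫ ξ, F ξ * (starRingEnd ℂ) (fw A v j k ξ) =
      ∫ η, (((|(A : Matrix (Fin n) (Fin n) ℝ).det| ^ ((j : ℝ) / 2) : ℝ) : ℂ) * F (bj A j η) *
        (starRingEnd ℂ) (v η)) * ee k η := by
  have h5 : 0 < |(A : Matrix (Fin n) (Fin n) ℝ).det| := abs_pos.2 (det_ne_zero_GL A)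
  have h1 := integral_bj A j (fun ξ => F ξ * (starRingEnd ℂ) (fw A v j k ξ))
  have h2 : ∫ ξ, F ξ * (starRingEnd ℂ) (fw A v j k ξ) =
      ((|(A : Matrix (Fin n) (Fin n) ℝ).det| ^ ((j : ℝ)) : ℝ) : ℂ) *
        ∫ η, F (bj A j η) * (starRingEnd ℂ) (fw A v j k (bj A j η)) := by
    rw [h1, ← mul_assoc, ← Complex.ofReal_mul, ← Real.rpow_add h5]
    simp
  rw [h2, ← integral_const_mul]
  congr 1
  funext η
  rw [fw_bj]
  have h3 : ((|(A : Matrix (Fin n) (Fin n) ℝ).det| ^ ((j : ℝ)) : ℝ) : ℂ) *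
      ((|(A : Matrix (Fin n) (Fin n) ℝ).det| ^ (-(j : ℝ) / 2) : ℝ) : ℂ) =
      ((|(A : Matrix (Fin n) (Fin n) ℝ).det| ^ ((j : ℝ) / 2) : ℝ) : ℂ) := by
    rw [← Complex.ofReal_mul, ← Real.rpow_add h5]
    congr 2
    ring
  rw [← h3]
  ring

end Run7.h408
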