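import Pool.Agent.Run7.h408.Gram

/-!
First obstruction: the common integer vectors of `ℤ^n` and of its images under the powers of `Aᵀ`
span a proper subspace.
-/

set_option autoImplicit false

open MeasureTheory FourierTransform Filter Topology
open scoped ENNReal ContDiff InnerProductSpace

namespace Run7.h408

variable {n : ℕ}

section

variable {A : GL (Fin n) ℝ} {L : ℕ} {v : Fin L → E n → ℂ} {N ε C : ℝ}

/-- orthogonality of the translates outside of the exceptional set -/
lemma orth (hn : 0 < n) (hA : IsExpansive (A : Matrix (Fin n) (Fin n) ℝ))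
    (hb : IsFreqBasis A v) (hN : (n : ℝ) < N) (hε : 0 < ε) (hC : 0 ≤ C)
    (hr : ∀ l, Reg N ε C (v l)) (α : Fin n → ℤ) (hα0 : α ≠ 0)
    (hα : ∀ j : ℤ, j ≠ 0 → ∀ m : Fin n → ℤ, bj A j (zv m) ≠ zv α) (ξ : E n) :
    ∑ l, (starRingEnd ℂ) (v l ξ) * v l (ξ + zv α) = 0 := by
  have hv0 := v_zero hn hA hb (fun l => (hr l).cont)
  by_cases h1 : ξ = 0
  · subst h1
    simp [hv0]
  by_cases h2 : ξ + zv α = 0
  · rw [h2]
    simp [hv0]
  have h3 := hasSum_TT hn hA hb hN hε hC hr α ξ h1 h2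
  rw [if_neg hα0] at h3
  have h4 : HasSum (fun j : ℤ => ∑ l, TT A (v l) j α ξ) (∑ l, TT A (v l) 0 α ξ) := by
    apply hasSum_single
    intro j hj
    apply Finset.sum_eq_zero
    intro l _
    unfold TT
    rw [if_neg]
    rintro ⟨m, hm⟩
    exact hα j hj m hm
  have h5 := h4.unique h3
  rw [← h5]
  apply Finset.sum_congr rfl
  intro l _
  unfold TT
  rw [if_pos ⟨α, bj_zero A _⟩, neg_zero, bj_zero, bj_zero]

/-- the partial energies -/
noncomputable def DD (S : Set (Fin n → ℤ)) (v : Fin L → E n → ℂ) (ξ : E n) : ℝ :=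
  ∑' m : Fin n → ℤ, (open Classical in if m ∈ S then (1 : ℝ) else 0) * ∑ l, ‖v l (ξ + zv m)‖ ^ 2

lemma sq_dec (hN : 0 ≤ N) (hC : 0 ≤ C) (hr : ∀ l, Reg N ε C (v l)) (ξ : E n) :
    ‖((∑ l, ‖v l ξ‖ ^ 2 : ℝ) : ℂ)‖ ≤ (L * (C * C)) * (1 + ‖ξ‖) ^ (-N) := by
  rw [Complex.norm_real, Real.norm_eq_abs, abs_of_nonneg (Finset.sum_nonneg fun l _ => sq_nonneg _)]
  calc ∑ l, ‖v l ξ‖ ^ 2 ≤ ∑ _l : Fin L, C * C * (1 + ‖ξ‖) ^ (-N) := by
        apply Finset.sum_le_sum
        intro l _
        have h1 := (hr l).dec ξ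
        have h2 := (hr l).bdd hN hC ξ
        calc ‖v l ξ‖ ^ 2 = ‖v l ξ‖ * ‖v l ξ‖ := sq _
          _ ≤ (C * (1 + ‖ξ‖) ^ (-N)) * C := mul_le_mul h1 h2 (norm_nonneg _) (by positivity)
          _ = _ := by ring
    _ = _ := by rw [Finset.sum_const, Finset.card_univ, Fintype.card_fin, nsmul_eq_mul]; ring

open Classical in
lemma DD_summable (hN : (n : ℝ) < N) (hC : 0 ≤ C) (hr : ∀ l, Reg N ε C (v l))
    (S : Set (Fin n → ℤ)) (ξ : E n) :
    Summable (fun m : Fin n → ℤ => (if m ∈ S then (1 : ℝ) else 0) *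
      ∑ l, ‖v l (ξ + zv m)‖ ^ 2) := by
  have hN0 : 0 ≤ N := (lt_of_le_of_lt (Nat.cast_nonneg n) hN).le
  have h1 := lattice_summable hN (by positivity) (sq_dec hN0 hC hr)
    (fun m => if m ∈ S then 1 else 0) (by intro m; split_ifs <;> simp) ξ
  have h2 := Complex.hasSum_re h1.hasSum
  refine h2.summable.congr fun m => ?_
  split_ifs
  · rw [one_mul, one_mul, Complex.ofReal_re]
  · simp

open Classical in
lemma DD_continuous (hN : (n : ℝ) < N) (hC : 0 ≤ C) (hr : ∀ l, Reg N ε C (v l))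
    (S : Set (Fin n → ℤ)) : Continuous (DD S v) := by
  have hN0 : 0 ≤ N := (lt_of_le_of_lt (Nat.cast_nonneg n) hN).le
  have h0 : Continuous (fun ξ : E n => ((∑ l, ‖v l ξ‖ ^ 2 : ℝ) : ℂ)) :=
    Complex.continuous_ofReal.comp (continuous_finsetSum _ fun l _ => ((hr l).cont.norm.pow 2))
  have h1 := lattice_continuous hN (by positivity) h0 (sq_dec hN0 hC hr)
    (fun m => if m ∈ S then 1 else 0) (by intro m; split_ifs <;> simp)
  have h3 : DD S v = fun ξ => (∑' m : Fin n → ℤ, (if m ∈ S then (1 : ℂ) else 0) *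
      ((∑ l, ‖v l (ξ + zv m)‖ ^ 2 : ℝ) : ℂ)).re := by
    funext ξ
    have h2 := lattice_summable hN (by positivity) (sq_dec hN0 hC hr)
      (fun m => if m ∈ S then 1 else 0) (by intro m; split_ifs <;> simp) ξ
    have h4 := (Complex.hasSum_re h2.hasSum).tsum_eq
    rw [← h4]
    unfold DD
    congr 1
    funext m
    split_ifs
    · rw [one_mul, one_mul, Complex.ofReal_re]
    · simp
  rw [h3]
  exact Complex.continuous_re.comp h1

/-- the total energy -/
lemma total (hb : IsFreqBasis A v) (hN : (n : ℝ) < N) (hC : 0 ≤ C)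
    (hr : ∀ l, Reg N ε C (v l)) (ξ : E n) :
    HasSum (fun m : Fin n → ℤ => ∑ l, ‖v l (ξ + zv m)‖ ^ 2) L := by
  have h1 : ∀ l ∈ Finset.univ, HasSum (fun m : Fin n → ℤ =>
      v l (ξ + zv m) * (starRingEnd ℂ) (v l (ξ + zv m))) 1 := by
    intro l _
    have := gram hb hN hC hr l l ξ
    rwa [if_pos rfl] at this
  have h2 := Complex.hasSum_re (hasSum_sum h1)
  have h3 : (∑ _l : Fin L, (1 : ℂ)).re = L := by simp
  rw [h3] at h2
  refine h2.congr_fun fun m => ?_
  rw [Complex.re_sum]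
  apply Finset.sum_congr rfl
  intro l _
  rw [Complex.mul_conj, Complex.normSq_eq_norm_sq, Complex.ofReal_re]

open Classical in
/-- dichotomy for the partial energies -/
lemma DD_dichotomy (hn : 0 < n) (hA : IsExpansive (A : Matrix (Fin n) (Fin n) ℝ))
    (hb : IsFreqBasis A v) (hN : (n : ℝ) < N) (hε : 0 < ε) (hC : 0 ≤ C)
    (hr : ∀ l, Reg N ε C (v l)) (H : AddSubgroup (Fin n → ℤ))
    (hH : ∀ j : ℤ, j ≠ 0 → ∀ m α : Fin n → ℤ, bj A j (zv m) = zv α → α ∈ H) (ξ : E n) :
    DD (H : Set (Fin n → ℤ)) v ξ = 0 ∨ 1 ≤ DD (H : Set (Fin n → ℤ)) v ξ := by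
  have hs := DD_summable hN hC hr (H : Set (Fin n → ℤ)) ξ
  have hnn : ∀ m : Fin n → ℤ, 0 ≤ (if m ∈ (H : Set (Fin n → ℤ)) then (1 : ℝ) else 0) *
      ∑ l, ‖v l (ξ + zv m)‖ ^ 2 := by
    intro m
    apply mul_nonneg
    · split_ifs <;> norm_num
    · exact Finset.sum_nonneg fun l _ => sq_nonneg _
  by_cases hz : ∀ m ∈ H, ∀ l, v l (ξ + zv m) = 0
  · left
    unfold DD
    have h1 : ∀ m : Fin n → ℤ, (if m ∈ (H : Set (Fin n → ℤ)) then (1 : ℝ) else 0) *
        ∑ l, ‖v l (ξ + zv m)‖ ^ 2 = 0 := by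
      intro m
      split_ifs with hm
      · rw [one_mul]
        apply Finset.sum_eq_zero
        intro l _
        rw [hz m hm l]
        simp
      · rw [zero_mul]
    simp only [h1]
    exact tsum_zero
  · right
    push Not at hz
    obtain ⟨m0, hm0, l0, hl0⟩ := hz
    -- the vector
    set w : Fin L → ℂ := fun l => v l (ξ + zv m0) with hw
    set W : ℝ := ∑ l, ‖w l‖ ^ 2 with hW
    have hW0 : 0 < W := by
      have h1 : ‖w l0‖ ^ 2 ≤ W :=
        Finset.single_le_sum (f := fun l => ‖w l‖ ^ 2) (fun l _ => sq_nonneg _)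
          (Finset.mem_univ l0)
      have h2 : 0 < ‖w l0‖ ^ 2 := by
        have := norm_pos_iff.2 hl0
        positivity
      linarith
    -- the sum of the squares of the inner products
    have h1 : HasSum (fun m : Fin n → ℤ =>
        ‖∑ l, (starRingEnd ℂ) (w l) * v l (ξ + zv m)‖ ^ 2) W := by
      have h2 : ∀ l ∈ Finset.univ, HasSum (fun m : Fin n → ℤ => ∑ l' : Fin L,
          (starRingEnd ℂ) (w l) * w l' * (v l (ξ + zv m) * (starRingEnd ℂ) (v l' (ξ + zv m))))
          (∑ l' : Fin L, (starRingEnd ℂ) (w l) * w l' * (if l = l' then 1 else 0)) := by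
        intro l _
        apply hasSum_sum
        intro l' _
        exact (gram hb hN hC hr l l' ξ).mul_left _
      have h3 := Complex.hasSum_re (hasSum_sum h2)
      have h4 : (∑ l, ∑ l' : Fin L, (starRingEnd ℂ) (w l) * w l' *
          (if l = l' then (1 : ℂ) else 0)).re = W := by
        rw [hW, Complex.re_sum]
        apply Finset.sum_congr rfl
        intro l _
        simp only [mul_ite, mul_one, mul_zero, Finset.sum_ite_eq, Finset.mem_univ, if_true]
        rw [mul_comm, Complex.mul_conj, Complex.normSq_eq_norm_sq, Complex.ofReal_re]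
      rw [h4] at h3
      refine h3.congr_fun fun m => ?_
      have h5 : ((‖∑ l, (starRingEnd ℂ) (w l) * v l (ξ + zv m)‖ ^ 2 : ℝ) : ℂ) =
          ∑ l, ∑ l' : Fin L, (starRingEnd ℂ) (w l) * w l' *
            (v l (ξ + zv m) * (starRingEnd ℂ) (v l' (ξ + zv m))) := by
        rw [← Complex.normSq_eq_norm_sq, ← Complex.mul_conj, map_sum, Finset.sum_mul_sum]
        apply Finset.sum_congr rfl
        intro l _
        apply Finset.sum_congr rfl
        intro l' _
        rw [map_mul, Complex.conj_conj]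
        ring
      rw [← h5, Complex.ofReal_re]
    have h2 : ∀ m : Fin n → ℤ, ‖∑ l, (starRingEnd ℂ) (w l) * v l (ξ + zv m)‖ ^ 2 ≤
        W * ((if m ∈ (H : Set (Fin n → ℤ)) then (1 : ℝ) else 0) *
          ∑ l, ‖v l (ξ + zv m)‖ ^ 2) := by
      intro m
      by_cases hm : m ∈ H
      · have hm' : m ∈ (H : Set (Fin n → ℤ)) := hm
        rw [if_pos hm', one_mul]
        have h3 : ‖∑ l, (starRingEnd ℂ) (w l) * v l (ξ + zv m)‖ ≤
            ∑ l, ‖w l‖ * ‖v l (ξ + zv m)‖ := by
          refine (norm_sum_le _ _).trans (le_of_eq ?_)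
          apply Finset.sum_congr rfl
          intro l _
          rw [norm_mul, RCLike.norm_conj]
        exact (pow_le_pow_left₀ (norm_nonneg _) h3 2).trans
          (Finset.sum_mul_sq_le_sq_mul_sq _ _ _)
      · have hm' : m ∉ (H : Set (Fin n → ℤ)) := hm
        rw [if_neg hm', zero_mul, mul_zero]
        have h3 : m - m0 ∉ H := fun h => hm (by
          have := H.add_mem h hm0
          rwa [sub_add_cancel] at this)
        have h4 := orth hn hA hb hN hε hC hr (m - m0) (by
          intro h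
          exact h3 (h ▸ H.zero_mem)) (fun j hj m' hm' => h3 (hH j hj m' _ hm')) (ξ + zv m0)
        have h5 : ξ + zv m0 + zv (m - m0) = ξ + zv m := by
          rw [add_assoc, ← zv_add, add_sub_cancel]
        rw [h5] at h4
        rw [hw]
        simp only
        rw [h4]
        simp
    have h3 := h1.summable.tsum_le_tsum h2 (hs.mul_left W)
    rw [h1.tsum_eq, tsum_mul_left] at h3
    have h4 : W * 1 ≤ W * DD (H : Set (Fin n → ℤ)) v ξ := by
      rw [mul_one]
      exact h3
    exact le_of_mul_le_mul_left h4 hW0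

open Classical in
/-- **First obstruction.** -/
theorem n1 (hn : 0 < n) (hA : IsExpansive (A : Matrix (Fin n) (Fin n) ℝ))
    (hb : IsFreqBasis A v) (hN : (n : ℝ) < N) (hε : 0 < ε) (hC : 0 ≤ C)
    (hr : ∀ l, Reg N ε C (v l)) (V : Submodule ℝ (E n)) (hV : V ≠ ⊤)
    (hH : ∀ j : ℤ, j ≠ 0 → ∀ m α : Fin n → ℤ, bj A j (zv m) = zv α → zv α ∈ V) : False := by
  -- a generator exists
  have hL : 0 < L := by
    by_contra h0
    have h1 : L = 0 := by omega
    subst h1
    have h2 := hb.2.2 (bpc 1 0) ((continuous_bpc 1 0).memLp_of_hasCompactSupport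
      (compact_bpc 1 0)) (fun l => l.elim0)
    have h3 := bpc_int_sq one_pos (0 : E n)
    have h4 : ∫ ξ : E n, ‖bpc 1 (0 : E n) ξ‖ ^ 2 = 0 := by
      have : (fun ξ : E n => ‖bpc 1 (0 : E n) ξ‖ ^ 2) =ᵐ[volume] 0 := by
        filter_upwards [h2] with ξ hξ
        rw [hξ]
        simp
      rw [integral_congr_ae this]
      simp
    rw [h4] at h3
    exact zero_ne_one h3
  -- the subgroup
  let H : AddSubgroup (Fin n → ℤ) :=
    { carrier := {m | zv m ∈ V}
      add_mem' := fun {a b} ha hb => by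
        change zv (a + b) ∈ V
        rw [zv_add]
        exact V.add_mem ha hb
      zero_mem' := by
        change zv 0 ∈ V
        rw [zv_zero]
        exact V.zero_mem
      neg_mem' := fun {a} ha => by
        change zv (-a) ∈ V
        rw [zv_neg]
        exact V.neg_mem ha }
  have hmem : ∀ m, m ∈ H ↔ zv m ∈ V := fun m => Iff.rfl
  have hH' : ∀ j : ℤ, j ≠ 0 → ∀ m α : Fin n → ℤ, bj A j (zv m) = zv α → α ∈ H := hH
  -- an integer vector outside
  obtain ⟨i, hi⟩ : ∃ i : Fin n, (zv (Pi.single i 1) : E n) ∉ V := by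
    by_contra hcon
    push Not at hcon
    apply hV
    rw [eq_top_iff]
    intro x _
    have h1 : x = ∑ i, x i • (zv (Pi.single i 1) : E n) := by
      ext k
      simp [zv_apply, Pi.single_apply]
    rw [h1]
    exact V.sum_mem fun i _ => V.smul_mem _ (hcon i)
  set e : Fin n → ℤ := Pi.single i 1 with he
  have hte : ∀ t : ℤ, t ≠ 0 → t • e ∉ H := by
    intro t ht h1
    have h2 : (zv (t • e) : E n) = (t : ℝ) • zv e := by
      ext k
      simp [zv_apply]
    rw [hmem, h2] at h1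
    have h3 := V.smul_mem (t : ℝ)⁻¹ h1
    rw [smul_smul, inv_mul_cancel₀ (by exact_mod_cast ht), one_smul] at h3
    exact hi h3
  -- the energies of the cosets
  have hsh : ∀ (t : ℤ) (ξ : E n), DD (H : Set (Fin n → ℤ)) v (ξ + zv (t • e)) =
      ∑' m : Fin n → ℤ, (if m - t • e ∈ H then (1 : ℝ) else 0) * ∑ l, ‖v l (ξ + zv m)‖ ^ 2 := by
    intro t ξ
    rw [← (Equiv.addRight (t • e)).tsum_eq]
    unfold DD
    congr 1
    funext m
    simp only [Equiv.coe_addRight, add_sub_cancel_right, SetLike.mem_coe, zv_add]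
    congr 3
    funext l
    congr 3
    abel
  have hle : ∀ (T : ℕ) (ξ : E n),
      ∑ t ∈ Finset.range T, DD (H : Set (Fin n → ℤ)) v (ξ + zv ((t : ℤ) • e)) ≤ L := by
    intro T ξ
    have h1 := total hb hN hC hr ξ
    have h2 : ∀ t ∈ Finset.range T, Summable (fun m : Fin n → ℤ =>
        (if m - (t : ℤ) • e ∈ H then (1 : ℝ) else 0) * ∑ l, ‖v l (ξ + zv m)‖ ^ 2) := by
      intro t _
      refine Summable.of_nonneg_of_le (fun m => ?_) (fun m => ?_) h1.summable
      · apply mul_nonneg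
        · split_ifs <;> norm_num
        · exact Finset.sum_nonneg fun l _ => sq_nonneg _
      · have h3 : 0 ≤ ∑ l, ‖v l (ξ + zv m)‖ ^ 2 := Finset.sum_nonneg fun l _ => sq_nonneg _
        split_ifs
        · rw [one_mul]
        · rw [zero_mul]; exact h3
    simp only [hsh]
    rw [← Summable.tsum_finsetSum h2, ← h1.tsum_eq]
    apply (summable_sum h2).tsum_le_tsum _ h1.summable
    intro m
    rw [← Finset.sum_mul]
    have h3 : 0 ≤ ∑ l, ‖v l (ξ + zv m)‖ ^ 2 := Finset.sum_nonneg fun l _ => sq_nonneg _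
    have h4 : ∑ t ∈ Finset.range T, (if m - (t : ℤ) • e ∈ H then (1 : ℝ) else 0) ≤ 1 := by
      rw [Finset.sum_boole]
      have h5 : ((Finset.range T).filter (fun t : ℕ => m - (t : ℤ) • e ∈ H)).card ≤ 1 := by
        rw [Finset.card_le_one]
        intro a ha b hb
        rw [Finset.mem_filter] at ha hb
        by_contra hab
        apply hte ((a : ℤ) - b) (by
          intro h
          apply hab
          exact_mod_cast sub_eq_zero.1 h)
        have h6 := H.sub_mem hb.2 ha.2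
        have h7 : (m - (b : ℤ) • e) - (m - (a : ℤ) • e) = ((a : ℤ) - b) • e := by
          rw [sub_smul]; abel
        rwa [h7] at h6
      exact_mod_cast h5
    calc _ ≤ 1 * ∑ l, ‖v l (ξ + zv m)‖ ^ 2 := mul_le_mul_of_nonneg_right h4 h3
      _ = _ := one_mul _
  -- a point where the energy vanishes
  have hdich := DD_dichotomy hn hA hb hN hε hC hr H hH'
  have hcont := DD_continuous hN hC hr (H : Set (Fin n → ℤ))
  have hzero : ∀ ξ, DD (H : Set (Fin n → ℤ)) v ξ = 0 := by
    by_contra hcon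
    push Not at hcon
    obtain ⟨ξ1, h1⟩ := hcon
    have h2 : 1 ≤ DD (H : Set (Fin n → ℤ)) v ξ1 := (hdich ξ1).resolve_left h1
    -- then the energy is at least one everywhere
    have h3 : ∀ ξ, 1 ≤ DD (H : Set (Fin n → ℤ)) v ξ := by
      intro ξ
      by_contra h4
      have h5 : DD (H : Set (Fin n → ℤ)) v ξ = 0 := (hdich ξ).resolve_right h4
      have h6 := mem_range_of_exists_le_of_exists_ge hcont (c := 1 / 2)
        ⟨ξ, by rw [h5]; norm_num⟩ ⟨ξ1, by linarith⟩
      obtain ⟨ξ2, h7⟩ := h6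
      rcases hdich ξ2 with h8 | h8
      · rw [h8] at h7; norm_num at h7
      · rw [h7] at h8; norm_num at h8
    have h4 := hle (L + 1) 0
    have h5 : (∑ t ∈ Finset.range (L + 1), (1 : ℝ)) ≤
        ∑ t ∈ Finset.range (L + 1), DD (H : Set (Fin n → ℤ)) v (0 + zv ((t : ℤ) • e)) :=
      Finset.sum_le_sum fun t _ => h3 _
    rw [Finset.sum_const, Finset.card_range, nsmul_eq_mul, mul_one] at h5
    push_cast at h5
    linarith
  -- contradiction
  have h1 : ∀ (l : Fin L) (ξ : E n), v l ξ = 0 := by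
    intro l ξ
    have h2 := hzero ξ
    have hs := DD_summable hN hC hr (H : Set (Fin n → ℤ)) ξ
    have h3 : (if (0 : Fin n → ℤ) ∈ (H : Set (Fin n → ℤ)) then (1 : ℝ) else 0) *
        ∑ l, ‖v l (ξ + zv 0)‖ ^ 2 ≤ DD (H : Set (Fin n → ℤ)) v ξ := by
      unfold DD
      refine hs.le_tsum 0 fun m _ => ?_
      apply mul_nonneg
      · split_ifs <;> norm_num
      · exact Finset.sum_nonneg fun l _ => sq_nonneg _
    have h0 : (0 : Fin n → ℤ) ∈ (H : Set (Fin n → ℤ)) := H.zero_mem
    rw [if_pos h0, one_mul, zv_zero, add_zero, h2] at h3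
    have h4 : ‖v l ξ‖ ^ 2 ≤ 0 :=
      (Finset.single_le_sum (f := fun l => ‖v l ξ‖ ^ 2) (fun l _ => sq_nonneg _)
        (Finset.mem_univ l)).trans h3
    have h5 : ‖v l ξ‖ ^ 2 = 0 := le_antisymm h4 (sq_nonneg _)
    exact norm_eq_zero.1 (pow_eq_zero_iff two_ne_zero |>.1 h5)
  have h2 := total hb hN hC hr (0 : E n)
  simp only [h1] at h2
  have h3 : (L : ℝ) = 0 := by
    have := h2.tsum_eq
    simp at this
    exact_mod_cast this.symm
  have : (0 : ℝ) < L := by exact_mod_cast hL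
  linarith

end

end Run7.h408
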