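import Pool.Agent.Run7.h408.Gram

/-!
Second obstruction: the exponents `j` for which `ℤ^n` and its image under the `j`-th power of `Aᵀ`
have a common nonzero vector generate a proper subgroup of `ℤ`.
-/

set_option autoImplicit false

open MeasureTheory FourierTransform Filter Topology
open scoped ENNReal ContDiff InnerProductSpace

namespace Run7.h408

variable {n : ℕ}

/-! ### averages of characters -/

/-- the exponential of a coordinate -/
noncomputable def zc (x : E n) (i : Fin n) : ℂ :=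
  Complex.exp (((2 * Real.pi * x i : ℝ) : ℂ) * Complex.I)

lemma norm_zc (x : E n) (i : Fin n) : ‖zc x i‖ = 1 := Complex.norm_exp_ofReal_mul_I _

lemma ee_nat (k : Fin n → ℕ) (x : E n) : ee (fun i => (k i : ℤ)) x = ∏ i, zc x i ^ (k i) := by
  unfold ee zc
  simp only [← Complex.exp_nat_mul]
  rw [← Complex.exp_sum]
  congr 1
  have h1 : inner ℝ (zv (fun i => (k i : ℤ))) x = ∑ i, (k i : ℝ) * x i := by
    simp [EuclideanSpace.inner_eq_star_dotProduct, dotProduct, zv, mul_comm]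
  rw [h1, Finset.mul_sum]
  push_cast
  rw [Finset.sum_mul]
  apply Finset.sum_congr rfl
  intro i _
  ring

/-- the average of a character over a box -/
noncomputable def av (K : ℕ) (x : E n) : ℂ :=
  ∏ i, ((K : ℂ)⁻¹ * ∑ t ∈ Finset.range K, zc x i ^ t)

lemma av_eq (K : ℕ) (x : E n) :
    av K x = ((K : ℂ)⁻¹) ^ n * ∑ k ∈ Fintype.piFinset (fun _ : Fin n => Finset.range K),
      ee (fun i => (k i : ℤ)) x := by
  unfold av
  rw [Finset.prod_mul_distrib, Finset.prod_const, Finset.card_univ, Fintype.card_fin,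
    Finset.prod_univ_sum]
  congr 1
  apply Finset.sum_congr rfl
  intro k _
  rw [ee_nat]

lemma factor_le (K : ℕ) (z : ℂ) (hz : ‖z‖ = 1) :
    ‖(K : ℂ)⁻¹ * ∑ t ∈ Finset.range K, z ^ t‖ ≤ 1 := by
  rw [norm_mul, norm_inv, Complex.norm_natCast]
  have h1 : ‖∑ t ∈ Finset.range K, z ^ t‖ ≤ K := by
    refine (norm_sum_le _ _).trans ?_
    simp [norm_pow, hz]
  rcases Nat.eq_zero_or_pos K with rfl | hK
  · simp
  · have : (0 : ℝ) < K := by exact_mod_cast hK
    rw [inv_mul_le_iff₀ this, mul_one]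
    exact h1

lemma av_le (K : ℕ) (x : E n) : ‖av K x‖ ≤ 1 := by
  unfold av
  rw [norm_prod]
  apply Finset.prod_le_one
  · intro i _
    exact norm_nonneg _
  · intro i _
    exact factor_le K _ (norm_zc x i)

lemma factor_tendsto (z : ℂ) (hz : ‖z‖ = 1) (hz1 : z ≠ 1) :
    Tendsto (fun K : ℕ => (K : ℂ)⁻¹ * ∑ t ∈ Finset.range K, z ^ t) atTop (𝓝 0) := by
  rw [tendsto_zero_iff_norm_tendsto_zero]
  have h1 : Tendsto (fun K : ℕ => (K : ℝ)⁻¹ * (2 / ‖z - 1‖)) atTop (𝓝 0) := by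
    have := (tendsto_inv_atTop_nhds_zero_nat (𝕜 := ℝ)).mul_const (2 / ‖z - 1‖)
    rwa [zero_mul] at this
  refine squeeze_zero (fun _ => norm_nonneg _) (fun K => ?_) h1
  rw [norm_mul, norm_inv, Complex.norm_natCast]
  apply mul_le_mul_of_nonneg_left _ (by positivity)
  rw [geom_sum_eq hz1, norm_div]
  have h2 : ‖z ^ K - 1‖ ≤ 2 := by
    refine (norm_sub_le _ _).trans ?_
    rw [norm_pow, hz, one_pow, norm_one]
    norm_num
  exact div_le_div_of_nonneg_right h2 (norm_nonneg _)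

lemma av_tendsto_zero (x : E n) (i : Fin n) (hi : zc x i ≠ 1) :
    Tendsto (fun K : ℕ => av K x) atTop (𝓝 0) := by
  rw [tendsto_zero_iff_norm_tendsto_zero]
  have h1 := (tendsto_zero_iff_norm_tendsto_zero.1 (factor_tendsto (zc x i) (norm_zc x i) hi))
  refine squeeze_zero (fun _ => norm_nonneg _) (fun K => ?_) h1
  unfold av
  rw [norm_prod, ← Finset.mul_prod_erase Finset.univ _ (Finset.mem_univ i)]
  have h2 : ∏ k ∈ Finset.univ.erase i, ‖(K : ℂ)⁻¹ * ∑ t ∈ Finset.range K, zc x k ^ t‖ ≤ 1 := by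
    apply Finset.prod_le_one
    · intro k _
      exact norm_nonneg _
    · intro k _
      exact factor_le K _ (norm_zc x k)
  calc _ ≤ ‖(K : ℂ)⁻¹ * ∑ t ∈ Finset.range K, zc x i ^ t‖ * 1 :=
        mul_le_mul_of_nonneg_left h2 (norm_nonneg _)
    _ = _ := mul_one _

lemma av_one (K : ℕ) (hK : 0 < K) (x : E n) (hx : ∀ i, zc x i = 1) : av K x = 1 := by
  unfold av
  apply Finset.prod_eq_one
  intro i _
  rw [hx i]
  simp only [one_pow, Finset.sum_const, Finset.card_range, nsmul_eq_mul, mul_one]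
  have : (K : ℂ) ≠ 0 := by exact_mod_cast hK.ne'
  exact inv_mul_cancel₀ this

lemma coef_zero {ι : Type*} [DecidableEq ι] (c : ι → ℂ) (hc : Summable (fun i => ‖c i‖))
    (x : ι → E n)
    (h : ∀ k : Fin n → ℤ, HasSum (fun i => c i * ee k (x i)) 0) (i0 : ι)
    (h0 : ∀ i, zc (x i0) i = 1) (h1 : ∀ i ≠ i0, ∃ d, zc (x i) d ≠ 1) : c i0 = 0 := by
  have h2 : ∀ K : ℕ, ∑' i, c i * av K (x i) = 0 := by
    intro K
    have h3 : HasSum (fun i => ((K : ℂ)⁻¹) ^ n *
        ∑ k ∈ Fintype.piFinset (fun _ : Fin n => Finset.range K),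
          c i * ee (fun i => (k i : ℤ)) (x i))
        (((K : ℂ)⁻¹) ^ n * ∑ k ∈ Fintype.piFinset (fun _ : Fin n => Finset.range K), (0 : ℂ)) :=
      (hasSum_sum fun k _ => h _).mul_left _
    rw [Finset.sum_const_zero, mul_zero] at h3
    rw [← h3.tsum_eq]
    congr 1
    funext i
    rw [av_eq, ← Finset.mul_sum]
    ring
  have h3 : Tendsto (fun K : ℕ => ∑' i, c i * av K (x i)) atTop
      (𝓝 (∑' i, if i = i0 then c i0 else 0)) := by
    apply tendsto_tsum_of_dominated_convergence hc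
    · intro i
      by_cases hi : i = i0
      · rw [if_pos hi, hi]
        refine tendsto_const_nhds.congr' ?_
        filter_upwards [eventually_gt_atTop 0] with K hK
        rw [av_one K hK _ h0, mul_one]
      · rw [if_neg hi]
        obtain ⟨d, hd⟩ := h1 i hi
        have := (av_tendsto_zero (x i) d hd).const_mul (c i)
        rwa [mul_zero] at this
    · refine Eventually.of_forall fun K i => ?_
      rw [norm_mul]
      calc ‖c i‖ * ‖av K (x i)‖ ≤ ‖c i‖ * 1 :=
            mul_le_mul_of_nonneg_left (av_le K _) (norm_nonneg _)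
        _ = _ := mul_one _
  simp only [h2, tsum_ite_eq] at h3
  exact (tendsto_nhds_unique h3 tendsto_const_nhds)

section

variable {A : GL (Fin n) ℝ} {L : ℕ} {v : Fin L → E n → ℂ} {N ε C : ℝ}

/-- disjointness of the supports -/
theorem disj (hn : 0 < n) (hb : IsFreqBasis A v) (hN : (n : ℝ) < N) (hC : 0 ≤ C)
    (hr : ∀ l, Reg N ε C (v l)) (j : ℤ)
    (hj : ∀ m α : Fin n → ℤ, bj A j (zv m) = zv α → α = 0) (l l' : Fin L) (ξ : E n) :
    v l ξ * (starRingEnd ℂ) (v l' (bj A (-j) ξ)) = 0 := by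
  have hj0 : j ≠ 0 := by
    rintro rfl
    have h1 := hj (fun _ => 1) (fun _ => 1) (bj_zero A _)
    have h2 := congrFun h1 ⟨0, hn⟩
    exact one_ne_zero h2
  have hN0 : 0 ≤ N := (lt_of_le_of_lt (Nat.cast_nonneg n) hN).le
  set G : E n → ℂ := fun ξ => v l ξ * (starRingEnd ℂ) (v l' (bj A (-j) ξ)) with hG
  have hGc : Continuous G := (hr l).cont.mul
    (Complex.continuous_conj.comp ((hr l').cont.comp (continuous_bj A (-j))))
  have hGd : ∀ ξ, ‖G ξ‖ ≤ C * C * (1 + ‖ξ‖) ^ (-N) := by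
    intro ξ
    have h1 := (hr l).dec ξ
    have h2 := (hr l').bdd hN0 hC (bj A (-j) ξ)
    rw [hG]
    simp only [norm_mul, RCLike.norm_conj]
    calc ‖v l ξ‖ * ‖v l' (bj A (-j) ξ)‖ ≤ (C * (1 + ‖ξ‖) ^ (-N)) * C :=
          mul_le_mul h1 h2 (norm_nonneg _) (by positivity)
      _ = _ := by ring
  have h5 : 0 < |(A : Matrix (Fin n) (Fin n) ℝ).det| := abs_pos.2 (det_ne_zero_GL A)
  have h1 : ∀ k' : Fin n → ℤ, ∀ᵐ ξ : E n,
      HasSum (fun m : Fin n → ℤ => G (ξ + zv m) * ee k' (bj A (-j) (zv m))) 0 := by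
    intro k'
    have h2 : ∀ k : Fin n → ℤ, ∫ ξ, (G ξ * ee k' (bj A (-j) ξ)) * ee k ξ =
        if k = 0 then 0 else 0 := by
      intro k
      have h3 := hb.2.1 l 0 (-k) l' j k'
      rw [if_neg (fun h => hj0 h.2.1.symm)] at h3
      have h4 : ∀ ξ, fw A (v l) 0 (-k) ξ * (starRingEnd ℂ) (fw A (v l') j k' ξ) =
          ((|(A : Matrix (Fin n) (Fin n) ℝ).det| ^ (-(j : ℝ) / 2) : ℝ) : ℂ) *
            ((G ξ * ee k' (bj A (-j) ξ)) * ee k ξ) := by
        intro ξ
        rw [fw_zero, fw_gen, neg_neg, hG]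
        ring
      simp only [h4] at h3
      have h6 : ∫ ξ, ((|(A : Matrix (Fin n) (Fin n) ℝ).det| ^ (-(j : ℝ) / 2) : ℝ) : ℂ) *
            ((G ξ * ee k' (bj A (-j) ξ)) * ee k ξ) =
          ((|(A : Matrix (Fin n) (Fin n) ℝ).det| ^ (-(j : ℝ) / 2) : ℝ) : ℂ) *
            ∫ ξ, (G ξ * ee k' (bj A (-j) ξ)) * ee k ξ := integral_const_mul _ _
      rw [h6] at h3
      have h7 : ((|(A : Matrix (Fin n) (Fin n) ℝ).det| ^ (-(j : ℝ) / 2) : ℝ) : ℂ) ≠ 0 := by
        exact_mod_cast (Real.rpow_pos_of_pos h5 _).ne'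
      rw [(mul_eq_zero.1 h3).resolve_left h7]
      simp
    have hi : Integrable (fun ξ => G ξ * ee k' (bj A (-j) ξ)) := by
      apply integrable_of_dec (C := C * C) hN
      · exact hGc.mul ((contDiff_ee k').continuous.comp (continuous_bj A (-j)))
      · intro ξ
        rw [norm_mul, norm_ee, mul_one]
        exact hGd ξ
    filter_upwards [fiber_of_coeff _ hi 0 h2] with ξ hξ
    have h3 := hξ.mul_left ((starRingEnd ℂ) (ee k' (bj A (-j) ξ)))
    rw [mul_zero] at h3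
    refine h3.congr_fun fun m => ?_
    rw [bj_add, ee_arg_add]
    have h4 := ee_mul_conj k' (bj A (-j) ξ)
    calc _ = (G (ξ + zv m) * ee k' (bj A (-j) (zv m))) *
          (ee k' (bj A (-j) ξ) * (starRingEnd ℂ) (ee k' (bj A (-j) ξ))) := by rw [h4, mul_one]
      _ = _ := by ring
  have h2 : G =ᵐ[volume] fun _ => 0 := by
    filter_upwards [ae_all_iff.2 h1] with ξ hξ
    have hs : Summable (fun m : Fin n → ℤ => ‖G (ξ + zv m)‖) := by
      have := (lattice_summable hN (by positivity) hGd (fun _ => 1) (by simp) ξ).norm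
      simpa using this
    have h3 := coef_zero (fun m : Fin n → ℤ => G (ξ + zv m)) hs (fun m => bj A (-j) (zv m)) hξ 0
      (by
        intro i
        have h4 : bj A (-j) (zv (0 : Fin n → ℤ)) = 0 := by rw [zv_zero, bj_zero_arg]
        unfold zc
        simp only [h4]
        simp) (by
        intro m hm
        by_contra hcon
        push Not at hcon
        have h4 : ∀ d, ∃ k : ℤ, bj A (-j) (zv m) d = k := by
          intro d
          have h6 := hcon d
          unfold zc at h6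
          rw [Complex.exp_eq_one_iff] at h6
          obtain ⟨k, hk⟩ := h6
          refine ⟨k, ?_⟩
          have h7 : ((bj A (-j) (zv m) d : ℝ) : ℂ) * (2 * Real.pi * Complex.I) =
              k * (2 * Real.pi * Complex.I) := by
            rw [← hk]
            push_cast
            ring
          have h8 := mul_right_cancel₀ Complex.two_pi_I_ne_zero h7
          exact_mod_cast h8
        choose k hk using h4
        have h6 : bj A (-j) (zv m) = zv k := by
          ext d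
          rw [hk d]
          rfl
        apply hm
        apply hj k m
        rw [← h6, bj_bj_neg])
    simpa [zv_zero] using h3
  have h3 := (hGc.ae_eq_iff_eq volume continuous_const).1 h2
  exact congrFun h3 ξ

/-- **Second obstruction.** -/
theorem n2 (hn : 2 ≤ n) (hA : IsExpansive (A : Matrix (Fin n) (Fin n) ℝ))
    (hb : IsFreqBasis A v) (hN : (n : ℝ) < N) (hε : 0 < ε) (hC : 0 ≤ C)
    (hr : ∀ l, Reg N ε C (v l)) (d : ℤ) (hd : ¬ IsUnit d)
    (hH : ∀ j : ℤ, ∀ m α : Fin n → ℤ, bj A j (zv m) = zv α → α ≠ 0 → d ∣ j) : False := by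
  have hn0 : 0 < n := by omega
  have hc : ∀ l, Continuous (v l) := fun l => (hr l).cont
  have hv0 := v_zero hn0 hA hb hc
  -- every nonzero point is seen at some level
  have hsee : ∀ ξ : E n, ξ ≠ 0 → ∃ (j : ℤ) (l : Fin L), v l (bj A (-j) ξ) ≠ 0 := by
    intro ξ hξ
    by_contra hcon
    push Not at hcon
    have h1 := hasSum_TT hn0 hA hb hN hε hC hr 0 ξ hξ (by rwa [zv_zero, add_zero])
    simp only [TT_zero, hcon] at h1
    simp only [norm_zero, ne_eq, OfNat.ofNat_ne_zero, not_false_eq_true, zero_pow,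
      Complex.ofReal_zero, Finset.sum_const_zero, if_true] at h1
    exact zero_ne_one (h1.unique hasSum_zero).symm
  -- two levels seen at the same point are congruent
  have hcong : ∀ (ξ : E n) (j j' : ℤ) (l l' : Fin L), v l (bj A (-j) ξ) ≠ 0 →
      v l' (bj A (-j') ξ) ≠ 0 → d ∣ j' - j := by
    intro ξ j j' l l' h1 h2
    by_contra hnd
    have h3 := disj hn0 hb hN hC hr (j' - j) (by
      intro m α hm
      by_contra hα
      exact hnd (hH _ m α hm hα)) l l' (bj A (-j) ξ)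
    rw [bj_bj, show -(j' - j) + -j = -j' by ring] at h3
    rcases mul_eq_zero.1 h3 with h4 | h4
    · exact h1 h4
    · rw [map_eq_zero] at h4
      exact h2 h4
  -- the two open sets
  let U : Set (E n) := ⋃ (j : ℤ) (_ : d ∣ j) (l : Fin L), {ξ | v l (bj A (-j) ξ) ≠ 0}
  let U' : Set (E n) := ⋃ (j : ℤ) (_ : ¬ d ∣ j) (l : Fin L), {ξ | v l (bj A (-j) ξ) ≠ 0}
  have hop : ∀ (j : ℤ) (l : Fin L), IsOpen {ξ : E n | v l (bj A (-j) ξ) ≠ 0} := fun j l =>
    isOpen_ne_fun ((hc l).comp (continuous_bj A (-j))) continuous_const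
  have hU : IsOpen U := isOpen_iUnion fun j => isOpen_iUnion fun _ => isOpen_iUnion fun l => hop j l
  have hU' : IsOpen U' :=
    isOpen_iUnion fun j => isOpen_iUnion fun _ => isOpen_iUnion fun l => hop j l
  have hmem : ∀ ξ, ξ ∈ U ↔ ∃ j, d ∣ j ∧ ∃ l, v l (bj A (-j) ξ) ≠ 0 := by
    intro ξ
    simp only [U, Set.mem_iUnion, Set.mem_ofPred_eq, exists_prop]
  have hmem' : ∀ ξ, ξ ∈ U' ↔ ∃ j, ¬ d ∣ j ∧ ∃ l, v l (bj A (-j) ξ) ≠ 0 := by
    intro ξ
    simp only [U', Set.mem_iUnion, Set.mem_ofPred_eq, exists_prop]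
  have hcov : ({0}ᶜ : Set (E n)) ⊆ U ∪ U' := by
    intro ξ hξ
    obtain ⟨j, l, hjl⟩ := hsee ξ hξ
    by_cases hdj : d ∣ j
    · exact Or.inl ((hmem ξ).2 ⟨j, hdj, l, hjl⟩)
    · exact Or.inr ((hmem' ξ).2 ⟨j, hdj, l, hjl⟩)
  have hdis : Disjoint U U' := by
    rw [Set.disjoint_left]
    intro ξ h1 h2
    obtain ⟨j, hdj, l, hjl⟩ := (hmem ξ).1 h1
    obtain ⟨j', hdj', l', hjl'⟩ := (hmem' ξ).1 h2
    apply hdj'
    have h3 := hcong ξ j j' l l' hjl hjl'
    have h4 := dvd_add h3 hdj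
    rwa [sub_add_cancel] at h4
  have hne0 : ∀ (j : ℤ) (l : Fin L) (ξ : E n), v l (bj A (-j) ξ) ≠ 0 → ξ ≠ 0 := by
    intro j l ξ h1 h2
    rw [h2, bj_zero_arg] at h1
    exact h1 (hv0 l)
  -- nonempty
  obtain ⟨x, hx⟩ : ∃ x : E n, x ≠ 0 := by
    refine ⟨EuclideanSpace.single ⟨0, hn0⟩ 1, ?_⟩
    intro h
    have := congrArg (fun y : E n => y ⟨0, hn0⟩) h
    simp at this
  obtain ⟨j, l, hjl⟩ := hsee x hx
  set η : E n := bj A (-j) x with hη
  have hη0 : η ≠ 0 := bj_ne_zero A _ hx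
  have h1 : η ∈ U := (hmem η).2 ⟨0, dvd_zero d, l, by rwa [neg_zero, bj_zero]⟩
  have h2 : bj A 1 η ∈ U' := (hmem' _).2 ⟨1, fun h => hd (isUnit_of_dvd_one h), l, by
    rwa [bj_neg_bj]⟩
  have hrank : 1 < Module.rank ℝ (E n) := by
    rw [← Module.finrank_eq_rank, finrank_euclideanSpace_fin]
    exact_mod_cast hn
  have hconn := (isConnected_compl_singleton_of_one_lt_rank hrank (0 : E n)).isPreconnected
  obtain ⟨y, _, hy⟩ := hconn U U' hU hU' hcov ⟨η, hη0, h1⟩ ⟨bj A 1 η, bj_ne_zero A _ hη0, h2⟩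
  exact (Set.disjoint_left.1 hdis) hy.1 hy.2

end

end Run7.h408
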