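import Pool.Agent.Run7.h408.Defs
import Pool.Agent.Helper537.FT

/-!
Dilation operators on `L²(ℝ^n)`.
-/

set_option autoImplicit false

open MeasureTheory FourierTransform
open scoped ENNReal ContDiff InnerProductSpace

namespace Run7.h408

open Pool.Agent.Helper537.FT (adet adet_pos wT wF wt_wT wt_wF wco Wt coeFn_wco qmp_aff
  integral_aff)

variable {n : ℕ}

/-- `L²(ℝ^n)` -/
abbrev L2 (n : ℕ) : Type := Lp ℂ 2 (volume : Measure (E n))

lemma act_add (M : Matrix (Fin n) (Fin n) ℝ) (x y : E n) : act M (x + y) = act M x + act M y := by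
  unfold act; ext i; simp [Matrix.mulVec_add]

lemma act_sub (M : Matrix (Fin n) (Fin n) ℝ) (x y : E n) : act M (x - y) = act M x - act M y := by
  unfold act; ext i; simp [Matrix.mulVec_sub]

lemma act_neg (M : Matrix (Fin n) (Fin n) ℝ) (x : E n) : act M (-x) = -act M x := by
  unfold act; ext i; simp [Matrix.mulVec_neg]

lemma act_smul (M : Matrix (Fin n) (Fin n) ℝ) (c : ℝ) (x : E n) :
    act M (c • x) = c • act M x := by
  unfold act; ext i; simp [Matrix.mulVec_smul]

lemma act_mul (M N : Matrix (Fin n) (Fin n) ℝ) (x : E n) : act (M * N) x = act M (act N x) := by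
  unfold act; ext i; simp [Matrix.mulVec_mulVec]

lemma act_one (x : E n) : act (1 : Matrix (Fin n) (Fin n) ℝ) x = x := by
  unfold act; ext i; simp

lemma act_zero (M : Matrix (Fin n) (Fin n) ℝ) : act M 0 = 0 := by
  unfold act; ext i; simp

/-- `act M` as a linear map -/
noncomputable def actL (M : Matrix (Fin n) (Fin n) ℝ) : E n →ₗ[ℝ] E n where
  toFun := act M
  map_add' := act_add M
  map_smul' := act_smul M

lemma det_actL (M : Matrix (Fin n) (Fin n) ℝ) : LinearMap.det (actL M) = M.det := by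
  have h : actL M = ((WithLp.linearEquiv 2 ℝ (Fin n → ℝ)).symm : (Fin n → ℝ) →ₗ[ℝ] E n) ∘ₗ
      (Matrix.toLin' M) ∘ₗ ((WithLp.linearEquiv 2 ℝ (Fin n → ℝ)).symm.symm : E n →ₗ[ℝ] (Fin n → ℝ))
      := by
    ext x i
    simp [actL, act]
  rw [h, LinearMap.det_conj, LinearMap.det_toLin']

/-- an invertible matrix as a continuous linear equivalence of `E n` -/
noncomputable def toE (M : GL (Fin n) ℝ) : E n ≃L[ℝ] E n :=
  LinearEquiv.toContinuousLinearEquiv
    { actL (M : Matrix (Fin n) (Fin n) ℝ) with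
      invFun := act ((M⁻¹ : GL (Fin n) ℝ) : Matrix (Fin n) (Fin n) ℝ)
      left_inv := by
        intro x
        change act _ (act _ x) = x
        rw [← act_mul, ← Units.val_mul, inv_mul_cancel, Units.val_one, act_one]
      right_inv := by
        intro x
        change act _ (act _ x) = x
        rw [← act_mul, ← Units.val_mul, mul_inv_cancel, Units.val_one, act_one] }

@[simp] lemma toE_apply (M : GL (Fin n) ℝ) (x : E n) :
    toE M x = act (M : Matrix (Fin n) (Fin n) ℝ) x := rfl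

lemma continuous_act (M : Matrix (Fin n) (Fin n) ℝ) : Continuous (act M) :=
  (actL M).continuous_of_finiteDimensional

lemma contDiff_act (M : Matrix (Fin n) (Fin n) ℝ) : ContDiff ℝ ∞ (act M) :=
  (LinearMap.toContinuousLinearMap (actL M)).contDiff

lemma adet_toE (M : GL (Fin n) ℝ) :
    adet (toE M) = |(M : Matrix (Fin n) (Fin n) ℝ).det| := by
  unfold adet
  congr 1
  have : ((toE M : E n ≃L[ℝ] E n) : E n →ₗ[ℝ] E n) = actL (M : Matrix (Fin n) (Fin n) ℝ) := by
    ext x i; rfl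
  rw [this, det_actL]

/-- transpose of an invertible matrix -/
def tr (M : GL (Fin n) ℝ) : GL (Fin n) ℝ where
  val := (M : Matrix (Fin n) (Fin n) ℝ).transpose
  inv := ((M⁻¹ : GL (Fin n) ℝ) : Matrix (Fin n) (Fin n) ℝ).transpose
  val_inv := by
    rw [← Matrix.transpose_mul, ← Units.val_mul, inv_mul_cancel, Units.val_one,
      Matrix.transpose_one]
  inv_val := by
    rw [← Matrix.transpose_mul, ← Units.val_mul, mul_inv_cancel, Units.val_one,
      Matrix.transpose_one]

lemma coe_tr (M : GL (Fin n) ℝ) : ((tr M : GL (Fin n) ℝ) : Matrix (Fin n) (Fin n) ℝ) =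
    (M : Matrix (Fin n) (Fin n) ℝ).transpose := rfl

lemma tr_mul (M N : GL (Fin n) ℝ) : tr (M * N) = tr N * tr M := by
  apply Units.ext
  rw [Units.val_mul, coe_tr, coe_tr, coe_tr, Units.val_mul, Matrix.transpose_mul]

lemma tr_one : tr (1 : GL (Fin n) ℝ) = 1 := by
  apply Units.ext
  rw [coe_tr, Units.val_one, Matrix.transpose_one]

lemma inner_act (M : Matrix (Fin n) (Fin n) ℝ) (x y : E n) :
    inner ℝ (act M x) y = inner ℝ x (act M.transpose y) := by
  unfold act
  simp only [EuclideanSpace.inner_eq_star_dotProduct, star_trivial]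
  rw [Matrix.dotProduct_mulVec, ← Matrix.mulVec_transpose]

lemma det_ne_zero_GL (M : GL (Fin n) ℝ) : (M : Matrix (Fin n) (Fin n) ℝ).det ≠ 0 := by
  have := (Matrix.isUnit_iff_isUnit_det _).1 M.isUnit
  exact this.ne_zero

/-- the isometric operator `f ↦ |det M|^{1/2} f(M ·)` -/
noncomputable def dil0 (M : GL (Fin n) ℝ) : L2 n →ₗᵢ[ℂ] L2 n :=
  wco (toE M) 0 (wT (toE M)) (wt_wT (toE M))

lemma coeFn_dil0 (M : GL (Fin n) ℝ) (f : L2 n) :
    (dil0 M f : E n → ℂ) =ᵐ[volume] fun x =>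
      ((Real.sqrt |(M : Matrix (Fin n) (Fin n) ℝ).det| : ℝ) : ℂ) *
        f (act (M : Matrix (Fin n) (Fin n) ℝ) x) := by
  have h := coeFn_wco (toE M) 0 (wT (toE M)) (wt_wT (toE M)) f
  filter_upwards [h] with x hx
  unfold dil0
  rw [hx]
  simp only [wT, sub_zero, adet_toE, toE_apply]

lemma qmp_act (M : GL (Fin n) ℝ) :
    Measure.QuasiMeasurePreserving (act (M : Matrix (Fin n) (Fin n) ℝ))
      (volume : Measure (E n)) volume := by
  have := qmp_aff (toE M) (0 : E n)
  simpa using this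

lemma dil0_dil0 (M N : GL (Fin n) ℝ) (f : L2 n) : dil0 M (dil0 N f) = dil0 (N * M) f := by
  apply Lp.ext
  filter_upwards [coeFn_dil0 M (dil0 N f), (qmp_act M).ae (coeFn_dil0 N f),
    coeFn_dil0 (N * M) f] with x h1 h2 h3
  rw [h1, h2, h3, Units.val_mul, act_mul, Matrix.det_mul, abs_mul,
    Real.sqrt_mul (abs_nonneg _)]
  push_cast
  ring

lemma dil0_one (f : L2 n) : dil0 (1 : GL (Fin n) ℝ) f = f := by
  apply Lp.ext
  filter_upwards [coeFn_dil0 (1 : GL (Fin n) ℝ) f] with x h1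
  rw [h1, Units.val_one, act_one]
  simp

/-- the unitary operator `f ↦ |det M|^{1/2} f(M ·)` -/
noncomputable def dil (M : GL (Fin n) ℝ) : L2 n ≃ₗᵢ[ℂ] L2 n where
  toLinearEquiv :=
    { (dil0 M).toLinearMap with
      invFun := dil0 M⁻¹
      left_inv := by
        intro f
        change dil0 M⁻¹ (dil0 M f) = f
        rw [dil0_dil0, mul_inv_cancel, dil0_one]
      right_inv := by
        intro f
        change dil0 M (dil0 M⁻¹ f) = f
        rw [dil0_dil0, inv_mul_cancel, dil0_one] }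
  norm_map' f := (dil0 M).norm_map f

lemma coeFn_dil (M : GL (Fin n) ℝ) (f : L2 n) :
    (dil M f : E n → ℂ) =ᵐ[volume] fun x =>
      ((Real.sqrt |(M : Matrix (Fin n) (Fin n) ℝ).det| : ℝ) : ℂ) *
        f (act (M : Matrix (Fin n) (Fin n) ℝ) x) := coeFn_dil0 M f

lemma dil_dil (M N : GL (Fin n) ℝ) (f : L2 n) : dil M (dil N f) = dil (N * M) f :=
  dil0_dil0 M N f

lemma dil_one (f : L2 n) : dil (1 : GL (Fin n) ℝ) f = f := dil0_one f

/-- the dilation operator on the frequency side: `D f (ξ) = |det A|^{-1/2} f((A^{-1})^T ξ)` -/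
noncomputable def Dop (A : GL (Fin n) ℝ) : L2 n ≃ₗᵢ[ℂ] L2 n := dil (tr A⁻¹)

lemma Dop_mul (A B : GL (Fin n) ℝ) (f : L2 n) : Dop A (Dop B f) = Dop (B * A) f := by
  unfold Dop
  rw [dil_dil, ← tr_mul, mul_inv_rev]

lemma Dop_one (f : L2 n) : Dop (1 : GL (Fin n) ℝ) f = f := by
  unfold Dop
  rw [inv_one, tr_one, dil_one]

lemma Dop_symm (A : GL (Fin n) ℝ) (f : L2 n) : (Dop A).symm f = Dop A⁻¹ f := by
  rw [LinearIsometryEquiv.symm_apply_eq, Dop_mul, inv_mul_cancel, Dop_one]

lemma Dop_zpow (A : GL (Fin n) ℝ) (j : ℤ) (f : L2 n) :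
    (Dop A ^ j : L2 n ≃ₗᵢ[ℂ] L2 n) f = Dop (A ^ j) f := by
  induction j using Int.induction_on generalizing f with
  | zero => rw [zpow_zero, zpow_zero, Dop_one]; rfl
  | succ j ih =>
    rw [zpow_add, zpow_one]
    change (Dop A ^ (j : ℤ) : L2 n ≃ₗᵢ[ℂ] L2 n) (Dop A f) = _
    rw [ih, Dop_mul, add_comm, zpow_add, zpow_one]
  | pred j ih =>
    rw [sub_eq_add_neg, zpow_add, zpow_neg_one]
    change (Dop A ^ (-(j : ℤ)) : L2 n ≃ₗᵢ[ℂ] L2 n) ((Dop A).symm f) = _
    rw [ih, Dop_symm, Dop_mul, add_comm, zpow_add, zpow_neg_one]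

end Run7.h408
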