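import Pool.Agent.Run7.h408.Freq
import Pool.Agent.Run7.h408.Ops

/-!
Passage between the wavelet system and its Fourier transform.
-/

set_option autoImplicit false

open MeasureTheory FourierTransform Filter Topology
open scoped ENNReal ContDiff InnerProductSpace

namespace Run7.h408

open Pool.Agent.Helper537.FT

variable {n : ℕ}

/-- orthonormality and totality of a family in `L²` -/
def OT {ι : Type*} (e : ι → L2 n) : Prop :=
  Orthonormal ℂ e ∧ ∀ u, (∀ i, ⟪e i, u⟫_ℂ = 0) → u = 0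

lemma OT.map {ι : Type*} {e : ι → L2 n} (h : OT e) (U : L2 n ≃ₗᵢ[ℂ] L2 n) :
    OT (fun i => U (e i)) := by
  refine ⟨h.1.comp_linearIsometryEquiv U, fun u hu => ?_⟩
  have h1 : U.symm u = 0 := by
    apply h.2
    intro i
    rw [← LinearIsometryEquiv.inner_map_map U, LinearIsometryEquiv.apply_symm_apply]
    exact hu i
  exact (LinearIsometryEquiv.map_eq_zero_iff _).1 h1

lemma inner_L2' (f u : L2 n) : ⟪f, u⟫_ℂ = ∫ ξ, u ξ * (starRingEnd ℂ) (f ξ) := by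
  rw [L2.inner_def]
  apply integral_congr_ae
  filter_upwards with ξ
  rw [RCLike.inner_apply]

/-- a concrete criterion -/
lemma OT_iff {ι : Type*} (e : ι → L2 n) (f : ι → E n → ℂ) (hf : ∀ i, (e i : E n → ℂ) =ᵐ[volume] f i)
    (P : ι → ι → Prop) [∀ i j, Decidable (P i j)] (hP : ∀ i j, P i j ↔ i = j) :
    OT e ↔ (∀ i j, ∫ ξ, f i ξ * (starRingEnd ℂ) (f j ξ) = if P i j then 1 else 0) ∧
      ∀ g : E n → ℂ, MemLp g 2 volume → (∀ i, ∫ ξ, g ξ * (starRingEnd ℂ) (f i ξ) = 0) →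
        g =ᵐ[volume] 0 := by
  classical
  have h1 : ∀ i j, ∫ ξ, f i ξ * (starRingEnd ℂ) (f j ξ) = ⟪e j, e i⟫_ℂ := by
    intro i j
    rw [inner_L2']
    apply integral_congr_ae
    filter_upwards [hf i, hf j] with ξ h1 h2
    rw [h1, h2]
  unfold OT
  constructor
  · rintro ⟨h2, h3⟩
    refine ⟨fun i j => ?_, fun g hg hg0 => ?_⟩
    · rw [h1, orthonormal_iff_ite.1 h2 j i]
      by_cases h : i = j
      · rw [if_pos h.symm, if_pos ((hP i j).2 h)]
      · rw [if_neg (Ne.symm h), if_neg (fun h' => h ((hP i j).1 h'))]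
    · have h4 : hg.toLp g = 0 := by
        apply h3
        intro i
        rw [inner_L2', ← hg0 i]
        apply integral_congr_ae
        filter_upwards [hf i, hg.coeFn_toLp] with ξ h5 h6
        rw [h5, h6]
      have h5 := hg.coeFn_toLp
      rw [h4] at h5
      filter_upwards [h5, Lp.coeFn_zero ℂ 2 (volume : Measure (E n))] with ξ h6 h7
      rw [← h6, h7]
  · rintro ⟨h2, h3⟩
    refine ⟨?_, fun u hu => ?_⟩
    · rw [orthonormal_iff_ite]
      intro i j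
      rw [← h1, h2]
      by_cases h : i = j
      · rw [if_pos h, if_pos ((hP j i).2 h.symm)]
      · rw [if_neg h, if_neg (fun h' => h ((hP j i).1 h').symm)]
    · have h4 := h3 u (Lp.memLp u) (by
        intro i
        rw [← hu i, inner_L2']
        apply integral_congr_ae
        filter_upwards [hf i] with ξ h5
        rw [h5])
      apply Lp.ext
      filter_upwards [h4, Lp.coeFn_zero ℂ 2 (volume : Measure (E n))] with ξ h6 h7
      rw [h6, h7]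

/-- the wavelet system in `L²` -/
noncomputable def wL (A : GL (Fin n) ℝ) (ψ : L2 n) (j : ℤ) (k : Fin n → ℤ) : L2 n :=
  wco (toE (A ^ j)) (zv k) (wT (toE (A ^ j))) (wt_wT (toE (A ^ j))) ψ

lemma det_zpow_GL (A : GL (Fin n) ℝ) (j : ℤ) :
    ((A ^ j : GL (Fin n) ℝ) : Matrix (Fin n) (Fin n) ℝ).det =
      (A : Matrix (Fin n) (Fin n) ℝ).det ^ j := by
  have h := map_zpow (Matrix.GeneralLinearGroup.det (n := Fin n) (R := ℝ)) A j
  have h2 := congrArg (Units.val) h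
  rw [Units.val_zpow_eq_zpow_val] at h2
  exact h2

lemma sqrt_det_zpow (A : GL (Fin n) ℝ) (j : ℤ) :
    Real.sqrt |((A ^ j : GL (Fin n) ℝ) : Matrix (Fin n) (Fin n) ℝ).det| =
      |(A : Matrix (Fin n) (Fin n) ℝ).det| ^ ((j : ℝ) / 2) := by
  have h5 : 0 < |(A : Matrix (Fin n) (Fin n) ℝ).det| := abs_pos.2 (det_ne_zero_GL A)
  rw [det_zpow_GL, abs_zpow, Real.sqrt_eq_rpow, ← Real.rpow_intCast, ← Real.rpow_mul h5.le]
  congr 1
  ring

lemma coeFn_wL (A : GL (Fin n) ℝ) (ψ : L2 n) (j : ℤ) (k : Fin n → ℤ) :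
    (wL A ψ j k : E n → ℂ) =ᵐ[volume] wav A ψ j k := by
  filter_upwards [coeFn_wco (toE (A ^ j)) (zv k) (wT (toE (A ^ j))) (wt_wT (toE (A ^ j))) ψ]
    with x hx
  unfold wL wav
  rw [hx]
  unfold wT
  rw [adet_toE, sqrt_det_zpow, toE_apply]

lemma coeFn_fourier_wL (A : GL (Fin n) ℝ) (ψ : L2 n) (j : ℤ) (k : Fin n → ℤ) :
    ((𝓕 (wL A ψ j k) : L2 n) : E n → ℂ) =ᵐ[volume] fw A ((𝓕 ψ : L2 n) : E n → ℂ) j k := by
  have h1 := fourier_wco (toE (A ^ j)) (toE (tr (A ^ (-j)))) (zv k) (by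
    intro x ξ
    rw [toE_apply, toE_apply, inner_act, coe_tr, ← act_mul, ← Matrix.transpose_mul,
      ← Units.val_mul, zpow_neg, inv_mul_cancel, Units.val_one, Matrix.transpose_one, act_one])
    (by
      rw [adet_toE, adet_toE, coe_tr, Matrix.det_transpose, det_zpow_GL, det_zpow_GL, zpow_neg,
        abs_inv]) ψ
  unfold wL
  rw [h1]
  filter_upwards [coeFn_wco (toE (tr (A ^ (-j)))) 0 (wF (toE (tr (A ^ (-j)))) (zv k))
    (wt_wF (toE (tr (A ^ (-j)))) (zv k)) (𝓕 ψ)] with ξ hξ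
  rw [hξ]
  unfold wF fw
  rw [adet_toE, sub_zero, toE_apply, coe_tr, Matrix.det_transpose, sqrt_det_zpow]
  push_cast
  rfl

/-- index of the system -/
abbrev WI (n L : ℕ) : Type := Fin L × ℤ × (Fin n → ℤ)

lemma iff_wav (A : GL (Fin n) ℝ) {L : ℕ} (Ψ : Fin L → L2 n) :
    IsONWavelet A (fun l => (Ψ l : E n → ℂ)) ↔ OT (fun i : WI n L => wL A (Ψ i.1) i.2.1 i.2.2) := by
  rw [OT_iff (fun i : WI n L => wL A (Ψ i.1) i.2.1 i.2.2)
    (fun i : WI n L => wav A (Ψ i.1) i.2.1 i.2.2) (fun i => coeFn_wL A _ _ _)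
    (fun i j => i.1 = j.1 ∧ i.2.1 = j.2.1 ∧ i.2.2 = j.2.2) (fun i j => by
      rw [Prod.ext_iff, Prod.ext_iff])]
  unfold IsONWavelet
  constructor
  · rintro ⟨_, h2, h3⟩
    exact ⟨fun i j => h2 _ _ _ _ _ _, fun g hg hg0 => h3 g hg (fun l j k => hg0 (l, j, k))⟩
  · rintro ⟨h2, h3⟩
    exact ⟨fun l => Lp.memLp _, fun l j k l' j' k' => h2 (l, j, k) (l', j', k'),
      fun g hg hg0 => h3 g hg (fun i => hg0 _ _ _)⟩

lemma iff_fw (A : GL (Fin n) ℝ) {L : ℕ} (Ψ : Fin L → L2 n) :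
    IsFreqBasis A (fun l => ((𝓕 (Ψ l) : L2 n) : E n → ℂ)) ↔
      OT (fun i : WI n L => (𝓕 (wL A (Ψ i.1) i.2.1 i.2.2) : L2 n)) := by
  rw [OT_iff (fun i : WI n L => (𝓕 (wL A (Ψ i.1) i.2.1 i.2.2) : L2 n))
    (fun i : WI n L => fw A ((𝓕 (Ψ i.1) : L2 n) : E n → ℂ) i.2.1 i.2.2)
    (fun i => coeFn_fourier_wL A _ _ _)
    (fun i j => i.1 = j.1 ∧ i.2.1 = j.2.1 ∧ i.2.2 = j.2.2) (fun i j => by
      rw [Prod.ext_iff, Prod.ext_iff])]
  unfold IsFreqBasis
  constructor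
  · rintro ⟨_, h2, h3⟩
    exact ⟨fun i j => h2 _ _ _ _ _ _, fun g hg hg0 => h3 g hg (fun l j k => hg0 (l, j, k))⟩
  · rintro ⟨h2, h3⟩
    exact ⟨fun l => Lp.memLp _, fun l j k l' j' k' => h2 (l, j, k) (l', j', k'),
      fun g hg hg0 => h3 g hg (fun i => hg0 _ _ _)⟩

/-- passage between the two sides -/
theorem transfer (A : GL (Fin n) ℝ) {L : ℕ} (Ψ : Fin L → L2 n) :
    IsONWavelet A (fun l => (Ψ l : E n → ℂ)) ↔
      IsFreqBasis A (fun l => ((𝓕 (Ψ l) : L2 n) : E n → ℂ)) := by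
  rw [iff_wav, iff_fw]
  constructor
  · intro h
    exact h.map (Lp.fourierTransformₗᵢ (E n) ℂ)
  · intro h
    have h1 := h.map (Lp.fourierTransformₗᵢ (E n) ℂ).symm
    have h2 : (fun i : WI n L => (Lp.fourierTransformₗᵢ (E n) ℂ).symm
        (𝓕 (wL A (Ψ i.1) i.2.1 i.2.2) : L2 n)) = fun i : WI n L => wL A (Ψ i.1) i.2.1 i.2.2 := by
      funext i
      exact (Lp.fourierTransformₗᵢ (E n) ℂ).symm_apply_apply _
    rw [h2] at h1
    exact h1

end Run7.h408
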