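import Pool.Agent.Run7.h408.Core
import Pool.Agent.Run7.h408.Trans

/-!
Well-localized orthonormal wavelets from smooth compactly supported systems on the frequency side.
-/

set_option autoImplicit false

open MeasureTheory FourierTransform Filter Topology
open scoped ENNReal ContDiff InnerProductSpace SchwartzMap

namespace Run7.h408

open Pool.Agent.Helper537.FT

variable {n : ℕ}

lemma fw_congr (A : GL (Fin n) ℝ) {v v' : E n → ℂ} (h : v =ᵐ[volume] v') (j : ℤ)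
    (k : Fin n → ℤ) : fw A v j k =ᵐ[volume] fw A v' j k := by
  have h1 := (qmp_act (tr (A ^ (-j)))).ae h
  filter_upwards [h1] with ξ hξ
  unfold fw
  rw [← coe_tr, hξ]

lemma wav_congr (A : GL (Fin n) ℝ) {v v' : E n → ℂ} (h : v =ᵐ[volume] v') (j : ℤ)
    (k : Fin n → ℤ) : wav A v j k =ᵐ[volume] wav A v' j k := by
  have h1 := (qmp_aff (toE (A ^ j)) (zv k)).ae h
  filter_upwards [h1] with ξ hξ
  unfold wav
  rw [toE_apply] at hξ
  rw [hξ]

lemma IsFreqBasis.congr {A : GL (Fin n) ℝ} {L : ℕ} {v v' : Fin L → E n → ℂ}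
    (h : ∀ l, v l =ᵐ[volume] v' l) (hv : IsFreqBasis A v) : IsFreqBasis A v' := by
  obtain ⟨h1, h2, h3⟩ := hv
  refine ⟨fun l => (memLp_congr_ae (h l)).1 (h1 l), fun l j k l' j' k' => ?_, fun f hf hf0 => ?_⟩
  · rw [← h2 l j k l' j' k']
    apply integral_congr_ae
    filter_upwards [fw_congr A (h l) j k, fw_congr A (h l') j' k'] with ξ h4 h5
    rw [h4, h5]
  · apply h3 f hf
    intro l j k
    rw [← hf0 l j k]
    apply integral_congr_ae
    filter_upwards [fw_congr A (h l) j k] with ξ h4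
    rw [h4]

lemma IsONWavelet.congr {A : GL (Fin n) ℝ} {L : ℕ} {v v' : Fin L → E n → ℂ}
    (h : ∀ l, v l =ᵐ[volume] v' l) (hv : IsONWavelet A v) : IsONWavelet A v' := by
  obtain ⟨h1, h2, h3⟩ := hv
  refine ⟨fun l => (memLp_congr_ae (h l)).1 (h1 l), fun l j k l' j' k' => ?_, fun f hf hf0 => ?_⟩
  · rw [← h2 l j k l' j' k']
    apply integral_congr_ae
    filter_upwards [wav_congr A (h l) j k, wav_congr A (h l') j' k'] with ξ h4 h5
    rw [h4, h5]
  · apply h3 f hf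
    intro l j k
    rw [← hf0 l j k]
    apply integral_congr_ae
    filter_upwards [wav_congr A (h l) j k] with ξ h4
    rw [h4]

/-- Schwartz decay with a real exponent -/
lemma schwartz_decay (f : 𝓢(E n, ℂ)) (N : ℝ) :
    ∃ C : ℝ, ∀ x : E n, 1 ≤ ‖x‖ → ‖f x‖ ≤ C * ‖x‖ ^ (-N) := by
  obtain ⟨m, hm⟩ := exists_nat_ge N
  obtain ⟨C, hC0, hC⟩ := f.decay m 0
  refine ⟨C, fun x hx => ?_⟩
  have hx0 : 0 < ‖x‖ := by linarith
  have h1 := hC x
  rw [norm_iteratedFDeriv_zero] at h1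
  have h2 : ‖x‖ ^ N ≤ ‖x‖ ^ (m : ℝ) := Real.rpow_le_rpow_of_exponent_le hx hm
  rw [Real.rpow_natCast] at h2
  have h3 : 0 < ‖x‖ ^ N := Real.rpow_pos_of_pos hx0 N
  rw [Real.rpow_neg hx0.le, ← div_eq_mul_inv, le_div_iff₀ h3]
  calc ‖f x‖ * ‖x‖ ^ N ≤ ‖f x‖ * ‖x‖ ^ m := mul_le_mul_of_nonneg_left h2 (norm_nonneg _)
    _ ≤ C := by rw [mul_comm]; exact h1

lemma decays_schwartz (f : 𝓢(E n, ℂ)) (N : ℝ) : Decays N (f : E n → ℂ) := by
  obtain ⟨C, hC⟩ := schwartz_decay f N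
  exact ⟨C, 1, one_pos, ae_of_all _ hC⟩

lemma Decays.congr {N : ℝ} {f g : E n → ℂ} (h : f =ᵐ[volume] g) (hf : Decays N f) :
    Decays N g := by
  obtain ⟨C, R, hR, hC⟩ := hf
  refine ⟨C, R, hR, ?_⟩
  filter_upwards [hC, h] with x h1 h2 h3
  rw [← h2]
  exact h1 h3

lemma isL2Fourier_iff {f g : E n → ℂ} (hf : MemLp f 2 volume) (hg : MemLp g 2 volume) :
    IsL2Fourier f g ↔ 𝓕 (hf.toLp f) = hg.toLp g := by
  have e1 : ∀ φ : 𝓢(E n, ℂ), ∫ x, f x * (𝓕 φ : 𝓢(E n, ℂ)) x =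
      ∫ x, φ x • (𝓕 (hf.toLp f) : L2 n) x := by
    intro φ
    rw [← Lp.toTemperedDistribution_apply (𝓕 (hf.toLp f) : L2 n) φ,
      ← Lp.fourier_toTemperedDistribution_eq, TemperedDistribution.fourier_apply,
      Lp.toTemperedDistribution_apply]
    apply integral_congr_ae
    filter_upwards [hf.coeFn_toLp] with x hx
    rw [hx, smul_eq_mul, mul_comm]
  have e2 : ∀ φ : 𝓢(E n, ℂ), ∫ x, g x * φ x = ∫ x, φ x • (hg.toLp g : L2 n) x := by
    intro φ
    apply integral_congr_ae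
    filter_upwards [hg.coeFn_toLp] with x hx
    rw [hx, smul_eq_mul, mul_comm]
  unfold IsL2Fourier
  constructor
  · rintro ⟨_, _, h⟩
    have h1 : Lp.toTemperedDistributionCLM ℂ volume 2 (𝓕 (hf.toLp f) : L2 n) =
        Lp.toTemperedDistributionCLM ℂ volume 2 (hg.toLp g) := by
      ext φ
      rw [Lp.toTemperedDistributionCLM_apply, Lp.toTemperedDistributionCLM_apply,
        Lp.toTemperedDistribution_apply, Lp.toTemperedDistribution_apply, ← e1, ← e2, h]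
    exact LinearMap.ker_eq_bot.1 Lp.ker_toTemperedDistributionCLM_eq_bot h1
  · intro h
    refine ⟨hf, hg, fun φ => ?_⟩
    rw [e1, e2, h]

lemma wellLocalized_schwartz (f : 𝓢(E n, ℂ)) (N : ℝ) : WellLocalized N (f : E n → ℂ) := by
  refine ⟨decays_schwartz f N, (𝓕 f : 𝓢(E n, ℂ)), ?_, decays_schwartz (𝓕 f) N⟩
  rw [isL2Fourier_iff (f.memLp 2 volume) ((𝓕 f : 𝓢(E n, ℂ)).memLp 2 volume)]
  exact SchwartzMap.toLp_fourier_eq f

/-- from the frequency side to wavelets -/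
theorem wavelet_of_freq (A : GL (Fin n) ℝ) {L : ℕ} (v : Fin L → E n → ℂ) (hv : ∀ l, CS (v l))
    (hb : IsFreqBasis A v) :
    ∃ ψ : Fin L → 𝓢(E n, ℂ), IsONWavelet A (fun l => (ψ l : E n → ℂ)) ∧
      (∀ l, BandLimited (ψ l)) ∧
      ∀ l N, WellLocalized N (ψ l : E n → ℂ) := by
  let w : Fin L → 𝓢(E n, ℂ) := fun l => (hv l).2.toSchwartzMap (hv l).1
  let ψ : Fin L → 𝓢(E n, ℂ) := fun l => 𝓕⁻ (w l)
  have hψ : ∀ l, 𝓕 (ψ l) = w l := fun l => FourierTransform.fourier_fourierInv_eq (w l)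
  have hw : ∀ l, (w l : E n → ℂ) = v l := fun l => rfl
  let Ψ : Fin L → L2 n := fun l => (ψ l).toLp 2 volume
  have h1 : ∀ l, v l =ᵐ[volume] ((𝓕 (Ψ l) : L2 n) : E n → ℂ) := by
    intro l
    have h2 : (𝓕 (Ψ l) : L2 n) = (w l).toLp 2 volume := by
      rw [← hψ l]
      exact SchwartzMap.toLp_fourier_eq (ψ l)
    rw [h2]
    exact ((w l).coeFn_toLp 2 volume).symm
  have h2 := hb.congr h1
  rw [← transfer] at h2
  refine ⟨ψ, h2.congr (fun l => (ψ l).coeFn_toLp 2 volume), fun l => ?_, fun l N =>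
    wellLocalized_schwartz _ N⟩
  unfold BandLimited
  rw [hψ l]
  exact (hv l).2

/-- Every rational expansive matrix admits a well-localized orthonormal wavelet. -/
theorem rational_exists (n : ℕ) (hn : 0 < n) (A : GL (Fin n) ℝ)
    (hA : IsExpansive (A : Matrix (Fin n) (Fin n) ℝ))
    (hrat : ∀ i j, ∃ q : ℚ, (A : Matrix (Fin n) (Fin n) ℝ) i j = (q : ℝ)) :
    ∃ (L : ℕ) (ψ : Fin L → 𝓢(E n, ℂ)), 0 < L ∧ IsONWavelet A (fun l => (ψ l : E n → ℂ)) ∧
      (∀ l, BandLimited (ψ l)) ∧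
      ∀ l N, WellLocalized N (ψ l : E n → ℂ) := by
  obtain ⟨L, v, hL, hv, hb⟩ := core hn A hA hrat
  obtain ⟨ψ, h1, h2, h3⟩ := wavelet_of_freq A v hv hb
  exact ⟨L, ψ, hL, h1, h2, h3⟩

end Run7.h408
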