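import Pool.Agent.Run7.h408.Rat

/-!
Regularity of the Fourier transform of a well-localized function.
-/

set_option autoImplicit false

open MeasureTheory FourierTransform Filter Topology
open scoped ENNReal ContDiff InnerProductSpace SchwartzMap

namespace Run7.h408

variable {n : ℕ}

/-- continuity, decay and Hölder continuity at the origin -/
structure Reg (N ε C : ℝ) (v : E n → ℂ) : Prop where
  cont : Continuous v
  dec : ∀ ξ, ‖v ξ‖ ≤ C * (1 + ‖ξ‖) ^ (-N)
  hol : ∀ ξ, ‖v ξ - v 0‖ ≤ C * ‖ξ‖ ^ ε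

lemma Reg.mono {N ε C C' : ℝ} {v : E n → ℂ} (h : Reg N ε C v) (hC : C ≤ C') : Reg N ε C' v :=
  ⟨h.cont, fun ξ => (h.dec ξ).trans (mul_le_mul_of_nonneg_right hC (by positivity)),
    fun ξ => (h.hol ξ).trans (mul_le_mul_of_nonneg_right hC (by positivity))⟩

/-- decay, in the inhomogeneous form -/
lemma Decays.exists_bound {N : ℝ} (hN : 0 ≤ N) {f : E n → ℂ} (h : Decays N f) :
    ∃ C R : ℝ, 0 < R ∧ 0 ≤ C ∧ ∀ᵐ x : E n, R ≤ ‖x‖ → ‖f x‖ ≤ C * (1 + ‖x‖) ^ (-N) := by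
  obtain ⟨C, R, hR, hC⟩ := h
  refine ⟨|C| * (1 / R + 1) ^ N, R, hR, by positivity, ?_⟩
  filter_upwards [hC] with x hx hxR
  have hx0 : 0 < ‖x‖ := lt_of_lt_of_le hR hxR
  have h1 : ‖f x‖ ≤ |C| * ‖x‖ ^ (-N) :=
    (hx hxR).trans (mul_le_mul_of_nonneg_right (le_abs_self C) (by positivity))
  refine h1.trans ?_
  rw [mul_assoc]
  apply mul_le_mul_of_nonneg_left _ (abs_nonneg C)
  have h2 : 1 + ‖x‖ ≤ (1 / R + 1) * ‖x‖ := by
    have : 1 ≤ 1 / R * ‖x‖ := by
      rw [one_div, inv_mul_eq_div, le_div_iff₀ hR]; linarith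
    linarith
  rw [Real.rpow_neg hx0.le, Real.rpow_neg (by positivity), ← div_eq_mul_inv,
    le_div_iff₀ (by positivity), inv_mul_le_iff₀ (by positivity)]
  rw [mul_comm, ← Real.mul_rpow (by positivity) (by positivity)]
  exact Real.rpow_le_rpow (by positivity) h2 hN

lemma integrable_weight {N ε : ℝ} (hε : 0 ≤ ε) (hN : (n : ℝ) < N - ε) {ψ : E n → ℂ}
    (h2 : MemLp ψ 2 volume) (hd : Decays N ψ) :
    Integrable (fun x => (1 + ‖x‖) ^ ε * ‖ψ x‖) := by
  have hN0 : 0 ≤ N := by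
    have : (0 : ℝ) ≤ n := Nat.cast_nonneg n
    linarith
  obtain ⟨C, R, hR, hC0, hC⟩ := hd.exists_bound hN0
  have hmeas : AEStronglyMeasurable (fun x => (1 + ‖x‖) ^ ε * ‖ψ x‖) volume := by
    apply AEStronglyMeasurable.mul _ h2.1.norm
    apply Continuous.aestronglyMeasurable
    exact (continuous_const.add continuous_norm).rpow_const (fun x => Or.inr hε)
  -- near the origin
  have hball : IntegrableOn (fun x => (1 + ‖x‖) ^ ε * ‖ψ x‖) (Metric.ball (0 : E n) R) := by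
    have hfin : IsFiniteMeasure ((volume : Measure (E n)).restrict (Metric.ball (0 : E n) R)) :=
      isFiniteMeasure_restrict.2 measure_ball_lt_top.ne
    have h3 : Integrable ψ ((volume : Measure (E n)).restrict (Metric.ball (0 : E n) R)) :=
      (h2.restrict _).integrable (by norm_num)
    have h4 := (h3.norm).const_mul ((1 + R) ^ ε)
    apply h4.mono' hmeas.restrict
    filter_upwards [ae_restrict_mem (measurableSet_ball (x := (0 : E n)) (ε := R))] with x hx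
    rw [Metric.mem_ball, dist_zero_right] at hx
    rw [Real.norm_eq_abs, abs_of_nonneg (by positivity)]
    apply mul_le_mul_of_nonneg_right _ (norm_nonneg _)
    exact Real.rpow_le_rpow (by positivity) (by linarith) hε
  -- away from the origin
  have hout : IntegrableOn (fun x => (1 + ‖x‖) ^ ε * ‖ψ x‖) (Metric.ball (0 : E n) R)ᶜ := by
    have h3 : Integrable (fun x : E n => C * (1 + ‖x‖) ^ (-(N - ε))) volume := by
      apply Integrable.const_mul
      apply integrable_one_add_norm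
      rw [finrank_euclideanSpace_fin]
      exact hN
    apply (h3.integrableOn (s := (Metric.ball (0 : E n) R)ᶜ)).mono' hmeas.restrict
    filter_upwards [ae_restrict_mem (measurableSet_ball (x := (0 : E n)) (ε := R)).compl,
      ae_restrict_of_ae hC] with x hx hx2
    rw [Set.mem_compl_iff, Metric.mem_ball, dist_zero_right, not_lt] at hx
    rw [Real.norm_eq_abs, abs_of_nonneg (by positivity)]
    have h4 : (1 + ‖x‖) ^ (-(N - ε)) = (1 + ‖x‖) ^ ε * (1 + ‖x‖) ^ (-N) := by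
      rw [← Real.rpow_add (by positivity)]
      congr 1
      ring
    rw [h4]
    calc (1 + ‖x‖) ^ ε * ‖ψ x‖ ≤ (1 + ‖x‖) ^ ε * (C * (1 + ‖x‖) ^ (-N)) :=
          mul_le_mul_of_nonneg_left (hx2 hx) (by positivity)
      _ = _ := by ring
  have := hball.union hout
  rwa [Set.union_compl_self, integrableOn_univ] at this

lemma integrable_of_weight {ε : ℝ} (hε : 0 ≤ ε) {ψ : E n → ℂ} (hm : AEStronglyMeasurable ψ volume)
    (h : Integrable (fun x => (1 + ‖x‖) ^ ε * ‖ψ x‖)) : Integrable ψ := by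
  apply h.mono' hm
  refine ae_of_all _ fun x => ?_
  have h1 : (1 : ℝ) ≤ (1 + ‖x‖) ^ ε := Real.one_le_rpow (by linarith [norm_nonneg x]) hε
  nlinarith [norm_nonneg (ψ x)]

lemma continuous_ft {ψ : E n → ℂ} (h : Integrable ψ) : Continuous (𝓕 ψ) :=
  VectorFourier.fourierIntegral_continuous Real.continuous_fourierChar
    (innerSL ℝ).continuous₂ h

lemma norm_exp_sub_one_le (θ : ℝ) {ε : ℝ} (h0 : 0 < ε) (h1 : ε ≤ 1) :
    ‖Complex.exp ((θ : ℂ) * Complex.I) - 1‖ ≤ 2 * |θ| ^ ε := by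
  by_cases h : |θ| ≤ 1
  · have h2 : ‖Complex.exp ((θ : ℂ) * Complex.I) - 1‖ ≤ |θ| := by
      rw [mul_comm, Complex.norm_exp_I_mul_ofReal_sub_one, Real.norm_eq_abs, abs_mul,
        abs_of_pos (by norm_num : (0 : ℝ) < 2)]
      have := Real.abs_sin_le_abs (x := θ / 2)
      rw [abs_div, abs_of_pos (by norm_num : (0 : ℝ) < 2)] at this
      linarith
    have h3 : |θ| ≤ |θ| ^ ε := by
      rcases eq_or_lt_of_le (abs_nonneg θ) with h4 | h4
      · rw [← h4, Real.zero_rpow h0.ne']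
      · calc |θ| = |θ| ^ (1 : ℝ) := (Real.rpow_one _).symm
          _ ≤ |θ| ^ ε := Real.rpow_le_rpow_of_exponent_ge h4 h h1
    have h4 : 0 ≤ |θ| ^ ε := by positivity
    linarith
  · push Not at h
    have h2 : ‖Complex.exp ((θ : ℂ) * Complex.I) - 1‖ ≤ 2 := by
      calc _ ≤ ‖Complex.exp ((θ : ℂ) * Complex.I)‖ + ‖(1 : ℂ)‖ := norm_sub_le _ _
        _ = 2 := by rw [Complex.norm_exp_ofReal_mul_I]; norm_num
    have h3 : 1 ≤ |θ| ^ ε := Real.one_le_rpow h.le h0.le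
    linarith

lemma holder_ft {ε : ℝ} (h0 : 0 < ε) (h1 : ε ≤ 1) {ψ : E n → ℂ}
    (h : Integrable (fun x => (1 + ‖x‖) ^ ε * ‖ψ x‖)) (hψ : Integrable ψ) :
    ∃ C : ℝ, ∀ ξ : E n, ‖𝓕 ψ ξ - 𝓕 ψ 0‖ ≤ C * ‖ξ‖ ^ ε := by
  refine ⟨2 * (2 * Real.pi) ^ ε * ∫ x, (1 + ‖x‖) ^ ε * ‖ψ x‖, fun ξ => ?_⟩
  rw [Real.fourier_eq', Real.fourier_eq']
  have hi : ∀ ξ : E n, Integrable (fun x : E n =>
      Complex.exp (((-2 * Real.pi * inner ℝ x ξ : ℝ) : ℂ) * Complex.I) • ψ x) := by
    intro ξ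
    have hm : AEStronglyMeasurable (fun x : E n =>
        Complex.exp (((-2 * Real.pi * inner ℝ x ξ : ℝ) : ℂ) * Complex.I)) volume := by
      apply Continuous.aestronglyMeasurable
      fun_prop
    exact hψ.bdd_smul (C := 1) hm (ae_of_all _ fun x => by
      rw [Complex.norm_exp_ofReal_mul_I])
  rw [← integral_sub (hi ξ) (hi 0)]
  have hb : ∀ x : E n, ‖Complex.exp (((-2 * Real.pi * inner ℝ x ξ : ℝ) : ℂ) * Complex.I) • ψ x -
      Complex.exp (((-2 * Real.pi * inner ℝ x (0 : E n) : ℝ) : ℂ) * Complex.I) • ψ x‖ ≤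
      (2 * (2 * Real.pi) ^ ε * ‖ξ‖ ^ ε) * ((1 + ‖x‖) ^ ε * ‖ψ x‖) := by
    intro x
    rw [inner_zero_right, mul_zero, Complex.ofReal_zero, zero_mul, Complex.exp_zero, ← sub_smul,
      norm_smul]
    have h2 := norm_exp_sub_one_le (-2 * Real.pi * inner ℝ x ξ) h0 h1
    have h3 : |(-2 * Real.pi * inner ℝ x ξ)| ≤ (2 * Real.pi) * (‖ξ‖ * (1 + ‖x‖)) := by
      rw [abs_mul, abs_mul]
      have h4 : |(-2 : ℝ)| * |Real.pi| = 2 * Real.pi := by
        rw [abs_of_pos Real.pi_pos]; norm_num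
      rw [h4]
      apply mul_le_mul_of_nonneg_left _ (by positivity)
      have h5 := abs_real_inner_le_norm x ξ
      nlinarith [norm_nonneg x, norm_nonneg ξ]
    have h4 : |(-2 * Real.pi * inner ℝ x ξ)| ^ ε ≤
        (2 * Real.pi) ^ ε * (‖ξ‖ ^ ε * (1 + ‖x‖) ^ ε) := by
      rw [← Real.mul_rpow (by positivity) (by positivity),
        ← Real.mul_rpow (by positivity) (by positivity)]
      exact Real.rpow_le_rpow (abs_nonneg _) h3 h0.le
    calc _ ≤ (2 * |(-2 * Real.pi * inner ℝ x ξ)| ^ ε) * ‖ψ x‖ :=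
          mul_le_mul_of_nonneg_right h2 (norm_nonneg _)
      _ ≤ (2 * ((2 * Real.pi) ^ ε * (‖ξ‖ ^ ε * (1 + ‖x‖) ^ ε))) * ‖ψ x‖ := by
          apply mul_le_mul_of_nonneg_right _ (norm_nonneg _)
          linarith
      _ = _ := by ring
  calc _ ≤ ∫ x, ‖Complex.exp (((-2 * Real.pi * inner ℝ x ξ : ℝ) : ℂ) * Complex.I) • ψ x -
      Complex.exp (((-2 * Real.pi * inner ℝ x (0 : E n) : ℝ) : ℂ) * Complex.I) • ψ x‖ :=
        norm_integral_le_integral_norm _
    _ ≤ ∫ x, (2 * (2 * Real.pi) ^ ε * ‖ξ‖ ^ ε) * ((1 + ‖x‖) ^ ε * ‖ψ x‖) :=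
        integral_mono ((hi ξ).sub (hi 0)).norm (h.const_mul _) hb
    _ = _ := by rw [integral_const_mul]; ring

lemma ft_eq {ψ g : E n → ℂ} (hψ : Integrable ψ) (h : IsL2Fourier ψ g) : g =ᵐ[volume] 𝓕 ψ := by
  obtain ⟨_, hg, hd⟩ := h
  apply ae_eq_of_integral_contDiff_smul_eq
  · exact hg.locallyIntegrable (by norm_num)
  · exact (continuous_ft hψ).locallyIntegrable
  · intro φ hφ hφc
    let Φ : 𝓢(E n, ℂ) := HasCompactSupport.toSchwartzMap (f := fun x => (φ x : ℂ))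
      (hφc.comp_left (g := fun x : ℝ => (x : ℂ)) (by simp))
      (Complex.ofRealCLM.contDiff.comp hφ)
    have hΦ : ∀ x, Φ x = (φ x : ℂ) := fun x => rfl
    have h1 := hd Φ
    have h2 : ∫ ξ, 𝓕 ψ ξ • Φ ξ = ∫ x, ψ x • (𝓕 Φ : 𝓢(E n, ℂ)) x := by
      rw [SchwartzMap.fourier_coe]
      simpa using! VectorFourier.integral_fourierIntegral_smul_eq_flip (L := innerₗ (E n))
        Real.continuous_fourierChar continuous_inner hψ Φ.integrable
    have e1 : ∫ x, φ x • g x = ∫ x, g x * Φ x := by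
      congr 1
      funext x
      rw [hΦ, Complex.real_smul, mul_comm]
    have e2 : ∫ x, φ x • 𝓕 ψ x = ∫ x, 𝓕 ψ x • Φ x := by
      congr 1
      funext x
      rw [hΦ, Complex.real_smul, smul_eq_mul, mul_comm]
    rw [e1, e2, h1, h2]
    rfl

lemma ae_le_of_continuous {f : E n → ℂ} {g : E n → ℝ} (hf : Continuous f) (R : ℝ)
    (hg : ContinuousOn g {x | R < ‖x‖})
    (h : ∀ᵐ x : E n, R ≤ ‖x‖ → ‖f x‖ ≤ g x) : ∀ x : E n, R < ‖x‖ → ‖f x‖ ≤ g x := by
  intro x hx
  by_contra hcon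
  push Not at hcon
  have hU : IsOpen {x : E n | R < ‖x‖} := isOpen_lt continuous_const continuous_norm
  have h1 : ∀ᶠ y in 𝓝 x, g y < ‖f y‖ := by
    have h2 : ContinuousAt g x := hg.continuousAt (hU.mem_nhds hx)
    exact h2.eventually_lt hf.norm.continuousAt hcon
  have h2 : ∀ᶠ y in 𝓝 x, R < ‖y‖ := hU.mem_nhds hx
  obtain ⟨s, hs, hso, hxs⟩ := eventually_nhds_iff.1 (h1.and h2)
  have h3 : volume s = 0 := by
    apply measure_mono_null _ (ae_iff.1 h)
    intro y hy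
    have := hs y hy
    simp only [Set.mem_ofPred_eq, Classical.not_imp, not_le]
    exact ⟨this.2.le, this.1⟩
  exact (hso.measure_pos volume ⟨x, hxs⟩).ne' h3

/-- regularity on the frequency side -/
theorem exists_reg {N : ℝ} (hN : (n : ℝ) < N) {ψ : E n → ℂ} (h : WellLocalized N ψ) :
    ∃ (v : E n → ℂ), IsL2Fourier ψ v ∧ ∀ ε, 0 < ε → ε ≤ 1 → (n : ℝ) < N - ε →
      ∃ C : ℝ, 0 ≤ C ∧ Reg N ε C v := by
  obtain ⟨hdψ, g, hg, hdg⟩ := h
  have h2 : MemLp ψ 2 volume := hg.1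
  have hψ : Integrable ψ := by
    have h3 := integrable_weight (le_refl 0) (by linarith) h2 hdψ
    exact integrable_of_weight (le_refl 0) h2.1 h3
  have hgv := ft_eq hψ hg
  have hN0 : 0 ≤ N := by
    have : (0 : ℝ) ≤ n := Nat.cast_nonneg n
    linarith
  refine ⟨𝓕 ψ, ⟨h2, (memLp_congr_ae hgv).1 hg.2.1, fun φ => ?_⟩, fun ε hε0 hε1 hε2 => ?_⟩
  · rw [← hg.2.2 φ]
    apply integral_congr_ae
    filter_upwards [hgv] with x hx
    rw [hx]
  · obtain ⟨C1, R, hR, hC1, hb⟩ := (hdg.congr hgv).exists_bound hN0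
    have hcontW : Continuous (fun x : E n => (1 + ‖x‖) ^ (-N)) :=
      (continuous_const.add continuous_norm).rpow_const
        (fun x => Or.inl (by
          have h0 := norm_nonneg x
          change (1 : ℝ) + ‖x‖ ≠ 0
          linarith))
    have h4 := ae_le_of_continuous (continuous_ft hψ) R
      (continuous_const.mul hcontW).continuousOn hb
    obtain ⟨C2, hC2⟩ := holder_ft hε0 hε1 (integrable_weight hε0.le hε2 h2 hdψ) hψ
    -- bound on the ball
    obtain ⟨C3, hC3⟩ : ∃ C3 : ℝ, ∀ x ∈ Metric.closedBall (0 : E n) R,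
        ‖𝓕 ψ x‖ ≤ C3 := by
      obtain ⟨C3, hC3⟩ := (isCompact_closedBall (0 : E n) R).exists_bound_of_continuousOn
        (continuous_ft hψ).continuousOn
      exact ⟨C3, hC3⟩
    refine ⟨max C1 (max |C2| (|C3| * (1 + R) ^ N)), le_max_of_le_left hC1, continuous_ft hψ,
      fun ξ => ?_, fun ξ => ?_⟩
    · by_cases hξ : R < ‖ξ‖
      · exact (h4 ξ hξ).trans (mul_le_mul_of_nonneg_right (le_max_left _ _) (by positivity))
      · push Not at hξ
        have h5 := hC3 ξ (by rwa [Metric.mem_closedBall, dist_zero_right])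
        have h6 : ‖𝓕 ψ ξ‖ ≤ (|C3| * (1 + R) ^ N) * (1 + ‖ξ‖) ^ (-N) := by
          rw [Real.rpow_neg (by positivity), ← div_eq_mul_inv, le_div_iff₀ (by positivity)]
          apply mul_le_mul (h5.trans (le_abs_self _)) _ (by positivity) (abs_nonneg _)
          exact Real.rpow_le_rpow (by positivity) (by linarith) hN0
        exact h6.trans (mul_le_mul_of_nonneg_right
          ((le_max_right _ _).trans (le_max_right _ _)) (by positivity))
    · refine (hC2 ξ).trans (mul_le_mul_of_nonneg_right ?_ (by positivity))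
      exact (le_abs_self C2).trans ((le_max_left _ _).trans (le_max_right _ _))

end Run7.h408
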