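import Pool.Agent.Run7.h408.Fr

/-!
The dilated Wilson system and its partial spans.
-/

set_option autoImplicit false

open MeasureTheory FourierTransform Filter Topology
open scoped ENNReal ContDiff InnerProductSpace

namespace Run7.h408

variable {n : ℕ}

/-- a smooth Wilson system -/
structure Wil (W : (Fin n → ℕ) → E n → ℂ) : Prop where
  smooth : ∀ I, ContDiff ℝ ∞ (W I)
  supp : ∀ I ξ, W I ξ ≠ 0 → ∀ d, (I d : ℝ) / 2 - 1 / 4 ≤ |ξ d| ∧ |ξ d| ≤ (I d : ℝ) / 2 + 3 / 4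
  row : ∀ I I' ξ, HasSum (fun k : Fin n → ℤ => W I (ξ + zv k) * (starRingEnd ℂ) (W I' (ξ + zv k)))
      (if I = I' then 1 else 0)
  col : ∀ ξ (k : Fin n → ℤ), HasSum (fun I => W I ξ * (starRingEnd ℂ) (W I (ξ + zv k)))
      (if k = 0 then 1 else 0)

lemma norm_le_of_coord {ξ : E n} {η : E n} (h : ∀ d, |ξ d| ≤ |η d| + 1) :
    ‖ξ‖ ≤ ‖η‖ + Real.sqrt n := by
  let a : E n := WithLp.toLp 2 (fun d => |η d|)
  let b : E n := WithLp.toLp 2 (fun _ => (1 : ℝ))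
  have ha : ‖a‖ = ‖η‖ := by
    rw [EuclideanSpace.norm_eq, EuclideanSpace.norm_eq]
    congr 1
    apply Finset.sum_congr rfl
    intro d _
    simp [a]
  have hb : ‖b‖ = Real.sqrt n := by
    rw [EuclideanSpace.norm_eq]
    simp [b]
  have hξ : ‖ξ‖ ≤ ‖a + b‖ := by
    rw [EuclideanSpace.norm_eq, EuclideanSpace.norm_eq]
    apply Real.sqrt_le_sqrt
    apply Finset.sum_le_sum
    intro d _
    have h1 := h d
    have h2 : (a + b) d = |η d| + 1 := rfl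
    rw [h2, Real.norm_eq_abs, Real.norm_eq_abs]
    have h3 : 0 ≤ |η d| + 1 := by positivity
    rw [abs_of_nonneg h3]
    exact pow_le_pow_left₀ (abs_nonneg _) h1 2
  calc ‖ξ‖ ≤ ‖a + b‖ := hξ
    _ ≤ ‖a‖ + ‖b‖ := norm_add_le _ _
    _ = _ := by rw [ha, hb]

namespace Wil

variable {W : (Fin n → ℕ) → E n → ℂ} (hW : Wil W)

include hW

lemma cs (I : Fin n → ℕ) : CS (W I) := by
  refine ⟨hW.smooth I, ?_⟩
  apply HasCompactSupport.of_support_subset_isCompact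
    (isCompact_closedBall (0 : E n) (Real.sqrt (∑ d, ((I d : ℝ) / 2 + 3 / 4) ^ 2)))
  intro ξ hξ
  rw [Function.mem_support] at hξ
  rw [Metric.mem_closedBall, dist_zero_right, EuclideanSpace.norm_eq]
  apply Real.sqrt_le_sqrt
  apply Finset.sum_le_sum
  intro d _
  rw [Real.norm_eq_abs]
  exact pow_le_pow_left₀ (abs_nonneg _) (hW.supp I ξ hξ d).2 2

/-- the system at the origin -/
noncomputable def U0 (I : Fin n → ℕ) (κ : Fin n → ℤ) : L2 n := cl ((hW.cs I).conj_ee_mul κ)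

lemma br_W (I I' : Fin n → ℕ) (ξ : E n) : br (W I) (W I') ξ = if I = I' then 1 else 0 :=
  (hW.row I I' ξ).tsum_eq

lemma inner_U0 (I I' : Fin n → ℕ) (κ κ' : Fin n → ℤ) :
    ⟪hW.U0 I κ, hW.U0 I' κ'⟫_ℂ = if I = I' ∧ κ = κ' then 1 else 0 := by
  have e0 : ⟪hW.U0 I κ, hW.U0 I' κ'⟫_ℂ =
      ∫ ξ, (cl (hW.cs I') ξ * (starRingEnd ℂ) (W I ξ)) * ee (κ - κ') ξ := by
    unfold U0
    rw [inner_cl_eg (hW.cs I)]
    apply integral_congr_ae
    filter_upwards [coeFn_cl ((hW.cs I').conj_ee_mul κ'), coeFn_cl (hW.cs I')] with ξ h1 h2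
    rw [h1, h2]
    unfold eg
    rw [sub_eq_add_neg, ee_add, ← conj_ee]
    ring
  rw [e0, integral_br_per (cl (hW.cs I')) (hW.cs I) (if I' = I then 1 else 0) (by
    filter_upwards [br_congr_ae (coeFn_cl (hW.cs I')) (W I)] with ξ hξ
    rw [hξ, hW.br_W]) (contDiff_ee _).continuous (fun ξ m => ee_per _ m ξ), cube_ee]
  by_cases h1 : I = I'
  · by_cases h2 : κ = κ'
    · simp [h1, h2]
    · simp [h1, h2, sub_eq_zero]
  · simp [h1, Ne.symm h1]

lemma finite_ne (ξ : E n) : {I : Fin n → ℕ | W I ξ ≠ 0}.Finite := by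
  apply (Set.Finite.pi (fun d : Fin n => Set.finite_Iic ⌈2 * |ξ d| + 1⌉₊)).subset
  intro I hI
  rw [Set.mem_pi]
  intro d _
  have h1 := (hW.supp I ξ hI d).1
  rw [Set.mem_Iic]
  have h2 : (I d : ℝ) ≤ (⌈2 * |ξ d| + 1⌉₊ : ℝ) := by
    refine le_trans ?_ (Nat.le_ceil _)
    linarith
  exact_mod_cast h2

lemma tot_U0 (u : L2 n) (h : ∀ I κ, ⟪hW.U0 I κ, u⟫_ℂ = 0) : u = 0 := by
  have h1 : ∀ I, ∀ᵐ ξ : E n, br u (W I) ξ = 0 := by
    intro I
    rw [← orth_iff_br u (hW.cs I)]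
    intro k
    exact h I k
  rw [← ae_all_iff] at h1
  apply Lp.ext
  filter_upwards [h1, Lp.coeFn_zero ℂ 2 (volume : Measure (E n))] with ξ hξ h0
  rw [h0, Pi.zero_apply]
  -- the finite set of indices
  set F := (hW.finite_ne ξ).toFinset with hF
  have hF' : ∀ I, I ∉ F → W I ξ = 0 := by
    intro I hI
    by_contra hne
    exact hI ((Set.Finite.mem_toFinset _).2 hne)
  have h2 : ∑ I ∈ F, W I ξ * br u (W I) ξ = 0 := by
    apply Finset.sum_eq_zero
    intro I _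
    rw [hξ I, mul_zero]
  have h3 : ∀ I, HasSum (fun m : Fin n → ℤ =>
      W I ξ * (u (ξ + zv m) * (starRingEnd ℂ) (W I (ξ + zv m)))) (W I ξ * br u (W I) ξ) := by
    intro I
    exact (summable_br u (hW.cs I).2 ξ).hasSum.mul_left _
  have h4 := hasSum_sum (s := F) (fun I _ => h3 I)
  rw [h2] at h4
  have h5 : (fun m : Fin n → ℤ => ∑ I ∈ F, W I ξ *
      (u (ξ + zv m) * (starRingEnd ℂ) (W I (ξ + zv m)))) =
      fun m => if m = 0 then u ξ else 0 := by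
    funext m
    have h6 : ∑ I ∈ F, W I ξ * (u (ξ + zv m) * (starRingEnd ℂ) (W I (ξ + zv m))) =
        u (ξ + zv m) * ∑ I ∈ F, W I ξ * (starRingEnd ℂ) (W I (ξ + zv m)) := by
      rw [Finset.mul_sum]
      apply Finset.sum_congr rfl
      intro I _
      ring
    have h7 : ∑ I ∈ F, W I ξ * (starRingEnd ℂ) (W I (ξ + zv m)) = if m = 0 then 1 else 0 := by
      rw [← (hW.col ξ m).tsum_eq]
      symm
      apply tsum_eq_sum
      intro I hI
      rw [hF' I hI, zero_mul]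
    rw [h6, h7]
    by_cases hm : m = 0
    · rw [if_pos hm, if_pos hm, hm, zv_zero, add_zero, mul_one]
    · rw [if_neg hm, if_neg hm, mul_zero]
  rw [h5] at h4
  have h8 := hasSum_ite_eq (0 : Fin n → ℤ) (u ξ)
  exact h8.unique h4

/-- the dilated system -/
noncomputable def UG (G : GL (Fin n) ℝ) (I : Fin n → ℕ) (κ : Fin n → ℤ) : L2 n :=
  dil G (hW.U0 I κ)

lemma inner_UG (G : GL (Fin n) ℝ) (I I' : Fin n → ℕ) (κ κ' : Fin n → ℤ) :
    ⟪hW.UG G I κ, hW.UG G I' κ'⟫_ℂ = if I = I' ∧ κ = κ' then 1 else 0 := by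
  unfold UG
  rw [LinearIsometryEquiv.inner_map_map, inner_U0]

lemma tot_UG (G : GL (Fin n) ℝ) (u : L2 n) (h : ∀ I κ, ⟪hW.UG G I κ, u⟫_ℂ = 0) : u = 0 := by
  have h1 : (dil G).symm u = 0 := by
    apply hW.tot_U0
    intro I κ
    rw [← LinearIsometryEquiv.inner_map_map (dil G), LinearIsometryEquiv.apply_symm_apply]
    exact h I κ
  exact (LinearIsometryEquiv.map_eq_zero_iff _).1 h1

/-- functions in the dilated system -/
noncomputable def uG (_ : Wil W) (G : GL (Fin n) ℝ) (I : Fin n → ℕ) (κ : Fin n → ℤ) (ξ : E n) : ℂ :=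
  ((Real.sqrt |(G : Matrix (Fin n) (Fin n) ℝ).det| : ℝ) : ℂ) *
    eg κ (W I) (act (G : Matrix (Fin n) (Fin n) ℝ) ξ)

lemma cs_uG (G : GL (Fin n) ℝ) (I : Fin n → ℕ) (κ : Fin n → ℤ) : CS (hW.uG G I κ) := by
  have h1 := (hW.cs I).conj_ee_mul κ
  constructor
  · exact contDiff_const.mul (h1.1.comp (contDiff_act _))
  · unfold uG
    apply HasCompactSupport.mul_left
    exact h1.2.comp_homeomorph (toE G).toHomeomorph

lemma cl_uG (G : GL (Fin n) ℝ) (I : Fin n → ℕ) (κ : Fin n → ℤ) :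
    cl (hW.cs_uG G I κ) = hW.UG G I κ := by
  apply Lp.ext
  unfold UG U0
  filter_upwards [coeFn_cl (hW.cs_uG G I κ), coeFn_dil G (cl ((hW.cs I).conj_ee_mul κ)),
    (qmp_act G).ae (coeFn_cl ((hW.cs I).conj_ee_mul κ))] with ξ h1 h2 h3
  rw [h1, h2, h3]
  rfl

/-- the closed span of the functions with index in `S`, described by orthogonality -/
noncomputable def VG (G : GL (Fin n) ℝ) (S : Finset (Fin n → ℕ)) : Submodule ℂ (L2 n) :=
  (Submodule.span ℂ {x | ∃ I κ, I ∉ S ∧ x = hW.UG G I κ})ᗮ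

lemma mem_VG (G : GL (Fin n) ℝ) (S : Finset (Fin n → ℕ)) (v : L2 n) :
    v ∈ hW.VG G S ↔ ∀ I ∉ S, ∀ κ, ⟪hW.UG G I κ, v⟫_ℂ = 0 := by
  unfold VG
  constructor
  · intro h I hI κ
    exact (Submodule.mem_orthogonal _ _).1 h _ (Submodule.subset_span ⟨I, κ, hI, rfl⟩)
  · intro h
    rw [Submodule.mem_orthogonal]
    intro x hx
    induction hx using Submodule.span_induction with
    | mem x hx => obtain ⟨I, κ, hI, rfl⟩ := hx; exact h I hI κ
    | zero => simp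
    | add x y _ _ hx hy => rw [inner_add_left, hx, hy, add_zero]
    | smul a x _ hx => rw [inner_smul_left, hx, mul_zero]

instance (G : GL (Fin n) ℝ) (S : Finset (Fin n → ℕ)) : (hW.VG G S).HasOrthogonalProjection := by
  unfold VG
  infer_instance

lemma UG_mem (G : GL (Fin n) ℝ) (S : Finset (Fin n → ℕ)) {I : Fin n → ℕ} (hI : I ∈ S)
    (κ : Fin n → ℤ) : hW.UG G I κ ∈ hW.VG G S := by
  rw [mem_VG]
  intro I' hI' κ'
  rw [inner_UG, if_neg]
  rintro ⟨rfl, _⟩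
  exact hI' hI

lemma tot_VG (G : GL (Fin n) ℝ) (S : Finset (Fin n → ℕ)) (u : L2 n)
    (h : ∀ I ∈ S, ∀ κ, ⟪hW.UG G I κ, u⟫_ℂ = 0) : ∀ v ∈ hW.VG G S, ⟪v, u⟫_ℂ = 0 := by
  intro v hv
  have hqi : ∀ x ∈ hW.VG G S, ⟪x, (hW.VG G S).starProjection u⟫_ℂ = ⟪x, u⟫_ℂ := by
    intro x hx
    have h1 : ⟪x, u - (hW.VG G S).starProjection u⟫_ℂ = 0 := by
      have := (hW.VG G S).sub_starProjection_mem_orthogonal u
      exact (Submodule.mem_orthogonal _ _).1 this x hx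
    rw [inner_sub_right, sub_eq_zero] at h1
    exact h1.symm
  have h0 : (hW.VG G S).starProjection u = 0 := by
    apply hW.tot_UG G
    intro I κ
    by_cases hI : I ∈ S
    · rw [hqi _ (hW.UG_mem G S hI κ), h I hI κ]
    · exact (hW.mem_VG G S _).1 ((hW.VG G S).starProjection_apply_mem u) I hI κ
  rw [← hqi v hv, h0, inner_zero_right]

end Wil

end Run7.h408
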