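import Pool.Agent.Run7.h408.Grow

/-!
The local form of the completeness relation.
-/

set_option autoImplicit false

open MeasureTheory FourierTransform Filter Topology
open scoped ENNReal ContDiff InnerProductSpace

namespace Run7.h408

variable {n : ℕ}

/-! ### the Plancherel identity of the system -/

lemma exists_hilbert (A : GL (Fin n) ℝ) {L : ℕ} {v : Fin L → E n → ℂ} (hb : IsFreqBasis A v) :
    ∃ b : HilbertBasis (WI n L) ℂ (L2 n), ∀ i, (b i : E n → ℂ) =ᵐ[volume]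
      fw A (v i.1) i.2.1 i.2.2 := by
  let ψ : Fin L → L2 n := fun l => 𝓕⁻ ((hb.1 l).toLp (v l))
  have h1 : ∀ l, v l =ᵐ[volume] ((𝓕 (ψ l) : L2 n) : E n → ℂ) := by
    intro l
    have h2 : (𝓕 (ψ l) : L2 n) = (hb.1 l).toLp (v l) :=
      FourierTransform.fourier_fourierInv_eq _
    rw [h2]
    exact ((hb.1 l).coeFn_toLp).symm
  have h2 := hb.congr h1
  rw [iff_fw] at h2
  obtain ⟨h3, h4⟩ := h2
  have h5 : (Submodule.span ℂ (Set.range (fun i : WI n L =>
      (𝓕 (wL A (ψ i.1) i.2.1 i.2.2) : L2 n))))ᗮ = ⊥ := by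
    rw [Submodule.eq_bot_iff]
    intro u hu
    apply h4
    intro i
    exact (Submodule.mem_orthogonal _ _).1 hu _ (Submodule.subset_span ⟨i, rfl⟩)
  refine ⟨HilbertBasis.mkOfOrthogonalEqBot h3 h5, fun i => ?_⟩
  rw [HilbertBasis.coe_mkOfOrthogonalEqBot]
  exact (coeFn_fourier_wL A (ψ i.1) i.2.1 i.2.2).trans (fw_congr A (h1 i.1).symm _ _)

lemma hasSum_coef (A : GL (Fin n) ℝ) {L : ℕ} {v : Fin L → E n → ℂ} (hb : IsFreqBasis A v)
    {F G : E n → ℂ} (hF : MemLp F 2 volume) (hG : MemLp G 2 volume) :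
    HasSum (fun i : WI n L => (∫ ξ, F ξ * (starRingEnd ℂ) (fw A (v i.1) i.2.1 i.2.2 ξ)) *
      (starRingEnd ℂ) (∫ ξ, G ξ * (starRingEnd ℂ) (fw A (v i.1) i.2.1 i.2.2 ξ)))
      (∫ ξ, F ξ * (starRingEnd ℂ) (G ξ)) := by
  obtain ⟨b, hbb⟩ := exists_hilbert A hb
  have h1 := b.hasSum_inner_mul_inner (hG.toLp G) (hF.toLp F)
  have e1 : ⟪hG.toLp G, hF.toLp F⟫_ℂ = ∫ ξ, F ξ * (starRingEnd ℂ) (G ξ) := by
    rw [inner_L2']
    apply integral_congr_ae
    filter_upwards [hF.coeFn_toLp, hG.coeFn_toLp] with ξ h2 h3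
    rw [h2, h3]
  have e2 : ∀ (H : E n → ℂ) (hH : MemLp H 2 volume) (i : WI n L), ⟪b i, hH.toLp H⟫_ℂ =
      ∫ ξ, H ξ * (starRingEnd ℂ) (fw A (v i.1) i.2.1 i.2.2 ξ) := by
    intro H hH i
    rw [inner_L2']
    apply integral_congr_ae
    filter_upwards [hH.coeFn_toLp, hbb i] with ξ h2 h3
    rw [h2, h3]
  rw [e1] at h1
  refine h1.congr_fun ?_
  intro i
  rw [← inner_conj_symm, e2 G hG i, e2 F hF i, mul_comm]

/-- the dilated function -/
noncomputable def fj (A : GL (Fin n) ℝ) (j : ℤ) (F : E n → ℂ) (η : E n) : ℂ :=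
  ((|(A : Matrix (Fin n) (Fin n) ℝ).det| ^ ((j : ℝ) / 2) : ℝ) : ℂ) * F (bj A j η)

/-- the contribution of the level `j` and of the generator `l` -/
noncomputable def tau1 (A : GL (Fin n) ℝ) (v : E n → ℂ) (j : ℤ) (F G : E n → ℂ) : ℂ :=
  ∫ η in cube n, per (fun η => fj A j F η * (starRingEnd ℂ) (v η)) η *
    (starRingEnd ℂ) (per (fun η => fj A j G η * (starRingEnd ℂ) (v η)) η)

lemma continuous_fj (A : GL (Fin n) ℝ) (j : ℤ) {F : E n → ℂ} (hF : Continuous F) :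
    Continuous (fj A j F) :=
  continuous_const.mul (hF.comp (continuous_bj A j))

lemma compact_fj (A : GL (Fin n) ℝ) (j : ℤ) {F : E n → ℂ} (hF : HasCompactSupport F) :
    HasCompactSupport (fj A j F) := by
  unfold fj
  apply HasCompactSupport.mul_left
  exact hF.comp_homeomorph (toE (tr (A ^ j))).toHomeomorph

lemma hasSum_tau (A : GL (Fin n) ℝ) {L : ℕ} {v : Fin L → E n → ℂ} (hb : IsFreqBasis A v)
    (hc : ∀ l, Continuous (v l)) {F G : E n → ℂ} (hF : Continuous F) (hFc : HasCompactSupport F)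
    (hG : Continuous G) (hGc : HasCompactSupport G) :
    HasSum (fun j : ℤ => ∑ l, tau1 A (v l) j F G) (∫ ξ, F ξ * (starRingEnd ℂ) (G ξ)) := by
  have h1 := hasSum_coef A hb (hF.memLp_of_hasCompactSupport hFc)
    (hG.memLp_of_hasCompactSupport hGc)
  let e : (ℤ × Fin L) × (Fin n → ℤ) ≃ WI n L :=
    { toFun := fun p => (p.1.2, p.1.1, p.2)
      invFun := fun p => ((p.2.1, p.1), p.2.2)
      left_inv := fun _ => rfl
      right_inv := fun _ => rfl }
  rw [← e.hasSum_iff] at h1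
  have h2 := h1.prod_fiberwise (g := fun p : ℤ × Fin L => tau1 A (v p.2) p.1 F G) (by
    rintro ⟨j, l⟩
    have h3 := parseval (fun η => fj A j F η * (starRingEnd ℂ) (v l η))
      (fun η => fj A j G η * (starRingEnd ℂ) (v l η))
      ((continuous_fj A j hF).mul (Complex.continuous_conj.comp (hc l)))
      ((compact_fj A j hFc).mul_right)
      ((continuous_fj A j hG).mul (Complex.continuous_conj.comp (hc l)))
      ((compact_fj A j hGc).mul_right)
    refine h3.congr_fun ?_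
    intro k
    change (∫ ξ, F ξ * (starRingEnd ℂ) (fw A (v l) j k ξ)) *
      (starRingEnd ℂ) (∫ ξ, G ξ * (starRingEnd ℂ) (fw A (v l) j k ξ)) = _
    rw [coef_eq, coef_eq]
    rfl)
  exact h2.prod_fiberwise (fun j => hasSum_fintype _)

/-! ### lattice sums -/

lemma exists_near (η : E n) : ∃ m : Fin n → ℤ, ‖η - zv m‖ ≤ Real.sqrt n := by
  have h1 : η ∈ ⋃ m : Fin n → ℤ, tile m := by rw [iUnion_tile]; trivial
  rw [Set.mem_iUnion] at h1
  obtain ⟨m, hm⟩ := h1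
  refine ⟨m, ?_⟩
  rw [EuclideanSpace.norm_eq]
  apply Real.sqrt_le_sqrt
  calc ∑ i, ‖(η - zv m) i‖ ^ 2 ≤ ∑ _i : Fin n, (1 : ℝ) := by
        apply Finset.sum_le_sum
        intro i _
        have h4 := hm i
        rw [Set.mem_Ioc] at h4
        have h5 : (η - zv m) i = η i - m i := rfl
        rw [h5, Real.norm_eq_abs, abs_of_nonneg (by linarith [h4.1])]
        nlinarith [h4.1, h4.2]
    _ = n := by simp

lemma exists_lattice_bound {N : ℝ} (hN : (n : ℝ) < N) :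
    ∃ C1 : ℝ, 0 ≤ C1 ∧ ∀ η : E n, Summable (fun m : Fin n → ℤ => (1 + ‖η + zv m‖) ^ (-N)) ∧
      ∑' m : Fin n → ℤ, (1 + ‖η + zv m‖) ^ (-N) ≤ C1 := by
  have hN0 : 0 ≤ N := by
    have : (0 : ℝ) ≤ n := Nat.cast_nonneg n
    linarith
  have hint : Integrable (fun x : E n => (((1 + ‖x‖) ^ (-N) : ℝ) : ℂ)) := by
    apply Integrable.ofReal
    apply integrable_one_add_norm
    rw [finrank_euclideanSpace_fin]
    exact hN
  obtain ⟨ξ0, h0⟩ := (per_ae hint).exists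
  have h1 : Summable (fun m : Fin n → ℤ => (1 + ‖ξ0 + zv m‖) ^ (-N)) := by
    refine h0.congr fun m => ?_
    rw [Complex.norm_real, Real.norm_eq_abs, abs_of_nonneg (by positivity)]
  set D : ℝ := ‖ξ0‖ + Real.sqrt n with hD
  have hD0 : 0 ≤ D := by positivity
  have hcomp : ∀ (η : E n), ‖η‖ ≤ Real.sqrt n → ∀ m : Fin n → ℤ,
      (1 + ‖η + zv m‖) ^ (-N) ≤ (1 + D) ^ N * (1 + ‖ξ0 + zv m‖) ^ (-N) := by
    intro η hη m
    have h2 : 1 + ‖ξ0 + zv m‖ ≤ (1 + D) * (1 + ‖η + zv m‖) := by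
      have h3 : ‖ξ0 + zv m‖ ≤ ‖η + zv m‖ + ‖ξ0 - η‖ := by
        have : ξ0 + zv m = (η + zv m) + (ξ0 - η) := by abel
        rw [this]
        exact norm_add_le _ _
      have h4 : ‖ξ0 - η‖ ≤ D := (norm_sub_le _ _).trans (by rw [hD]; linarith)
      nlinarith [norm_nonneg (η + zv m)]
    rw [Real.rpow_neg (by positivity), Real.rpow_neg (by positivity), ← div_eq_mul_inv,
      inv_le_comm₀ (by positivity) (by positivity), inv_div, div_le_iff₀ (by positivity),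
      mul_comm, ← Real.mul_rpow (by positivity) (by positivity)]
    exact Real.rpow_le_rpow (by positivity) h2 hN0
  refine ⟨(1 + D) ^ N * ∑' m : Fin n → ℤ, (1 + ‖ξ0 + zv m‖) ^ (-N), by positivity, fun η => ?_⟩
  obtain ⟨m0, hm0⟩ := exists_near η
  have h2 := hcomp (η - zv m0) hm0
  have h3 : Summable (fun m : Fin n → ℤ => (1 + ‖η - zv m0 + zv m‖) ^ (-N)) :=
    Summable.of_nonneg_of_le (fun m => by positivity) h2 (h1.mul_left _)
  have h4 : (fun m : Fin n → ℤ => (1 + ‖η + zv m‖) ^ (-N)) =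
      (fun m : Fin n → ℤ => (1 + ‖η - zv m0 + zv m‖) ^ (-N)) ∘ (Equiv.addLeft m0) := by
    funext m
    simp only [Function.comp_apply, Equiv.coe_addLeft, zv_add]
    congr 3
    abel
  rw [h4]
  refine ⟨(Equiv.addLeft m0).summable_iff.2 h3, ?_⟩
  have h5 := (Equiv.addLeft m0).tsum_eq (fun m : Fin n → ℤ => (1 + ‖η - zv m0 + zv m‖) ^ (-N))
  have h6 : ∑' m, ((fun m : Fin n → ℤ => (1 + ‖η - zv m0 + zv m‖) ^ (-N)) ∘ (Equiv.addLeft m0)) m =
      ∑' m, (1 + ‖η - zv m0 + zv m‖) ^ (-N) := h5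
  rw [h6, ← tsum_mul_left]
  exact h3.tsum_le_tsum h2 (h1.mul_left _)

end Run7.h408
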