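import Pool.Agent.Run7.h408.Bump

/-!
The pointwise completeness equations.
-/

set_option autoImplicit false

open MeasureTheory FourierTransform Filter Topology
open scoped ENNReal ContDiff InnerProductSpace

namespace Run7.h408

variable {n : ℕ}

/-- the energy of a level -/
noncomputable def II (A : GL (Fin n) ℝ) (v : E n → ℂ) (j : ℤ) (F : E n → ℂ) : ℝ :=
  ∫ η in cube n, ‖per (fun η => fj A j F η * (starRingEnd ℂ) (v η)) η‖ ^ 2

lemma tau1_self (A : GL (Fin n) ℝ) (v : E n → ℂ) (j : ℤ) (F : E n → ℂ) :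
    tau1 A v j F F = (II A v j F : ℂ) := by
  unfold tau1 II
  have h1 : ∀ η, per (fun η => fj A j F η * (starRingEnd ℂ) (v η)) η *
      (starRingEnd ℂ) (per (fun η => fj A j F η * (starRingEnd ℂ) (v η)) η) =
      ((‖per (fun η => fj A j F η * (starRingEnd ℂ) (v η)) η‖ ^ 2 : ℝ) : ℂ) := by
    intro η
    rw [Complex.mul_conj, Complex.normSq_eq_norm_sq]
  simp only [h1]
  exact integral_ofReal

lemma II_nonneg (A : GL (Fin n) ℝ) (v : E n → ℂ) (j : ℤ) (F : E n → ℂ) : 0 ≤ II A v j F :=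
  integral_nonneg fun _ => sq_nonneg _

lemma integrableOn_per_sq {f : E n → ℂ} (hf : Continuous f) (hfc : HasCompactSupport f) :
    IntegrableOn (fun η => ‖per f η‖ ^ 2) (cube n) := by
  have h1 : IntegrableOn (fun η => per f η ^ 2) (cube n) := by
    apply integrableOn_cube
    · exact (continuous_per hfc hf).pow 2
    · intro ξ k
      rw [per_per]
  refine h1.norm.congr (ae_of_all _ fun η => ?_)
  simp only [norm_pow]

lemma norm_tau1_le (A : GL (Fin n) ℝ) {v : E n → ℂ} (hv : Continuous v) (j : ℤ) {F G : E n → ℂ}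
    (hF : Continuous F) (hFc : HasCompactSupport F) (hG : Continuous G)
    (hGc : HasCompactSupport G) :
    ‖tau1 A v j F G‖ ≤ (II A v j F + II A v j G) / 2 := by
  have h1 := integrableOn_per_sq ((continuous_fj A j hF).mul (Complex.continuous_conj.comp hv))
    ((compact_fj A j hFc).mul_right)
  have h2 := integrableOn_per_sq ((continuous_fj A j hG).mul (Complex.continuous_conj.comp hv))
    ((compact_fj A j hGc).mul_right)
  have h3 : (II A v j F + II A v j G) / 2 = ∫ η in cube n,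
      (‖per (fun η => fj A j F η * (starRingEnd ℂ) (v η)) η‖ ^ 2 +
      ‖per (fun η => fj A j G η * (starRingEnd ℂ) (v η)) η‖ ^ 2) / 2 := by
    rw [integral_div]
    congr 1
    exact (integral_add h1 h2).symm
  rw [h3]
  unfold tau1
  apply norm_integral_le_of_norm_le ((h1.add h2).div_const 2)
  refine ae_of_all _ fun η => ?_
  change _ ≤ (‖per (fun η => fj A j F η * (starRingEnd ℂ) (v η)) η‖ ^ 2 +
      ‖per (fun η => fj A j G η * (starRingEnd ℂ) (v η)) η‖ ^ 2) / 2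
  rw [norm_mul, RCLike.norm_conj]
  nlinarith [sq_nonneg (‖per (fun η => fj A j F η * (starRingEnd ℂ) (v η)) η‖ -
    ‖per (fun η => fj A j G η * (starRingEnd ℂ) (v η)) η‖)]

lemma integral_fj_sq (A : GL (Fin n) ℝ) (j : ℤ) (F : E n → ℂ) :
    ∫ η, ‖fj A j F η‖ ^ 2 = ∫ ξ, ‖F ξ‖ ^ 2 := by
  have h5 : 0 < |(A : Matrix (Fin n) (Fin n) ℝ).det| := abs_pos.2 (det_ne_zero_GL A)
  have h1 := integral_bj A j (fun ξ => ((‖F ξ‖ ^ 2 : ℝ) : ℂ))
  have h2 : ∀ η, ‖fj A j F η‖ ^ 2 = |(A : Matrix (Fin n) (Fin n) ℝ).det| ^ (j : ℝ) *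
      ‖F (bj A j η)‖ ^ 2 := by
    intro η
    unfold fj
    rw [norm_mul, mul_pow, Complex.norm_real, Real.norm_eq_abs, sq_abs, ← Real.rpow_natCast,
      ← Real.rpow_mul h5.le]
    congr 2
    push_cast
    ring
  simp only [h2]
  rw [integral_const_mul]
  have h3 : ∫ η, ((‖F (bj A j η)‖ ^ 2 : ℝ) : ℂ) = ((∫ η, ‖F (bj A j η)‖ ^ 2 : ℝ) : ℂ) :=
    integral_ofReal
  have h4 : ∫ η, ((‖F η‖ ^ 2 : ℝ) : ℂ) = ((∫ η, ‖F η‖ ^ 2 : ℝ) : ℂ) := integral_ofReal
  rw [h3, h4, ← Complex.ofReal_mul] at h1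
  have h6 := Complex.ofReal_injective h1
  rw [h6, ← mul_assoc, ← Real.rpow_add h5, add_neg_cancel, Real.rpow_zero, one_mul]

lemma II_le (A : GL (Fin n) ℝ) {v : E n → ℂ} (hv : Continuous v) {N C C1 s : ℝ} (hC : 0 ≤ C)
    (hs : 0 ≤ s) (hdec : ∀ ξ, ‖v ξ‖ ≤ C * (1 + ‖ξ‖) ^ (-N))
    (hC1 : ∀ η : E n, Summable (fun m : Fin n → ℤ => (1 + ‖η + zv m‖) ^ (-N)) ∧
      ∑' m : Fin n → ℤ, (1 + ‖η + zv m‖) ^ (-N) ≤ C1)
    (j : ℤ) {F : E n → ℂ} (hF : Continuous F) (hFc : HasCompactSupport F)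
    (hFs : ∀ ξ, F ξ ≠ 0 → ‖v (bj A (-j) ξ)‖ ≤ s) :
    II A v j F ≤ C * C1 * s * ∫ ξ, ‖F ξ‖ ^ 2 := by
  have hC10 : 0 ≤ C1 := le_trans (tsum_nonneg fun m => by positivity) (hC1 0).2
  set q : E n → ℂ := fun η => ((‖fj A j F η‖ ^ 2 : ℝ) : ℂ) with hq
  have hqc : HasCompactSupport q := by
    apply HasCompactSupport.intro (compact_fj A j hFc).isCompact
    intro x hx
    rw [hq]
    simp only
    rw [image_eq_zero_of_notMem_tsupport hx]
    simp
  have hqcont : Continuous q :=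
    Complex.continuous_ofReal.comp ((continuous_fj A j hF).norm.pow 2)
  have hpt : ∀ η, ‖per (fun η => fj A j F η * (starRingEnd ℂ) (v η)) η‖ ^ 2 ≤
      C * C1 * s * (per q η).re := by
    intro η
    have hfin := finite_supp (compact_fj A j hFc) ‖η‖
    set S : Finset (Fin n → ℤ) := hfin.toFinset with hS
    have hnot : ∀ m ∉ S, fj A j F (η + zv m) = 0 := by
      intro m hm
      by_contra hne
      apply hm
      rw [hS, Set.Finite.mem_toFinset]
      exact ⟨η, le_rfl, hne⟩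
    have e1 : per (fun η => fj A j F η * (starRingEnd ℂ) (v η)) η =
        ∑ m ∈ S, fj A j F (η + zv m) * (starRingEnd ℂ) (v (η + zv m)) := by
      unfold per
      apply tsum_eq_sum
      intro m hm
      change fj A j F (η + zv m) * (starRingEnd ℂ) (v (η + zv m)) = 0
      rw [hnot m hm, zero_mul]
    have e2 : (per q η).re = ∑ m ∈ S, ‖fj A j F (η + zv m)‖ ^ 2 := by
      unfold per
      rw [tsum_eq_sum (s := S) (by
        intro m hm
        change ((‖fj A j F (η + zv m)‖ ^ 2 : ℝ) : ℂ) = 0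
        rw [hnot m hm]
        simp)]
      rw [Complex.re_sum]
      rfl
    have e3 : ‖per (fun η => fj A j F η * (starRingEnd ℂ) (v η)) η‖ ≤
        ∑ m ∈ S, ‖fj A j F (η + zv m)‖ * (if fj A j F (η + zv m) = 0 then 0 else
          ‖v (η + zv m)‖) := by
      rw [e1]
      refine (norm_sum_le _ _).trans (Finset.sum_le_sum fun m _ => ?_)
      rw [norm_mul, RCLike.norm_conj]
      split_ifs with h0
      · rw [h0]; simp
      · exact le_rfl
    have e4 : ∑ m ∈ S, (if fj A j F (η + zv m) = 0 then 0 else ‖v (η + zv m)‖) ^ 2 ≤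
        C * C1 * s := by
      calc ∑ m ∈ S, (if fj A j F (η + zv m) = 0 then 0 else ‖v (η + zv m)‖) ^ 2 ≤
          ∑ m ∈ S, s * (C * (1 + ‖η + zv m‖) ^ (-N)) := by
            apply Finset.sum_le_sum
            intro m _
            split_ifs with h0
            · rw [zero_pow two_ne_zero]; positivity
            · have h1 : F (bj A j (η + zv m)) ≠ 0 := by
                intro h2
                apply h0
                unfold fj
                rw [h2, mul_zero]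
              have h2 := hFs _ h1
              rw [bj_neg_bj] at h2
              rw [sq]
              exact mul_le_mul h2 (hdec _) (norm_nonneg _) hs
        _ = s * C * ∑ m ∈ S, (1 + ‖η + zv m‖) ^ (-N) := by
            rw [Finset.mul_sum]
            apply Finset.sum_congr rfl
            intro m _
            ring
        _ ≤ s * C * C1 := by
            apply mul_le_mul_of_nonneg_left _ (by positivity)
            exact ((hC1 η).1.sum_le_tsum S (fun m _ => by positivity)).trans (hC1 η).2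
        _ = C * C1 * s := by ring
    have e5 := Finset.sum_mul_sq_le_sq_mul_sq S (fun m => ‖fj A j F (η + zv m)‖)
      (fun m => if fj A j F (η + zv m) = 0 then 0 else ‖v (η + zv m)‖)
    calc ‖per (fun η => fj A j F η * (starRingEnd ℂ) (v η)) η‖ ^ 2 ≤
        (∑ m ∈ S, ‖fj A j F (η + zv m)‖ * (if fj A j F (η + zv m) = 0 then 0 else
          ‖v (η + zv m)‖)) ^ 2 := pow_le_pow_left₀ (norm_nonneg _) e3 2
      _ ≤ _ := e5
      _ ≤ (∑ m ∈ S, ‖fj A j F (η + zv m)‖ ^ 2) * (C * C1 * s) := by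
          apply mul_le_mul_of_nonneg_left e4
          exact Finset.sum_nonneg fun m _ => sq_nonneg _
      _ = C * C1 * s * (per q η).re := by rw [e2]; ring
  have hint : IntegrableOn (fun η => (per q η).re) (cube n) := by
    have h1 : IntegrableOn (per q) (cube n) :=
      integrableOn_cube (continuous_per hqc hqcont) (per_per q)
    exact h1.re
  have h1 : ∫ η in cube n, (per q η).re = ∫ ξ, ‖F ξ‖ ^ 2 := by
    have h2 : IntegrableOn (per q) (cube n) :=
      integrableOn_cube (continuous_per hqc hqcont) (per_per q)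
    have h3 : ∫ η in cube n, (per q η).re = (∫ η in cube n, per q η).re := integral_re h2
    have h4 := integral_per (hqcont.integrable_of_hasCompactSupport hqc) 0
    rw [tile_zero] at h4
    have h5 : ∫ η in cube n, per q η = ∫ ξ, q ξ := h4
    have h6 : ∫ ξ, q ξ = ((∫ η, ‖fj A j F η‖ ^ 2 : ℝ) : ℂ) := integral_ofReal
    rw [h3, h5, h6, Complex.ofReal_re, integral_fj_sq]
  rw [← h1, ← integral_const_mul]
  apply integral_mono_of_nonneg
  · exact ae_of_all _ fun _ => sq_nonneg _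
  · exact hint.const_mul _
  · exact ae_of_all _ hpt

/-! ### the limits -/

open Classical in
/-- the term of level `j` of the equation of index `α` at `ξ₀` -/
noncomputable def TT (A : GL (Fin n) ℝ) (v : E n → ℂ) (j : ℤ) (α : Fin n → ℤ) (ξ0 : E n) : ℂ :=
  if ∃ m : Fin n → ℤ, bj A j (zv m) = zv α then
    (starRingEnd ℂ) (v (bj A (-j) ξ0)) * v (bj A (-j) (ξ0 + zv α)) else 0

lemma tendsto_tau1 (A : GL (Fin n) ℝ) {v : E n → ℂ} (hv : Continuous v) (j : ℤ)
    (α : Fin n → ℤ) (ξ0 : E n) :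
    Tendsto (fun r => tau1 A v j (bpc r ξ0) (bpc r (ξ0 + zv α))) (𝓝[>] 0)
      (𝓝 (TT A v j α ξ0)) := by
  have h1 := tau1_eq A hv j α ξ0
  by_cases hm : ∃ m : Fin n → ℤ, bj A j (zv m) = zv α
  · have h2 : TT A v j α ξ0 = (starRingEnd ℂ) (v (bj A (-j) ξ0)) * v (bj A (-j) (ξ0 + zv α)) := by
      unfold TT
      rw [if_pos hm]
    rw [h2]
    have h3 := tendsto_bump (h := fun ξ => (starRingEnd ℂ) (v (bj A (-j) ξ)) *
      v (bj A (-j) (ξ + zv α))) ((Complex.continuous_conj.comp (hv.comp (continuous_bj A (-j)))).mul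
        (hv.comp ((continuous_bj A (-j)).comp (continuous_id.add continuous_const)))) ξ0
    refine h3.congr' ?_
    filter_upwards [h1] with r hr
    rw [(hr (bpc r ξ0) (bpc r (ξ0 + zv α)) (continuous_bpc _ _) (compact_bpc _ _)
      (continuous_bpc _ _) (compact_bpc _ _) (fun _ => bpc_eq_zero) (fun _ => bpc_eq_zero)).1 hm]
    apply integral_congr_ae
    refine ae_of_all _ fun ξ => ?_
    simp only
    rw [conj_bpc]
    have h4 : bpc r (ξ0 + zv α) (ξ + zv α) = bpc r ξ0 ξ := by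
      unfold bpc
      rw [add_sub_add_right_eq_sub]
    rw [h4]
  · have h2 : TT A v j α ξ0 = 0 := by
      unfold TT
      rw [if_neg hm]
    rw [h2]
    refine tendsto_const_nhds.congr' ?_
    filter_upwards [h1] with r hr
    rw [(hr (bpc r ξ0) (bpc r (ξ0 + zv α)) (continuous_bpc _ _) (compact_bpc _ _)
      (continuous_bpc _ _) (compact_bpc _ _) (fun _ => bpc_eq_zero) (fun _ => bpc_eq_zero)).2 hm]

lemma TT_zero (A : GL (Fin n) ℝ) (v : E n → ℂ) (j : ℤ) (ξ0 : E n) :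
    TT A v j 0 ξ0 = ((‖v (bj A (-j) ξ0)‖ ^ 2 : ℝ) : ℂ) := by
  unfold TT
  rw [if_pos ⟨0, by rw [zv_zero, bj_zero_arg]⟩, zv_zero, add_zero, mul_comm, Complex.mul_conj,
    Complex.normSq_eq_norm_sq]

lemma tendsto_II (A : GL (Fin n) ℝ) {v : E n → ℂ} (hv : Continuous v) (j : ℤ) (ξ0 : E n) :
    Tendsto (fun r => II A v j (bpc r ξ0)) (𝓝[>] 0) (𝓝 (‖v (bj A (-j) ξ0)‖ ^ 2)) := by
  have h1 := tendsto_tau1 A hv j 0 ξ0
  rw [zv_zero, add_zero, TT_zero] at h1
  simp only [tau1_self] at h1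
  have h2 := (Complex.continuous_re.tendsto _).comp h1
  exact h2

lemma int_bpc (α : Fin n → ℤ) (ξ0 : E n) :
    ∀ᶠ r in 𝓝[>] (0 : ℝ), ∫ ξ, bpc r ξ0 ξ * (starRingEnd ℂ) (bpc r (ξ0 + zv α) ξ) =
      if α = 0 then 1 else 0 := by
  by_cases hα : α = 0
  · filter_upwards [self_mem_nhdsWithin] with r hr
    rw [if_pos hα, hα, zv_zero, add_zero]
    simp only [conj_bpc]
    exact bpc_sq_int hr ξ0
  · have h0 : 0 < ‖(zv α : E n)‖ := by
      rw [norm_pos_iff]
      intro h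
      exact hα (zv_inj (h.trans zv_zero.symm))
    filter_upwards [Ioo_mem_nhdsGT (half_pos h0)] with r hr
    rw [if_neg hα]
    have h1 : ∀ ξ, bpc r ξ0 ξ * (starRingEnd ℂ) (bpc r (ξ0 + zv α) ξ) = 0 := by
      intro ξ
      by_cases h2 : r ≤ ‖ξ - ξ0‖
      · rw [bpc_eq_zero h2, zero_mul]
      · by_cases h3 : r ≤ ‖ξ - (ξ0 + zv α)‖
        · rw [bpc_eq_zero h3, map_zero, mul_zero]
        · exfalso
          have h4 : (zv α : E n) = (ξ - ξ0) - (ξ - (ξ0 + zv α)) := by abel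
          have h5 := norm_sub_le (ξ - ξ0) (ξ - (ξ0 + zv α))
          rw [← h4] at h5
          linarith [hr.2]
    simp only [h1]
    exact integral_zero _ _

lemma norm_bj_neg_le {A : GL (Fin n) ℝ} {K ρ : ℝ} (hρ : 1 < ρ)
    (hg : ∀ (j : ℕ) (x : E n), ρ ^ j * ‖x‖ ≤ K * ‖bj A j x‖) (j : ℕ) (ξ : E n) :
    ‖bj A (-(j : ℤ)) ξ‖ ≤ K * ‖ξ‖ * (ρ⁻¹) ^ j := by
  have h1 := hg j (bj A (-(j : ℤ)) ξ)
  rw [bj_bj_neg] at h1
  have h2 : 0 < ρ ^ j := by positivity
  rw [inv_pow, ← div_eq_mul_inv, le_div_iff₀ h2, mul_comm]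
  exact h1

section

variable {A : GL (Fin n) ℝ} {L : ℕ} {v : Fin L → E n → ℂ} {N ε C : ℝ}

lemma sum_sq_le (hb : IsFreqBasis A v) (hc : ∀ l, Continuous (v l)) (J : Finset ℤ) (ξ0 : E n) :
    ∑ j ∈ J, ∑ l, ‖v l (bj A (-j) ξ0)‖ ^ 2 ≤ 1 := by
  have h1 : Tendsto (fun r => ∑ j ∈ J, ∑ l, II A (v l) j (bpc r ξ0)) (𝓝[>] 0)
      (𝓝 (∑ j ∈ J, ∑ l, ‖v l (bj A (-j) ξ0)‖ ^ 2)) :=
    tendsto_finsetSum _ fun j _ => tendsto_finsetSum _ fun l _ => tendsto_II A (hc l) j ξ0
  refine le_of_tendsto h1 ?_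
  filter_upwards [self_mem_nhdsWithin] with r hr
  have h2 := hasSum_tau A hb hc (continuous_bpc r ξ0) (compact_bpc r ξ0) (continuous_bpc r ξ0)
    (compact_bpc r ξ0)
  simp only [conj_bpc, bpc_sq_int hr ξ0, tau1_self, ← Complex.ofReal_sum] at h2
  have h3 : HasSum (fun j : ℤ => ∑ l, II A (v l) j (bpc r ξ0)) 1 := by
    have := Complex.hasSum_re h2
    simpa using this
  exact sum_le_hasSum J (fun j _ => Finset.sum_nonneg fun l _ => II_nonneg _ _ _ _) h3

lemma v_zero (hn : 0 < n) (hA : IsExpansive (A : Matrix (Fin n) (Fin n) ℝ))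
    (hb : IsFreqBasis A v) (hc : ∀ l, Continuous (v l)) (l : Fin L) : v l 0 = 0 := by
  obtain ⟨K, ρ, hρ, hK, hg⟩ := exists_growth hn A hA
  let ξ0 : E n := EuclideanSpace.single ⟨0, hn⟩ 1
  have h1 : Summable (fun j : ℕ => ‖v l (bj A (-(j : ℤ)) ξ0)‖ ^ 2) := by
    apply summable_of_sum_le (c := 1) (fun j => sq_nonneg _)
    intro u
    have h2 := sum_sq_le hb hc (u.map ⟨((↑) : ℕ → ℤ), Nat.cast_injective⟩) ξ0
    rw [Finset.sum_map] at h2
    refine le_trans (Finset.sum_le_sum fun j _ => ?_) h2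
    exact Finset.single_le_sum (f := fun l => ‖v l (bj A (-(j : ℤ)) ξ0)‖ ^ 2)
      (fun l _ => sq_nonneg _) (Finset.mem_univ l)
  have h2 := h1.tendsto_atTop_zero
  have h3 : Tendsto (fun j : ℕ => bj A (-(j : ℤ)) ξ0) atTop (𝓝 0) := by
    rw [tendsto_zero_iff_norm_tendsto_zero]
    have h4 : Tendsto (fun j : ℕ => K * ‖ξ0‖ * (ρ⁻¹) ^ j) atTop (𝓝 0) := by
      have := (tendsto_pow_atTop_nhds_zero_of_lt_one (r := ρ⁻¹) (by positivity)
        (inv_lt_one_of_one_lt₀ hρ)).const_mul (K * ‖ξ0‖)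
      rwa [mul_zero] at this
    exact squeeze_zero (fun _ => norm_nonneg _) (fun j => norm_bj_neg_le hρ hg j ξ0) h4
  have h4 : Tendsto (fun j : ℕ => ‖v l (bj A (-(j : ℤ)) ξ0)‖ ^ 2) atTop (𝓝 (‖v l 0‖ ^ 2)) :=
    ((((hc l).tendsto 0).comp h3).norm).pow 2
  have h5 := tendsto_nhds_unique h2 h4
  exact norm_eq_zero.1 (pow_eq_zero_iff two_ne_zero |>.1 h5.symm)

/-- uniform bounds on the levels -/
lemma exists_level_bound (hn : 0 < n) (hA : IsExpansive (A : Matrix (Fin n) (Fin n) ℝ))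
    (hN : 0 < N) (hε : 0 < ε) (hC : 0 ≤ C) (hr : ∀ l, Reg N ε C (v l)) (h0 : ∀ l, v l 0 = 0)
    {a b : ℝ} (ha : 0 < a) (hb : 0 ≤ b) :
    ∃ s : ℤ → ℝ, Summable s ∧ (∀ j, 0 ≤ s j) ∧ ∀ (l : Fin L) (j : ℤ) (ξ : E n), a ≤ ‖ξ‖ →
      ‖ξ‖ ≤ b → ‖v l (bj A (-j) ξ)‖ ≤ s j := by
  obtain ⟨K, ρ, hρ, hK, hg⟩ := exists_growth hn A hA
  have hρ0 : 0 < ρ := by linarith
  have hK0 : 0 < K := by linarith
  refine ⟨fun j => C * (K * b) ^ ε * (ρ ^ (-ε)) ^ j.natAbs +
    C * (a / K) ^ (-N) * (ρ ^ (-N)) ^ j.natAbs, ?_, fun j => by positivity, ?_⟩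
  · have hgeo : ∀ (c θ : ℝ), 0 ≤ θ → θ < 1 → Summable (fun j : ℤ => c * θ ^ j.natAbs) := by
      intro c θ h1 h2
      apply Summable.mul_left
      apply Summable.of_nat_of_neg
      · simpa using summable_geometric_of_lt_one h1 h2
      · simpa using summable_geometric_of_lt_one h1 h2
    apply Summable.add
    · exact hgeo _ _ (by positivity) (Real.rpow_lt_one_of_one_lt_of_neg hρ (by linarith))
    · exact hgeo _ _ (by positivity) (Real.rpow_lt_one_of_one_lt_of_neg hρ (by linarith))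
  · intro l j ξ h1 h2
    obtain ⟨i, rfl | rfl⟩ := j.eq_nat_or_neg
    · -- near the origin
      beta_reduce
      rw [Int.natAbs_natCast]
      have h3 := norm_bj_neg_le hρ hg i ξ
      have h4 := (hr l).hol (bj A (-(i : ℤ)) ξ)
      rw [h0 l, sub_zero] at h4
      refine le_trans h4 ?_
      have h5 : ‖bj A (-(i : ℤ)) ξ‖ ≤ K * b * (ρ⁻¹) ^ i :=
        h3.trans (mul_le_mul_of_nonneg_right (mul_le_mul_of_nonneg_left h2 hK0.le) (by positivity))
      have h6 : ‖bj A (-(i : ℤ)) ξ‖ ^ ε ≤ (K * b) ^ ε * (ρ ^ (-ε)) ^ i := by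
        refine (Real.rpow_le_rpow (norm_nonneg _) h5 hε.le).trans (le_of_eq ?_)
        rw [Real.mul_rpow (by positivity) (by positivity)]
        congr 1
        rw [← Real.rpow_natCast, ← Real.rpow_natCast, ← Real.rpow_mul (by positivity),
          ← Real.rpow_mul (by positivity), Real.inv_rpow hρ0.le, ← Real.rpow_neg hρ0.le]
        congr 1
        ring
      have h7 : C * ‖bj A (-(i : ℤ)) ξ‖ ^ ε ≤ C * (K * b) ^ ε * (ρ ^ (-ε)) ^ i := by
        rw [mul_assoc]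
        exact mul_le_mul_of_nonneg_left h6 hC
      have h8 : 0 ≤ C * (a / K) ^ (-N) * (ρ ^ (-N)) ^ i := by positivity
      linarith
    · -- near infinity
      beta_reduce
      rw [Int.natAbs_neg, Int.natAbs_natCast, neg_neg]
      have h3 := hg i ξ
      have h4 : ρ ^ i * (a / K) ≤ ‖bj A (i : ℤ) ξ‖ := by
        rw [mul_div_assoc', div_le_iff₀ hK0]
        calc ρ ^ i * a ≤ ρ ^ i * ‖ξ‖ := mul_le_mul_of_nonneg_left h1 (by positivity)
          _ ≤ K * ‖bj A (i : ℤ) ξ‖ := h3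
          _ = _ := mul_comm _ _
      have h5 : (1 + ‖bj A (i : ℤ) ξ‖) ^ (-N) ≤ (a / K) ^ (-N) * (ρ ^ (-N)) ^ i := by
        have h6 : (1 + ‖bj A (i : ℤ) ξ‖) ^ (-N) ≤ (ρ ^ i * (a / K)) ^ (-N) := by
          apply Real.rpow_le_rpow_of_nonpos (by positivity) (by linarith) (by linarith)
        refine h6.trans (le_of_eq ?_)
        rw [Real.mul_rpow (by positivity) (by positivity), mul_comm]
        congr 1
        rw [← Real.rpow_natCast, ← Real.rpow_natCast, ← Real.rpow_mul (by positivity),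
          ← Real.rpow_mul (by positivity)]
        congr 1
        ring
      have h7 : ‖v l (bj A (i : ℤ) ξ)‖ ≤ C * (a / K) ^ (-N) * (ρ ^ (-N)) ^ i := by
        refine ((hr l).dec _).trans ?_
        rw [mul_assoc]
        exact mul_le_mul_of_nonneg_left h5 hC
      have h8 : 0 ≤ C * (K * b) ^ ε * (ρ ^ (-ε)) ^ i := by positivity
      linarith

/-- **The completeness equations.** -/
theorem hasSum_TT (hn : 0 < n) (hA : IsExpansive (A : Matrix (Fin n) (Fin n) ℝ))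
    (hb : IsFreqBasis A v) (hN : (n : ℝ) < N) (hε : 0 < ε) (hC : 0 ≤ C)
    (hr : ∀ l, Reg N ε C (v l)) (α : Fin n → ℤ) (ξ0 : E n) (h1 : ξ0 ≠ 0) (h2 : ξ0 + zv α ≠ 0) :
    HasSum (fun j : ℤ => ∑ l, TT A (v l) j α ξ0) (if α = 0 then 1 else 0) := by
  have hN0 : 0 < N := lt_of_le_of_lt (Nat.cast_nonneg n) hN
  have hc : ∀ l, Continuous (v l) := fun l => (hr l).cont
  have hv0 := v_zero hn hA hb hc
  obtain ⟨C1, hC10, hC1⟩ := exists_lattice_bound (n := n) hN
  have hp1 : 0 < ‖ξ0‖ := norm_pos_iff.2 h1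
  have hp2 : 0 < ‖ξ0 + zv α‖ := norm_pos_iff.2 h2
  set a : ℝ := min ‖ξ0‖ ‖ξ0 + zv α‖ / 2 with ha
  set b : ℝ := max ‖ξ0‖ ‖ξ0 + zv α‖ + 1 with hb'
  have ha0 : 0 < a := by have := lt_min hp1 hp2; positivity
  have hb0 : 0 ≤ b := by positivity
  obtain ⟨s, hs, hs0, hsb⟩ := exists_level_bound hn hA hN0 hε hC hr hv0 ha0 hb0
  have hann : ∀ (r : ℝ) (x : E n), r < a → r < 1 → (x = ξ0 ∨ x = ξ0 + zv α) → ∀ ξ,
      ‖ξ - x‖ < r → a ≤ ‖ξ‖ ∧ ‖ξ‖ ≤ b := by
    intro r x hra hr1 hx ξ hξ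
    have h3 : 2 * a ≤ ‖x‖ ∧ ‖x‖ + 1 ≤ b := by
      rcases hx with rfl | rfl
      · constructor
        · rw [ha]; linarith [min_le_left ‖x‖ ‖x + zv α‖]
        · rw [hb']; linarith [le_max_left ‖x‖ ‖x + zv α‖]
      · constructor
        · rw [ha]; linarith [min_le_right ‖ξ0‖ ‖ξ0 + zv α‖]
        · rw [hb']; linarith [le_max_right ‖ξ0‖ ‖ξ0 + zv α‖]
    constructor
    · have h4 : ‖x‖ ≤ ‖x - ξ‖ + ‖ξ‖ := norm_le_norm_sub_add _ _
      rw [norm_sub_rev] at h4
      linarith [h3.1]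
    · have h4 : ‖ξ‖ ≤ ‖ξ - x‖ + ‖x‖ := norm_le_norm_sub_add _ _
      linarith [h3.2]
  have hII : ∀ (r : ℝ) (x : E n), 0 < r → r < a → r < 1 → (x = ξ0 ∨ x = ξ0 + zv α) →
      ∀ l j, II A (v l) j (bpc r x) ≤ C * C1 * s j := by
    intro r x hr0 hra hr1 hx l j
    have h3 := II_le A (hc l) hC (hs0 j) (hr l).dec hC1 j (continuous_bpc r x)
      (compact_bpc r x) (by
        intro ξ hξ
        have h4 : ‖ξ - x‖ < r := by
          by_contra hcon
          exact hξ (bpc_eq_zero (not_lt.1 hcon))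
        obtain ⟨h5, h6⟩ := hann r x hra hr1 hx ξ h4
        exact hsb l j ξ h5 h6)
    rwa [bpc_int_sq hr0, mul_one] at h3
  have hbd : ∀ᶠ r in 𝓝[>] (0 : ℝ), ∀ j : ℤ,
      ‖∑ l, tau1 A (v l) j (bpc r ξ0) (bpc r (ξ0 + zv α))‖ ≤ L * (C * C1 * s j) := by
    filter_upwards [Ioo_mem_nhdsGT (lt_min ha0 one_pos)] with r hr' j
    have hra : r < a := hr'.2.trans_le (min_le_left _ _)
    have hr1 : r < 1 := hr'.2.trans_le (min_le_right _ _)
    refine (norm_sum_le _ _).trans ?_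
    calc ∑ l, ‖tau1 A (v l) j (bpc r ξ0) (bpc r (ξ0 + zv α))‖ ≤ ∑ _l : Fin L, C * C1 * s j := by
          apply Finset.sum_le_sum
          intro l _
          refine (norm_tau1_le A (hc l) j (continuous_bpc _ _) (compact_bpc _ _)
            (continuous_bpc _ _) (compact_bpc _ _)).trans ?_
          have h3 := hII r ξ0 hr'.1 hra hr1 (Or.inl rfl) l j
          have h4 := hII r (ξ0 + zv α) hr'.1 hra hr1 (Or.inr rfl) l j
          linarith
      _ = L * (C * C1 * s j) := by simp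
  have hlim : ∀ j : ℤ, Tendsto (fun r => ∑ l, tau1 A (v l) j (bpc r ξ0) (bpc r (ξ0 + zv α)))
      (𝓝[>] 0) (𝓝 (∑ l, TT A (v l) j α ξ0)) := fun j =>
    tendsto_finsetSum _ fun l _ => tendsto_tau1 A (hc l) j α ξ0
  have hsum : Summable (fun j : ℤ => (L : ℝ) * (C * C1 * s j)) := (hs.mul_left _).mul_left _
  have h3 := tendsto_tsum_of_dominated_convergence hsum hlim hbd
  have h4 : ∀ᶠ r in 𝓝[>] (0 : ℝ),
      ∑' j : ℤ, ∑ l, tau1 A (v l) j (bpc r ξ0) (bpc r (ξ0 + zv α)) = if α = 0 then 1 else 0 := by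
    filter_upwards [int_bpc α ξ0] with r hr'
    rw [← hr']
    exact (hasSum_tau A hb hc (continuous_bpc _ _) (compact_bpc _ _) (continuous_bpc _ _)
      (compact_bpc _ _)).tsum_eq
  have h5 : ∑' j : ℤ, ∑ l, TT A (v l) j α ξ0 = if α = 0 then 1 else 0 :=
    tendsto_nhds_unique h3 (tendsto_const_nhds.congr' (h4.mono fun r hr' => hr'.symm))
  rw [← h5]
  apply Summable.hasSum
  apply Summable.of_norm_bounded hsum
  intro j
  exact le_of_tendsto (hlim j).norm (hbd.mono fun r hr' => hr' j)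

end

end Run7.h408
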